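import Pool.Agent.Helper12.Defs2

/-!
Packet 12 of helper12's plan for MP_ecbc8a_al: `Bound` from `ThmF` and `Red10`.
-/

set_option autoImplicit false

open scoped commutatorElement Pointwise

namespace Pool.Agent.Helper12.TwoLen

theorem is2_of_map_injective {G G' : Type*} [Group G] [Group G'] (f : G →* G')
    (hf : Function.Injective f) {H : Subgroup G} (h : Is2 (H.map f)) : Is2 H := by
  intro x hx
  obtain ⟨k, hk⟩ := h (f x) ⟨x, hx, rfl⟩
  exact ⟨k, hf (by rw [map_pow, map_one]; exact hk)⟩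

theorem isSolvable_map_of_injective {G G' : Type*} [Group G] [Group G'] (f : G →* G')
    (hf : Function.Injective f) (H : Subgroup G) [Group.IsSolvable H] :
    Group.IsSolvable (H.map f) :=
  Group.isSolvable_of_isSolvable_injective
    (f := (H.equivMapOfInjective f hf).symm.toMonoidHom)
    (H.equivMapOfInjective f hf).symm.injective

/-- The bound for a solvable subgroup containing `A`. -/
theorem bound_solvable {l f : ℕ} (hf : PAct l f) {X : Type} [Group X] [Finite X]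
    {A X₁ : Subgroup X} (hA : Is2 A) (hcard : Nat.card A ≤ 2 ^ l)
    (huniq : ∀ P Q : Subgroup X, Is2 P → Is2 Q → A ≤ P → A ≤ Q → Is2 (P ⊔ Q))
    [Group.IsSolvable X₁] (hAX : A ≤ X₁) : rho^[f] X₁ = ⊥ := by
  have hN : Nrm A X₁ := Nrm.of_le hAX
  have h2B : Is2 (cj hN).range := by
    rintro _ ⟨a, rfl⟩
    obtain ⟨k, hk⟩ := hA a a.2
    refine E2.map ?_ _
    exact ⟨k, by ext; simpa using hk⟩
  have hcB : Nat.card (cj hN).range ≤ 2 ^ l :=
    (Nat.card_le_card_of_surjective (cj hN).rangeRestrict (cj hN).rangeRestrict_surjective).trans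
      hcard
  have hnrm : ∀ P : Subgroup X₁, (∀ β ∈ (cj hN).range, ∀ x ∈ P, β x ∈ P) →
      Nrm A (P.map X₁.subtype) := by
    rintro P hP a ha _ ⟨x, hx, rfl⟩
    exact ⟨cj hN ⟨a, ha⟩ x, hP _ ⟨⟨a, ha⟩, rfl⟩ x hx, rfl⟩
  have key := hf X₁ (cj hN).range h2B hcB (by
    intro P Q hP hQ hBP hBQ
    have h1 : Is2 (P.map X₁.subtype ⊔ A) := (hP.map _).sup_of_nrm hA (hnrm P hBP)
    have h2 : Is2 (Q.map X₁.subtype ⊔ A) := (hQ.map _).sup_of_nrm hA (hnrm Q hBQ)
    have h3 := huniq _ _ h1 h2 le_sup_right le_sup_right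
    have h4 : (P ⊔ Q).map X₁.subtype ≤ (P.map X₁.subtype ⊔ A) ⊔ (Q.map X₁.subtype ⊔ A) := by
      rw [Subgroup.map_sup]
      exact sup_le_sup le_sup_left le_sup_left
    exact is2_of_map_injective X₁.subtype (Subgroup.subtype_injective X₁) (h3.mono h4))
  rw [rhoIter_coe, key, Subgroup.map_bot]

theorem bound (hF : ThmF) (h10 : Red10) : Bound := by
  intro l
  obtain ⟨f, hf⟩ := hF l
  refine ⟨f, ?_⟩
  intro X _ _ hm A hA hcard huniq
  by_contra hne
  obtain ⟨X₀, hsol, hodd, hX0⟩ := h10 X hm f hne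
  have : Fact (Nat.Prime 2) := ⟨Nat.prime_two⟩
  obtain ⟨P⟩ := (inferInstance : Nonempty (Sylow 2 X₀))
  obtain ⟨S, hS⟩ := (is2_iff_isPGroup.1 hA).exists_le_sylow
  have hPp : IsPGroup 2 ((P : Subgroup X₀).map X₀.subtype) := P.isPGroup'.map _
  have hPi : ¬ 2 ∣ ((P : Subgroup X₀).map X₀.subtype).index := by
    rw [Subgroup.index_map_subtype]
    intro h
    rcases (Nat.Prime.dvd_mul Nat.prime_two).1 h with h | h
    · exact P.not_dvd_index h
    · exact (Nat.not_even_iff_odd.2 hodd) (even_iff_two_dvd.2 h)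
  obtain ⟨g, hg⟩ := MulAction.exists_smul_eq X S (hPp.toSylow hPi)
  have hconj : ∀ x ∈ A, g * x * g⁻¹ ∈ X₀ := by
    intro x hx
    have h1 : x ∈ (S : Subgroup X) := hS hx
    have h2 : g * x * g⁻¹ ∈ ((g • S : Sylow 2 X) : Subgroup X) := by
      rw [Sylow.coe_subgroup_smul, Subgroup.mem_pointwise_smul_iff_inv_smul_mem]
      simpa [mul_assoc] using h1
    rw [hg] at h2
    have h3 : g * x * g⁻¹ ∈ (P : Subgroup X₀).map X₀.subtype := h2
    exact Subgroup.map_subtype_le _ h3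
  set c : X →* X := (MulAut.conj g⁻¹).toMonoidHom with hc
  have hci : Function.Injective c := (MulAut.conj g⁻¹).injective
  have hsol1 : Group.IsSolvable (X₀.map c) := isSolvable_map_of_injective c hci X₀
  have hAX : A ≤ X₀.map c := by
    intro x hx
    exact ⟨g * x * g⁻¹, hconj x hx, by simp [hc, mul_assoc]⟩
  have h1 := bound_solvable hf hA hcard huniq hAX
  have h2 : rho^[f] (tau (X₀.map c)) = ⊥ := by
    rw [eq_bot_iff, ← h1]
    exact rhoIter_mono f (tau_le _)
  rw [← map_tau_of_injective c hci, ← map_rhoIter_of_injective c hci,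
    Subgroup.map_eq_bot_iff_of_injective _ hci] at h2
  exact hX0 h2

end Pool.Agent.Helper12.TwoLen
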