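import Pool.Agent.Helper16.ThmF2

/-!
Packet 11 of helper12's plan for MP_ecbc8a_al: Theorem F from Theorem B'.
-/

set_option autoImplicit false

open scoped commutatorElement Pointwise

namespace Pool.Agent.Helper12.TwoLen

theorem odd_card_of_EO {V : Type*} [Group V] [Finite V] (h : ∀ v : V, EO v) :
    Odd (Nat.card V) := by
  by_contra hne
  rw [Nat.not_odd_iff_even, even_iff_two_dvd] at hne
  have : Fact (Nat.Prime 2) := ⟨Nat.prime_two⟩
  obtain ⟨v, hv⟩ := exists_prime_orderOf_dvd_card' 2 hne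
  have h2 : E2 v := ⟨1, by rw [pow_one, ← hv]; exact pow_orderOf_eq_one v⟩
  rw [eq_one_of_E2_EO h2 (h v), orderOf_one] at hv
  omega

/-- The section `Q / D` acted on by the whole group; it yields the contradiction. -/
theorem sec_contra {l f0 m1 : ℕ} (hm1 : ∀ (V : Type) [CommGroup V] [Finite V]
    (N A : Subgroup (MulAut V)) [Group.IsSolvable N], Odd (Nat.card V) → Is2 A →
    Nat.card A ≤ 2 ^ (l + 1) → Nrm A N → Good A N →
    (∀ U : Subgroup V, (∀ g ∈ N ⊔ A, ∀ u ∈ U, g u ∈ U) → U = ⊥ ∨ U = ⊤) →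
    (∀ v : V, (∀ a ∈ A, a v = v) → v = 1) →
    ∀ i : ℕ, m1 < i → Is2 (rho^[i] N) → rho^[i] N = ⊥)
    {G : Type} [Group G] [Finite G] {A N Q D : Subgroup G} [Group.IsSolvable N]
    (hA : Is2 A) (hcard : Nat.card A ≤ 2 ^ (l + 1)) (hAN : Nrm A N) (hg : Good A N)
    (hNA : N ⊔ A = ⊤) {i : ℕ} (hi : m1 < i)
    (hQR : Q ≤ rho^[i] N) (hDQ : D < Q) (hD : Nrm ⊤ D) (hQ : Nrm ⊤ Q) (hab : ⁅Q, Q⁆ ≤ D)
    (hodd : ∀ x ∈ Q, ∃ m : ℕ, Odd m ∧ x ^ m ∈ D) (h2 : Is2M Q (rho^[i] N))
    (htau : tau (rho^[i] N) = rho^[i] N)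
    (hirr : ∀ U : Subgroup G, D ≤ U → U ≤ Q → Nrm ⊤ U → U = D ∨ U = Q) : False := by
  have hQD : Nrm Q D := hD.mono le_top
  have hn : (D.subgroupOf Q).Normal := subgroupOf_normal hQD
  let cg : CommGroup (Q ⧸ D.subgroupOf Q) :=
    { (inferInstance : Group (Q ⧸ D.subgroupOf Q)) with
      mul_comm := by
        intro a b
        induction a using QuotientGroup.induction_on with
        | H a =>
          induction b using QuotientGroup.induction_on with
          | H b =>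
            change ((a * b : Q) : Q ⧸ D.subgroupOf Q) = ((b * a : Q) : Q ⧸ D.subgroupOf Q)
            rw [QuotientGroup.eq_iff_div_mem, Subgroup.mem_subgroupOf]
            have : ⁅(a : G), (b : G)⁆ ∈ D := hab (Subgroup.commutator_mem_commutator a.2 b.2)
            rw [commutatorElement_def] at this
            simpa [div_eq_mul_inv, mul_assoc] using this }
  set q : Q →* Q ⧸ D.subgroupOf Q := QuotientGroup.mk' (D.subgroupOf Q) with hq
  have hsurj : Function.Surjective q := QuotientGroup.mk'_surjective _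
  have hDker : ∀ (x : Q), q x = 1 ↔ (x : G) ∈ D := by
    intro x
    rw [hq, QuotientGroup.mk'_apply, QuotientGroup.eq_one_iff, Subgroup.mem_subgroupOf]
  let ψ : G →* MulAut (Q ⧸ D.subgroupOf Q) :=
    (secHom (A := ⊤) hQ hD).comp (Subgroup.topEquiv (G := G)).symm.toMonoidHom
  have hψ : ∀ (g : G) (x : Q), ψ g (q x) = q ⟨g * x * g⁻¹, hQ g trivial x x.2⟩ := by
    intro g x
    exact secHom_mk hQ hD ⟨g, trivial⟩ x
  have hψ1 : ∀ (g : G) (x : Q), ψ g (q x) = q x ↔ g * x * g⁻¹ * (x : G)⁻¹ ∈ D := by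
    intro g x
    rw [hψ, ← mul_inv_eq_one, ← map_inv, ← map_mul, hDker]
    rfl
  have hNle : Nrm ⊤ N := by
    rw [← hNA]
    exact (Nrm.self N).sup_left hAN
  have hsolN : Group.IsSolvable (N.map ψ) := by
    have : Function.Surjective (ψ.subgroupMap N) := ψ.subgroupMap_surjective N
    exact Group.isSolvable_of_surjective this
  have hmap : (rho^[i] N).map ψ = rho^[i] (N.map ψ) := map_rhoIter Tor.of_finite ψ i N
  have htriv : ∀ x ∈ Q, ψ x = 1 := by
    intro x hx
    ext y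
    obtain ⟨y, rfl⟩ := hsurj y
    rw [MulAut.one_apply, hψ1]
    exact hab (Subgroup.commutator_mem_commutator hx y.2)
  have hR2 : Is2 (rho^[i] (N.map ψ)) := by
    rw [← hmap]
    rintro _ ⟨x, hx, rfl⟩
    obtain ⟨k, hk⟩ := h2 x hx
    exact ⟨k, by rw [← map_pow]; exact htriv _ hk⟩
  have key := @hm1 (Q ⧸ D.subgroupOf Q) cg inferInstance (N.map ψ) (A.map ψ) hsolN ?_ (hA.map ψ)
    ?_ (hAN.map ψ) (hg.map hA hAN ψ) ?_ ?_ i hi hR2
  · -- conclusion: `R` acts trivially
    apply hDQ.not_ge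
    intro v hv
    refine central_transfer_sec hQR hDQ.le (hD.mono le_top) (hQ.mono le_top) hab hodd h2 htau hv ?_
    intro x hx
    have h3 : ψ x = 1 := by
      have : ψ x ∈ (rho^[i] N).map ψ := ⟨x, hx, rfl⟩
      rw [hmap, key] at this
      exact this
    rw [← hψ1 x ⟨v, hv⟩, h3]
    rfl
  · -- odd
    apply odd_card_of_EO
    intro y
    obtain ⟨y, rfl⟩ := hsurj y
    obtain ⟨m, hm, hy⟩ := hodd y y.2
    refine ⟨m, hm, ?_⟩
    rw [← map_pow, hDker]
    simpa using hy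
  · -- card
    exact (Nat.card_le_card_of_surjective (ψ.subgroupMap A) (ψ.subgroupMap_surjective A)).trans
      hcard
  · -- irreducible
    intro U hU
    have hU' : ∀ g : G, ∀ u ∈ U, ψ g u ∈ U := by
      intro g u hu
      refine hU _ ?_ u hu
      rw [← Subgroup.map_sup, hNA]
      exact ⟨g, trivial, rfl⟩
    have hle : D ≤ (U.comap q).map Q.subtype := by
      intro x hx
      exact ⟨⟨x, hDQ.le hx⟩, by
        change q _ ∈ U
        rw [(hDker ⟨x, hDQ.le hx⟩).2 hx]; exact U.one_mem, rfl⟩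
    have hnrm : Nrm ⊤ ((U.comap q).map Q.subtype) := by
      rintro a - _ ⟨y, hy, rfl⟩
      refine ⟨⟨a * y * a⁻¹, hQ a trivial y y.2⟩, ?_, rfl⟩
      change q _ ∈ U
      have := hU' a _ hy
      rw [hψ] at this
      exact this
    rcases hirr _ hle (Subgroup.map_subtype_le _) hnrm with h | h
    · left
      rw [eq_bot_iff]
      intro u hu
      obtain ⟨z, rfl⟩ := hsurj u
      have : (z : G) ∈ (U.comap q).map Q.subtype := ⟨z, hu, rfl⟩
      rw [h] at this
      exact (hDker z).2 this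
    · right
      rw [eq_top_iff]
      intro u _
      obtain ⟨z, rfl⟩ := hsurj u
      have : (z : G) ∈ (U.comap q).map Q.subtype := by rw [h]; exact z.2
      obtain ⟨z', hz', e⟩ := this
      have : z' = z := Subtype.ext e
      rw [← this]
      exact hz'
  · -- no fixed points
    intro y hy
    obtain ⟨v, rfl⟩ := hsurj y
    rw [hDker]
    refine fixed_sec hA (hAN.rhoIter i) (hg.mono (rhoIter_le i N)) hQR hDQ.le hD hQ hab hodd h2
      htau v.2 ?_
    intro a ha
    rw [← hψ1]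
    exact hy _ ⟨a, ha, rfl⟩

/-- Theorem F, internal form. -/
theorem thmF_internal {l f0 m1 : ℕ} (hm1 : ∀ (V : Type) [CommGroup V] [Finite V]
    (N A : Subgroup (MulAut V)) [Group.IsSolvable N], Odd (Nat.card V) → Is2 A →
    Nat.card A ≤ 2 ^ (l + 1) → Nrm A N → Good A N →
    (∀ U : Subgroup V, (∀ g ∈ N ⊔ A, ∀ u ∈ U, g u ∈ U) → U = ⊥ ∨ U = ⊤) →
    (∀ v : V, (∀ a ∈ A, a v = v) → v = 1) →
    ∀ i : ℕ, m1 < i → Is2 (rho^[i] N) → rho^[i] N = ⊥)
    {G : Type} [Group G] [Finite G] {A N : Subgroup G} [Group.IsSolvable N]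
    (hA : Is2 A) (hcard : Nat.card A ≤ 2 ^ (l + 1)) (hAN : Nrm A N) (hg : Good A N)
    (hNA : N ⊔ A = ⊤) : rho^[m1 + 2] N = ⊥ := by
  by_contra hne
  have hNle : Nrm ⊤ N := by
    rw [← hNA]
    exact (Nrm.self N).sup_left hAN
  have hsolsub : ∀ H : Subgroup G, H ≤ N → Group.IsSolvable H := fun H hH =>
    Group.isSolvable_of_isSolvable_injective (Subgroup.inclusion_injective hH)
  set R : Subgroup G := rho^[m1 + 1] N with hR
  have hR1 : rho^[m1 + 2] N = rho R := by
    rw [hR]; exact Function.iterate_succ_apply' rho (m1 + 1) N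
  have hRN : R ≤ N := rhoIter_le _ _
  have htau : tau R = R := by
    rw [hR, Function.iterate_succ_apply', tau_rho]
  set Q : Subgroup G := opi R with hQdef
  have hQR : Q ≤ R := opi_le R
  have hRtop : Nrm ⊤ R := hNle.rhoIter _
  have hQ : Nrm ⊤ Q := hRtop.opi
  have hTQ : tau Q ≠ Q := by
    intro e
    have h1 : rho (rho R) = rho R := by
      have h2 : rho R = tau Q := rfl
      rw [h2, e, rho, hQdef, opi_idem, ← hQdef, e]
    have hs : Group.IsSolvable (rho R) := hsolsub _ ((rho_le R).trans hRN)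
    exact (rho_lt_of_solvable (H := rho R) (by rw [← hR1]; exact hne)).ne h1
  have hsQ : Group.IsSolvable Q := hsolsub _ (hQR.trans hRN)
  have hne2 := sup_commutator_ne (tau_le Q) ((Nrm.self Q).tau) hTQ
  have hcQ : ⁅Q, Q⁆ ≤ Q := by
    rw [Subgroup.commutator_le]
    intro a ha b hb
    exact Q.mul_mem (Q.mul_mem (Q.mul_mem ha hb) (Q.inv_mem ha)) (Q.inv_mem hb)
  obtain ⟨D, ⟨hD1, hD2, hD3⟩, hDmax⟩ := exists_max
    (fun U : Subgroup G => tau Q ⊔ ⁅Q, Q⁆ ≤ U ∧ U < Q ∧ Nrm ⊤ U)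
    ⟨tau Q ⊔ ⁅Q, Q⁆, le_rfl, lt_of_le_of_ne (sup_le (tau_le Q) hcQ) hne2,
      hQ.tau.sup_right (hQ.commutator hQ)⟩
  refine sec_contra (f0 := f0) hm1 hA hcard hAN hg hNA (i := m1 + 1) (Nat.lt_succ_self m1) hQR hD2
    hD3 hQ (le_sup_right.trans hD1) ?_ ?_ htau ?_
  · intro x hx
    obtain ⟨m, hm, hx'⟩ := exists_pow_mem_tau (H := Q) Tor.of_finite hx
    exact ⟨m, hm, hD1 (Subgroup.mem_sup_left hx')⟩
  · intro x hx
    exact exists_pow_mem_opi Tor.of_finite hx
  · intro U hU1 hU2 hU3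
    by_cases hUQ : U = Q
    · exact Or.inr hUQ
    · left
      exact hDmax U ⟨hD1.trans hU1, lt_of_le_of_ne hU2 hUQ, hU3⟩ hU1

theorem pact_zero : PAct 0 2 := by
  intro M _ _ _ B hB hcard hg
  have hB1 : B = ⊥ := by
    have h1 : Nat.card B = 1 := le_antisymm (by simpa using hcard) (Nat.card_pos)
    exact Subgroup.card_eq_one.1 h1
  have : Fact (Nat.Prime 2) := ⟨Nat.prime_two⟩
  have hg' : ∀ P Q : Subgroup M, Is2 P → Is2 Q → Is2 (P ⊔ Q) := by
    intro P Q hP hQ
    refine hg P Q hP hQ ?_ ?_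
    · intro β hβ x hx
      rw [hB1, Subgroup.mem_bot] at hβ
      rw [hβ]; exact hx
    · intro β hβ x hx
      rw [hB1, Subgroup.mem_bot] at hβ
      rw [hβ]; exact hx
  obtain ⟨P⟩ := (inferInstance : Nonempty (Sylow 2 M))
  have hP2 : Is2 (P : Subgroup M) := is2_iff_isPGroup.2 P.isPGroup'
  have hle : tau (⊤ : Subgroup M) ≤ P := by
    rw [tau, Subgroup.closure_le]
    rintro x ⟨-, k, hk⟩
    have hx : Is2 (Subgroup.zpowers x) := by
      rintro y ⟨n, rfl⟩
      refine ⟨k, ?_⟩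
      change (x ^ n) ^ (2 ^ k : ℕ) = 1
      rw [← zpow_natCast, ← zpow_mul, mul_comm, zpow_mul, zpow_natCast, hk, one_zpow]
    have h1 := hg' _ _ hP2 hx
    have h2 : (P : Subgroup M) ⊔ Subgroup.zpowers x = P :=
      P.is_maximal' (is2_iff_isPGroup.1 h1) le_sup_left
    have h3 : x ∈ (P : Subgroup M) ⊔ Subgroup.zpowers x :=
      Subgroup.mem_sup_right (Subgroup.mem_zpowers x)
    rw [h2] at h3
    exact h3
  have h2 : Is2 (rho (⊤ : Subgroup M)) := (hP2.mono hle).mono (tau_mono (opi_le _))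
  change rho (rho (⊤ : Subgroup M)) = ⊥
  exact rho_eq_bot_of_Is2 h2

theorem thmF (hB : ThmB) : ThmF := by
  intro l
  induction l with
  | zero => exact ⟨2, pact_zero⟩
  | succ l ih =>
    obtain ⟨f0, hf0⟩ := ih
    obtain ⟨m1, hm1⟩ := hB l f0 hf0
    refine ⟨m1 + 2, ?_⟩
    intro M _ _ _ B hB2 hcard hg
    let Y := SemidirectProduct M B B.subtype
    have hfin : Finite Y := Finite.of_equiv (M × B) SemidirectProduct.equivProd.symm
    let ι : M →* Y := SemidirectProduct.inl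
    let κ : B →* Y := SemidirectProduct.inr
    have hι : Function.Injective ι := SemidirectProduct.inl_injective
    have hs : Group.IsSolvable ι.range :=
      Group.isSolvable_of_surjective ι.rangeRestrict_surjective
    have hA : Is2 κ.range := by
      rintro _ ⟨b, rfl⟩
      obtain ⟨k, hk⟩ := hB2 b b.2
      refine E2.map ?_ _
      exact ⟨k, Subtype.ext (by simpa using hk)⟩
    have hc : Nat.card κ.range ≤ 2 ^ (l + 1) :=
      (Nat.card_le_card_of_surjective κ.rangeRestrict κ.rangeRestrict_surjective).trans hcard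
    have hconj : ∀ (b : B) (x : M), κ b * ι x * (κ b)⁻¹ = ι ((b : MulAut M) x) := by
      intro b x
      have h5 := (SemidirectProduct.inl_aut (φ := B.subtype) b x).symm
      rw [map_inv] at h5
      exact h5
    have hAN : Nrm κ.range ι.range := by
      rintro _ ⟨b, rfl⟩ _ ⟨x, rfl⟩
      exact ⟨(b : MulAut M) x, (hconj b x).symm⟩
    have hNA : ι.range ⊔ κ.range = ⊤ := by
      rw [eq_top_iff]
      intro y _
      rw [← SemidirectProduct.inl_left_mul_inr_right y]
      exact Subgroup.mul_mem_sup ⟨_, rfl⟩ ⟨_, rfl⟩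
    have hgood : Good κ.range ι.range := by
      intro P Q hP hQ hP2 hQ2 hAP hAQ
      have hinv : ∀ R : Subgroup Y, Nrm κ.range R → ∀ β ∈ B, ∀ x ∈ R.comap ι, β x ∈ R.comap ι := by
        intro R hR β hβ x hx
        rw [Subgroup.mem_comap] at hx ⊢
        have := hR (κ ⟨β, hβ⟩) ⟨_, rfl⟩ _ hx
        rw [hconj] at this
        exact this
      have h2 : ∀ R : Subgroup Y, Is2 R → Is2 (R.comap ι) := by
        intro R hR x hx
        obtain ⟨k, hk⟩ := hR _ hx
        exact ⟨k, hι (by rw [map_pow, map_one]; exact hk)⟩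
      have h3 := (hg _ _ (h2 P hP2) (h2 Q hQ2) (hinv P hAP) (hinv Q hAQ)).map ι
      rw [Subgroup.map_sup, Subgroup.map_comap_eq_self hP, Subgroup.map_comap_eq_self hQ] at h3
      exact h3
    have h4 := thmF_internal (f0 := f0) hm1 hA hc hAN hgood hNA
    rw [MonoidHom.range_eq_map, ← map_rhoIter_of_injective ι hι,
      Subgroup.map_eq_bot_iff_of_injective _ hι] at h4
    exact h4

end Pool.Agent.Helper12.TwoLen
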