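import Pool.Agent.Helper16.EndoDefs

set_option autoImplicit false

namespace Pool.Agent.Helper16.Endo

open MvPolynomial Finset

variable {r d : ℕ} {A B : Type*} [CommRing A] [CommRing B]

/-- linear substitution -/
noncomputable def sub (h : Matrix (Fin r) (Fin r) A) :
    MvPolynomial (Fin r) A →ₐ[A] MvPolynomial (Fin r) A :=
  aeval (fun l => ∑ m, C (h l m) * X m)

theorem act_apply (g h : Matrix (Fin r) (Fin r) A) (c : Idx r d → A) (j : Fin r) (α : Mon r d) :
    act g h c (j, α) = coeff (α : Fin r →₀ ℕ) (∑ i, C (g j i) * sub h (form c i)) := rfl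

theorem mon_degree (α : Mon r d) : (α : Fin r →₀ ℕ).degree = d := by
  have h := (mem_finsuppAntidiag.1 α.2).1
  rw [Finsupp.degree_eq_sum]
  exact h

theorem mem_mon {α : Fin r →₀ ℕ} (h : α.degree = d) :
    α ∈ (Finset.univ : Finset (Fin r)).finsuppAntidiag d := by
  rw [mem_finsuppAntidiag]
  refine ⟨?_, subset_univ _⟩
  rw [Finsupp.degree_eq_sum] at h
  exact h

theorem form_isHomogeneous (c : Idx r d → A) (i : Fin r) : (form c i).IsHomogeneous d := by
  unfold form
  refine IsHomogeneous.sum _ _ _ fun α _ => ?_
  exact isHomogeneous_monomial _ (mon_degree α)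

theorem coeff_form (c : Idx r d → A) (i : Fin r) (α : Mon r d) :
    coeff (α : Fin r →₀ ℕ) (form c i) = c (i, α) := by
  classical
  unfold form
  rw [coeff_sum, sum_eq_single α]
  · rw [coeff_monomial, if_pos rfl]
  · intro β _ hβ
    rw [coeff_monomial, if_neg]
    exact fun h => hβ (Subtype.ext h)
  · simp

theorem form_ext {c c' : Idx r d → A} (h : ∀ i, form c i = form c' i) : c = c' := by
  funext ⟨i, α⟩
  rw [← coeff_form c, ← coeff_form c', h]

theorem sum_coeff_of_isHomogeneous {p : MvPolynomial (Fin r) A} (hp : p.IsHomogeneous d) :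
    ∑ α : Mon r d, monomial (α : Fin r →₀ ℕ) (coeff (α : Fin r →₀ ℕ) p) = p := by
  classical
  ext β
  rw [coeff_sum]
  by_cases hβ : β.degree = d
  · rw [sum_eq_single (⟨β, mem_mon hβ⟩ : Mon r d)]
    · rw [coeff_monomial, if_pos rfl]
    · intro γ _ hγ
      rw [coeff_monomial, if_neg]
      exact fun h => hγ (Subtype.ext h)
    · simp
  · rw [hp.coeff_eq_zero hβ]
    refine sum_eq_zero fun γ _ => ?_
    rw [coeff_monomial, if_neg]
    rintro rfl
    exact hβ (mon_degree γ)

theorem sub_isHomogeneous (h : Matrix (Fin r) (Fin r) A) {p : MvPolynomial (Fin r) A} {n : ℕ}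
    (hp : p.IsHomogeneous n) : (sub h p).IsHomogeneous n := by
  have := hp.aeval (fun l => ∑ m, C (h l m) * X m) (n := 1) (fun l => by
    refine IsHomogeneous.sum _ _ _ fun m _ => ?_
    have := (isHomogeneous_C (Fin r) (h l m)).mul (isHomogeneous_X A m)
    simpa using this)
  simpa [sub] using this

theorem form_act (g h : Matrix (Fin r) (Fin r) A) (c : Idx r d → A) (j : Fin r) :
    form (act g h c) j = ∑ i, C (g j i) * sub h (form c i) := by
  unfold form
  simp_rw [act_apply]
  refine sum_coeff_of_isHomogeneous ?_
  refine IsHomogeneous.sum _ _ _ fun i _ => ?_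
  have := (isHomogeneous_C (Fin r) (g j i)).mul (sub_isHomogeneous h (form_isHomogeneous c i))
  simpa using this

theorem sub_sub (h h' : Matrix (Fin r) (Fin r) A) (p : MvPolynomial (Fin r) A) :
    sub h (sub h' p) = sub (h' * h) p := by
  have : (sub h).comp (sub h') = sub (h' * h) := by
    ext l
    simp only [sub, AlgHom.comp_apply, aeval_X, map_sum, map_mul, algHom_C, algebraMap_eq,
      Matrix.mul_apply, mul_sum, sum_mul]
    rw [sum_comm]
    refine congrArg (coeff _) (sum_congr rfl fun m _ => sum_congr rfl fun n _ => ?_)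
    ring
  exact congrArg (fun f => f p) this

theorem sub_one (p : MvPolynomial (Fin r) A) : sub 1 p = p := by
  have : sub (1 : Matrix (Fin r) (Fin r) A) = AlgHom.id A _ := by
    ext l
    simp [sub, Matrix.one_apply]
  rw [this]; rfl

theorem act_act (g h g' h' : Matrix (Fin r) (Fin r) A) (c : Idx r d → A) :
    act g h (act g' h' c) = act (g * g') (h' * h) c := by
  apply form_ext
  intro j
  rw [form_act, form_act]
  simp_rw [form_act, map_sum, map_mul, sub_sub, Matrix.mul_apply, map_sum, sum_mul, mul_sum]
  rw [sum_comm]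
  refine sum_congr rfl fun i _ => sum_congr rfl fun l _ => ?_
  rw [map_mul, mul_assoc, show sub h (C (g' l i)) = C (g' l i) from by simp [sub]]

theorem act_one (c : Idx r d → A) : act 1 1 c = c := by
  apply form_ext
  intro j
  rw [form_act]
  simp [sub_one, Matrix.one_apply]

theorem form_add (c c' : Idx r d → A) (i : Fin r) : form (c + c') i = form c i + form c' i := by
  simp [form, sum_add_distrib]

theorem form_smul (a : A) (c : Idx r d → A) (i : Fin r) : form (a • c) i = C a * form c i := by
  simp [form, mul_sum, C_mul_monomial]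

theorem act_add (g h : Matrix (Fin r) (Fin r) A) (c c' : Idx r d → A) :
    act g h (c + c') = act g h c + act g h c' := by
  apply form_ext
  intro j
  rw [form_add, form_act, form_act, form_act, ← sum_add_distrib]
  simp_rw [form_add, map_add, mul_add]

theorem act_smul (a : A) (g h : Matrix (Fin r) (Fin r) A) (c : Idx r d → A) :
    act g h (a • c) = a • act g h c := by
  apply form_ext
  intro j
  rw [form_smul, form_act, form_act, mul_sum]
  refine sum_congr rfl fun i _ => ?_
  rw [form_smul, map_mul, show sub h (C a) = C a from by simp [sub]]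
  ring

theorem act_smul_left (a : A) (g h : Matrix (Fin r) (Fin r) A) (c : Idx r d → A) :
    act (a • g) h c = a • act g h c := by
  apply form_ext
  intro j
  rw [form_smul, form_act, form_act, mul_sum]
  refine sum_congr rfl fun i _ => ?_
  rw [Matrix.smul_apply, smul_eq_mul, map_mul, mul_assoc]

theorem aeval_mul_of_isHomogeneous {R S τ : Type*} [CommRing R] [CommRing S] [Algebra R S]
    {p : MvPolynomial τ R} {n : ℕ} (hp : p.IsHomogeneous n) (a : S) (x : τ → S) :
    aeval (fun l => a * x l) p = a ^ n * aeval x p := by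
  classical
  rw [p.as_sum, map_sum, map_sum, mul_sum]
  refine sum_congr rfl fun α hα => ?_
  rw [aeval_monomial, aeval_monomial]
  simp_rw [mul_pow]
  rw [Finsupp.prod_mul]
  have h1 : (α.prod fun _ k => a ^ k) = a ^ n := by
    rw [Finsupp.prod, prod_pow_eq_pow_sum]
    refine congrArg (fun t => a ^ t) ?_
    have := hp (mem_support_iff.1 hα)
    rw [Finsupp.weight_apply] at this
    simpa [Finsupp.sum] using this
  rw [h1]; ring

theorem sub_smul {n : ℕ} (a : A) (h : Matrix (Fin r) (Fin r) A) {p : MvPolynomial (Fin r) A}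
    (hp : p.IsHomogeneous n) : sub (a • h) p = C (a ^ n) * sub h p := by
  unfold sub
  rw [map_pow, ← aeval_mul_of_isHomogeneous hp]
  refine congrArg (fun t => aeval t p) ?_
  funext l
  rw [mul_sum]
  refine sum_congr rfl fun m _ => ?_
  rw [Matrix.smul_apply, smul_eq_mul, map_mul, mul_assoc]

theorem act_smul_right (a : A) (g h : Matrix (Fin r) (Fin r) A) (c : Idx r d → A) :
    act g (a • h) c = a ^ d • act g h c := by
  apply form_ext
  intro j
  rw [form_smul, form_act, form_act, mul_sum]
  refine sum_congr rfl fun i _ => ?_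
  rw [sub_smul a h (form_isHomogeneous c i)]
  ring

theorem act_add_left (g g' h : Matrix (Fin r) (Fin r) A) (c : Idx r d → A) :
    act (g + g') h c = act g h c + act g' h c := by
  apply form_ext
  intro j
  rw [form_add, form_act, form_act, form_act, ← sum_add_distrib]
  simp_rw [Matrix.add_apply, map_add, add_mul]

/-! ### change of rings -/

theorem form_map (φ : A →+* B) (c : Idx r d → A) (i : Fin r) :
    form (fun p => φ (c p)) i = MvPolynomial.map φ (form c i) := by
  simp [form, map_sum, map_monomial]

theorem sub_map (φ : A →+* B) (h : Matrix (Fin r) (Fin r) A) (p : MvPolynomial (Fin r) A) :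
    sub (h.map φ) (MvPolynomial.map φ p) = MvPolynomial.map φ (sub h p) := by
  induction p using MvPolynomial.induction_on with
  | C a => simp [sub]
  | add p q hp hq => simp only [map_add, hp, hq]
  | mul_X p l hp =>
    simp only [map_mul, hp, map_X]
    refine congrArg (fun t => _ * t) ?_
    simp [sub, Matrix.map_apply]

theorem act_map (φ : A →+* B) (g h : Matrix (Fin r) (Fin r) A) (c : Idx r d → A) :
    act (g.map φ) (h.map φ) (fun p => φ (c p)) = fun p => φ (act g h c p) := by
  apply form_ext
  intro j
  rw [form_map, form_act, form_act, map_sum]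
  refine sum_congr rfl fun i _ => ?_
  rw [form_map, sub_map, map_mul, map_C, Matrix.map_apply]

/-! ### evaluation at vectors -/

theorem aeval_sub {S : Type*} [CommRing S] [Algebra A S] (h : Matrix (Fin r) (Fin r) A)
    (p : MvPolynomial (Fin r) A) (x : Fin r → S) :
    aeval x (sub h p) = aeval (fun l => ∑ m, algebraMap A S (h l m) * x m) p := by
  have : (aeval x).comp (sub h) = aeval (R := A) (fun l => ∑ m, algebraMap A S (h l m) * x m) := by
    ext l
    simp [sub]
  exact congrArg (fun f => f p) this

theorem aeval_form_act {S : Type*} [CommRing S] [Algebra A S] (g h : Matrix (Fin r) (Fin r) A)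
    (c : Idx r d → A) (x : Fin r → S) (j : Fin r) :
    aeval x (form (act g h c) j) =
      ∑ i, algebraMap A S (g j i) * aeval (fun l => ∑ m, algebraMap A S (h l m) * x m) (form c i) := by
  rw [form_act, map_sum]
  refine sum_congr rfl fun i _ => ?_
  rw [map_mul, aeval_sub, aeval_C]

theorem eval_form_act (g h : Matrix (Fin r) (Fin r) A) (c : Idx r d → A) (x : Fin r → A)
    (j : Fin r) :
    eval x (form (act g h c) j) = ∑ i, g j i * eval (h.mulVec x) (form c i) := by
  have := aeval_form_act g h c x j
  rw [show h.mulVec x = fun l => ∑ m, h l m * x m from rfl]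
  simpa using this

end Pool.Agent.Helper16.Endo
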