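import Pool.Agent.Helper16.Endo0

set_option autoImplicit false

namespace Pool.Agent.Helper16.Endo

open MvPolynomial Finset

/-- first order Taylor formula -/
theorem aeval_taylor {R S τ : Type*} [CommRing R] [CommRing S] [Algebra R S] [Fintype τ]
    (e : S) (he : e * e = 0) (x y : τ → S) (p : MvPolynomial τ R) :
    aeval (fun i => x i + e * y i) p = aeval x p + e * ∑ i, y i * aeval x (pderiv i p) := by
  classical
  induction p using MvPolynomial.induction_on with
  | C a => simp
  | add p q hp hq =>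
    simp only [map_add, hp, hq, mul_add, sum_add_distrib]
    ring
  | mul_X p l hp =>
    simp only [map_mul, hp, aeval_X, Derivation.leibniz, smul_eq_mul, pderiv_X, map_add]
    have h1 : ∑ i, y i * (aeval x p * aeval x ((Pi.single i 1 : τ → MvPolynomial τ R) l) +
        x l * aeval x (pderiv i p)) =
        y l * aeval x p + x l * ∑ i, y i * aeval x (pderiv i p) := by
      simp_rw [mul_add, sum_add_distrib]
      refine congrArg₂ (fun s t => s + t) ?_ ?_
      · rw [sum_eq_single l]
        · simp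
        · intro b _ hb
          rw [Pi.single_eq_of_ne hb.symm]; simp
        · simp
      · rw [mul_sum]
        refine sum_congr rfl fun i _ => by ring
    rw [h1]
    linear_combination (y l * ∑ i, y i * aeval x (pderiv i p)) * he

variable {r d : ℕ} {A B : Type*} [CommRing A] [CommRing B]

/-- the linear form with coefficients the `l`-th row of `ξ` -/
noncomputable def lin (ξ : Matrix (Fin r) (Fin r) A) (l : Fin r) : MvPolynomial (Fin r) A :=
  ∑ m, C (ξ l m) * X m

/-- the infinitesimal action -/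
noncomputable def lie (ξ : Matrix (Fin r) (Fin r) A) (c : Idx r d → A) : Idx r d → A :=
  fun p => coeff (p.2 : Fin r →₀ ℕ)
    (∑ i, C (ξ p.1 i) * form c i - ∑ l, lin ξ l * pderiv l (form c p.1))

theorem lin_isHomogeneous (ξ : Matrix (Fin r) (Fin r) A) (l : Fin r) :
    (lin ξ l).IsHomogeneous 1 := by
  refine IsHomogeneous.sum _ _ _ fun m _ => ?_
  have := (isHomogeneous_C (Fin r) (ξ l m)).mul (isHomogeneous_X A m)
  simpa using this

theorem isHomogeneous_sub {n : ℕ} {p q : MvPolynomial (Fin r) A} (hp : p.IsHomogeneous n)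
    (hq : q.IsHomogeneous n) : (p - q).IsHomogeneous n := by
  have := (homogeneousSubmodule (Fin r) A n).sub_mem hp hq
  exact this

theorem lie_apply (ξ : Matrix (Fin r) (Fin r) A) (c : Idx r d → A) (j : Fin r) (α : Mon r d) :
    lie ξ c (j, α) = coeff (α : Fin r →₀ ℕ)
      (∑ i, C (ξ j i) * form c i - ∑ l, lin ξ l * pderiv l (form c j)) := rfl

theorem form_lie (hd : 1 ≤ d) (ξ : Matrix (Fin r) (Fin r) A) (c : Idx r d → A) (j : Fin r) :
    form (lie ξ c) j = ∑ i, C (ξ j i) * form c i - ∑ l, lin ξ l * pderiv l (form c j) := by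
  unfold form
  simp_rw [lie_apply]
  refine sum_coeff_of_isHomogeneous (isHomogeneous_sub ?_ ?_)
  · refine IsHomogeneous.sum _ _ _ fun i _ => ?_
    have := (isHomogeneous_C (Fin r) (ξ j i)).mul (form_isHomogeneous c i)
    simpa using this
  · refine IsHomogeneous.sum _ _ _ fun l _ => ?_
    have := (lin_isHomogeneous ξ l).mul ((form_isHomogeneous c j).pderiv (i := l))
    rwa [show 1 + (d - 1) = d by omega] at this

theorem lin_one (l : Fin r) : lin (1 : Matrix (Fin r) (Fin r) A) l = X l := by
  simp [lin, Matrix.one_apply]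

theorem lin_add (ξ η : Matrix (Fin r) (Fin r) A) (l : Fin r) :
    lin (ξ + η) l = lin ξ l + lin η l := by
  simp [lin, Matrix.add_apply, add_mul, sum_add_distrib]

theorem lin_smul (a : A) (ξ : Matrix (Fin r) (Fin r) A) (l : Fin r) :
    lin (a • ξ) l = C a * lin ξ l := by
  simp [lin, Matrix.smul_apply, mul_sum, mul_assoc]

theorem lie_add (ξ η : Matrix (Fin r) (Fin r) A) (c : Idx r d → A) :
    lie (ξ + η) c = lie ξ c + lie η c := by
  funext ⟨j, α⟩
  rw [Pi.add_apply, lie_apply, lie_apply, lie_apply, ← coeff_add]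
  refine congrArg (coeff (α : Fin r →₀ ℕ)) ?_
  simp_rw [lin_add, Matrix.add_apply, map_add, add_mul, sum_add_distrib]
  ring

theorem lie_smul (a : A) (ξ : Matrix (Fin r) (Fin r) A) (c : Idx r d → A) :
    lie (a • ξ) c = a • lie ξ c := by
  funext ⟨j, α⟩
  rw [Pi.smul_apply, lie_apply, lie_apply, smul_eq_mul, ← coeff_C_mul]
  refine congrArg (coeff (α : Fin r →₀ ℕ)) ?_
  simp_rw [lin_smul, Matrix.smul_apply, smul_eq_mul, map_mul, mul_sub, mul_sum, mul_assoc]

theorem lie_add_right (ξ : Matrix (Fin r) (Fin r) A) (c c' : Idx r d → A) :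
    lie ξ (c + c') = lie ξ c + lie ξ c' := by
  funext ⟨j, α⟩
  rw [Pi.add_apply, lie_apply, lie_apply, lie_apply, ← coeff_add]
  refine congrArg (coeff (α : Fin r →₀ ℕ)) ?_
  simp_rw [form_add, map_add, mul_add, sum_add_distrib]
  ring

theorem lie_smul_right (a : A) (ξ : Matrix (Fin r) (Fin r) A) (c : Idx r d → A) :
    lie ξ (a • c) = a • lie ξ c := by
  funext ⟨j, α⟩
  rw [Pi.smul_apply, lie_apply, lie_apply, smul_eq_mul, ← coeff_C_mul]
  refine congrArg (coeff (α : Fin r →₀ ℕ)) ?_
  have h1 : ∀ l, lin ξ l * pderiv l (form (a • c) j) = C a * (lin ξ l * pderiv l (form c j)) := by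
    intro l
    rw [form_smul, pderiv_C_mul]; ring
  have h2 : ∀ i, C (ξ j i) * form (a • c) i = C a * (C (ξ j i) * form c i) := by
    intro i
    rw [form_smul]; ring
  simp_rw [h1, h2]
  rw [← mul_sum, ← mul_sum, mul_sub]

/-- the infinitesimal action as a linear map -/
noncomputable def lieL (c : Idx r d → A) : Matrix (Fin r) (Fin r) A →ₗ[A] (Idx r d → A) where
  toFun ξ := lie ξ c
  map_add' ξ η := lie_add ξ η c
  map_smul' a ξ := lie_smul a ξ c

theorem lieL_apply (c : Idx r d → A) (ξ : Matrix (Fin r) (Fin r) A) : lieL c ξ = lie ξ c := rfl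

theorem lin_map (φ : A →+* B) (ξ : Matrix (Fin r) (Fin r) A) (l : Fin r) :
    lin (ξ.map φ) l = MvPolynomial.map φ (lin ξ l) := by
  simp [lin, Matrix.map_apply]

theorem lie_map (φ : A →+* B) (ξ : Matrix (Fin r) (Fin r) A) (c : Idx r d → A) :
    lie (ξ.map φ) (fun p => φ (c p)) = fun p => φ (lie ξ c p) := by
  funext ⟨j, α⟩
  rw [lie_apply, lie_apply, ← coeff_map]
  refine congrArg (coeff (α : Fin r →₀ ℕ)) ?_
  rw [map_sub, map_sum, map_sum]
  refine congrArg₂ (fun s t => s - t) ?_ ?_
  · exact sum_congr rfl fun i _ => by rw [form_map, map_mul, map_C, Matrix.map_apply]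
  · exact sum_congr rfl fun l _ => by rw [form_map, map_mul, lin_map, pderiv_map]

theorem sub_infinitesimal (e : A) (he : e * e = 0) (ξ : Matrix (Fin r) (Fin r) A)
    (p : MvPolynomial (Fin r) A) :
    sub (1 - e • ξ) p = p - C e * ∑ l, lin ξ l * pderiv l p := by
  have h1 : sub (1 - e • ξ) p = aeval (fun l => X l + C e * (- lin ξ l)) p := by
    unfold sub
    refine congrArg (fun t => aeval t p) ?_
    funext l
    have : ∑ m, C ((1 - e • ξ) l m) * X m = lin (1 - e • ξ) l := rfl
    rw [this, sub_eq_add_neg, lin_add, lin_one, ← neg_one_smul A (e • ξ), lin_smul, lin_smul]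
    simp
  rw [h1, aeval_taylor _ (by rw [← map_mul, he, map_zero])]
  simp only [aeval_X_left, AlgHom.id_apply]
  rw [sub_eq_add_neg, ← mul_neg, ← sum_neg_distrib]
  refine congrArg (fun t => p + C e * t) ?_
  exact sum_congr rfl fun i _ => by ring

theorem act_infinitesimal (hd : 1 ≤ d) (e : A) (he : e * e = 0)
    (ξ : Matrix (Fin r) (Fin r) A) (c v : Idx r d → A) :
    act (1 + e • ξ) (1 - e • ξ) (c + e • v) = c + e • (v + lie ξ c) := by
  apply form_ext
  intro j
  have hC : (C e : MvPolynomial (Fin r) A) * C e = 0 := by rw [← map_mul, he, map_zero]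
  have hP : ∀ i, sub (1 - e • ξ) (form (c + e • v) i) =
      form c i + C e * (form v i - ∑ l, lin ξ l * pderiv l (form c i)) := by
    intro i
    rw [sub_infinitesimal e he, form_add, form_smul]
    have h1 : C e * ∑ l, lin ξ l * pderiv l (form c i + C e * form v i) =
        C e * ∑ l, lin ξ l * pderiv l (form c i) := by
      rw [mul_sum, mul_sum]
      refine sum_congr rfl fun l _ => ?_
      rw [map_add, pderiv_C_mul]
      linear_combination (lin ξ l * pderiv l (form v i)) * hC
    rw [h1]; ring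
  rw [form_act, form_add, form_smul, form_add, form_lie hd]
  simp_rw [hP]
  have h2 : ∀ i, C ((1 + e • ξ) j i) *
      (form c i + C e * (form v i - ∑ l, lin ξ l * pderiv l (form c i))) =
      (C ((1 : Matrix (Fin r) (Fin r) A) j i)) *
        (form c i + C e * (form v i - ∑ l, lin ξ l * pderiv l (form c i))) +
      C e * (C (ξ j i) * form c i) := by
    intro i
    rw [Matrix.add_apply, Matrix.smul_apply, smul_eq_mul, map_add, map_mul]
    linear_combination (C (ξ j i) * (form v i - ∑ l, lin ξ l * pderiv l (form c i))) * hC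
  simp_rw [h2]
  rw [sum_add_distrib, ← mul_sum]
  have h3 : ∀ (P : Fin r → MvPolynomial (Fin r) A),
      ∑ i, C ((1 : Matrix (Fin r) (Fin r) A) j i) * P i = P j := by
    intro P
    rw [sum_eq_single j]
    · simp
    · intro b _ hb; rw [Matrix.one_apply_ne hb.symm]; simp
    · simp
  rw [h3]
  ring

end Pool.Agent.Helper16.Endo
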