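import Pool.Agent.Helper16.Endo9

set_option autoImplicit false

namespace Pool.Agent.Helper16.Endo

open MvPolynomial Finset

variable {r d : ℕ} {k : Type*} [Field k]

/-- weak Nullstellensatz -/
theorem exists_algHom_of_maximal {S : Type*} [IsAlgClosed k] [CommRing S] [Algebra k S]
    [Algebra.FiniteType k S] (Q : Ideal S) (hQ : Q.IsMaximal) :
    ∃ φ : S →ₐ[k] k, ∀ x ∈ Q, φ x = 0 := by
  let _ : Field (S ⧸ Q) := Ideal.Quotient.field Q
  have h1 : Module.Finite k (S ⧸ Q) := finite_of_finite_type_of_isJacobsonRing k (S ⧸ Q)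
  have h2 : Function.Bijective (algebraMap k (S ⧸ Q)) :=
    IsAlgClosed.algebraMap_bijective_of_isIntegral
  let e : k ≃ₐ[k] (S ⧸ Q) := AlgEquiv.ofBijective (Algebra.ofId k (S ⧸ Q)) h2
  refine ⟨(e.symm : (S ⧸ Q) →ₐ[k] k).comp (Ideal.Quotient.mkₐ k Q), fun x hx => ?_⟩
  have h3 : Ideal.Quotient.mkₐ k Q x = 0 := Ideal.Quotient.eq_zero_iff_mem.2 hx
  rw [AlgHom.comp_apply, h3, map_zero]

theorem gr_isDomain : IsDomain (GR r k) :=
  IsLocalization.isDomain_localization
    (powers_le_nonZeroDivisors_of_noZeroDivisors (gen_det_ne_zero r k))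

theorem algebraMap_gr_injective :
    Function.Injective (algebraMap (MvPolynomial (Ent r) k) (GR r k)) :=
  IsLocalization.injective _
    (powers_le_nonZeroDivisors_of_noZeroDivisors (gen_det_ne_zero r k))

instance gr_finiteType : Algebra.FiniteType k (GR r k) := by
  have h1 : Algebra.FiniteType (MvPolynomial (Ent r) k) (GR r k) :=
    IsLocalization.finiteType_of_monoid_fg (Submonoid.powers (gen r k).det) _
  exact Algebra.FiniteType.trans (S := MvPolynomial (Ent r) k) inferInstance h1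

/-- the subalgebra generated by the orbit point and the determinant -/
noncomputable def orbAlg (c : Idx r d → k) : Subalgebra k (GR r k) :=
  Algebra.adjoin k (Set.range (gy c) ∪ {(gX r k).det, gDi r k})

theorem orbAlg_isIntegral [IsAlgClosed k] (hd : 2 ≤ d) {c : Idx r d → k} (hc : NoZero c) :
    Algebra.IsIntegral (orbAlg c) (GR r k) := by
  have hdom : IsDomain (GR r k) := gr_isDomain
  refine ⟨fun x => ?_⟩
  refine gr_top (integralClosure (orbAlg c) (GR r k)).toSubring ?_ ?_ ?_ x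
  · intro a
    show IsIntegral (orbAlg c) (algebraMap k (GR r k) a)
    rw [IsScalarTower.algebraMap_apply k (orbAlg c) (GR r k)]
    exact isIntegral_algebraMap
  · intro i j
    refine integral_of_orbit hd hc.strong isUnit_gX_det (orbAlg c) ?_ (κ := 1) one_pos ?_ i j
    · intro p
      exact Algebra.subset_adjoin (Or.inl ⟨p, rfl⟩)
    · rw [pow_one]
      exact Algebra.subset_adjoin (Or.inr (Or.inl rfl))
  · show IsIntegral (orbAlg c) (gDi r k)
    have h1 : gDi r k ∈ orbAlg c := Algebra.subset_adjoin (Or.inr (Or.inr rfl))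
    exact isIntegral_algebraMap (R := orbAlg c) (x := ⟨_, h1⟩)

/-- the span of the homogeneous values of an ideal at the generic conjugate -/
noncomputable def wSpan (c : Idx r d → k) (I : Ideal (MvPolynomial (Idx r d) k)) (w : ℕ) :
    Submodule k (MvPolynomial (Ent r) k) :=
  Submodule.span k {m | ∃ (u e : ℕ) (q : MvPolynomial (Idx r d) k), q ∈ I ∧ q.IsHomogeneous e ∧
    w ≤ u ∧ m = (gen r k).det ^ u * aeval (gc c) q}

theorem wSpan_mul_det {c : Idx r d → k} {I : Ideal (MvPolynomial (Idx r d) k)} {w : ℕ}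
    {m : MvPolynomial (Ent r) k} (hm : m ∈ wSpan c I w) (n : ℕ) :
    (gen r k).det ^ n * m ∈ wSpan c I w := by
  refine Submodule.span_induction (p := fun m _ => (gen r k).det ^ n * m ∈ wSpan c I w)
    ?_ ?_ ?_ ?_ hm
  · rintro _ ⟨u, e, q, hq, hqe, hu, rfl⟩
    refine Submodule.subset_span ⟨n + u, e, q, hq, hqe, by omega, ?_⟩
    rw [pow_add, mul_assoc]
  · rw [mul_zero]; exact Submodule.zero_mem _
  · intro x y _ _ hx hy
    rw [mul_add]; exact Submodule.add_mem _ hx hy
  · intro a x _ hx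
    rw [mul_smul_comm]; exact Submodule.smul_mem _ _ hx

theorem wSpan_mul_gc {c : Idx r d → k} {I : Ideal (MvPolynomial (Idx r d) k)} {w : ℕ}
    {m : MvPolynomial (Ent r) k} (hm : m ∈ wSpan c I w) (p : Idx r d) :
    gc c p * m ∈ wSpan c I w := by
  refine Submodule.span_induction (p := fun m _ => gc c p * m ∈ wSpan c I w)
    ?_ ?_ ?_ ?_ hm
  · rintro _ ⟨u, e, q, hq, hqe, hu, rfl⟩
    refine Submodule.subset_span ⟨u, 1 + e, X p * q, I.mul_mem_left _ hq,
      (isHomogeneous_X k p).mul hqe, hu, ?_⟩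
    rw [map_mul, aeval_X]; ring
  · rw [mul_zero]; exact Submodule.zero_mem _
  · intro x y _ _ hx hy
    rw [mul_add]; exact Submodule.add_mem _ hx hy
  · intro a x _ hx
    rw [mul_smul_comm]; exact Submodule.smul_mem _ _ hx

/-- elements that become polynomial combinations after multiplication with the determinant -/
def PP (c : Idx r d → k) (I : Ideal (MvPolynomial (Idx r d) k)) (w : ℕ) (x : GR r k) : Prop :=
  ∃ (N : ℕ) (m : MvPolynomial (Ent r) k), m ∈ wSpan c I w ∧
    (gX r k).det ^ N * x = algebraMap (MvPolynomial (Ent r) k) (GR r k) m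

theorem PP.raise {c : Idx r d → k} {I : Ideal (MvPolynomial (Idx r d) k)} {w : ℕ} {x : GR r k}
    {N : ℕ} {m : MvPolynomial (Ent r) k} (hm : m ∈ wSpan c I w)
    (h : (gX r k).det ^ N * x = algebraMap (MvPolynomial (Ent r) k) (GR r k) m) (n : ℕ) :
    (gen r k).det ^ n * m ∈ wSpan c I w ∧ (gX r k).det ^ (n + N) * x =
      algebraMap (MvPolynomial (Ent r) k) (GR r k) ((gen r k).det ^ n * m) := by
  refine ⟨wSpan_mul_det hm n, ?_⟩
  rw [map_mul, ← h, map_pow, ← gX_det, pow_add, mul_assoc]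

theorem PP.add {c : Idx r d → k} {I : Ideal (MvPolynomial (Idx r d) k)} {w : ℕ} {x y : GR r k}
    (hx : PP c I w x) (hy : PP c I w y) : PP c I w (x + y) := by
  obtain ⟨N, m, hm, h⟩ := hx
  obtain ⟨N', m', hm', h'⟩ := hy
  obtain ⟨h1, h2⟩ := PP.raise hm h N'
  obtain ⟨h3, h4⟩ := PP.raise hm' h' N
  refine ⟨N + N', _, Submodule.add_mem _ h1 h3, ?_⟩
  rw [map_add, ← h2, ← h4, mul_add, add_comm N' N]

theorem PP.zero (c : Idx r d → k) (I : Ideal (MvPolynomial (Idx r d) k)) (w : ℕ) :
    PP c I w 0 := ⟨0, 0, Submodule.zero_mem _, by simp⟩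

theorem PP.mul {c : Idx r d → k} {I : Ideal (MvPolynomial (Idx r d) k)} {w : ℕ} {a : GR r k}
    (ha : a ∈ orbAlg c) : ∀ x, PP c I w x → PP c I w (a * x) := by
  unfold orbAlg at ha
  refine Algebra.adjoin_induction (p := fun a _ => ∀ x, PP c I w x → PP c I w (a * x))
    ?_ ?_ ?_ ?_ ha
  · rintro a ha x ⟨N, m, hm, h⟩
    rcases ha with ⟨p, rfl⟩ | rfl | rfl
    · refine ⟨d + N, gc c p * m, wSpan_mul_gc hm p, ?_⟩
      rw [map_mul, gy_eq, ← h, pow_add]; ring
    · refine ⟨N, (gen r k).det ^ 1 * m, wSpan_mul_det hm 1, ?_⟩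
      rw [map_mul, ← h, pow_one, ← gX_det]; ring
    · refine ⟨N + 1, m, hm, ?_⟩
      rw [← h, pow_succ]
      calc (gX r k).det ^ N * (gX r k).det * (gDi r k * x)
          = (gX r k).det ^ N * ((gX r k).det * gDi r k) * x := by ring
        _ = (gX r k).det ^ N * x := by rw [mul_gDi, mul_one]
  · rintro a x ⟨N, m, hm, h⟩
    refine ⟨N, a • m, Submodule.smul_mem _ _ hm, ?_⟩
    rw [← Algebra.smul_def, mul_smul_comm, h, Algebra.smul_def, Algebra.smul_def, map_mul,
      ← IsScalarTower.algebraMap_apply]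
  · intro a b _ _ ha hb x hx
    rw [add_mul]; exact (ha x hx).add (hb x hx)
  · intro a b _ _ ha hb x hx
    rw [mul_assoc]; exact ha _ (hb x hx)

theorem PP.aeval {c : Idx r d → k} {I : Ideal (MvPolynomial (Idx r d) k)} (w : ℕ)
    (hI : ∀ q ∈ I, ∀ e, homogeneousComponent e q ∈ I) {q : MvPolynomial (Idx r d) k}
    (hq : q ∈ I) : PP c I w (aeval (gy c) q) := by
  classical
  have h1 : ∀ e, PP c I w (MvPolynomial.aeval (gy c) (homogeneousComponent e q)) := by
    intro e
    refine ⟨w + d * e, (gen r k).det ^ w * MvPolynomial.aeval (gc c) (homogeneousComponent e q),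
      Submodule.subset_span ⟨w, e, _, hI q hq e, homogeneousComponent_isHomogeneous e q,
        le_rfl, rfl⟩, ?_⟩
    rw [map_mul, aeval_gc (homogeneousComponent_isHomogeneous e q), map_pow, ← gX_det, pow_add,
      mul_assoc]
  rw [← sum_homogeneousComponent q, map_sum]
  refine Finset.sum_induction _ (fun x => PP c I w x) (fun x y => PP.add) (PP.zero c I w)
    fun e _ => h1 e

/-- **existence of semi-invariants in a stable ideal** -/
theorem exists_rey_ne_zero [IsAlgClosed k] [CharZero k] (hd : 2 ≤ d) {c : Idx r d → k}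
    (hc : NoZero c) (I : Ideal (MvPolynomial (Idx r d) k))
    (hI : ∀ q ∈ I, ∀ e, homogeneousComponent e q ∈ I)
    (hne : ∀ g : Matrix (Fin r) (Fin r) k, IsUnit g.det → ∃ q ∈ I, eval (act g g⁻¹ c) q ≠ 0)
    (w : ℕ) :
    ∃ (T u e : ℕ) (q : MvPolynomial (Idx r d) k), q ∈ I ∧ q.IsHomogeneous e ∧ w ≤ u ∧
      rey T u q c ≠ 0 := by
  classical
  have hint := orbAlg_isIntegral hd hc
  set J : Ideal (orbAlg c) := Ideal.span {x | ∃ q ∈ I, (x : GR r k) = aeval (gy c) q} with hJ
  have hJtop : J = ⊤ := by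
    by_contra hcon
    obtain ⟨m, hm, hJm⟩ := Ideal.exists_le_maximal J hcon
    have hker : RingHom.ker (algebraMap (orbAlg c) (GR r k)) ≤ m := by
      intro x hx
      rw [RingHom.mem_ker] at hx
      have : x = 0 := Subtype.ext hx
      rw [this]; exact m.zero_mem
    obtain ⟨Q, hQ, hQm⟩ := Ideal.exists_ideal_over_maximal_of_isIntegral m hker
    obtain ⟨φ, hφ⟩ := exists_algHom_of_maximal (k := k) Q hQ
    have hg : IsUnit ((gX r k).map (φ : GR r k →+* k)).det := by
      rw [det_map_hom]; exact isUnit_gX_det.map _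
    obtain ⟨q, hq, hqe⟩ := hne _ hg
    apply hqe
    have h1 := hom_gy (φ : GR r k →+* k) c
    have h2 : (fun p => (φ : GR r k →+* k) (algebraMap k (GR r k) (c p))) = c := by
      funext p
      exact φ.commutes (c p)
    rw [h2] at h1
    rw [← h1]
    have h3 : aeval (gy c) q ∈ orbAlg c := by
      have h4 : aeval (gy c) q = ((aeval (fun p => (⟨gy c p,
          Algebra.subset_adjoin (Or.inl ⟨p, rfl⟩)⟩ : orbAlg c)) q : orbAlg c) : GR r k) := by
        have := aeval_algebraMap_hom (R := k) (S := orbAlg c) (T := GR r k) q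
          (fun p => (⟨gy c p, Algebra.subset_adjoin (Or.inl ⟨p, rfl⟩)⟩ : orbAlg c))
        exact this.symm
      rw [h4]; exact Subtype.coe_prop _
    have h4 : (⟨_, h3⟩ : orbAlg c) ∈ m := hJm (Ideal.subset_span ⟨q, hq, rfl⟩)
    have h5 : aeval (gy c) q ∈ Q := by
      rw [← hQm] at h4
      exact h4
    have h6 := hφ _ h5
    have h7 : φ (aeval (gy c) q) = aeval (fun p => φ (gy c p)) q :=
      DFunLike.congr_fun (comp_aeval (gy c) φ) q
    rw [h7] at h6
    exact h6
  have h1 : PP c I w 1 := by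
    have h2 : ∀ x ∈ J, PP c I w (x : GR r k) := by
      intro x hx
      refine Submodule.span_induction (p := fun x _ => PP c I w ((x : orbAlg c) : GR r k))
        ?_ ?_ ?_ ?_ hx
      · rintro x ⟨q, hq, hqx⟩
        rw [hqx]
        exact PP.aeval w hI hq
      · exact PP.zero c I w
      · intro x y _ _ hx hy
        exact hx.add hy
      · intro a x _ hx
        exact PP.mul a.2 _ hx
    have h3 : (1 : orbAlg c) ∈ J := by rw [hJtop]; trivial
    exact h2 _ h3
  obtain ⟨N, m, hm, h⟩ := h1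
  rw [mul_one, gX_det, ← map_pow] at h
  have h2 := algebraMap_gr_injective h
  rw [← h2] at hm
  by_contra hcon
  push Not at hcon
  have h3 : wSpan c I w ≤ LinearMap.ker (LamL (A := k) N) := by
    unfold wSpan
    rw [Submodule.span_le]
    rintro _ ⟨u, e, q, hq, hqe, hu, rfl⟩
    exact hcon N u e q hq hqe hu
  have h4 : Lam N ((gen r k).det ^ N) = 0 := h3 hm
  rw [Lam_det] at h4
  exact nrm_ne_zero r N (by exact_mod_cast h4)

end Pool.Agent.Helper16.Endo
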