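import Pool.Agent.Helper16.Endo10
import Pool.Agent.Helper19.EndoT1

set_option autoImplicit false

namespace Pool.Agent.Helper16.Endo

open MvPolynomial Finset

variable {r d : ℕ} {A B : Type*} [CommRing A] [CommRing B]

/-! ### general facts -/

/-- functoriality of the coordinate ring -/
noncomputable def grMap (φ : A →+* B) : GR r A →+* GR r B :=
  letI : Algebra A (GR r B) := ((algebraMap B (GR r B)).comp φ).toAlgebra
  (grLift (A := A) (gX r B) isUnit_gX_det).toRingHom

theorem grMap_mv (φ : A →+* B) (m : MvPolynomial (Ent r) A) :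
    grMap φ (algebraMap (MvPolynomial (Ent r) A) (GR r A) m) =
      algebraMap (MvPolynomial (Ent r) B) (GR r B) (MvPolynomial.map φ m) := by
  letI : Algebra A (GR r B) := ((algebraMap B (GR r B)).comp φ).toAlgebra
  have h1 : grMap φ (algebraMap (MvPolynomial (Ent r) A) (GR r A) m) =
      aeval (fun p : Ent r => gX r B p.1 p.2) m := grLift_algebraMap _ _ m
  rw [h1]
  induction m using MvPolynomial.induction_on with
  | C a =>
    rw [aeval_C, map_C]
    show algebraMap B (GR r B) (φ a) = _
    rw [IsScalarTower.algebraMap_apply B (MvPolynomial (Ent r) B) (GR r B)]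
    rfl
  | add p q hp hq => rw [map_add, map_add, map_add, hp (grLift_algebraMap _ _ p),
      hq (grLift_algebraMap _ _ q)]
  | mul_X p l hp =>
    rw [map_mul, map_mul, map_mul, hp (grLift_algebraMap _ _ p), aeval_X, map_X]
    rfl

theorem grMap_gX (φ : A →+* B) (i j : Fin r) : grMap φ (gX r A i j) = gX r B i j := by
  rw [gX_apply, grMap_mv, map_X]; rfl

theorem grMap_algebraMap (φ : A →+* B) (a : A) :
    grMap (r := r) φ (algebraMap A (GR r A) a) = algebraMap B (GR r B) (φ a) := by
  rw [IsScalarTower.algebraMap_apply A (MvPolynomial (Ent r) A) (GR r A),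
    IsScalarTower.algebraMap_apply B (MvPolynomial (Ent r) B) (GR r B)]
  have := grMap_mv (r := r) φ (C a)
  rw [map_C] at this
  exact this

theorem map_gX_of_hom {S : Type*} [CommRing S] (φ : GR r A →+* S) :
    IsUnit ((gX r A).map φ).det := by
  rw [det_map_hom]; exact isUnit_gX_det.map _

theorem grMap_det (φ : A →+* B) : grMap φ (gX r A).det = (gX r B).det := by
  rw [← det_map_hom]
  refine congrArg Matrix.det ?_
  ext1 i j
  exact grMap_gX φ i j

theorem hom_gDi {S : Type*} [CommRing S] (φ : GR r A →+* S) :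
    φ (gX r A).det * φ (gDi r A) = 1 := by
  rw [← map_mul, mul_gDi, map_one]

theorem grMap_gy (φ : A →+* B) (c : Idx r d → A) :
    (fun p => grMap φ (gy c p)) = gy (fun p => φ (c p)) := by
  rw [hom_gy]
  unfold gy
  have h1 : (gX r A).map (grMap φ) = gX r B := by
    ext1 i j; exact grMap_gX φ i j
  rw [h1]
  refine congrArg (fun t => act (gX r B) (gX r B)⁻¹ t) ?_
  funext p
  exact grMap_algebraMap φ _

/-- the kernel of the reduction map is square zero -/
theorem grMap_fst_ker {L : Type*} [Field L] {x : GR r (Dual L)}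
    (hx : grMap (TrivSqZeroExt.fstHom L L L).toRingHom x = 0) : x * x = 0 := by
  classical
  obtain ⟨m, n, rfl⟩ := gr_eq x
  rw [map_mul, grMap_mv, map_pow] at hx
  have h1 : algebraMap (MvPolynomial (Ent r) L) (GR r L)
      (MvPolynomial.map (TrivSqZeroExt.fstHom L L L).toRingHom m) = 0 := by
    have h2 := hom_gDi (grMap (r := r) (TrivSqZeroExt.fstHom L L L).toRingHom)
    generalize algebraMap (MvPolynomial (Ent r) L) (GR r L)
      (MvPolynomial.map (TrivSqZeroExt.fstHom L L L).toRingHom m) = a at hx ⊢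
    generalize grMap (TrivSqZeroExt.fstHom L L L).toRingHom (gX r (Dual L)).det = b at h2
    generalize grMap (TrivSqZeroExt.fstHom L L L).toRingHom (gDi r (Dual L)) = b' at hx h2
    have h3 : a * (b * b') ^ n = 0 := by
      rw [mul_pow, mul_comm (b ^ n), ← mul_assoc, hx, zero_mul]
    rw [h2, one_pow, mul_one] at h3
    exact h3
  have h2 : MvPolynomial.map (TrivSqZeroExt.fstHom L L L).toRingHom m = 0 := by
    apply algebraMap_gr_injective
    rw [h1, map_zero]
  have h3 : ∀ α, (coeff α m).fst = 0 := by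
    intro α
    have := congrArg (coeff α) h2
    rw [coeff_map, coeff_zero] at this
    exact this
  have h4 : m * m = 0 := by
    ext1 α
    rw [coeff_mul, coeff_zero]
    refine sum_eq_zero fun x _ => ?_
    apply dual_ext
    · rw [TrivSqZeroExt.fst_mul, h3, zero_mul]; rfl
    · rw [TrivSqZeroExt.snd_mul, h3, h3]; simp
  rw [mul_mul_mul_comm, ← map_mul, h4, map_zero, zero_mul]

/-- integrality can be tested modulo a nil ideal -/
theorem isIntegral_of_map {L C K : Type*} [CommRing L] [CommRing C] [Algebra L C] [CommRing K]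
    [Algebra L K] (φ : C →ₐ[L] K) (hker : ∀ x, φ x = 0 → x * x = 0) (B : Subalgebra L C) (x : C)
    (h : IsIntegral (B.map φ) (φ x)) : IsIntegral B x := by
  obtain ⟨p, hp, hp'⟩ := h
  let θ : B →+* B.map φ :=
    { toFun := fun a => ⟨φ a, a, a.2, rfl⟩
      map_one' := Subtype.ext (by simp)
      map_mul' := fun a b => Subtype.ext (by simp)
      map_zero' := Subtype.ext (by simp)
      map_add' := fun a b => Subtype.ext (by simp) }
  have hθ : Function.Surjective θ := by
    rintro ⟨_, x, hx, rfl⟩
    exact ⟨⟨x, hx⟩, rfl⟩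
  have hpl : p ∈ Polynomial.lifts θ :=
    (Polynomial.lifts_iff_coeff_lifts p).2 fun n => hθ _
  obtain ⟨q, hq, -, hqm⟩ := Polynomial.lifts_and_natDegree_eq_and_monic hpl hp
  have h1 : φ (Polynomial.eval₂ (algebraMap B C) x q) = 0 := by
    have h2 : Polynomial.eval₂ (algebraMap (B.map φ) K) (φ x) p =
        φ.toRingHom (Polynomial.eval₂ (algebraMap B C) x q) := by
      rw [← hq, Polynomial.eval₂_map, Polynomial.hom_eval₂]
      rfl
    rw [hp'] at h2
    exact h2.symm
  refine ⟨q * q, hqm.mul hqm, ?_⟩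
  rw [Polynomial.eval₂_mul]
  exact hker _ h1

theorem act_smul_inv (hd : 1 ≤ d) {a b : A} (hab : a * b = 1) {g : Matrix (Fin r) (Fin r) A}
    (hg : IsUnit g.det) (c : Idx r d → A) :
    act (a • g) (a • g)⁻¹ c = b ^ (d - 1) • act g g⁻¹ c := by
  have h1 : (a • g)⁻¹ = b • g⁻¹ := by
    apply Matrix.inv_eq_left_inv
    rw [Matrix.smul_mul, Matrix.mul_smul, smul_smul, Matrix.nonsing_inv_mul _ hg, mul_comm b a,
      hab, one_smul]
  rw [h1, act_smul_left, act_smul_right, smul_smul]
  refine congrArg (fun t => t • act g g⁻¹ c) ?_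
  obtain ⟨e, rfl⟩ : ∃ e, d = e + 1 := ⟨d - 1, by omega⟩
  rw [Nat.add_sub_cancel, pow_succ]
  calc a * (b ^ e * b) = (a * b) * b ^ e := by ring
    _ = b ^ e := by rw [hab, one_mul]

end Pool.Agent.Helper16.Endo
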