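import Pool.Agent.Helper16.Endo11

set_option autoImplicit false

namespace Pool.Agent.Helper16.Endo

open MvPolynomial Finset

universe u

variable {r d : ℕ} {L : Type u} [Field L]

theorem algebraMap_dual (a : L) : algebraMap L (Dual L) a = cst L a := rfl

theorem isUnit_dual {x : Dual L} (h : x.fst ≠ 0) : IsUnit x :=
  TrivSqZeroExt.isUnit_iff_isUnit_fst.2 (IsUnit.mk0 _ h)

theorem fst_aeval_pt (c v : Idx r d → L) (E : MvPolynomial (Idx r d) L) :
    (aeval (pt c v) E).fst = eval c E := by
  have h1 := DFunLike.congr_fun (comp_aeval (pt c v) (TrivSqZeroExt.fstHom L L L)) E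
  have h2 : (fun i => (TrivSqZeroExt.fstHom L L L) (pt c v i)) = c := by
    funext p; exact pt_fst c v p
  rw [h2] at h1
  exact h1

theorem aeval_pt (c v : Idx r d → L) (E : MvPolynomial (Idx r d) L) :
    aeval (pt c v) E = cst L (eval c E) + eps L * cst L (∑ s, v s * eval c (pderiv s E)) := by
  have h1 := aeval_taylor (R := L) (eps L) eps_mul_eps (fun p => cst L (c p))
    (fun p => cst L (v p)) E
  have h2 : ∀ q : MvPolynomial (Idx r d) L, aeval (fun p => cst L (c p)) q = cst L (eval c q) := by
    intro q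
    have := aeval_algebraMap_hom (R := L) (S := L) (T := Dual L) q c
    rw [← coe_aeval_eq_eval]
    exact this.symm
  rw [h2] at h1
  have h3 : ∑ i, cst L (v i) * aeval (fun p => cst L (c p)) (pderiv i E) =
      cst L (∑ s, v s * eval c (pderiv s E)) := by
    rw [map_sum]
    exact sum_congr rfl fun i _ => by rw [h2, map_mul]
  rw [h3] at h1
  exact h1

/-! ### scaling automorphisms -/

/-- scaling automorphism -/
noncomputable def sc (a : Lˣ) : GR r (Dual L) →ₐ[Dual L] GR r (Dual L) :=
  grLift (algebraMap L (GR r (Dual L)) a • gX r (Dual L)) (by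
    rw [Matrix.det_smul]
    exact ((a.isUnit.map _).pow _).mul isUnit_gX_det)

theorem sc_gX (a : Lˣ) (i j : Fin r) :
    sc a (gX r (Dual L) i j) = algebraMap L (GR r (Dual L)) a * gX r (Dual L) i j := by
  unfold sc
  rw [grLift_gX]
  rfl

theorem algebraMap_L (a : L) : algebraMap L (GR r (Dual L)) a =
    algebraMap (Dual L) (GR r (Dual L)) (algebraMap L (Dual L) a) :=
  IsScalarTower.algebraMap_apply L (Dual L) (GR r (Dual L)) a

theorem sc_L (a : Lˣ) (b : L) : sc a (algebraMap L (GR r (Dual L)) b) = algebraMap L _ b := by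
  rw [algebraMap_L, AlgHom.commutes]

theorem sc_sc (a b : Lˣ) (x : GR r (Dual L)) : sc a (sc b x) = sc (a * b) x := by
  have h : ((sc (r := r) a).comp (sc b)).toRingHom = (sc (a * b)).toRingHom := by
    apply gr_hom_ext
    · intro x
      show sc a (sc b (algebraMap _ _ x)) = sc (a * b) (algebraMap _ _ x)
      rw [AlgHom.commutes, AlgHom.commutes, AlgHom.commutes]
    · intro i j
      show sc a (sc b (gX r (Dual L) i j)) = sc (a * b) (gX r (Dual L) i j)
      rw [sc_gX, map_mul, sc_L, sc_gX, sc_gX, Units.val_mul, map_mul]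
      ring
  exact congrArg (fun f => f x) h

theorem sc_det (a : Lˣ) :
    sc a (gX r (Dual L)).det = algebraMap L (GR r (Dual L)) (a ^ r) * (gX r (Dual L)).det := by
  rw [AlgHom.map_det]
  have : (sc a).toRingHom.mapMatrix (gX r (Dual L)) =
      algebraMap L (GR r (Dual L)) a • gX r (Dual L) := by
    ext1 i j; exact sc_gX a i j
  have h2 : (sc a).mapMatrix (gX r (Dual L)) =
      algebraMap L (GR r (Dual L)) a • gX r (Dual L) := this
  rw [h2, Matrix.det_smul, Fintype.card_fin, map_pow]

theorem sc_gy (hd : 1 ≤ d) {a : Lˣ} (ha : a ^ (d - 1) = 1) (c : Idx r d → Dual L)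
    (p : Idx r d) : sc a (gy c p) = gy c p := by
  have h1 := hom_gy (sc (r := r) a).toRingHom c
  have h2 : (gX r (Dual L)).map (sc a).toRingHom =
      algebraMap L (GR r (Dual L)) a • gX r (Dual L) := by
    ext1 i j; exact sc_gX a i j
  have h3 : (fun p => (sc (r := r) a).toRingHom (algebraMap (Dual L) (GR r (Dual L)) (c p))) =
      fun p => algebraMap (Dual L) (GR r (Dual L)) (c p) := by
    funext p; exact (sc a).commutes _
  have h4 : algebraMap L (GR r (Dual L)) a * algebraMap L (GR r (Dual L)) (a⁻¹ : Lˣ) = 1 := by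
    rw [← map_mul, ← Units.val_mul, mul_inv_cancel, Units.val_one, map_one]
  rw [h2, h3, act_smul_inv hd h4 isUnit_gX_det] at h1
  have h5 : algebraMap L (GR r (Dual L)) (a⁻¹ : Lˣ) ^ (d - 1) = 1 := by
    rw [← map_pow, ← Units.val_pow_eq_pow_val, inv_pow, ha, inv_one, Units.val_one, map_one]
  rw [h5, one_smul] at h1
  exact congrFun h1 p

/-- scaling automorphisms and points -/
theorem hom_sc {S : Type*} [CommRing S] [Algebra L S] (φ ψ : GR r (Dual L) →ₐ[L] S) (a : Lˣ)
    (h1 : ∀ i j, φ (gX r (Dual L) i j) = algebraMap L S a * ψ (gX r (Dual L) i j))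
    (h2 : ∀ x : Dual L, φ (algebraMap (Dual L) (GR r (Dual L)) x) =
      ψ (algebraMap (Dual L) (GR r (Dual L)) x)) (x : GR r (Dual L)) : φ x = ψ (sc a x) := by
  have h : φ.toRingHom = ψ.toRingHom.comp (sc a).toRingHom := by
    apply gr_hom_ext
    · intro x
      show φ (algebraMap _ _ x) = ψ (sc a (algebraMap _ _ x))
      rw [AlgHom.commutes, h2]
    · intro i j
      show φ (gX r (Dual L) i j) = ψ (sc a (gX r (Dual L) i j))
      rw [sc_gX, map_mul, AlgHom.commutes, h1]
  exact congrArg (fun f => f x) h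

/-- every element of a subalgebra -/
theorem grd_top (U : Subalgebra L (GR r (Dual L)))
    (h1 : algebraMap (Dual L) (GR r (Dual L)) (eps L) ∈ U)
    (h2 : ∀ i j, gX r (Dual L) i j ∈ U) (h3 : gDi r (Dual L) ∈ U) (x : GR r (Dual L)) : x ∈ U := by
  refine gr_top U.toSubring ?_ h2 h3 x
  intro a
  show algebraMap (Dual L) (GR r (Dual L)) a ∈ U
  rw [dual_eq a, map_add, map_mul, ← algebraMap_dual, ← algebraMap_dual, ← algebraMap_L,
    ← algebraMap_L]
  exact U.add_mem (U.algebraMap_mem _) (U.mul_mem h1 (U.algebraMap_mem _))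

instance grd_finiteType : Algebra.FiniteType L (GR r (Dual L)) := by
  have h0 : Module.Finite L (Dual L) := inferInstanceAs (Module.Finite L (L × L))
  have h1 : Algebra.FiniteType (MvPolynomial (Ent r) (Dual L)) (GR r (Dual L)) :=
    IsLocalization.finiteType_of_monoid_fg (Submonoid.powers (gen r (Dual L)).det) _
  have h2 : Algebra.FiniteType (Dual L) (GR r (Dual L)) :=
    Algebra.FiniteType.trans (S := MvPolynomial (Ent r) (Dual L)) inferInstance h1
  exact Algebra.FiniteType.trans (S := Dual L) inferInstance h2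

end Pool.Agent.Helper16.Endo
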