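import Pool.Agent.Helper16.Endo12

set_option autoImplicit false

namespace Pool.Agent.Helper16.Endo

open MvPolynomial Finset

universe u

variable {r d : ℕ} {L : Type u} [Field L]

/-- semi-invariance: `det(g)^κ E(g c g⁻¹) = E(c)` -/
def SemiInv (κ : ℕ) (E : MvPolynomial (Idx r d) L) : Prop :=
  ∀ (S : Type u) [CommRing S] [Algebra L S] (g : Matrix (Fin r) (Fin r) S), IsUnit g.det →
    ∀ c : Idx r d → S, g.det ^ κ * aeval (act g g⁻¹ c) E = aeval c E

/-- the homomorphism `ε ↦ 0` on coordinates -/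
theorem hom_eps {S : Type*} [Field S] (φ : GR r (Dual L) →+* S) :
    φ (algebraMap (Dual L) (GR r (Dual L)) (eps L)) = 0 := by
  have h : φ (algebraMap (Dual L) (GR r (Dual L)) (eps L)) *
      φ (algebraMap (Dual L) (GR r (Dual L)) (eps L)) = 0 := by
    rw [← map_mul, ← map_mul, eps_mul_eps, map_zero, map_zero]
  exact mul_self_eq_zero.1 h

theorem hom_pt {S : Type*} [CommRing S] [Algebra L S] (φ : GR r (Dual L) →ₐ[L] S)
    (c v : Idx r d → L) (p : Idx r d) :
    φ (algebraMap (Dual L) (GR r (Dual L)) (pt c v p)) = algebraMap L S (c p) +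
      φ (algebraMap (Dual L) (GR r (Dual L)) (eps L)) * algebraMap L S (v p) := by
  unfold pt
  rw [map_add, map_mul, ← algebraMap_dual, ← algebraMap_dual, ← algebraMap_L, ← algebraMap_L,
    map_add, map_mul, AlgHom.commutes, AlgHom.commutes]

theorem act_injective {A : Type*} [CommRing A] {g : Matrix (Fin r) (Fin r) A} (hg : IsUnit g.det)
    {c c' : Idx r d → A} (h : act g g⁻¹ c = act g g⁻¹ c') : c = c' := by
  have h1 := congrArg (act g⁻¹ g) h
  rw [act_act, act_act, Matrix.nonsing_inv_mul _ hg, act_one, act_one] at h1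
  exact h1

theorem act_mul_inv {A : Type*} [CommRing A] (g h : Matrix (Fin r) (Fin r) A)
    (c : Idx r d → A) : act g g⁻¹ (act h h⁻¹ c) = act (g * h) (g * h)⁻¹ c := by
  rw [act_act, Matrix.mul_inv_rev]

theorem noZero_ne_zero {c : Idx r d → L} (hr : 1 ≤ r) (hc : NoZero c) : c ≠ 0 := by
  rintro rfl
  have h := hc (fun _ => 1) (fun i => by simp [form])
  have := congrFun h ⟨0, by omega⟩
  exact one_ne_zero this

/-- the reduction map -/
noncomputable def redL (r : ℕ) (L : Type u) [Field L] : GR r (Dual L) →ₐ[L] GR r L :=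
  AlgHom.mk (grMap (TrivSqZeroExt.fstHom L L L).toRingHom) (fun a => by
    show grMap (TrivSqZeroExt.fstHom L L L).toRingHom (algebraMap L (GR r (Dual L)) a) = _
    rw [algebraMap_L, grMap_algebraMap]
    rfl)

theorem redL_apply (x : GR r (Dual L)) :
    redL r L x = grMap (TrivSqZeroExt.fstHom L L L).toRingHom x := rfl

theorem redL_gX (i j : Fin r) : redL r L (gX r (Dual L) i j) = gX r L i j := by
  rw [redL_apply, grMap_gX]

theorem redL_ker (x : GR r (Dual L)) (hx : redL r L x = 0) : x * x = 0 := by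
  rw [redL_apply] at hx
  exact grMap_fst_ker hx

theorem redL_gy (c v : Idx r d → L) (p : Idx r d) : redL r L (gy (pt c v) p) = gy c p := by
  rw [redL_apply]
  have h1 := grMap_gy (r := r) (TrivSqZeroExt.fstHom L L L).toRingHom (pt c v)
  have h2 : (fun p => (TrivSqZeroExt.fstHom L L L).toRingHom (pt c v p)) = c := by
    funext p; exact pt_fst c v p
  rw [h2] at h1
  exact congrFun h1 p

theorem redL_det : redL r L (gX r (Dual L)).det = (gX r L).det := by
  rw [redL_apply, grMap_det]

theorem redL_dual (x : Dual L) : redL r L (algebraMap (Dual L) (GR r (Dual L)) x) =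
    algebraMap L (GR r L) x.fst := by
  rw [redL_apply, grMap_algebraMap]; rfl

set_option linter.unusedSectionVars false

section main

variable [IsAlgClosed L] [CharZero L] (hr : 1 ≤ r) (hd : 2 ≤ d) {c v : Idx r d → L}
  (hc : NoZero c)
  (hstab : ∀ g : Matrix (Fin r) (Fin r) L, IsUnit g.det → act g g⁻¹ c = c → ∃ a : L, g = a • 1)
  (hv : ∀ ξ : Matrix (Fin r) (Fin r) L, v ≠ lie ξ c)
  {κ e₀ : ℕ} (hκ : 0 < κ) (hκe : r * κ = e₀ * (d - 1))
  {E : MvPolynomial (Idx r d) L} (hE : SemiInv κ E) (hEc : eval c E ≠ 0)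

/-- the algebra generated by the orbit point and the inverse of the semi-invariant -/
noncomputable def bAlg (κ : ℕ) (E : MvPolynomial (Idx r d) L) (c v : Idx r d → L) :
    Subalgebra L (GR r (Dual L)) :=
  Algebra.adjoin L (Set.range (gy (pt c v)) ∪
    {(gX r (Dual L)).det ^ κ * algebraMap (Dual L) (GR r (Dual L))
      (Ring.inverse (aeval (pt c v) E))})

include hE in
theorem gy_semi : (gX r (Dual L)).det ^ κ * aeval (gy (pt c v)) E =
    algebraMap (Dual L) (GR r (Dual L)) (aeval (pt c v) E) := by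
  have h1 := hE (GR r (Dual L)) (gX r (Dual L)) isUnit_gX_det
    (fun p => algebraMap (Dual L) (GR r (Dual L)) (pt c v p))
  rw [aeval_algebraMap_hom]
  exact h1

include hEc in
theorem isUnit_Ehat : IsUnit (aeval (pt c v) E : Dual L) := by
  apply isUnit_dual
  rw [fst_aeval_pt]
  exact hEc

include hE hEc in
theorem Ei_mul : ((gX r (Dual L)).det ^ κ * algebraMap (Dual L) (GR r (Dual L))
      (Ring.inverse (aeval (pt c v) E))) * aeval (gy (pt c v)) E = 1 := by
  rw [mul_right_comm, gy_semi hE, ← map_mul, Ring.mul_inverse_cancel _ (isUnit_Ehat hEc), map_one]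

theorem bAlg_gy (κ : ℕ) (E : MvPolynomial (Idx r d) L) (c v : Idx r d → L) (p : Idx r d) :
    gy (pt c v) p ∈ bAlg κ E c v := Algebra.subset_adjoin (Or.inl ⟨p, rfl⟩)

theorem bAlg_Ei (κ : ℕ) (E : MvPolynomial (Idx r d) L) (c v : Idx r d → L) :
    (gX r (Dual L)).det ^ κ * algebraMap (Dual L) (GR r (Dual L))
      (Ring.inverse (aeval (pt c v) E)) ∈ bAlg κ E c v := Algebra.subset_adjoin (Or.inr rfl)

theorem bAlg_aeval (κ : ℕ) (E : MvPolynomial (Idx r d) L) (c v : Idx r d → L)
    (q : MvPolynomial (Idx r d) L) : aeval (gy (pt c v)) q ∈ bAlg κ E c v := by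
  induction q using MvPolynomial.induction_on with
  | C a => rw [aeval_C]; exact Subalgebra.algebraMap_mem _ _
  | add p q hp hq => rw [map_add]; exact Subalgebra.add_mem _ hp hq
  | mul_X p l hp =>
    rw [map_mul, aeval_X]; exact Subalgebra.mul_mem _ hp (bAlg_gy κ E c v l)

include hd hc hκ hE hEc in
theorem bAlg_integral (x : GR r (Dual L)) : IsIntegral (bAlg κ E c v) x := by
  have hdom : IsDomain (GR r L) := gr_isDomain
  have hL : ∀ a : L, IsIntegral (bAlg κ E c v) (algebraMap L (GR r (Dual L)) a) := by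
    intro a
    have h1 : algebraMap L (GR r (Dual L)) a ∈ bAlg κ E c v := Subalgebra.algebraMap_mem _ _
    exact isIntegral_algebraMap (R := bAlg κ E c v) (x := ⟨_, h1⟩)
  have heps : IsIntegral (bAlg κ E c v) (algebraMap (Dual L) (GR r (Dual L)) (eps L)) := by
    refine IsIntegral.of_pow (n := 2) two_pos ?_
    rw [pow_two, ← map_mul, eps_mul_eps, map_zero]
    exact isIntegral_zero
  have hdual : ∀ a : Dual L, IsIntegral (bAlg κ E c v) (algebraMap (Dual L) (GR r (Dual L)) a) := by
    intro a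
    rw [dual_eq a, map_add, map_mul, ← algebraMap_dual, ← algebraMap_dual, ← algebraMap_L,
      ← algebraMap_L]
    exact (hL _).add (heps.mul (hL _))
  refine grd_top (((integralClosure (bAlg κ E c v) (GR r (Dual L))).restrictScalars L))
    heps ?_ ?_ x
  · intro i j
    show IsIntegral (bAlg κ E c v) (gX r (Dual L) i j)
    refine isIntegral_of_map (redL r L) redL_ker _ _ ?_
    rw [redL_gX]
    refine integral_of_orbit (S := GR r L) hd hc.strong isUnit_gX_det _ ?_ hκ ?_ i j
    · intro p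
      exact ⟨gy (pt c v) p, bAlg_gy κ E c v p, redL_gy c v p⟩
    · have h1 : redL r L ((gX r (Dual L)).det ^ κ * algebraMap (Dual L) (GR r (Dual L))
          (Ring.inverse (aeval (pt c v) E))) = (gX r L).det ^ κ *
            algebraMap L (GR r L) (Ring.inverse (aeval (pt c v) E)).fst := by
        rw [map_mul, map_pow, redL_det, redL_dual]
      have h2 : eval c E * (Ring.inverse (aeval (pt c v) E : Dual L)).fst = 1 := by
        have h3 := Ring.mul_inverse_cancel _ (isUnit_Ehat (c := c) (v := v) hEc)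
        have h4 := congrArg TrivSqZeroExt.fst h3
        rw [TrivSqZeroExt.fst_mul, fst_aeval_pt] at h4
        exact h4
      have h3 : (gX r L).det ^ κ = algebraMap L (GR r L) (eval c E) *
          redL r L ((gX r (Dual L)).det ^ κ * algebraMap (Dual L) (GR r (Dual L))
          (Ring.inverse (aeval (pt c v) E))) := by
        rw [h1, mul_left_comm, ← map_mul, h2, map_one, mul_one]
      rw [h3]
      refine Subalgebra.mul_mem _ (Subalgebra.algebraMap_mem _ _) ?_
      exact ⟨_, bAlg_Ei κ E c v, rfl⟩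
  · show IsIntegral (bAlg κ E c v) (gDi r (Dual L))
    refine IsIntegral.of_pow (n := κ) hκ ?_
    have h1 : gDi r (Dual L) ^ κ = aeval (gy (pt c v)) E *
        algebraMap (Dual L) (GR r (Dual L)) (Ring.inverse (aeval (pt c v) E)) := by
      have h2 := gy_semi (c := c) (v := v) hE
      calc gDi r (Dual L) ^ κ = gDi r (Dual L) ^ κ *
            algebraMap (Dual L) (GR r (Dual L)) (aeval (pt c v) E *
              Ring.inverse (aeval (pt c v) E)) := by
            rw [Ring.mul_inverse_cancel _ (isUnit_Ehat hEc), map_one, mul_one]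
        _ = (gDi r (Dual L) * (gX r (Dual L)).det) ^ κ * (aeval (gy (pt c v)) E *
              algebraMap (Dual L) (GR r (Dual L)) (Ring.inverse (aeval (pt c v) E))) := by
            rw [map_mul, ← h2, mul_pow]; ring
        _ = _ := by rw [gDi_mul, one_pow, one_mul]
    rw [h1]
    refine IsIntegral.mul ?_ (hdual _)
    exact isIntegral_algebraMap (R := bAlg κ E c v) (x := ⟨_, bAlg_aeval κ E c v E⟩)

theorem bAlg_fg : (bAlg κ E c v).FG := by
  refine Subalgebra.fg_def.2 ⟨_, ?_, rfl⟩
  exact (Set.finite_range _).union (Set.finite_singleton _)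

include hd hκe in
theorem bAlg_sc {a : Lˣ} (ha : a ^ (d - 1) = 1) {x : GR r (Dual L)} (hx : x ∈ bAlg κ E c v) :
    sc a x = x := by
  unfold bAlg at hx
  refine Algebra.adjoin_induction (p := fun x _ => sc a x = x) ?_ ?_ ?_ ?_ hx
  · rintro x (⟨p, rfl⟩ | rfl)
    · exact sc_gy (by omega) ha _ p
    · rw [map_mul, map_pow, sc_det, AlgHom.commutes, mul_pow, ← map_pow, ← pow_mul, hκe,
        mul_comm e₀, pow_mul, ← Units.val_pow_eq_pow_val, ha, Units.val_one, one_pow, map_one,
        one_mul]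
  · intro b; exact sc_L a b
  · intro x y _ _ hx hy; rw [map_add, hx, hy]
  · intro x y _ _ hx hy; rw [map_mul, hx, hy]

include hr hd hc hstab in
theorem bAlg_fib (p q : GR r (Dual L) →ₐ[L] L) (h : ∀ b ∈ bAlg κ E c v, p b = q b) :
    ∃ a : Lˣ, a ^ (d - 1) = 1 ∧ ∀ x, p x = q (sc a x) := by
  have hp := hom_gy (r := r) (p : GR r (Dual L) →+* L) (pt c v)
  have hq := hom_gy (r := r) (q : GR r (Dual L) →+* L) (pt c v)
  have hpt : ∀ φ : GR r (Dual L) →ₐ[L] L,
      (fun p => (φ : GR r (Dual L) →+* L) (algebraMap (Dual L) (GR r (Dual L)) (pt c v p))) = c := by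
    intro φ
    funext p
    have h1 := hom_pt φ c v p
    have h2 := hom_eps (φ : GR r (Dual L) →+* L)
    have h3 : φ (algebraMap (Dual L) (GR r (Dual L)) (eps L)) = 0 := h2
    rw [h3, zero_mul, add_zero] at h1
    exact h1
  rw [hpt] at hp hq
  set P := (gX r (Dual L)).map (p : GR r (Dual L) →+* L) with hP
  set Q := (gX r (Dual L)).map (q : GR r (Dual L) →+* L) with hQ
  have hPu : IsUnit P.det := map_gX_of_hom _
  have hQu : IsUnit Q.det := map_gX_of_hom _
  have h1 : act P P⁻¹ c = act Q Q⁻¹ c := by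
    rw [← hp, ← hq]
    funext s
    exact h _ (bAlg_gy κ E c v s)
  have h2 : act (Q⁻¹ * P) (Q⁻¹ * P)⁻¹ c = c := by
    rw [← act_mul_inv, h1, act_mul_inv, Matrix.nonsing_inv_mul _ hQu, inv_one, act_one]
  have hu : IsUnit (Q⁻¹ * P).det := by
    rw [Matrix.det_mul]
    exact (Matrix.isUnit_nonsing_inv_det _ hQu).mul hPu
  obtain ⟨a, ha⟩ := hstab _ hu h2
  have h3 : P = a • Q := by
    calc P = Q * (Q⁻¹ * P) := by rw [← mul_assoc, Matrix.mul_nonsing_inv _ hQu, one_mul]
      _ = a • Q := by rw [ha, Matrix.mul_smul, mul_one]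
  have ha0 : a ≠ 0 := by
    rintro rfl
    have : Nonempty (Fin r) := ⟨⟨0, by omega⟩⟩
    rw [h3, zero_smul, Matrix.det_zero] at hPu
    exact not_isUnit_zero hPu
  have h4 : (a⁻¹ ^ (d - 1) - 1) • act Q Q⁻¹ c = 0 := by
    rw [_root_.sub_smul, one_smul, ← act_smul_inv (by omega) (mul_inv_cancel₀ ha0) hQu, ← h3,
      h1, sub_self]
  have h5 : act Q Q⁻¹ c ≠ 0 := by
    intro h0
    apply noZero_ne_zero hr hc
    apply act_injective hQu
    rw [h0]
    have := act_smul (0 : L) Q Q⁻¹ c
    rw [zero_smul, zero_smul] at this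
    exact this.symm
  have h6 : a⁻¹ ^ (d - 1) = 1 := by
    rcases smul_eq_zero.1 h4 with h | h
    · exact sub_eq_zero.1 h
    · exact absurd h h5
  refine ⟨Units.mk0 a ha0, ?_, ?_⟩
  · ext
    rw [Units.val_pow_eq_pow_val, Units.val_mk0, Units.val_one]
    rw [inv_pow] at h6
    exact inv_eq_one.1 h6
  · refine hom_sc p q _ ?_ ?_
    · intro i j
      have := congrFun (congrFun h3 i) j
      exact this
    · intro x
      rw [dual_eq x, map_add, map_mul, ← algebraMap_dual, ← algebraMap_dual, ← algebraMap_L,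
        ← algebraMap_L, map_add, map_mul, map_add, map_mul]
      have e1 : p (algebraMap (Dual L) (GR r (Dual L)) (eps L)) = 0 :=
        hom_eps (p : GR r (Dual L) →+* L)
      have e2 : q (algebraMap (Dual L) (GR r (Dual L)) (eps L)) = 0 :=
        hom_eps (q : GR r (Dual L) →+* L)
      rw [e1, e2, AlgHom.commutes, AlgHom.commutes, AlgHom.commutes, zero_mul, zero_mul]

include hd hc hv in
theorem bAlg_unr (Φ : GR r (Dual L) →ₐ[L] Dual L) (h : ∀ b ∈ bAlg κ E c v, (Φ b).snd = 0)
    (x : GR r (Dual L)) : (Φ x).snd = 0 := by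
  set G := (gX r (Dual L)).map (Φ : GR r (Dual L) →+* Dual L) with hG
  have hGu : IsUnit G.det := map_gX_of_hom _
  set G₀ : Matrix (Fin r) (Fin r) L := G.map (TrivSqZeroExt.fstHom L L L).toRingHom with hG₀
  have hG₀u : IsUnit G₀.det := by
    rw [hG₀, det_map_hom]; exact hGu.map _
  set G₁ : Matrix (Fin r) (Fin r) L := G.map TrivSqZeroExt.snd with hG₁
  set ξ := G₀⁻¹ * G₁ with hξ
  have hGG : G₁ = G₀ * ξ := by
    rw [hξ, ← mul_assoc, Matrix.mul_nonsing_inv _ hG₀u, one_mul]
  have hG2 : G = G₀.map (cst L) * (1 + eps L • ξ.map (cst L)) := by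
    rw [mul_add, mul_one, Matrix.mul_smul, ← Matrix.map_mul, ← hGG]
    ext1 i j
    exact dual_eq (G i j)
  have hginv : G₀.map (cst L) * G₀⁻¹.map (cst L) = 1 := by
    rw [← Matrix.map_mul, Matrix.mul_nonsing_inv _ hG₀u,
      Matrix.map_one _ (map_zero _) (map_one _)]
  have hG3 : G⁻¹ = (1 - eps L • ξ.map (cst L)) * G₀⁻¹.map (cst L) := by
    apply Matrix.inv_eq_right_inv
    rw [hG2]
    calc G₀.map (cst L) * (1 + eps L • ξ.map (cst L)) *
          ((1 - eps L • ξ.map (cst L)) * G₀⁻¹.map (cst L))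
        = G₀.map (cst L) * ((1 + eps L • ξ.map (cst L)) *
            (1 - eps L • ξ.map (cst L))) * G₀⁻¹.map (cst L) := by
          simp only [mul_assoc]
      _ = 1 := by
          have h1 : (1 + eps L • ξ.map (cst L)) * (1 - eps L • ξ.map (cst L)) = 1 := by
            rw [add_mul, mul_sub, mul_sub, one_mul, mul_one, one_mul, Matrix.smul_mul,
              Matrix.mul_smul, smul_smul, eps_mul_eps, zero_smul]
            abel
          rw [h1, mul_one, hginv]
  set e : Dual L := Φ (algebraMap (Dual L) (GR r (Dual L)) (eps L)) with he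
  have hee : e * e = 0 := by
    rw [he, ← map_mul, ← map_mul, eps_mul_eps, map_zero, map_zero]
  have he0 : e.fst = 0 := by
    have := congrArg TrivSqZeroExt.fst hee
    rw [TrivSqZeroExt.fst_mul] at this
    exact mul_self_eq_zero.1 this
  set t : L := e.snd with ht
  have het : e = eps L * cst L t := by
    rw [dual_eq e, he0, map_zero, zero_add]
  have hpt : (fun p => (Φ : GR r (Dual L) →+* Dual L)
      (algebraMap (Dual L) (GR r (Dual L)) (pt c v p))) = pt c (t • v) := by
    funext p
    have h1 := hom_pt Φ c v p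
    have h2 : (Φ : GR r (Dual L) →+* Dual L)
      (algebraMap (Dual L) (GR r (Dual L)) (pt c v p)) = Φ
      (algebraMap (Dual L) (GR r (Dual L)) (pt c v p)) := rfl
    rw [h2, h1, ← he, het, algebraMap_dual, algebraMap_dual]
    unfold pt
    rw [Pi.smul_apply, smul_eq_mul, map_mul, mul_assoc]
  have hgy := hom_gy (r := r) (Φ : GR r (Dual L) →+* Dual L) (pt c v)
  rw [hpt, ← hG, hG3] at hgy
  rw [hG2, ← act_act, act_inf_pt (by omega), act_pt] at hgy
  have h1 : act G₀ G₀⁻¹ (t • v + lie ξ c) = 0 := by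
    funext p
    have h2 := congrFun hgy p
    have h3 := h _ (bAlg_gy κ E c v p)
    have h4 : (Φ (gy (pt c v) p)).snd = act G₀ G₀⁻¹ (t • v + lie ξ c) p := by
      have h5 : Φ (gy (pt c v) p) = pt (act G₀ G₀⁻¹ c) (act G₀ G₀⁻¹ (t • v + lie ξ c)) p := h2
      rw [h5, pt_snd]
    rw [← h4, h3]; rfl
  have h2 : t • v + lie ξ c = 0 := by
    apply act_injective hG₀u
    rw [h1]
    have := act_smul (0 : L) G₀ G₀⁻¹ c
    rw [zero_smul, zero_smul] at this
    exact this.symm
  have ht0 : t = 0 := by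
    by_contra hne
    apply hv (-t⁻¹ • ξ)
    rw [lie_smul]
    have h3 : lie ξ c = - (t • v) := by
      rw [eq_neg_iff_add_eq_zero, add_comm]; exact h2
    rw [h3, smul_neg, neg_smul, neg_neg, smul_smul, inv_mul_cancel₀ hne, one_smul]
  have hξ0 : ξ = 0 := by
    rw [ht0, zero_smul, zero_add] at h2
    exact hc.lie_injective hd h2
  have hG₁0 : G₁ = 0 := by rw [hGG, hξ0, mul_zero]
  have hGcst : G = G₀.map (cst L) := by
    rw [hG2, hξ0, Matrix.map_zero _ (map_zero _), smul_zero, add_zero, mul_one]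
  let U : Subalgebra L (GR r (Dual L)) :=
    { carrier := {x | (Φ x).snd = 0}
      mul_mem' := fun {a b} ha hb => by
        simp only [Set.mem_ofPred_eq] at ha hb ⊢
        rw [map_mul, TrivSqZeroExt.snd_mul, ha, hb]; simp
      add_mem' := fun {a b} ha hb => by
        simp only [Set.mem_ofPred_eq] at ha hb ⊢
        rw [map_add, TrivSqZeroExt.snd_add, ha, hb, add_zero]
      algebraMap_mem' := fun a => by
        simp only [Set.mem_ofPred_eq]
        rw [AlgHom.commutes]; rfl }
  have hU : x ∈ U := by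
    refine grd_top U ?_ ?_ ?_ x
    · exact ht0
    · intro i j
      have := congrFun (congrFun hG₁0 i) j
      exact this
    · show (Φ (gDi r (Dual L))).snd = 0
      have h3 : Φ (gX r (Dual L)).det = cst L G₀.det := by
        have h4 : G.det = Φ (gX r (Dual L)).det := det_map_hom _ _
        rw [← h4, hGcst, det_map_hom]
      have h4 : Φ (gX r (Dual L)).det * Φ (gDi r (Dual L)) = 1 := hom_gDi Φ.toRingHom
      rw [h3] at h4
      have h5 := congrArg TrivSqZeroExt.snd h4
      rw [TrivSqZeroExt.snd_mul, snd_cst, fst_cst] at h5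
      have h6 : G₀.det * (Φ (gDi r (Dual L))).snd = 0 := by
        simpa using h5
      exact (mul_eq_zero.1 h6).resolve_left hG₀u.ne_zero
  exact hU

include hr hd hc hstab hv hκ hκe hE hEc in
/-- the square-zero element lies in the algebra generated by the orbit -/
theorem eps_mem_bAlg : algebraMap (Dual L) (GR r (Dual L)) (eps L) ∈ bAlg κ E c v := by
  classical
  have hn : NeZero (d - 1) := ⟨by omega⟩
  let μ := rootsOfUnity (d - 1) L
  have hfin : Fintype μ := Fintype.ofFinite μ
  have hμ : ∀ a : μ, (a : Lˣ) ^ (d - 1) = 1 := fun a => (mem_rootsOfUnity _ _).1 a.2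
  have hcard : ((Fintype.card μ : ℕ) : L) ≠ 0 := by
    exact_mod_cast Fintype.card_ne_zero
  set n : L := ((Fintype.card μ : ℕ) : L) with hndef
  let π : GR r (Dual L) →ₗ[bAlg κ E c v] GR r (Dual L) :=
    { toFun := fun x => algebraMap L (GR r (Dual L)) n⁻¹ * ∑ a : μ, sc (a : Lˣ) x
      map_add' := fun x y => by
        simp only [map_add, sum_add_distrib, mul_add]
      map_smul' := fun b x => by
        have h1 : ∀ a : μ, sc (a : Lˣ) (b • x) = b • sc (a : Lˣ) x := by
          intro a
          have h2 : b • x = (b : GR r (Dual L)) * x := rfl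
          have h3 : b • sc (a : Lˣ) x = (b : GR r (Dual L)) * sc (a : Lˣ) x := rfl
          rw [h2, h3, map_mul, bAlg_sc hd hκe (hμ a) b.2]
        simp only [h1, RingHom.id_apply]
        rw [← smul_sum, mul_smul_comm] }
  have hπ : ∀ x, π x = algebraMap L (GR r (Dual L)) n⁻¹ * ∑ a : μ, sc (a : Lˣ) x := fun x => rfl
  have hsum : ∀ x, (∀ a : μ, sc (a : Lˣ) x = x) → π x = x := by
    intro x hx
    rw [hπ, sum_congr rfl (fun a _ => hx a), sum_const, card_univ, nsmul_eq_mul,
      ← map_natCast (algebraMap L (GR r (Dual L))), ← mul_assoc, ← map_mul,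
      inv_mul_cancel₀ hcard, map_one, one_mul]
  have hscπ : ∀ (a : μ) x, sc (a : Lˣ) (π x) = π x := by
    intro a x
    rw [hπ, map_mul, sc_L, map_sum]
    refine congrArg (fun t => _ * t) ?_
    simp_rw [sc_sc]
    exact Fintype.sum_equiv (Equiv.mulLeft a) _ _ (fun b => rfl)
  have hres := Pool.Agent.Helper19.EndoT1.T1_range_le (bAlg κ E c v) bAlg_fg
    (fun x => bAlg_integral hd hc hκ hE hEc x) π
    (fun b => hsum _ fun a => bAlg_sc hd hκe (hμ a) b.2)
    (fun x => hsum _ fun a => hscπ a x)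
    (fun p q hpq x => by
      obtain ⟨a, ha, hpqa⟩ := bAlg_fib hr hd hc hstab p q hpq
      rw [hpqa, hscπ ⟨a, (mem_rootsOfUnity _ _).2 ha⟩])
    (fun Φ hΦ x => bAlg_unr hd hc hv Φ hΦ x)
    (algebraMap (Dual L) (GR r (Dual L)) (eps L))
  rwa [hsum _ fun a => AlgHom.commutes _ _] at hres

end main

end Pool.Agent.Helper16.Endo
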