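import Pool.Agent.Helper16.Endo13

set_option autoImplicit false

namespace Pool.Agent.Helper16.Endo

open MvPolynomial Finset

universe u

variable {r d : ℕ} {L : Type u} [Field L]

set_option linter.unusedSectionVars false

theorem aeval_gy_map (c : Idx r d → Dual L) (q : MvPolynomial (Idx r d) L) :
    aeval (gy c) (MvPolynomial.map (algebraMap L (Dual L)) q) = aeval (gy c) q := by
  rw [aeval_map_algebraMap]

section main

variable [IsAlgClosed L] [CharZero L] (hr : 1 ≤ r) (hd : 2 ≤ d) {c v : Idx r d → L}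
  (hc : NoZero c)
  (hstab : ∀ g : Matrix (Fin r) (Fin r) L, IsUnit g.det → act g g⁻¹ c = c → ∃ a : L, g = a • 1)
  (hv : ∀ ξ : Matrix (Fin r) (Fin r) L, v ≠ lie ξ c)
  {κ e₀ : ℕ} (hκ : 0 < κ) (hκe : r * κ = e₀ * (d - 1))
  {E : MvPolynomial (Idx r d) L} (hE : SemiInv κ E) (hEc : eval c E ≠ 0)

include hE hEc in
theorem bAlg_clear {x : GR r (Dual L)} (hx : x ∈ bAlg κ E c v) :
    ∃ (J : ℕ) (Q : MvPolynomial (Idx r d) L),
      x * aeval (gy (pt c v)) E ^ J = aeval (gy (pt c v)) Q := by
  unfold bAlg at hx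
  refine Algebra.adjoin_induction (p := fun x _ => ∃ (J : ℕ) (Q : MvPolynomial (Idx r d) L),
      x * aeval (gy (pt c v)) E ^ J = aeval (gy (pt c v)) Q) ?_ ?_ ?_ ?_ hx
  · rintro x (⟨p, rfl⟩ | rfl)
    · exact ⟨0, X p, by rw [pow_zero, mul_one, aeval_X]⟩
    · exact ⟨1, 1, by rw [pow_one, Ei_mul hE hEc, map_one]⟩
  · intro a
    exact ⟨0, C a, by rw [pow_zero, mul_one, aeval_C]⟩
  · rintro x y _ _ ⟨J, Q, h⟩ ⟨J', Q', h'⟩
    refine ⟨J + J', Q * E ^ J' + Q' * E ^ J, ?_⟩
    rw [map_add, map_mul, map_mul, map_pow, map_pow, ← h, ← h', pow_add]; ring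
  · rintro x y _ _ ⟨J, Q, h⟩ ⟨J', Q', h'⟩
    refine ⟨J + J', Q * Q', ?_⟩
    rw [map_mul, ← h, ← h', pow_add]; ring

include hr hd hc hstab hv hκ hκe hE hEc in
/-- the square-zero element as a value of a Reynolds polynomial -/
theorem exists_rey_eps : ∃ (J T u : ℕ) (Q : MvPolynomial (Idx r d) L),
    Q.IsHomogeneous (J * e₀) ∧ ∃ β : L, β ≠ 0 ∧
      rey T u (MvPolynomial.map (algebraMap L (Dual L)) Q) (pt c v) = eps L * cst L β := by
  classical
  obtain ⟨J, Q, h⟩ := bAlg_clear hE hEc
    (eps_mem_bAlg hr hd hc hstab hv hκ hκe hE hEc)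
  set D := (gX r (Dual L)).det with hD
  set Eh : Dual L := aeval (pt c v) E with hEh
  have hsemi : D ^ κ * aeval (gy (pt c v)) E = algebraMap (Dual L) (GR r (Dual L)) Eh :=
    gy_semi hE
  set n := Q.totalDegree with hn
  set N := d * n with hN
  -- the identity in the coordinate ring
  have h1 : D ^ (N + κ * J) * aeval (gy (pt c v)) Q =
      D ^ N * algebraMap (Dual L) (GR r (Dual L)) (eps L * Eh ^ J) := by
    rw [← h, map_mul, map_pow, ← hsemi, pow_add, pow_mul, mul_pow]; ring
  have h2 : D ^ (N + κ * J) * aeval (gy (pt c v)) Q =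
      ∑ e ∈ range (n + 1), algebraMap (MvPolynomial (Ent r) (Dual L)) (GR r (Dual L))
        ((gen r (Dual L)).det ^ (N + κ * J - d * e) * aeval (gc (pt c v))
          (MvPolynomial.map (algebraMap L (Dual L)) (homogeneousComponent e Q))) := by
    conv_lhs => rw [← sum_homogeneousComponent Q, map_sum, mul_sum]
    refine sum_congr rfl fun e he => ?_
    have he' : d * e ≤ N := Nat.mul_le_mul_left _ (by have := mem_range.1 he; omega)
    rw [map_mul, aeval_gc ((homogeneousComponent_isHomogeneous e Q).map _), aeval_gy_map,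
      map_pow, ← gX_det, ← mul_assoc, ← pow_add]
    have : N + κ * J - d * e + d * e = N + κ * J := by omega
    rw [this]
  have h3 : algebraMap (MvPolynomial (Ent r) (Dual L)) (GR r (Dual L))
      (∑ e ∈ range (n + 1), (gen r (Dual L)).det ^ (N + κ * J - d * e) * aeval (gc (pt c v))
          (MvPolynomial.map (algebraMap L (Dual L)) (homogeneousComponent e Q))) =
      algebraMap (MvPolynomial (Ent r) (Dual L)) (GR r (Dual L))
        ((gen r (Dual L)).det ^ N * C (eps L * Eh ^ J)) := by
    have e0 : ∀ x : Dual L, algebraMap (MvPolynomial (Ent r) (Dual L)) (GR r (Dual L))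
        ((gen r (Dual L)).det ^ N * C x) =
          D ^ N * algebraMap (Dual L) (GR r (Dual L)) x := by
      intro x
      rw [map_mul, map_pow, ← gX_det,
        IsScalarTower.algebraMap_apply (Dual L) (MvPolynomial (Ent r) (Dual L)) (GR r (Dual L))]
      rfl
    rw [map_sum, ← h2, h1, e0]
  obtain ⟨⟨_, N', rfl⟩, h4⟩ := IsLocalization.exists_of_eq
    (M := Submonoid.powers (gen r (Dual L)).det) h3
  simp only at h4
  -- apply the functional
  set T := N' + N with hT
  have h5 := congrArg (Lam T) h4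
  have h6 : Lam T ((gen r (Dual L)).det ^ N' *
      ((gen r (Dual L)).det ^ N * C (eps L * Eh ^ J))) = eps L * Eh ^ J * (nrm r T : Dual L) := by
    rw [← mul_assoc, ← pow_add, mul_comm, Lam_C_mul, Lam_det]
  rw [h6, mul_sum, Lam_sum] at h5
  have h7 : ∀ e ∈ range (n + 1), Lam T ((gen r (Dual L)).det ^ N' *
      ((gen r (Dual L)).det ^ (N + κ * J - d * e) * aeval (gc (pt c v))
          (MvPolynomial.map (algebraMap L (Dual L)) (homogeneousComponent e Q)))) =
      if e = J * e₀ then rey T (T + κ * J - d * e)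
        (MvPolynomial.map (algebraMap L (Dual L)) (homogeneousComponent e Q)) (pt c v) else 0 := by
    intro e he
    have he' : d * e ≤ N := Nat.mul_le_mul_left _ (by have := mem_range.1 he; omega)
    have h8 : Lam T ((gen r (Dual L)).det ^ N' *
      ((gen r (Dual L)).det ^ (N + κ * J - d * e) * aeval (gc (pt c v))
          (MvPolynomial.map (algebraMap L (Dual L)) (homogeneousComponent e Q)))) =
        rey T (T + κ * J - d * e)
        (MvPolynomial.map (algebraMap L (Dual L)) (homogeneousComponent e Q)) (pt c v) := by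
      unfold rey
      rw [← mul_assoc, ← pow_add]
      have : N' + (N + κ * J - d * e) = T + κ * J - d * e := by omega
      rw [this]
    rw [h8]
    split_ifs with hej
    · rfl
    · refine rey_weight T _ ((homogeneousComponent_isHomogeneous e Q).map _) _ ?_
      intro hw
      apply hej
      obtain ⟨d', rfl⟩ : ∃ d', d = d' + 2 := ⟨d - 2, by omega⟩
      obtain ⟨r', rfl⟩ : ∃ r', r = r' + 1 := ⟨r - 1, by omega⟩
      have e1 : T + κ * J - (d' + 2) * e + (d' + 2) * e = T + κ * J := by omega
      have e2 : (r' + 1) * (T + κ * J - (d' + 2) * e) + (r' + 1) * ((d' + 2) * e) =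
          (r' + 1) * (T + κ * J) := by rw [← mul_add, e1]
      have e3 : d' + 2 - 1 = d' + 1 := by omega
      have e4 : r' + 1 - 1 = r' := by omega
      rw [e3] at hκe
      rw [e4] at hw
      have e5 : (d' + 1) * e = (d' + 1) * (J * e₀) := by
        have e6 : (r' + 1) * (κ * J) = (d' + 1) * (J * e₀) := by
          calc (r' + 1) * (κ * J) = ((r' + 1) * κ) * J := by ring
            _ = (d' + 1) * (J * e₀) := by rw [hκe]; ring
        have e7 : (r' + 1) * (T + κ * J - (d' + 2) * e) + e * (1 + (d' + 2) * r') + (d' + 1) * e =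
            (r' + 1) * (T + κ * J - (d' + 2) * e) + (r' + 1) * ((d' + 2) * e) := by ring
        have e8 : (r' + 1) * (T + κ * J) = (r' + 1) * T + (r' + 1) * (κ * J) := mul_add _ _ _
        rw [hw, e2, e8, e6] at e7
        omega
      exact Nat.eq_of_mul_eq_mul_left (by omega) e5
  rw [sum_congr rfl h7, sum_ite_eq'] at h5
  refine ⟨J, T, T + κ * J - d * (J * e₀), homogeneousComponent (J * e₀) Q,
    homogeneousComponent_isHomogeneous _ _, eval c E ^ J * (nrm r T : L), ?_, ?_⟩
  · refine mul_ne_zero (pow_ne_zero _ hEc) ?_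
    exact_mod_cast nrm_ne_zero r T
  · have h8 : rey T (T + κ * J - d * (J * e₀)) (MvPolynomial.map (algebraMap L (Dual L))
        (homogeneousComponent (J * e₀) Q)) (pt c v) = eps L * Eh ^ J * (nrm r T : Dual L) := by
      split_ifs at h5 with hmem
      · exact h5
      · rw [homogeneousComponent_eq_zero (J * e₀) Q (by
          rw [mem_range] at hmem; omega)]
        rw [← h5]
        unfold rey
        rw [map_zero, map_zero, mul_zero]
        have := Lam_C_mul T (0 : Dual L) (0 : MvPolynomial (Ent r) (Dual L))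
        simpa using this
    rw [h8]
    have h9 : eps L * Eh ^ J = eps L * cst L (eval c E ^ J) := by
      apply dual_ext
      · rw [TrivSqZeroExt.fst_mul, TrivSqZeroExt.fst_mul]; simp
      · rw [TrivSqZeroExt.snd_mul, TrivSqZeroExt.snd_mul, TrivSqZeroExt.fst_pow, hEh,
          fst_aeval_pt]
        simp
    rw [h9, map_mul, mul_assoc]
    refine congrArg (fun t => eps L * (cst L (eval c E ^ J) * t)) ?_
    rw [map_intCast]

end main

/-! ### descent of the coefficients -/

theorem Rey_map {A B : Type*} [CommRing A] [CommRing B] (φ : A →+* B) (T u : ℕ)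
    (q : MvPolynomial (Idx r d) A) :
    MvPolynomial.map φ (Rey T u q) = Rey T u (MvPolynomial.map φ q) := by
  unfold Rey
  rw [← rey_map, MvPolynomial.map_map]
  have h1 : (MvPolynomial.map φ).comp (C : A →+* MvPolynomial (Idx r d) A) =
      (C : B →+* MvPolynomial (Idx r d) B).comp φ := by
    ext a; simp
  have h2 : (fun p : Idx r d => MvPolynomial.map φ (X p)) = X := by
    funext p; rw [map_X]
  rw [h1, h2, ← MvPolynomial.map_map]

/-- the derivative of `a` at `c` in the direction `v` -/
noncomputable def dd {k S : Type*} [CommRing k] [CommRing S] [Algebra k S] (c v : Idx r d → S)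
    (a : MvPolynomial (Idx r d) k) : S :=
  ∑ s, v s * aeval c (pderiv s a)

/-- **there are enough invariants** -/
theorem enough_invariants {k : Type u} [Field k] [Algebra k L]
    [IsAlgClosed L] [CharZero L] (hr : 1 ≤ r) (hd : 2 ≤ d) {c v : Idx r d → L}
    (hc : NoZero c)
    (hstab : ∀ g : Matrix (Fin r) (Fin r) L, IsUnit g.det → act g g⁻¹ c = c → ∃ a : L, g = a • 1)
    (hv : ∀ ξ : Matrix (Fin r) (Fin r) L, v ≠ lie ξ c)
    {κ e₀ : ℕ} (hκ : 0 < κ) (hκe : r * κ = e₀ * (d - 1))
    {E : MvPolynomial (Idx r d) k} (hE : SemiInv κ (MvPolynomial.map (algebraMap k L) E))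
    (hEc : aeval c E ≠ 0) :
    ∃ (J T u : ℕ) (m : MvPolynomial (Idx r d) k), m.IsHomogeneous (J * e₀) ∧
      aeval c (E ^ J) * dd c v (Rey T u m) ≠ aeval c (Rey T u m) * dd c v (E ^ J) := by
  classical
  have haev : ∀ q : MvPolynomial (Idx r d) k,
      eval c (MvPolynomial.map (algebraMap k L) q) = aeval c q := by
    intro q
    rw [eval_map, aeval_def]
  obtain ⟨J, T, u, Q, hQ, β, hβ, h⟩ := exists_rey_eps hr hd hc hstab hv hκ hκe hE
    (by rw [haev]; exact hEc)
  by_contra hcon
  push Not at hcon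
  have hcon' : ∀ α ∈ Q.support, aeval c (E ^ J) *
      dd c v (Rey T u (monomial α (1 : k))) = aeval c (Rey T u (monomial α (1 : k))) *
        dd c v (E ^ J) := by
    intro α hα
    refine hcon J T u _ (isHomogeneous_monomial _ ?_)
    have := hQ (mem_support_iff.1 hα)
    rw [Finsupp.degree_eq_weight_one]
    exact this
  -- expand `Q`
  have h1 : MvPolynomial.map (algebraMap L (Dual L)) Q = ∑ α ∈ Q.support,
      C (cst L (coeff α Q)) * MvPolynomial.map (algebraMap L (Dual L))
        (MvPolynomial.map (algebraMap k L) (monomial α (1 : k))) := by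
    conv_lhs => rw [Q.as_sum, map_sum]
    refine sum_congr rfl fun α _ => ?_
    rw [map_monomial, map_monomial, map_monomial, C_mul_monomial, map_one, map_one, mul_one]
    rfl
  rw [h1, rey_sum] at h
  have h2 : ∀ α, rey T u (C (cst L (coeff α Q)) * MvPolynomial.map (algebraMap L (Dual L))
        (MvPolynomial.map (algebraMap k L) (monomial α (1 : k)))) (pt c v) =
      cst L (coeff α Q * aeval c (Rey T u (monomial α (1 : k)))) +
        eps L * cst L (coeff α Q * dd c v (Rey T u (monomial α (1 : k)))) := by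
    intro α
    rw [rey_C_mul, ← aeval_Rey, ← Rey_map, aeval_pt, haev]
    have h3 : ∑ s, v s * eval c (pderiv s (MvPolynomial.map (algebraMap k L)
        (Rey T u (monomial α (1 : k))))) = dd c v (Rey T u (monomial α (1 : k))) := by
      unfold dd
      refine sum_congr rfl fun s _ => ?_
      rw [pderiv_map, haev]
    rw [h3, map_mul, map_mul]; ring
  simp_rw [h2] at h
  rw [sum_add_distrib, ← mul_sum, ← map_sum, ← map_sum] at h
  have h4 := congrArg TrivSqZeroExt.fst h
  have h5 := congrArg TrivSqZeroExt.snd h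
  simp only [TrivSqZeroExt.fst_add, TrivSqZeroExt.fst_mul, TrivSqZeroExt.snd_add,
    TrivSqZeroExt.snd_mul, fst_cst, snd_cst, fst_eps, snd_eps, smul_eq_mul, zero_mul, add_zero,
    mul_zero, zero_add, MulOpposite.smul_eq_mul_unop,
    MulOpposite.unop_op] at h4 h5
  have h6 : aeval c (E ^ J) * β = 0 := by
    have h7 : aeval c (E ^ J) * ∑ α ∈ Q.support, coeff α Q *
        dd c v (Rey T u (monomial α (1 : k))) =
        (∑ α ∈ Q.support, coeff α Q * aeval c (Rey T u (monomial α (1 : k)))) *
          dd c v (E ^ J) := by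
      rw [mul_sum, sum_mul]
      refine sum_congr rfl fun α hα => ?_
      rw [mul_left_comm, hcon' α hα]; ring
    rw [h4, zero_mul] at h7
    rw [← h7]
    refine congrArg (fun t => aeval c (E ^ J) * t) ?_
    rw [one_mul, one_mul] at h5
    exact h5.symm
  rw [map_pow] at h6
  rcases mul_eq_zero.1 h6 with h7 | h7
  · exact hEc (eq_zero_of_pow_eq_zero h7)
  · exact hβ h7

end Pool.Agent.Helper16.Endo
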