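import Pool.Agent.Helper16.Endo14

set_option autoImplicit false

namespace Pool.Agent.Helper16.Endo

open MvPolynomial Finset

universe u

variable {r d : ℕ} {k : Type u} [Field k]

/-- invariance under the special linear group -/
def IsInv (a : MvPolynomial (Idx r d) k) : Prop :=
  ∀ g h : Matrix (Fin r) (Fin r) k, g * h = 1 → g.det = 1 →
    ∀ c : Idx r d → k, eval (act g h c) a = eval c a

theorem IsInv.mul {a b : MvPolynomial (Idx r d) k} (ha : IsInv a) (hb : IsInv b) :
    IsInv (a * b) := fun g h hgh hg c => by rw [map_mul, map_mul, ha g h hgh hg, hb g h hgh hg]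

theorem IsInv.add {a b : MvPolynomial (Idx r d) k} (ha : IsInv a) (hb : IsInv b) :
    IsInv (a + b) := fun g h hgh hg c => by rw [map_add, map_add, ha g h hgh hg, hb g h hgh hg]

theorem IsInv.one : IsInv (1 : MvPolynomial (Idx r d) k) := fun g h _ _ c => by
  rw [map_one, map_one]

theorem IsInv.C (x : k) : IsInv (C x : MvPolynomial (Idx r d) k) := fun g h _ _ c => by
  rw [eval_C, eval_C]

theorem IsInv.pow {a : MvPolynomial (Idx r d) k} (ha : IsInv a) (n : ℕ) : IsInv (a ^ n) := by
  induction n with
  | zero => rw [pow_zero]; exact IsInv.one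
  | succ n ih => rw [pow_succ]; exact ih.mul ha

/-! ### specialisation of the universal pair -/

/-- specialisation at an invertible matrix and a tuple -/
noncomputable def spec {S : Type*} [CommRing S] [Algebra k S] (g : Matrix (Fin r) (Fin r) S)
    (hg : IsUnit g.det) (y : Idx r d → S) : GR r (MvPolynomial (Idx r d) k) →+* S :=
  (grLift (A := S) g hg).toRingHom.comp
    (grMap (aeval y : MvPolynomial (Idx r d) k →ₐ[k] S).toRingHom)

theorem spec_gX {S : Type*} [CommRing S] [Algebra k S] (g : Matrix (Fin r) (Fin r) S)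
    (hg : IsUnit g.det) (y : Idx r d → S) :
    (gX r (MvPolynomial (Idx r d) k)).map (spec g hg y) = g := by
  ext1 i j
  show (grLift (A := S) g hg).toRingHom (grMap _ (gX r (MvPolynomial (Idx r d) k) i j)) = g i j
  rw [grMap_gX]
  exact grLift_gX g hg i j

theorem spec_algebraMap {S : Type*} [CommRing S] [Algebra k S] (g : Matrix (Fin r) (Fin r) S)
    (hg : IsUnit g.det) (y : Idx r d → S) (q : MvPolynomial (Idx r d) k) :
    spec g hg y (algebraMap (MvPolynomial (Idx r d) k) (GR r (MvPolynomial (Idx r d) k)) q) =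
      aeval y q := by
  show (grLift (A := S) g hg).toRingHom (grMap _ (algebraMap (MvPolynomial (Idx r d) k)
    (GR r (MvPolynomial (Idx r d) k)) q)) = aeval y q
  rw [grMap_algebraMap]
  exact (grLift (A := S) g hg).commutes _

theorem spec_mv {S : Type*} [CommRing S] [Algebra k S] (g : Matrix (Fin r) (Fin r) S)
    (hg : IsUnit g.det) (y : Idx r d → S)
    (m : MvPolynomial (Ent r) (MvPolynomial (Idx r d) k)) :
    spec g hg y (algebraMap (MvPolynomial (Ent r) (MvPolynomial (Idx r d) k))
        (GR r (MvPolynomial (Idx r d) k)) m) = eval (fun p : Ent r => g p.1 p.2)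
      (MvPolynomial.map (aeval y : MvPolynomial (Idx r d) k →ₐ[k] S).toRingHom m) := by
  show (grLift (A := S) g hg).toRingHom (grMap _ (algebraMap (MvPolynomial (Ent r)
    (MvPolynomial (Idx r d) k)) (GR r (MvPolynomial (Idx r d) k)) m)) = _
  rw [grMap_mv]
  have h := grLift_algebraMap (A := S) g hg
    (MvPolynomial.map (aeval y : MvPolynomial (Idx r d) k →ₐ[k] S).toRingHom m)
  exact h

theorem spec_gy {S : Type*} [CommRing S] [Algebra k S] (g : Matrix (Fin r) (Fin r) S)
    (hg : IsUnit g.det) (y : Idx r d → S) :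
    (fun p => spec g hg y (gy (X : Idx r d → MvPolynomial (Idx r d) k) p)) = act g g⁻¹ y := by
  rw [hom_gy, spec_gX]
  refine congrArg (fun t => act g g⁻¹ t) ?_
  funext p
  rw [spec_algebraMap, aeval_X]

/-- density of rational points -/
theorem eq_zero_of_spec [Infinite k] {x : GR r (MvPolynomial (Idx r d) k)}
    (h : ∀ (g : Matrix (Fin r) (Fin r) k) (hg : IsUnit g.det) (c : Idx r d → k),
      spec g hg c x = 0) : x = 0 := by
  obtain ⟨m, n, rfl⟩ := gr_eq x
  have h1 : ∀ (g : Matrix (Fin r) (Fin r) k) (_ : IsUnit g.det) (c : Idx r d → k),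
      eval (fun p : Ent r => g p.1 p.2)
      (MvPolynomial.map (aeval c : MvPolynomial (Idx r d) k →ₐ[k] k).toRingHom m) = 0 := by
    intro g hg c
    have h2 := h g hg c
    rw [map_mul, map_pow, spec_mv] at h2
    have h3 := hom_gDi (spec (k := k) g hg c)
    rcases mul_eq_zero.1 h2 with h4 | h4
    · exact h4
    · have h5 := eq_zero_of_pow_eq_zero h4
      rw [h5, mul_zero] at h3
      exact absurd h3 zero_ne_one
  have h2 : m = 0 := by
    ext1 α
    rw [coeff_zero]
    apply MvPolynomial.funext
    intro c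
    rw [map_zero]
    have h3 : (gen r k).det *
        MvPolynomial.map (aeval c : MvPolynomial (Idx r d) k →ₐ[k] k).toRingHom m = 0 := by
      apply MvPolynomial.funext
      intro g
      rw [map_mul, map_zero]
      have h4 : eval g (gen r k).det = (Matrix.of fun i j => g (i, j)).det := by
        rw [← det_map_hom]
        refine congrArg Matrix.det ?_
        ext1 i j
        rw [Matrix.map_apply, gen_apply, eval_X]; rfl
      by_cases hg : IsUnit (Matrix.of fun i j => g (i, j)).det
      · have := h1 _ hg c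
        have h5 : (fun p : Ent r => (Matrix.of fun i j => g (i, j)) p.1 p.2) = g := by
          funext p; rfl
        rw [h5] at this
        rw [this, mul_zero]
      · rw [isUnit_iff_ne_zero, not_not] at hg
        rw [h4, hg, zero_mul]
    have h4 := (mul_eq_zero.1 h3).resolve_left (gen_det_ne_zero r k)
    have h5 := congrArg (coeff α) h4
    rw [coeff_map, coeff_zero] at h5
    have h6 : (aeval c : MvPolynomial (Idx r d) k →ₐ[k] k).toRingHom (coeff α m) =
      eval c (coeff α m) := rfl
    rw [← h6]; exact h5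
  rw [h2, map_zero, zero_mul]

/-- semi-invariance can be tested on rational points -/
theorem semiInv_of_points [Infinite k] {κ : ℕ} {p : MvPolynomial (Idx r d) k}
    (h : ∀ (g : Matrix (Fin r) (Fin r) k), IsUnit g.det → ∀ c : Idx r d → k,
      g.det ^ κ * eval (act g g⁻¹ c) p = eval c p) : SemiInv κ p := by
  intro S _ _ g hg y
  have h1 : (gX r (MvPolynomial (Idx r d) k)).det ^ κ *
      aeval (gy (X : Idx r d → MvPolynomial (Idx r d) k)) p -
        algebraMap (MvPolynomial (Idx r d) k) (GR r (MvPolynomial (Idx r d) k)) p = 0 := by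
    apply eq_zero_of_spec
    intro g hg c
    have h2 := h g hg c
    rw [map_sub, map_mul, map_pow, spec_algebraMap, ← det_map_hom, spec_gX, sub_eq_zero]
    have h3 : spec g hg c (aeval (gy (X : Idx r d → MvPolynomial (Idx r d) k)) p) =
        aeval (act g g⁻¹ c) p := by
      rw [← spec_gy (k := k) g hg c]
      have h4 : (spec g hg c).comp (algebraMap k (GR r (MvPolynomial (Idx r d) k))) =
          algebraMap k k := by
        ext a
        rw [RingHom.comp_apply, IsScalarTower.algebraMap_apply k (MvPolynomial (Idx r d) k),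
          spec_algebraMap]
        show aeval c (C a) = _
        rw [aeval_C]
      rw [aeval_def, aeval_def, hom_eval₂, h4]
    rw [h3]
    exact h2
  have h2 := congrArg (spec g hg y) h1
  rw [map_zero, map_sub, map_mul, map_pow, spec_algebraMap, ← det_map_hom, spec_gX,
    sub_eq_zero] at h2
  have h3 : spec g hg y (aeval (gy (X : Idx r d → MvPolynomial (Idx r d) k)) p) =
      aeval (act g g⁻¹ y) p := by
    rw [← spec_gy (k := k) g hg y]
    have h4 : (spec g hg y).comp (algebraMap k (GR r (MvPolynomial (Idx r d) k))) =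
        algebraMap k S := by
      ext a
      rw [RingHom.comp_apply, IsScalarTower.algebraMap_apply k (MvPolynomial (Idx r d) k),
        spec_algebraMap]
      show aeval y (C a) = _
      rw [aeval_C]
    rw [aeval_def, aeval_def, hom_eval₂, h4]
  rw [h3] at h2
  exact h2

/-- products of `r` invariants of the same degree are semi-invariants -/
theorem semiInv_of_isInv [IsAlgClosed k] (hr : 1 ≤ r) (hd : 1 ≤ d) {e : ℕ}
    {a b : MvPolynomial (Idx r d) k} (ha : a.IsHomogeneous e) (hb : b.IsHomogeneous e)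
    (hai : IsInv a) (hbi : IsInv b) : SemiInv (e * (d - 1)) (a * b ^ (r - 1)) := by
  have hinf : Infinite k := IsAlgClosed.instInfinite
  apply semiInv_of_points
  intro g hg c
  obtain ⟨l, hl⟩ := IsAlgClosed.exists_pow_nat_eq g.det (n := r) (by omega)
  have hl0 : l ≠ 0 := by
    rintro rfl
    rw [zero_pow (by omega)] at hl
    rw [← hl] at hg
    exact not_isUnit_zero hg
  set s := l⁻¹ • g with hs
  have hgs : g = l • s := by rw [hs, smul_smul, mul_inv_cancel₀ hl0, one_smul]
  have hsd : s.det = 1 := by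
    rw [hs, Matrix.det_smul, Fintype.card_fin, ← hl, ← mul_pow, inv_mul_cancel₀ hl0, one_pow]
  have hsu : IsUnit s.det := by rw [hsd]; exact isUnit_one
  have h1 : act g g⁻¹ c = l⁻¹ ^ (d - 1) • act s s⁻¹ c := by
    rw [hgs, act_smul_inv hd (mul_inv_cancel₀ hl0) hsu]
  have h2 : ∀ q : MvPolynomial (Idx r d) k, q.IsHomogeneous e → IsInv q →
      eval (act g g⁻¹ c) q = (l⁻¹ ^ (d - 1)) ^ e * eval c q := by
    intro q hq hqi
    have h3 := aeval_mul_of_isHomogeneous hq (l⁻¹ ^ (d - 1)) (act s s⁻¹ c)
    rw [h1]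
    have h4 := hqi s s⁻¹ (Matrix.mul_nonsing_inv _ hsu) hsd c
    rw [← h4]
    exact h3
  rw [map_mul, map_pow, h2 a ha hai, h2 b hb hbi, map_mul, map_pow, ← hl]
  obtain ⟨r', rfl⟩ : ∃ r', r = r' + 1 := ⟨r - 1, by omega⟩
  rw [Nat.add_sub_cancel]
  have h3 : (l ^ (r' + 1)) ^ (e * (d - 1)) * (((l⁻¹ ^ (d - 1)) ^ e) ^ (r' + 1)) = 1 := by
    rw [← pow_mul, ← pow_mul, ← pow_mul]
    have : (d - 1) * (e * (r' + 1)) = (r' + 1) * (e * (d - 1)) := by ring
    rw [this, ← mul_pow, mul_inv_cancel₀ hl0, one_pow]
  calc (l ^ (r' + 1)) ^ (e * (d - 1)) * ((l⁻¹ ^ (d - 1)) ^ e * eval c a *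
        ((l⁻¹ ^ (d - 1)) ^ e * eval c b) ^ r')
      = ((l ^ (r' + 1)) ^ (e * (d - 1)) * (((l⁻¹ ^ (d - 1)) ^ e) ^ (r' + 1))) *
          (eval c a * eval c b ^ r') := by ring
    _ = _ := by rw [h3, one_mul]

end Pool.Agent.Helper16.Endo
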