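import Pool.Agent.Helper16.Endo15

set_option autoImplicit false

namespace Pool.Agent.Helper16.Endo

open MvPolynomial Finset

universe u

variable {r d : ℕ} {k : Type u} [Field k]

/-! ### semi-invariants -/

theorem SemiInv.map {L : Type u} [Field L] [Algebra k L] {κ : ℕ} {E : MvPolynomial (Idx r d) k}
    (hE : SemiInv κ E) : SemiInv κ (MvPolynomial.map (algebraMap k L) E) := by
  intro S _ _ g hg c
  let _ : Algebra k S := ((algebraMap L S).comp (algebraMap k L)).toAlgebra
  have _ : IsScalarTower k L S := IsScalarTower.of_algebraMap_eq fun x => rfl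
  rw [aeval_map_algebraMap, aeval_map_algebraMap]
  exact hE S g hg c

theorem SemiInv.isInv {κ : ℕ} {E : MvPolynomial (Idx r d) k} (hE : SemiInv κ E) : IsInv E := by
  intro g h hgh hg c
  have hgu : IsUnit g.det := by rw [hg]; exact isUnit_one
  have h1 := hE k g hgu c
  have h2 : g⁻¹ = h := Matrix.inv_eq_right_inv hgh
  rw [hg, one_pow, one_mul, h2] at h1
  exact h1

theorem SemiInv.mul {κ κ' : ℕ} {E E' : MvPolynomial (Idx r d) k} (hE : SemiInv κ E)
    (hE' : SemiInv κ' E') : SemiInv (κ + κ') (E * E') := by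
  intro S _ _ g hg c
  rw [map_mul, map_mul, ← hE S g hg c, ← hE' S g hg c, pow_add]; ring

theorem SemiInv.add {κ : ℕ} {E E' : MvPolynomial (Idx r d) k} (hE : SemiInv κ E)
    (hE' : SemiInv κ E') : SemiInv κ (E + E') := by
  intro S _ _ g hg c
  rw [map_add, map_add, ← hE S g hg c, ← hE' S g hg c]; ring

theorem SemiInv.one : SemiInv 0 (1 : MvPolynomial (Idx r d) k) := by
  intro S _ _ g hg c
  rw [map_one, map_one, pow_zero, one_mul]

theorem SemiInv.pow {κ : ℕ} {E : MvPolynomial (Idx r d) k} (hE : SemiInv κ E) (n : ℕ) :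
    SemiInv (n * κ) (E ^ n) := by
  induction n with
  | zero => rw [zero_mul, pow_zero]; exact SemiInv.one
  | succ n ih => rw [add_mul, one_mul, pow_succ]; exact ih.mul hE

theorem SemiInv.smul {κ : ℕ} {E : MvPolynomial (Idx r d) k} (hE : SemiInv κ E) (x : k) :
    SemiInv κ (C x * E) := by
  intro S _ _ g hg c
  rw [map_mul, map_mul, aeval_C, aeval_C, ← hE S g hg c]; ring

/-- Reynolds polynomials are semi-invariants -/
theorem Rey_semiInv {T u e κ : ℕ} {q : MvPolynomial (Idx r d) k}
    (hq : q.IsHomogeneous e) (hκ : u + d * e = T + κ) : SemiInv κ (Rey T u q) := by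
  intro S _ _ g hg c
  have h1 := rey_cj T u (MvPolynomial.map (algebraMap k S) q) g c
  rw [cj_eq hg, rey_smul T u (hq.map _), ← pow_mul, ← mul_assoc, ← pow_add, hκ, pow_add,
    mul_assoc] at h1
  rw [aeval_Rey, aeval_Rey]
  exact (hg.pow T).mul_left_cancel h1

theorem eval_zero_homogeneousComponent (q : MvPolynomial (Idx r d) k)
    (hq : eval (0 : Idx r d → k) q = 0) (e : ℕ) :
    eval (0 : Idx r d → k) (homogeneousComponent e q) = 0 := by
  by_cases he : e = 0
  · subst he
    rw [homogeneousComponent_zero, eval_C]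
    have : eval (0 : Idx r d → k) q = coeff 0 q := by
      induction q using MvPolynomial.induction_on with
      | C a => simp
      | add p q hp hq => 
        rw [map_add, coeff_add]
        have e1 : ∀ p : MvPolynomial (Idx r d) k, eval (0 : Idx r d → k) p = coeff 0 p := by
          intro p
          rw [← constantCoeff_eq]
          induction p using MvPolynomial.induction_on with
          | C a => simp
          | add p q hp hq => rw [map_add, map_add, hp, hq]
          | mul_X p l hp => simp
        rw [e1, e1]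
      | mul_X p l hp =>
        rw [← constantCoeff_eq]
        simp
    rw [← this, hq]
  · have h1 := aeval_mul_of_isHomogeneous (homogeneousComponent_isHomogeneous e q) (0 : k)
      (0 : Idx r d → k)
    have h2 : (fun l => (0 : k) * (0 : Idx r d → k) l) = 0 := by funext l; simp
    rw [h2, zero_pow he, zero_mul] at h1
    exact h1

/-- the weight relation -/
theorem weight_rel (hr : 1 ≤ r) (hd : 2 ≤ d) {T u e : ℕ}
    (h : r * u + e * (1 + d * (r - 1)) = r * T) :
    ∃ κ, u + d * e = T + κ ∧ r * κ = e * (d - 1) := by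
  obtain ⟨d', rfl⟩ : ∃ d', d = d' + 2 := ⟨d - 2, by omega⟩
  obtain ⟨r', rfl⟩ : ∃ r', r = r' + 1 := ⟨r - 1, by omega⟩
  rw [Nat.add_sub_cancel] at h
  have e3 : d' + 2 - 1 = d' + 1 := by omega
  rw [e3]
  have h1 : (r' + 1) * (u + (d' + 2) * e) = (r' + 1) * T + e * (d' + 1) := by
    rw [← h]; ring
  have h2 : T ≤ u + (d' + 2) * e := by
    by_contra hcon
    rw [not_le] at hcon
    have := Nat.mul_lt_mul_of_pos_left hcon (Nat.succ_pos r')
    rw [Nat.succ_eq_add_one, h1] at this
    omega
  refine ⟨u + (d' + 2) * e - T, by omega, ?_⟩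
  rw [Nat.mul_sub, h1]; omega

theorem rey_zero {A : Type*} [CommRing A] (T u : ℕ) (c : Idx r d → A) :
    rey T u (0 : MvPolynomial (Idx r d) A) c = 0 := by
  have := rey_C_mul T u (0 : A) (0 : MvPolynomial (Idx r d) A) c
  simpa using this

/-- existence of a semi-invariant that does not vanish at a given point -/
theorem exists_semi [IsAlgClosed k] [CharZero k] (hr : 1 ≤ r) (hd : 2 ≤ d) {c : Idx r d → k}
    (hc : NoZero c) : ∃ (κ e₀ : ℕ) (E : MvPolynomial (Idx r d) k), 0 < κ ∧
      r * κ = e₀ * (d - 1) ∧ E.IsHomogeneous e₀ ∧ SemiInv κ E ∧ eval c E ≠ 0 := by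
  classical
  have hinf : Infinite k := IsAlgClosed.instInfinite
  obtain ⟨T, u, e, q, hq, hqe, -, hne⟩ := exists_rey_ne_zero hd hc
    (RingHom.ker (eval (0 : Idx r d → k))) (fun q hq e => eval_zero_homogeneousComponent q hq e)
    (fun g hg => by
      have h1 : act g g⁻¹ c ≠ 0 := by
        intro h0
        apply noZero_ne_zero hr hc
        apply act_injective hg
        rw [h0]
        have := act_smul (0 : k) g g⁻¹ c
        rw [zero_smul, zero_smul] at this
        exact this.symm
      obtain ⟨p, hp⟩ := Function.ne_iff.1 h1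
      exact ⟨X p, by rw [RingHom.mem_ker, eval_X]; rfl, by rw [eval_X]; exact hp⟩) 0
  have hw : r * u + e * (1 + d * (r - 1)) = r * T := by
    by_contra hcon
    exact hne (rey_weight T u hqe c hcon)
  have he : 0 < e := by
    rcases Nat.eq_zero_or_pos e with rfl | he
    · exfalso
      apply hne
      have h1 : q = 0 := by
        have h2 := (totalDegree_zero_iff_isHomogeneous (Idx r d)).2 hqe
        rw [totalDegree_eq_zero_iff_eq_C] at h2
        rw [h2] at hq ⊢
        rw [RingHom.mem_ker, eval_C] at hq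
        rw [hq, map_zero]
      rw [h1, rey_zero]
    · exact he
  obtain ⟨κ, h1, h2⟩ := weight_rel hr hd hw
  refine ⟨κ, e, Rey T u q, ?_, h2, Rey_isHomogeneous T u hqe, Rey_semiInv hqe h1, ?_⟩
  · rcases Nat.eq_zero_or_pos κ with rfl | hκ
    · rw [mul_zero] at h2
      have := Nat.mul_pos he (show 0 < d - 1 by omega)
      omega
    · exact hκ
  · have h3 := aeval_Rey T u q c
    rw [show MvPolynomial.map (algebraMap k k) q = q from MvPolynomial.map_id q] at h3
    have h4 : eval c (Rey T u q) = rey T u q c := h3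
    rw [h4]; exact hne

/-! ### consequences of semi-invariance -/

theorem aeval_ptS {S : Type*} [CommRing S] [Algebra k S] (c v : Idx r d → S)
    (E : MvPolynomial (Idx r d) k) :
    aeval (pt c v) E = cst S (aeval c E) + eps S * cst S (dd c v E) := by
  have h1 := aeval_taylor (R := k) (eps S) eps_mul_eps (fun p => cst S (c p))
    (fun p => cst S (v p)) E
  have h2 : ∀ q : MvPolynomial (Idx r d) k, aeval (fun p => cst S (c p)) q =
      cst S (aeval c q) := by
    intro q
    have := aeval_algebraMap_hom (R := k) (S := S) (T := Dual S) q c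
    exact this.symm
  rw [h2] at h1
  have h3 : ∑ i, cst S (v i) * aeval (fun p => cst S (c p)) (pderiv i E) =
      cst S (dd c v E) := by
    unfold dd
    rw [map_sum]
    exact sum_congr rfl fun i _ => by rw [h2, map_mul]
  rw [h3] at h1
  exact h1

theorem SemiInv.pair {κ : ℕ} {a b : MvPolynomial (Idx r d) k} (ha : SemiInv κ a)
    (hb : SemiInv κ b) {S : Type u} [CommRing S] [Algebra k S] {g : Matrix (Fin r) (Fin r) S}
    (hg : IsUnit g.det) (y : Idx r d → S) :
    aeval (act g g⁻¹ y) a * aeval y b = aeval (act g g⁻¹ y) b * aeval y a := by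
  rw [← hb S g hg y, ← ha S g hg y]; ring

/-- derivatives of invariant fractions along the orbit vanish -/
theorem SemiInv.lie {κ : ℕ} (hd : 1 ≤ d) {a b : MvPolynomial (Idx r d) k} (ha : SemiInv κ a)
    (hb : SemiInv κ b) {S : Type u} [CommRing S] [Algebra k S] (ξ : Matrix (Fin r) (Fin r) S)
    (y : Idx r d → S) :
    dd y (Endo.lie ξ y) a * aeval y b = dd y (Endo.lie ξ y) b * aeval y a := by
  have h1 : (1 + eps S • ξ.map (cst S)) * (1 - eps S • ξ.map (cst S)) = 1 := by
    rw [add_mul, mul_sub, mul_sub, one_mul, mul_one, one_mul, Matrix.smul_mul,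
      Matrix.mul_smul, smul_smul, eps_mul_eps, zero_smul]
    abel
  have hu : IsUnit (1 + eps S • ξ.map (cst S)).det := by
    rw [← Matrix.isUnit_iff_isUnit_det]
    exact IsUnit.of_mul_eq_one _ h1
  have hinv : (1 + eps S • ξ.map (cst S))⁻¹ = 1 - eps S • ξ.map (cst S) :=
    Matrix.inv_eq_right_inv h1
  have h2 := ha.pair hb hu (pt y 0)
  rw [hinv, act_inf_pt hd, zero_add, aeval_ptS, aeval_ptS, aeval_ptS, aeval_ptS] at h2
  have h3 : ∀ q : MvPolynomial (Idx r d) k, dd y 0 q = 0 := by
    intro q
    unfold dd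
    exact sum_eq_zero fun s _ => by rw [Pi.zero_apply, zero_mul]
  rw [h3, h3, map_zero, mul_zero, add_zero, add_zero] at h2
  have h4 := congrArg TrivSqZeroExt.snd h2
  simp only [TrivSqZeroExt.fst_add, TrivSqZeroExt.fst_mul, TrivSqZeroExt.snd_add,
    TrivSqZeroExt.snd_mul, fst_cst, snd_cst, fst_eps, snd_eps, smul_eq_mul, zero_mul, add_zero,
    mul_zero, zero_add, MulOpposite.smul_eq_mul_unop, MulOpposite.unop_op, one_mul] at h4
  exact h4

/-- derivatives of invariant fractions at a fixed point -/
theorem SemiInv.fix {κ : ℕ} {a b : MvPolynomial (Idx r d) k} (ha : SemiInv κ a)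
    (hb : SemiInv κ b) {S : Type u} [CommRing S] [Algebra k S] {g : Matrix (Fin r) (Fin r) S}
    (hg : IsUnit g.det) {y : Idx r d → S} (hy : act g g⁻¹ y = y) (v : Idx r d → S) :
    aeval y b * dd y (act g g⁻¹ v) a - aeval y a * dd y (act g g⁻¹ v) b =
      aeval y b * dd y v a - aeval y a * dd y v b := by
  have hu : IsUnit (g.map (cst S)).det := by
    rw [det_map_hom]; exact hg.map _
  have h2 := ha.pair hb hu (pt y v)
  rw [inv_map_hom _ hg, act_pt, hy, aeval_ptS, aeval_ptS, aeval_ptS, aeval_ptS] at h2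
  have h4 := congrArg TrivSqZeroExt.snd h2
  simp only [TrivSqZeroExt.fst_add, TrivSqZeroExt.fst_mul, TrivSqZeroExt.snd_add,
    TrivSqZeroExt.snd_mul, fst_cst, snd_cst, fst_eps, snd_eps, smul_eq_mul, zero_mul, add_zero,
    mul_zero, zero_add, MulOpposite.smul_eq_mul_unop, MulOpposite.unop_op, one_mul] at h4
  linear_combination h4

end Pool.Agent.Helper16.Endo
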