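import Pool.Agent.Helper16.Endo16

set_option autoImplicit false

namespace Pool.Agent.Helper16.Endo

open MvPolynomial Finset

universe u

variable {r d : ℕ} {k : Type u} [Field k]

/-! ### points specialising to a given one -/

/-- having no common zero is inherited by generisations -/
theorem noZero_of_specialization [IsAlgClosed k] {L : Type u} [Field L] [Algebra k L]
    {c : Idx r d → k} (hc : NoZero c) {c' : Idx r d → L}
    (h : ∀ b : MvPolynomial (Idx r d) k, eval c b ≠ 0 → aeval c' b ≠ 0) : NoZero c' := by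
  classical
  let P : Ideal (MvPolynomial (Idx r d) k) := RingHom.ker (eval c)
  have hP : P.IsPrime := RingHom.ker_isPrime _
  let f : Localization.AtPrime P →+* L := IsLocalization.lift (M := P.primeCompl)
    (g := (aeval c' : MvPolynomial (Idx r d) k →ₐ[k] L).toRingHom) (by
      rintro ⟨b, hb⟩
      exact isUnit_iff_ne_zero.2 (h b hb))
  have hf : ∀ b : MvPolynomial (Idx r d) k,
      f (algebraMap (MvPolynomial (Idx r d) k) (Localization.AtPrime P) b) = aeval c' b := fun b =>
    IsLocalization.lift_eq _ b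
  obtain ⟨O, hO, hloc⟩ := IsLocalRing.exists_factor_valuationRing f
  let f' : Localization.AtPrime P →+* O := f.codRestrict O.toSubring hO
  have hloc' : IsLocalHom f' := hloc
  let ĉ : Idx r d → O := fun p => f' (algebraMap (MvPolynomial (Idx r d) k) (Localization.AtPrime P) (X p))
  have hĉ : ∀ p, (ĉ p : L) = c' p := by
    intro p
    show f (algebraMap (MvPolynomial (Idx r d) k) (Localization.AtPrime P) (X p)) = c' p
    rw [hf, aeval_X]
  have hc2 : NoZero (fun p => IsLocalRing.residue O (ĉ p)) := by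
    let φ : k →+* IsLocalRing.ResidueField O := (IsLocalRing.residue O).comp
      (f'.comp ((algebraMap (MvPolynomial (Idx r d) k) (Localization.AtPrime P)).comp C))
    have h1 := (hc.strong.map φ).noZero
    have h2 : (fun p => IsLocalRing.residue O (ĉ p)) = fun p => φ (c p) := by
      funext p
      have h3 : IsLocalRing.residue O (f' (algebraMap (MvPolynomial (Idx r d) k) (Localization.AtPrime P)
          (X p - C (c p)))) = 0 := by
        rw [IsLocalRing.residue_eq_zero_iff, IsLocalRing.mem_maximalIdeal, mem_nonunits_iff]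
        intro hu
        have h4 := hloc'.map_nonunit _ hu
        have h5 := (IsLocalization.AtPrime.isUnit_to_map_iff (Localization.AtPrime P) P
          (X p - C (c p))).1 h4
        apply h5
        show eval c (X p - C (c p)) = 0
        rw [map_sub, eval_X, eval_C, sub_self]
      rw [map_sub, map_sub, map_sub, sub_eq_zero] at h3
      exact h3
    rw [h2]
    exact h1
  intro x hx
  by_contra hne
  obtain ⟨i, hi⟩ := Function.ne_iff.1 hne
  obtain ⟨s, -, hs⟩ := Finset.exists_max_image (univ : Finset (Fin r))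
    (fun i => O.valuation (x i)) ⟨i, mem_univ _⟩
  have hxs : x s ≠ 0 := by
    intro h0
    have h1 := hs i (mem_univ _)
    rw [h0, map_zero] at h1
    have h2 : O.valuation (x i) = 0 := le_antisymm h1 zero_le
    exact hi ((Valuation.zero_iff _).1 h2)
  obtain ⟨j, hj⟩ := val_form_ge O hc2 x s (fun i => hs i (mem_univ _)) hxs
  have h1 : (fun p => (ĉ p : L)) = c' := funext hĉ
  rw [h1, hx j, map_zero] at hj
  have h2 : O.valuation (x s) ^ d ≠ 0 := pow_ne_zero _ ((Valuation.ne_zero_iff _).2 hxs)
  exact h2 (le_antisymm hj zero_le)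

/-! ### general matrices over the dual numbers -/

theorem act_dual {L : Type u} [Field L] (hd : 1 ≤ d) {G : Matrix (Fin r) (Fin r) (Dual L)}
    {G₀ : Matrix (Fin r) (Fin r) L} (hG₀ : G.map (TrivSqZeroExt.fstHom L L L).toRingHom = G₀)
    (hG₀u : IsUnit G₀.det) (c v : Idx r d → L) :
    ∃ ξ : Matrix (Fin r) (Fin r) L, act G G⁻¹ (pt c v) =
      pt (act G₀ G₀⁻¹ c) (act G₀ G₀⁻¹ (v + lie ξ c)) := by
  set G₁ : Matrix (Fin r) (Fin r) L := G.map TrivSqZeroExt.snd with hG₁
  set ξ := G₀⁻¹ * G₁ with hξ
  have hGG : G₁ = G₀ * ξ := by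
    rw [hξ, ← mul_assoc, Matrix.mul_nonsing_inv _ hG₀u, one_mul]
  have hG2 : G = G₀.map (cst L) * (1 + eps L • ξ.map (cst L)) := by
    rw [mul_add, mul_one, Matrix.mul_smul, ← Matrix.map_mul, ← hGG]
    ext1 i j
    rw [← hG₀]
    exact dual_eq (G i j)
  have hginv : G₀.map (cst L) * G₀⁻¹.map (cst L) = 1 := by
    rw [← Matrix.map_mul, Matrix.mul_nonsing_inv _ hG₀u,
      Matrix.map_one _ (map_zero _) (map_one _)]
  have hG3 : G⁻¹ = (1 - eps L • ξ.map (cst L)) * G₀⁻¹.map (cst L) := by
    apply Matrix.inv_eq_right_inv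
    rw [hG2]
    calc G₀.map (cst L) * (1 + eps L • ξ.map (cst L)) *
          ((1 - eps L • ξ.map (cst L)) * G₀⁻¹.map (cst L))
        = G₀.map (cst L) * ((1 + eps L • ξ.map (cst L)) *
            (1 - eps L • ξ.map (cst L))) * G₀⁻¹.map (cst L) := by
          simp only [mul_assoc]
      _ = 1 := by
          have h1 : (1 + eps L • ξ.map (cst L)) * (1 - eps L • ξ.map (cst L)) = 1 := by
            rw [add_mul, mul_sub, mul_sub, one_mul, mul_one, one_mul, Matrix.smul_mul,
              Matrix.mul_smul, smul_smul, eps_mul_eps, zero_smul]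
            abel
          rw [h1, mul_one, hginv]
  refine ⟨ξ, ?_⟩
  rw [hG3]
  nth_rewrite 1 [hG2]
  rw [← act_act, act_inf_pt hd, act_pt]

/-! ### the generic point of a hypersurface has no symmetries -/

/-- the derivative as a linear functional -/
noncomputable def ddL {L : Type u} [Field L] [Algebra k L] (c : Idx r d → L)
    (a : MvPolynomial (Idx r d) k) : (Idx r d → L) →ₗ[L] L where
  toFun v := dd c v a
  map_add' v w := by
    unfold dd
    rw [← sum_add_distrib]
    exact sum_congr rfl fun s _ => by rw [Pi.add_apply]; ring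
  map_smul' x v := by
    unfold dd
    rw [RingHom.id_apply, smul_eq_mul, mul_sum]
    exact sum_congr rfl fun s _ => by rw [Pi.smul_apply, smul_eq_mul]; ring

theorem stab_of_prime (hrd : 3 ≤ r ∨ (2 ≤ r ∧ 3 ≤ d)) (hd : 2 ≤ d)
    {h : MvPolynomial (Idx r d) k} (hh : (Ideal.span {h}).IsPrime)
    {L : Type u} [Field L] [IsAlgClosed L] [CharZero L] [Algebra k L]
    [CharZero k] {κ : Type u} [Field κ] [Algebra (MvPolynomial (Idx r d) k ⧸ Ideal.span {h}) κ]
    [IsFractionRing (MvPolynomial (Idx r d) k ⧸ Ideal.span {h}) κ] [CharZero κ]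
    [Algebra κ L] [Algebra.IsAlgebraic κ L]
    (hk : ∀ x : k, algebraMap κ L (algebraMap (MvPolynomial (Idx r d) k ⧸ Ideal.span {h}) κ
      (Ideal.Quotient.mk _ (C x))) = algebraMap k L x)
    {c' : Idx r d → L} (hc' : ∀ p, c' p = algebraMap κ L (algebraMap
      (MvPolynomial (Idx r d) k ⧸ Ideal.span {h}) κ (Ideal.Quotient.mk _ (X p))))
    (hNZ : NoZero c') (g : Matrix (Fin r) (Fin r) L) (hg : IsUnit g.det)
    (hfix : act g g⁻¹ c' = c') : ∃ a : L, g = a • 1 := by
  classical
  by_contra hcon
  push Not at hcon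
  obtain ⟨M, hM, hgM⟩ := hNZ.finite_order hd hg hfix
  -- evaluation at the generic point
  have hev : ∀ q : MvPolynomial (Idx r d) k, aeval c' q = algebraMap κ L (algebraMap
      (MvPolynomial (Idx r d) k ⧸ Ideal.span {h}) κ (Ideal.Quotient.mk _ q)) := by
    intro q
    induction q using MvPolynomial.induction_on with
    | C a => rw [aeval_C, hk]
    | add p q hp hq => rw [map_add, map_add, map_add, map_add, hp, hq]
    | mul_X p l hp => rw [map_mul, map_mul, map_mul, map_mul, hp, aeval_X, hc']
  have hev0 : ∀ q : MvPolynomial (Idx r d) k, aeval c' q = 0 ↔ q ∈ Ideal.span {h} := by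
    intro q
    rw [hev, map_eq_zero_iff _ (algebraMap κ L).injective,
      map_eq_zero_iff _ (IsFractionRing.injective _ κ), Ideal.Quotient.eq_zero_iff_mem]
  refine la_lemma hrd hd hcon hM hgM hfix (LinearMap.ker (ddL c' h)) ?_ ?_
  · have h1 := LinearMap.finrank_range_add_finrank_ker (ddL c' h)
    have h2 : Module.finrank L (LinearMap.range (ddL c' h)) ≤ 1 := by
      have := Submodule.finrank_le (LinearMap.range (ddL c' h))
      rwa [Module.finrank_self] at this
    omega
  · intro v hv
    have hv0 : dd c' v h = 0 := hv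
    -- the homomorphism to the dual numbers
    let φ₀ : MvPolynomial (Idx r d) k →+* Dual L :=
      (aeval (pt c' v) : MvPolynomial (Idx r d) k →ₐ[k] Dual L).toRingHom
    have hφ₀ : ∀ q, φ₀ q = cst L (aeval c' q) + eps L * cst L (dd c' v q) := fun q =>
      aeval_ptS c' v q
    have hφ₀f : ∀ q, (φ₀ q).fst = aeval c' q := by
      intro q
      rw [hφ₀, TrivSqZeroExt.fst_add, TrivSqZeroExt.fst_mul, fst_cst, fst_eps, zero_mul, add_zero]
    let φ₁ : (MvPolynomial (Idx r d) k ⧸ Ideal.span {h}) →+* Dual L :=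
      Ideal.Quotient.lift (Ideal.span {h}) φ₀ (by
        intro q hq
        obtain ⟨q', rfl⟩ := Ideal.mem_span_singleton'.1 hq
        rw [map_mul]
        have h1 : φ₀ h = 0 := by
          rw [hφ₀, hv0, (hev0 h).2 (Ideal.mem_span_singleton_self h)]
          simp
        rw [h1, mul_zero])
    have hφ₁ : ∀ q, φ₁ (Ideal.Quotient.mk _ q) = φ₀ q := fun q => Ideal.Quotient.lift_mk _ _ _
    let φ : κ →+* Dual L := IsLocalization.lift
      (M := nonZeroDivisors (MvPolynomial (Idx r d) k ⧸ Ideal.span {h})) (g := φ₁) (by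
        rintro ⟨y, hy⟩
        obtain ⟨q, rfl⟩ := Ideal.Quotient.mk_surjective y
        show IsUnit (φ₁ (Ideal.Quotient.mk _ q))
        rw [hφ₁]
        apply isUnit_dual
        rw [hφ₀f, Ne, hev0, ← Ideal.Quotient.eq_zero_iff_mem]
        exact nonZeroDivisors.ne_zero hy)
    have hφ : ∀ y, φ (algebraMap _ κ y) = φ₁ y := fun y => IsLocalization.lift_eq _ y
    have hfst : ∀ x, (φ x).fst = algebraMap κ L x := by
      have h1 : (TrivSqZeroExt.fstHom L L L).toRingHom.comp φ = algebraMap κ L := by
        apply IsLocalization.ringHom_ext (nonZeroDivisors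
          (MvPolynomial (Idx r d) k ⧸ Ideal.span {h}))
        apply Ideal.Quotient.ringHom_ext
        refine RingHom.ext fun q => ?_
        show (φ (algebraMap _ κ (Ideal.Quotient.mk _ q))).fst = _
        rw [hφ, hφ₁, hφ₀f, hev]
        rfl
      intro x
      exact congrArg (fun f => f x) h1
    obtain ⟨ψ, hψ1, hψ2⟩ := Pool.Agent.Helper19.EndoT1.T3_exists_lift φ hfst
    -- apply the lift to the matrix
    have hψc : (fun p => ψ (c' p)) = pt c' v := by
      funext p
      rw [hc', hψ2, hφ, hφ₁]
      show aeval (pt c' v) (X p) = _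
      rw [aeval_X]
    have hψfix := act_inv_map ψ hg c'
    rw [hψc, hfix, hψc] at hψfix
    have hG₀ : (g.map ψ).map (TrivSqZeroExt.fstHom L L L).toRingHom = g := by
      ext1 i j
      exact hψ1 (g i j)
    obtain ⟨ξ, hξ⟩ := act_dual (by omega) hG₀ hg c' v
    rw [hψfix] at hξ
    have h1 := (pt_injective hξ).2
    rw [act_add, act_lie (by omega) (Matrix.mul_nonsing_inv _ hg) (Matrix.nonsing_inv_mul _ hg),
      hfix] at h1
    exact ⟨g * ξ * g⁻¹, by nth_rewrite 1 [h1]; rw [add_sub_cancel_left]⟩

end Pool.Agent.Helper16.Endo
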