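import Pool.Agent.Helper16.Endo17
import Pool.Agent.Helper4.EndoT2
import Pool.Agent.Helper68.EndoT4

set_option autoImplicit false

namespace Pool.Agent.Helper16.Endo

open MvPolynomial Finset

universe u

/-! ### derivations of localisations -/

theorem exists_derivation_localization {k R O : Type*} [CommRing k] [CommRing R] [Algebra k R]
    [CommRing O] [Algebra R O] [Algebra k O] [IsScalarTower k R O] (M : Submonoid R)
    [IsLocalization M O] (δ : Derivation k R R) :
    ∃ D : Derivation k O O, ∀ x, D (algebraMap R O x) = algebraMap R O (δ x) := by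
  let φ₀ : R →ₐ[k] TrivSqZeroExt O O :=
    { toFun := fun x => TrivSqZeroExt.inl (algebraMap R O x) +
        TrivSqZeroExt.inr (algebraMap R O (δ x))
      map_one' := by
        rw [map_one, Derivation.map_one_eq_zero, map_zero, TrivSqZeroExt.inr_zero, add_zero]
        rfl
      map_zero' := by
        rw [map_zero, map_zero, map_zero, TrivSqZeroExt.inr_zero, add_zero]
        rfl
      map_mul' := fun x y => by
        apply TrivSqZeroExt.ext
        · simp [TrivSqZeroExt.fst_mul]
        · simp only [TrivSqZeroExt.snd_mul, TrivSqZeroExt.snd_add, TrivSqZeroExt.snd_inl,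
            TrivSqZeroExt.snd_inr, TrivSqZeroExt.fst_add, TrivSqZeroExt.fst_inl,
            TrivSqZeroExt.fst_inr, zero_add, add_zero, Derivation.leibniz, smul_eq_mul, map_add,
            map_mul, MulOpposite.smul_eq_mul_unop, MulOpposite.unop_op]
          ring
      map_add' := fun x y => by
        apply TrivSqZeroExt.ext
        · simp only [TrivSqZeroExt.fst_add, TrivSqZeroExt.fst_inl, TrivSqZeroExt.fst_inr, map_add,
            add_zero]
        · simp only [TrivSqZeroExt.snd_add, TrivSqZeroExt.snd_inl, TrivSqZeroExt.snd_inr, map_add,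
            zero_add]
      commutes' := fun a => by
        apply TrivSqZeroExt.ext
        · simp only [TrivSqZeroExt.fst_add, TrivSqZeroExt.fst_inl, TrivSqZeroExt.fst_inr, add_zero,
            ← IsScalarTower.algebraMap_apply]
          rfl
        · simp only [TrivSqZeroExt.snd_add, TrivSqZeroExt.snd_inl, TrivSqZeroExt.snd_inr, zero_add,
            Derivation.map_algebraMap, map_zero]
          rfl }
  have hφ₀f : ∀ x, (φ₀ x).fst = algebraMap R O x := fun x => by
    show (TrivSqZeroExt.inl (algebraMap R O x) +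
        TrivSqZeroExt.inr (algebraMap R O (δ x)) : TrivSqZeroExt O O).fst = _
    simp
  have hφ₀s : ∀ x, (φ₀ x).snd = algebraMap R O (δ x) := fun x => by
    show (TrivSqZeroExt.inl (algebraMap R O x) +
        TrivSqZeroExt.inr (algebraMap R O (δ x)) : TrivSqZeroExt O O).snd = _
    rw [TrivSqZeroExt.snd_add, TrivSqZeroExt.snd_inl, TrivSqZeroExt.snd_inr, zero_add]
  let φ : O →ₐ[k] TrivSqZeroExt O O := IsLocalization.liftAlgHom (M := M) (f := φ₀) (by
    intro y
    rw [TrivSqZeroExt.isUnit_iff_isUnit_fst, hφ₀f]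
    exact IsLocalization.map_units O y)
  have hφ : ∀ x, φ (algebraMap R O x) = φ₀ x := fun x => by
    show IsLocalization.liftAlgHom (M := M) (f := φ₀) _ (algebraMap R O x) = _
    rw [IsLocalization.liftAlgHom_apply, IsLocalization.lift_eq]
    rfl
  have hfst : ∀ x, (φ x).fst = x := by
    have h1 : (TrivSqZeroExt.fstHom O O O).toRingHom.comp φ.toRingHom = RingHom.id O := by
      apply IsLocalization.ringHom_ext M
      refine RingHom.ext fun x => ?_
      show (φ (algebraMap R O x)).fst = algebraMap R O x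
      rw [hφ, hφ₀f]
    intro x
    exact congrArg (fun f => f x) h1
  refine ⟨Derivation.mk' { toFun := fun x => (φ x).snd
                           map_add' := fun x y => by rw [map_add, TrivSqZeroExt.snd_add]
                           map_smul' := fun a x => by
                            rw [map_smul, TrivSqZeroExt.snd_smul]; rfl } (fun x y => ?_),
    fun x => ?_⟩
  · show (φ (x * y)).snd = x • (φ y).snd + y • (φ x).snd
    rw [map_mul, TrivSqZeroExt.snd_mul, hfst, hfst, smul_eq_mul, smul_eq_mul,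
      MulOpposite.smul_eq_mul_unop, MulOpposite.unop_op, mul_comm y]
  · show (φ (algebraMap R O x)).snd = _
    rw [hφ, hφ₀s]

/-! ### the local ring of the space of tuples -/

variable {r d : ℕ} {k : Type u} [Field k]

/-- the prime of a point -/
noncomputable def PI (c : Idx r d → k) : Ideal (MvPolynomial (Idx r d) k) :=
  RingHom.ker (eval c)

instance (c : Idx r d → k) : (PI c).IsPrime := RingHom.ker_isPrime _

theorem mem_PI {c : Idx r d → k} {a : MvPolynomial (Idx r d) k} : a ∈ PI c ↔ eval c a = 0 :=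
  Iff.rfl

/-- the local ring of the space of tuples at a point -/
abbrev OO (c : Idx r d → k) : Type u := Localization.AtPrime (PI c)

/-- the canonical map -/
noncomputable abbrev toO (c : Idx r d → k) : MvPolynomial (Idx r d) k →+* OO c :=
  algebraMap (MvPolynomial (Idx r d) k) (OO c)

theorem isUnit_toO {c : Idx r d → k} {a : MvPolynomial (Idx r d) k} :
    IsUnit (toO c a) ↔ eval c a ≠ 0 :=
  IsLocalization.AtPrime.isUnit_to_map_iff (OO c) (PI c) a

theorem toO_injective (c : Idx r d → k) : Function.Injective (toO c) :=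
  IsLocalization.injective (OO c) (Ideal.primeCompl_le_nonZeroDivisors (PI c))

theorem OO_surj (c : Idx r d → k) (x : OO c) : ∃ a b : MvPolynomial (Idx r d) k,
    eval c b ≠ 0 ∧ x * toO c b = toO c a := by
  obtain ⟨⟨a, b⟩, h⟩ := IsLocalization.surj (PI c).primeCompl x
  exact ⟨a, b, b.2, h⟩

instance (c : Idx r d → k) : IsDomain (OO c) :=
  IsLocalization.isDomain_localization (Ideal.primeCompl_le_nonZeroDivisors (PI c))

/-- evaluation at a generisation -/
noncomputable def evO {L : Type u} [Field L] [Algebra k L] {c : Idx r d → k} {c' : Idx r d → L}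
    (h : ∀ b : MvPolynomial (Idx r d) k, eval c b ≠ 0 → aeval c' b ≠ 0) : OO c →ₐ[k] L :=
  IsLocalization.liftAlgHom (M := (PI c).primeCompl)
    (f := (aeval c' : MvPolynomial (Idx r d) k →ₐ[k] L)) (fun y =>
      isUnit_iff_ne_zero.2 (h y y.2))

theorem evO_toO {L : Type u} [Field L] [Algebra k L] {c : Idx r d → k} {c' : Idx r d → L}
    (h : ∀ b : MvPolynomial (Idx r d) k, eval c b ≠ 0 → aeval c' b ≠ 0)
    (a : MvPolynomial (Idx r d) k) : evO h (toO c a) = aeval c' a := by
  unfold evO
  rw [IsLocalization.liftAlgHom_apply, IsLocalization.lift_eq]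
  rfl

/-- evaluation at the point itself -/
noncomputable def ev0 (c : Idx r d → k) : OO c →ₐ[k] k :=
  evO (c := c) (c' := c) (fun _ hb => hb)

theorem ev0_toO (c : Idx r d → k) (a : MvPolynomial (Idx r d) k) :
    ev0 c (toO c a) = eval c a := evO_toO _ a

theorem isUnit_OO {c : Idx r d → k} {x : OO c} : IsUnit x ↔ ev0 c x ≠ 0 := by
  constructor
  · intro h
    exact (h.map (ev0 c)).ne_zero
  · intro h
    obtain ⟨a, b, hb, hx⟩ := OO_surj c x
    have h1 := congrArg (ev0 c) hx
    rw [map_mul, ev0_toO, ev0_toO] at h1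
    have h2 : eval c a ≠ 0 := by
      rw [← h1]; exact mul_ne_zero h hb
    have h3 : IsUnit (x * toO c b) := by rw [hx]; exact isUnit_toO.2 h2
    exact isUnit_of_mul_isUnit_left h3

theorem mem_max_OO {c : Idx r d → k} {x : OO c} :
    x ∈ IsLocalRing.maximalIdeal (OO c) ↔ ev0 c x = 0 := by
  rw [IsLocalRing.mem_maximalIdeal, mem_nonunits_iff, isUnit_OO, not_not]

/-- partial derivatives on the local ring -/
noncomputable def dO (c : Idx r d → k) (s : Idx r d) : Derivation k (OO c) (OO c) :=
  Classical.choose (exists_derivation_localization (O := OO c) (PI c).primeCompl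
    (pderiv s : Derivation k (MvPolynomial (Idx r d) k) (MvPolynomial (Idx r d) k)))

theorem dO_toO (c : Idx r d → k) (s : Idx r d) (a : MvPolynomial (Idx r d) k) :
    dO c s (toO c a) = toO c (pderiv s a) :=
  Classical.choose_spec (exists_derivation_localization (O := OO c) (PI c).primeCompl
    (pderiv s : Derivation k (MvPolynomial (Idx r d) k) (MvPolynomial (Idx r d) k))) a

/-- directional derivative of a germ at a generisation -/
noncomputable def dv {L : Type u} [Field L] [Algebra k L] {c : Idx r d → k} {c' : Idx r d → L}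
    (h : ∀ b : MvPolynomial (Idx r d) k, eval c b ≠ 0 → aeval c' b ≠ 0) (v : Idx r d → L)
    (x : OO c) : L := ∑ s, v s * evO h (dO c s x)

theorem dv_eq {L : Type u} [Field L] [Algebra k L] {c : Idx r d → k} {c' : Idx r d → L}
    (h : ∀ b : MvPolynomial (Idx r d) k, eval c b ≠ 0 → aeval c' b ≠ 0) (v : Idx r d → L)
    {x : OO c} {a b : MvPolynomial (Idx r d) k} (hx : x * toO c b = toO c a) :
    dv h v x * aeval c' b ^ 2 = aeval c' b * dd c' v a - aeval c' a * dd c' v b := by
  have h1 : ∀ s, evO h (dO c s x) * aeval c' b ^ 2 =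
      aeval c' b * aeval c' (pderiv s a) - aeval c' a * aeval c' (pderiv s b) := by
    intro s
    have h2 := congrArg (fun y => evO h (dO c s y)) hx
    simp only [Derivation.leibniz, dO_toO, smul_eq_mul, map_add, map_mul, evO_toO] at h2
    have h3 := congrArg (evO h) hx
    rw [map_mul, evO_toO, evO_toO] at h3
    linear_combination (aeval c' b) * h2 - aeval c' (pderiv s b) * h3
  unfold dv dd
  rw [sum_mul, mul_sum, mul_sum, ← sum_sub_distrib]
  refine sum_congr rfl fun s _ => ?_
  rw [mul_assoc, h1]; ring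

theorem dv_mul {L : Type u} [Field L] [Algebra k L] {c : Idx r d → k} {c' : Idx r d → L}
    (h : ∀ b : MvPolynomial (Idx r d) k, eval c b ≠ 0 → aeval c' b ≠ 0) (v : Idx r d → L)
    (x y : OO c) : dv h v (x * y) = evO h x * dv h v y + evO h y * dv h v x := by
  unfold dv
  rw [mul_sum, mul_sum, ← sum_add_distrib]
  refine sum_congr rfl fun s _ => ?_
  rw [Derivation.leibniz, map_add, smul_eq_mul, smul_eq_mul, map_mul, map_mul]; ring

theorem dv_add {L : Type u} [Field L] [Algebra k L] {c : Idx r d → k} {c' : Idx r d → L}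
    (h : ∀ b : MvPolynomial (Idx r d) k, eval c b ≠ 0 → aeval c' b ≠ 0) (v : Idx r d → L)
    (x y : OO c) : dv h v (x + y) = dv h v x + dv h v y := by
  unfold dv
  rw [← sum_add_distrib]
  refine sum_congr rfl fun s _ => ?_
  rw [map_add, map_add]; ring

/-! ### the invariant subring -/

/-- the invariant germs -/
noncomputable def RO (c : Idx r d → k) : Subalgebra k (OO c) where
  carrier := {x | ∃ (e : ℕ) (a b : MvPolynomial (Idx r d) k), a.IsHomogeneous e ∧
    b.IsHomogeneous e ∧ IsInv a ∧ IsInv b ∧ eval c b ≠ 0 ∧ x * toO c b = toO c a}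
  mul_mem' := by
    rintro x y ⟨e, a, b, ha, hb, hai, hbi, hbc, h⟩ ⟨e', a', b', ha', hb', hai', hbi', hbc', h'⟩
    refine ⟨e + e', a * a', b * b', ha.mul ha', hb.mul hb', hai.mul hai', hbi.mul hbi', ?_, ?_⟩
    · rw [map_mul]; exact mul_ne_zero hbc hbc'
    · rw [map_mul, map_mul, ← h, ← h']; ring
  add_mem' := by
    rintro x y ⟨e, a, b, ha, hb, hai, hbi, hbc, h⟩ ⟨e', a', b', ha', hb', hai', hbi', hbc', h'⟩
    refine ⟨e + e', a * b' + b * a', b * b', (ha.mul hb').add (hb.mul ha'), hb.mul hb',
      (hai.mul hbi').add (hbi.mul hai'), hbi.mul hbi', ?_, ?_⟩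
    · rw [map_mul]; exact mul_ne_zero hbc hbc'
    · rw [map_mul, map_add, map_mul, map_mul, ← h, ← h']; ring
  algebraMap_mem' := fun x => by
    refine ⟨0, C x, 1, isHomogeneous_C _ _, isHomogeneous_one _ _, IsInv.C x, IsInv.one, ?_, ?_⟩
    · rw [map_one]; exact one_ne_zero
    · rw [map_one, mul_one, IsScalarTower.algebraMap_apply k (MvPolynomial (Idx r d) k) (OO c)]
      rfl

theorem mem_RO {c : Idx r d → k} {x : OO c} : x ∈ RO c ↔
    ∃ (e : ℕ) (a b : MvPolynomial (Idx r d) k), a.IsHomogeneous e ∧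
    b.IsHomogeneous e ∧ IsInv a ∧ IsInv b ∧ eval c b ≠ 0 ∧ x * toO c b = toO c a := Iff.rfl

/-- representation by semi-invariants -/
theorem RO_semi [IsAlgClosed k] (hr : 1 ≤ r) (hd : 1 ≤ d) {c : Idx r d → k} {x : OO c}
    (hx : x ∈ RO c) : ∃ (κ e : ℕ) (a b : MvPolynomial (Idx r d) k), a.IsHomogeneous e ∧
      b.IsHomogeneous e ∧ SemiInv κ a ∧ SemiInv κ b ∧ eval c b ≠ 0 ∧
      r * κ = e * (d - 1) ∧ x * toO c b = toO c a := by
  obtain ⟨e, a, b, ha, hb, hai, hbi, hbc, h⟩ := mem_RO.1 hx
  obtain ⟨r', rfl⟩ : ∃ r', r = r' + 1 := ⟨r - 1, by omega⟩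
  have h1 := semiInv_of_isInv hr hd ha hb hai hbi
  have h2 := semiInv_of_isInv hr hd hb hb hbi hbi
  rw [Nat.add_sub_cancel] at h1 h2
  have e1 : e + e * r' = (r' + 1) * e := by ring
  refine ⟨e * (d - 1), (r' + 1) * e, a * b ^ r', b * b ^ r', ?_, ?_, h1, h2, ?_, by ring, ?_⟩
  · rw [← e1]; exact ha.mul (hb.pow r')
  · rw [← e1]; exact hb.mul (hb.pow r')
  · rw [map_mul, map_pow]; exact mul_ne_zero hbc (pow_ne_zero _ hbc)
  · rw [map_mul, map_mul, ← h]; ring

theorem RO_of_semi {κ e : ℕ} {c : Idx r d → k} {x : OO c}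
    {a b : MvPolynomial (Idx r d) k} (ha : a.IsHomogeneous e) (hb : b.IsHomogeneous e)
    (hai : SemiInv κ a) (hbi : SemiInv κ b) (hbc : eval c b ≠ 0) (h : x * toO c b = toO c a) :
    x ∈ RO c := mem_RO.2 ⟨e, a, b, ha, hb, hai.isInv, hbi.isInv, hbc, h⟩

theorem RO_isUnit {c : Idx r d → k} (x : RO c) : IsUnit x ↔ IsUnit (x : OO c) := by
  constructor
  · intro h
    exact h.map (RO c).val
  · intro h
    obtain ⟨e, a, b, ha, hb, hai, hbi, hbc, hx⟩ := mem_RO.1 x.2
    have hac : eval c a ≠ 0 := by
      have h1 := congrArg (ev0 c) hx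
      rw [map_mul, ev0_toO, ev0_toO] at h1
      rw [← h1]
      exact mul_ne_zero (isUnit_OO.1 h) hbc
    obtain ⟨u, hu⟩ := h
    have hinv : (↑u⁻¹ : OO c) ∈ RO c := by
      refine mem_RO.2 ⟨e, b, a, hb, ha, hbi, hai, hac, ?_⟩
      rw [← hx, ← hu, ← mul_assoc, Units.inv_mul, one_mul]
    refine IsUnit.of_mul_eq_one ⟨_, hinv⟩ (Subtype.ext ?_)
    show (x : OO c) * ↑u⁻¹ = 1
    rw [← hu, Units.mul_inv]

instance RO_isLocalRing (c : Idx r d → k) : IsLocalRing (RO c) := by
  have h : IsLocalHom (RO c).val.toRingHom := ⟨fun x hx => (RO_isUnit x).2 hx⟩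
  exact RingHom.domain_isLocalRing (RO c).val.toRingHom

theorem RO_mem_max {c : Idx r d → k} (x : RO c) :
    x ∈ IsLocalRing.maximalIdeal (RO c) ↔ (x : OO c) ∈ IsLocalRing.maximalIdeal (OO c) := by
  rw [IsLocalRing.mem_maximalIdeal, IsLocalRing.mem_maximalIdeal, mem_nonunits_iff,
    mem_nonunits_iff, RO_isUnit]

end Pool.Agent.Helper16.Endo
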