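import Pool.Agent.Helper16.Endo18

set_option autoImplicit false

namespace Pool.Agent.Helper16.Endo

open MvPolynomial Finset

universe u

variable {r d : ℕ} {k : Type u} [Field k]

/-! ### derivatives of invariant germs -/

section deriv

variable {L : Type u} [Field L] [Algebra k L] {c : Idx r d → k} {c' : Idx r d → L}
  (h : ∀ b : MvPolynomial (Idx r d) k, eval c b ≠ 0 → aeval c' b ≠ 0)

theorem dv_lie [IsAlgClosed k] (hr : 1 ≤ r) (hd : 1 ≤ d) {x : OO c} (hx : x ∈ RO c)
    (ξ : Matrix (Fin r) (Fin r) L) : dv h (lie ξ c') x = 0 := by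
  obtain ⟨κ, e, a, b, ha, hb, hai, hbi, hbc, -, hxe⟩ := RO_semi hr hd hx
  have h1 := dv_eq h (lie ξ c') hxe
  have h2 := SemiInv.lie hd hai hbi ξ c'
  have h3 : dv h (lie ξ c') x * aeval c' b ^ 2 = 0 := by
    rw [h1]; linear_combination h2
  exact (mul_eq_zero.1 h3).resolve_right (pow_ne_zero _ (h b hbc))

theorem dv_fix [IsAlgClosed k] (hr : 1 ≤ r) (hd : 1 ≤ d) {x : OO c} (hx : x ∈ RO c)
    {g : Matrix (Fin r) (Fin r) L} (hg : IsUnit g.det) (hfix : act g g⁻¹ c' = c')
    (v : Idx r d → L) : dv h (act g g⁻¹ v) x = dv h v x := by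
  obtain ⟨κ, e, a, b, ha, hb, hai, hbi, hbc, -, hxe⟩ := RO_semi hr hd hx
  have h1 := dv_eq h (act g g⁻¹ v) hxe
  have h1' := dv_eq h v hxe
  have h2 := SemiInv.fix hai hbi hg hfix v
  have h3 : dv h (act g g⁻¹ v) x * aeval c' b ^ 2 = dv h v x * aeval c' b ^ 2 := by
    rw [h1, h1', h2]
  exact mul_right_cancel₀ (pow_ne_zero _ (h b hbc)) h3

theorem dv_addv (v w : Idx r d → L) (x : OO c) : dv h (v + w) x = dv h v x + dv h w x := by
  unfold dv
  rw [← sum_add_distrib]
  exact sum_congr rfl fun s _ => by rw [Pi.add_apply]; ring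

theorem dv_smulv (t : L) (v : Idx r d → L) (x : OO c) : dv h (t • v) x = t * dv h v x := by
  unfold dv
  rw [mul_sum]
  exact sum_congr rfl fun s _ => by rw [Pi.smul_apply, smul_eq_mul]; ring

theorem dv_subv (v w : Idx r d → L) (x : OO c) : dv h (v - w) x = dv h v x - dv h w x := by
  have h1 := dv_addv h v ((-1 : L) • w) x
  rw [dv_smulv] at h1
  have h2 : v + (-1 : L) • w = v - w := by
    rw [neg_one_smul, sub_eq_add_neg]
  rw [h2] at h1
  rw [h1]; ring

theorem dv_sumv {ι : Type*} (s : Finset ι) (v : ι → Idx r d → L) (x : OO c) :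
    dv h (∑ i ∈ s, v i) x = ∑ i ∈ s, dv h (v i) x := by
  classical
  induction s using Finset.induction_on with
  | empty =>
    rw [sum_empty, sum_empty]
    unfold dv
    exact sum_eq_zero fun s _ => by rw [Pi.zero_apply, zero_mul]
  | insert a s ha ih => rw [sum_insert ha, sum_insert ha, dv_addv, ih]

theorem Rey_isInv (T u : ℕ) (q : MvPolynomial (Idx r d) k) : IsInv (Rey T u q) := by
  intro g g' hgg hg c
  have h1 := rey_cj T u q g c
  rw [hg, one_pow, one_pow, one_mul, one_mul] at h1
  have h2 : cj g c = act g g' c := by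
    unfold cj
    have h3 : g.adjugate = g' := by
      have h4 := Matrix.adjugate_mul g
      rw [hg, one_smul] at h4
      calc g.adjugate = g.adjugate * (g * g') := by rw [hgg, mul_one]
        _ = g' := by rw [← mul_assoc, h4, one_mul]
    rw [h3]
  have h3 : ∀ c, eval c (Rey T u q) = rey T u q c := by
    intro c
    have h3 := aeval_Rey T u q c
    rw [show MvPolynomial.map (algebraMap k k) q = q from MvPolynomial.map_id q] at h3
    exact h3
  rw [h3, h3, ← h2, h1]

/-- enough invariant germs -/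
theorem enough [IsAlgClosed k] [CharZero k] [IsAlgClosed L] [CharZero L] (hr : 1 ≤ r)
    (hd : 2 ≤ d) (hc : NoZero c) (hc' : NoZero c')
    (hstab : ∀ g : Matrix (Fin r) (Fin r) L, IsUnit g.det → act g g⁻¹ c' = c' →
      ∃ a : L, g = a • 1)
    {v : Idx r d → L} (hv : ∀ ξ : Matrix (Fin r) (Fin r) L, v ≠ lie ξ c') :
    ∃ x ∈ RO c, dv h v x ≠ 0 := by
  have hinf : Infinite k := IsAlgClosed.instInfinite
  obtain ⟨κ, e₀, E, hκ, hκe, hEh, hE, hEc⟩ := exists_semi hr hd hc
  obtain ⟨J, T, u, m, hm, hne⟩ := enough_invariants hr hd hc' hstab hv hκ hκe hE.map (h E hEc)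
  have hEJ : eval c (E ^ J) ≠ 0 := by rw [map_pow]; exact pow_ne_zero _ hEc
  obtain ⟨w, hw⟩ := (isUnit_toO (c := c)).2 hEJ
  have hx : (toO c (Rey T u m) * ↑w⁻¹) * toO c (E ^ J) = toO c (Rey T u m) := by
    rw [← hw, mul_assoc, Units.inv_mul, mul_one]
  refine ⟨toO c (Rey T u m) * ↑w⁻¹, mem_RO.2 ⟨J * e₀, Rey T u m, E ^ J,
    Rey_isHomogeneous T u hm, ?_, Rey_isInv T u m, (hE.pow J).isInv, hEJ, hx⟩, ?_⟩
  · rw [mul_comm J]; exact hEh.pow J
  · intro h0
    have h1 := dv_eq h v hx
    rw [h0, zero_mul] at h1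
    exact hne (sub_eq_zero.1 h1.symm)

end deriv

/-! ### frames -/

/-- the frame given by constant directions and the infinitesimal action -/
noncomputable def fr {S : Type*} [CommRing S] [Algebra k S] {m : ℕ} (V : Fin m → Idx r d → k)
    (c : Idx r d → S) : Fin m ⊕ Ent r → Idx r d → S
  | Sum.inl j => fun s => algebraMap k S (V j s)
  | Sum.inr p => lie (Matrix.single p.1 p.2 1) c

/-- the determinant of the frame -/
noncomputable def frDet {m : ℕ} (V : Fin m → Idx r d → k) (e : (Fin m ⊕ Ent r) ≃ Idx r d) :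
    MvPolynomial (Idx r d) k :=
  (Matrix.of fun p s => fr V (X : Idx r d → MvPolynomial (Idx r d) k) (e.symm p) s).det

theorem aeval_frDet {S : Type*} [CommRing S] [Algebra k S] {m : ℕ} (V : Fin m → Idx r d → k)
    (e : (Fin m ⊕ Ent r) ≃ Idx r d) (c : Idx r d → S) :
    aeval c (frDet V e) = (Matrix.of fun p s => fr V c (e.symm p) s).det := by
  unfold frDet
  rw [AlgHom.map_det]
  refine congrArg Matrix.det ?_
  ext1 p s
  show aeval c (fr V (X : Idx r d → MvPolynomial (Idx r d) k) (e.symm p) s) = fr V c (e.symm p) s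
  rcases e.symm p with j | q
  · show aeval c (C (V j s)) = algebraMap k S (V j s)
    rw [aeval_C]
  · show aeval c (lie (Matrix.single q.1 q.2 1) X s) = lie (Matrix.single q.1 q.2 1) c s
    have h1 := lie_map (aeval c : MvPolynomial (Idx r d) k →ₐ[k] S).toRingHom
      (Matrix.single q.1 q.2 1) (X : Idx r d → MvPolynomial (Idx r d) k)
    have h2 : (Matrix.single q.1 q.2 (1 : MvPolynomial (Idx r d) k)).map
        (aeval c : MvPolynomial (Idx r d) k →ₐ[k] S).toRingHom = Matrix.single q.1 q.2 1 := by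
      ext1 i j
      rw [Matrix.map_apply, Matrix.single_apply, Matrix.single_apply]
      split_ifs
      · exact map_one _
      · exact map_zero _
    have h3 : (fun p => (aeval c : MvPolynomial (Idx r d) k →ₐ[k] S).toRingHom (X p)) = c := by
      funext p; exact aeval_X _ _
    rw [h2, h3] at h1
    exact (congrFun h1 s).symm

/-- linear independence of a frame -/
theorem fr_indep {S : Type*} [CommRing S] [IsDomain S] [Algebra k S] {m : ℕ}
    {V : Fin m → Idx r d → k} {e : (Fin m ⊕ Ent r) ≃ Idx r d} {c : Idx r d → S}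
    (h : aeval c (frDet V e) ≠ 0) (μ : Fin m ⊕ Ent r → S)
    (hμ : ∀ s, ∑ x, μ x * fr V c x s = 0) : μ = 0 := by
  classical
  rw [aeval_frDet] at h
  by_contra hne
  apply h
  apply Matrix.exists_vecMul_eq_zero_iff.1
  refine ⟨fun p => μ (e.symm p), ?_, ?_⟩
  · intro h0
    apply hne
    funext x
    have := congrFun h0 (e x)
    simpa using this
  · funext s
    rw [Matrix.vecMul, dotProduct]
    have h1 := hμ s
    rw [← Equiv.sum_comp e.symm] at h1
    exact h1

/-- a frame spans -/
theorem fr_span {L : Type*} [Field L] [Algebra k L] {m : ℕ}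
    {V : Fin m → Idx r d → k} {e : (Fin m ⊕ Ent r) ≃ Idx r d} {c : Idx r d → L}
    (h : aeval c (frDet V e) ≠ 0) (v : Idx r d → L) :
    ∃ μ : Fin m ⊕ Ent r → L, ∀ s, ∑ x, μ x * fr V c x s = v s := by
  classical
  rw [aeval_frDet] at h
  set M : Matrix (Idx r d) (Idx r d) L := Matrix.of fun p s => fr V c (e.symm p) s with hM
  have hu : IsUnit M.det := isUnit_iff_ne_zero.2 h
  refine ⟨fun x => Matrix.vecMul v M⁻¹ (e x), fun s => ?_⟩
  have h1 : Matrix.vecMul (Matrix.vecMul v M⁻¹) M = v := by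
    rw [Matrix.vecMul_vecMul, Matrix.nonsing_inv_mul _ hu, Matrix.vecMul_one]
  have h2 := congrFun h1 s
  rw [← h2, Matrix.vecMul, dotProduct, ← Equiv.sum_comp e]
  refine sum_congr rfl fun x _ => ?_
  rw [hM, Matrix.of_apply, Equiv.symm_apply_apply]

theorem lie_sum_single {S : Type*} [CommRing S] (μ : Ent r → S) (c : Idx r d → S) (s : Idx r d) :
    ∑ p, μ p * lie (Matrix.single p.1 p.2 1) c s = lie (Matrix.of fun i j => μ (i, j)) c s := by
  classical
  have h1 : (Matrix.of fun i j => μ (i, j)) = ∑ p : Ent r, μ p • Matrix.single p.1 p.2 (1 : S) := by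
    conv_lhs => rw [Matrix.matrix_eq_sum_single (Matrix.of fun i j => μ (i, j))]
    rw [Fintype.sum_prod_type]
    refine sum_congr rfl fun i _ => sum_congr rfl fun j _ => ?_
    rw [Matrix.smul_single, Matrix.of_apply, smul_eq_mul, mul_one]
  have h2 : lie (Matrix.of fun i j => μ (i, j)) c =
      lieL c (∑ p : Ent r, μ p • Matrix.single p.1 p.2 (1 : S)) := by
    rw [lieL_apply, h1]
  rw [h2, map_sum, Finset.sum_apply]
  refine sum_congr rfl fun p _ => ?_
  rw [map_smul, lieL_apply]
  rfl

/-- existence of frames -/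
theorem exists_frame [IsAlgClosed k] [CharZero k] (hd : 2 ≤ d) {c : Idx r d → k}
    (hc : NoZero c) : ∃ (m : ℕ) (V : Fin m → Idx r d → k) (e : (Fin m ⊕ Ent r) ≃ Idx r d),
      eval c (frDet V e) ≠ 0 := by
  classical
  have hinj : Function.Injective (lieL c) := by
    rw [injective_iff_map_eq_zero]
    intro ξ hξ
    exact hc.lie_injective hd hξ
  obtain ⟨U, hU⟩ := Submodule.exists_isCompl (LinearMap.range (lieL c))
  let bU := Module.finBasis k U
  let bW : Module.Basis (Ent r) k (LinearMap.range (lieL c)) :=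
    (Matrix.stdBasis k (Fin r) (Fin r)).map (LinearEquiv.ofInjective (lieL c) hinj)
  let bas : Module.Basis (Fin (Module.finrank k U) ⊕ Ent r) k (Idx r d → k) :=
    (bU.prod bW).map (Submodule.prodEquivOfIsCompl U (LinearMap.range (lieL c)) hU.symm)
  let e : (Fin (Module.finrank k U) ⊕ Ent r) ≃ Idx r d := bas.indexEquiv (Pi.basisFun k (Idx r d))
  let V : Fin (Module.finrank k U) → Idx r d → k := fun j => (bU j : Idx r d → k)
  have hbas : ∀ x, bas x = fr V c x := by
    rintro (j | p)
    · show (Submodule.prodEquivOfIsCompl U (LinearMap.range (lieL c)) hU.symm)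
        ((bU.prod bW) (Sum.inl j)) = _
      rw [Submodule.coe_prodEquivOfIsCompl']
      rw [Module.Basis.prod_apply_inl_fst, Module.Basis.prod_apply_inl_snd]
      simp
      rfl
    · show (Submodule.prodEquivOfIsCompl U (LinearMap.range (lieL c)) hU.symm)
        ((bU.prod bW) (Sum.inr p)) = _
      rw [Submodule.coe_prodEquivOfIsCompl']
      rw [Module.Basis.prod_apply_inr_fst, Module.Basis.prod_apply_inr_snd]
      rw [Module.Basis.map_apply, Matrix.stdBasis_eq_single]
      simp
      rfl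
  refine ⟨Module.finrank k U, V, e, ?_⟩
  have h1 := aeval_frDet V e c
  have h2 : eval c (frDet V e) = (Matrix.of fun p s => fr V c (e.symm p) s).det := h1
  rw [h2]
  have h3 : LinearIndependent k (fun p => bas (e.symm p)) :=
    bas.linearIndependent.comp _ e.symm.injective
  have h4 : (Matrix.of fun p s => fr V c (e.symm p) s).row = fun p => bas (e.symm p) := by
    funext p s
    rw [hbas]; rfl
  rw [← h4] at h3
  have h5 := Matrix.linearIndependent_rows_iff_isUnit.1 h3
  exact ((Matrix.isUnit_iff_isUnit_det _).1 h5).ne_zero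

end Pool.Agent.Helper16.Endo
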