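import Pool.Agent.Helper16.Endo1

set_option autoImplicit false

namespace Pool.Agent.Helper16.Endo

open MvPolynomial Finset

variable {r d : ℕ} {L : Type*} [Field L]

/-- the value of the tuple at a vector -/
noncomputable def val (c : Idx r d → L) (x : Fin r → L) : Fin r → L :=
  fun i => eval x (form c i)

/-- the tuple has no common zero besides the origin -/
def NoZero (c : Idx r d → L) : Prop := ∀ x : Fin r → L, (∀ i, eval x (form c i) = 0) → x = 0

theorem NoZero.val_ne {c : Idx r d → L} (h : NoZero c) {x : Fin r → L} (hx : x ≠ 0) :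
    val c x ≠ 0 := by
  intro h0
  exact hx (h x fun i => congrFun h0 i)

theorem coeff_finset_prod {τ : Type*} (S : Finset τ) (f : τ → Polynomial L) (n : τ → ℕ)
    (h : ∀ i ∈ S, (f i).natDegree ≤ n i) :
    (∏ i ∈ S, f i).natDegree ≤ ∑ i ∈ S, n i ∧
      (∏ i ∈ S, f i).coeff (∑ i ∈ S, n i) = ∏ i ∈ S, (f i).coeff (n i) := by
  classical
  induction S using Finset.induction_on with
  | empty => simp
  | insert a S ha ih =>
    obtain ⟨h1, h2⟩ := ih fun i hi => h i (mem_insert_of_mem hi)
    have h3 := h a (mem_insert_self _ _)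
    rw [prod_insert ha, sum_insert ha, prod_insert ha]
    refine ⟨Polynomial.natDegree_mul_le.trans (add_le_add h3 h1), ?_⟩
    rw [Polynomial.coeff_mul_add_eq_of_natDegree_le h3 h1, h2]

theorem coeff_aeval_of_isHomogeneous {τ : Type*} {p : MvPolynomial τ L} {n s : ℕ}
    (hp : p.IsHomogeneous n) (w : τ → Polynomial L) (hw : ∀ l, (w l).natDegree ≤ s) :
    (aeval w p).coeff (n * s) = eval (fun l => (w l).coeff s) p := by
  classical
  conv_lhs => rw [p.as_sum]
  conv_rhs => rw [p.as_sum]
  rw [map_sum, map_sum, Polynomial.finsetSum_coeff]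
  refine sum_congr rfl fun α hα => ?_
  rw [aeval_monomial, eval_monomial, Polynomial.algebraMap_eq, Polynomial.coeff_C_mul]
  refine congrArg (fun t => coeff α p * t) ?_
  have h1 : n = ∑ i ∈ α.support, α i := by
    have := hp (mem_support_iff.1 hα)
    rw [Finsupp.weight_apply] at this
    simpa [Finsupp.sum] using this.symm
  have h2 := coeff_finset_prod α.support (fun i => w i ^ α i) (fun i => α i * s) (fun i _ => by
    exact (Polynomial.natDegree_pow_le).trans (Nat.mul_le_mul_left _ (hw i)))
  rw [← sum_mul, ← h1] at h2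
  rw [Finsupp.prod, Finsupp.prod, h2.2]
  exact prod_congr rfl fun i _ => Polynomial.coeff_pow_of_natDegree_le (hw i)

/-- the degree lemma -/
theorem NoZero.degree_lemma {c : Idx r d → L} (h : NoZero c) (hd : 2 ≤ d) {s : ℕ} (hs : 1 ≤ s)
    (w : Fin r → Polynomial L) (hw : ∀ l, (w l).natDegree ≤ s)
    (hlead : (fun l => (w l).coeff s) ≠ 0)
    (hG : ∀ j, (aeval w (form c j)).natDegree ≤ s) : False := by
  apply hlead
  apply h
  intro i
  rw [← coeff_aeval_of_isHomogeneous (form_isHomogeneous c i) w hw]
  apply Polynomial.coeff_eq_zero_of_natDegree_lt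
  calc _ ≤ s := hG i
    _ < d * s := by nlinarith

theorem nilpotent_of_eigenvalues [IsAlgClosed L] (ξ : Matrix (Fin r) (Fin r) L)
    (h : ∀ a : L, Module.End.HasEigenvalue (Matrix.toLin' ξ) a → a = 0) : IsNilpotent ξ := by
  classical
  have h1 : IsNilpotent (Matrix.toLin' ξ) := by
    set f := Matrix.toLin' ξ
    have hm := minpoly.monic (Algebra.IsIntegral.isIntegral (R := L) f)
    have hs := IsAlgClosed.splits (minpoly L f)
    have h2 : (minpoly L f).roots = Multiset.replicate (Multiset.card (minpoly L f).roots) 0 := by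
      rw [Multiset.eq_replicate]
      refine ⟨rfl, fun b hb => ?_⟩
      apply h
      exact Module.End.hasEigenvalue_of_isRoot (Polynomial.isRoot_of_mem_roots hb)
    have h3 : minpoly L f = Polynomial.X ^ (Multiset.card (minpoly L f).roots) := by
      have h4 := hs.eq_prod_roots_of_monic hm
      rw [h2] at h4
      simpa using h4
    have h4 := minpoly.aeval L f
    rw [h3, map_pow, Polynomial.aeval_X] at h4
    exact ⟨_, h4⟩
  obtain ⟨n, hn⟩ := h1
  refine ⟨n, ?_⟩
  have h2 : Matrix.toLin' (ξ ^ n) = 0 := by rw [Matrix.toLin'_pow, hn]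
  exact (LinearEquiv.map_eq_zero_iff _).1 h2

/-- the differentiated equation -/
theorem lie_zero_eq (hd : 1 ≤ d) {ξ : Matrix (Fin r) (Fin r) L} {c : Idx r d → L}
    (h : lie ξ c = 0) (j : Fin r) :
    ∑ i, C (ξ j i) * form c i = ∑ l, lin ξ l * pderiv l (form c j) := by
  have h1 := form_lie hd ξ c j
  rw [h] at h1
  have h2 : form (0 : Idx r d → L) j = 0 := by simp [form]
  rw [h2] at h1
  exact (sub_eq_zero.1 h1.symm)

theorem eval_lin (ξ : Matrix (Fin r) (Fin r) L) (w : Fin r → L) (l : Fin r) :
    eval w (lin ξ l) = ξ.mulVec w l := by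
  simp [lin, Matrix.mulVec, dotProduct]

theorem euler_eval (c : Idx r d → L) (w : Fin r → L) (j : Fin r) :
    ∑ l, w l * eval w (pderiv l (form c j)) = d * eval w (form c j) := by
  have h := (form_isHomogeneous c j).sum_X_mul_pderiv
  have h2 := congrArg (eval w) h
  simpa [map_sum] using h2

theorem eigen_of_lie_zero (hd : 1 ≤ d) {ξ : Matrix (Fin r) (Fin r) L} {c : Idx r d → L}
    (h : lie ξ c = 0) {w : Fin r → L} {a : L} (hw : ξ.mulVec w = a • w) :
    ξ.mulVec (val c w) = (d * a) • val c w := by
  funext j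
  have h1 := congrArg (eval w) (lie_zero_eq hd h j)
  rw [map_sum, map_sum] at h1
  simp only [map_mul, eval_C, eval_lin, hw, Pi.smul_apply, smul_eq_mul] at h1
  have h2 := euler_eval c w j
  have h3 : ∑ l, a * w l * eval w (pderiv l (form c j)) = a * (d * eval w (form c j)) := by
    rw [← h2, mul_sum]
    exact sum_congr rfl fun l _ => by ring
  rw [h3] at h1
  rw [Pi.smul_apply, smul_eq_mul]
  show ∑ i, ξ j i * val c w i = _
  rw [show ∑ i, ξ j i * val c w i = ∑ x, ξ j x * eval w (form c x) from rfl, h1]
  show _ = d * a * eval w (form c j)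
  ring

theorem finite_orbit_zero [CharZero L] {d : ℕ} (hd : 2 ≤ d) (S : Set L) (hS : S.Finite)
    (h : ∀ a ∈ S, (d : L) * a ∈ S) : ∀ a ∈ S, a = 0 := by
  intro a ha
  by_contra h0
  have h1 : ∀ n : ℕ, (d : L) ^ n * a ∈ S := by
    intro n
    induction n with
    | zero => simpa using ha
    | succ n ih =>
      rw [pow_succ', mul_assoc]; exact h _ ih
  have h2 : Function.Injective (fun n : ℕ => (d : L) ^ n * a) := by
    intro m n hmn
    have h3 := mul_right_cancel₀ h0 hmn
    have h4 : (d ^ m : ℕ) = d ^ n := by exact_mod_cast h3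
    exact Nat.pow_right_injective hd h4
  exact (Set.infinite_range_of_injective h2) (hS.subset (by rintro _ ⟨n, rfl⟩; exact h1 n))

theorem finite_orbit_root {d : ℕ} (hd : 2 ≤ d) (S : Set L) (hS : S.Finite)
    (h : ∀ a ∈ S, a ^ d ∈ S) : ∀ a ∈ S, a ≠ 0 → ∃ M : ℕ, 0 < M ∧ a ^ M = 1 := by
  intro a ha h0
  have h1 : ∀ n : ℕ, a ^ (d ^ n) ∈ S := by
    intro n
    induction n with
    | zero => simpa using ha
    | succ n ih =>
      rw [pow_succ, pow_mul]; exact h _ ih
  have h2 : ¬ Function.Injective (fun n : ℕ => a ^ (d ^ n)) := by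
    intro hinj
    exact (Set.infinite_range_of_injective hinj) (hS.subset (by rintro _ ⟨n, rfl⟩; exact h1 n))
  rw [Function.Injective] at h2
  push Not at h2
  obtain ⟨m, n, hmn, hne⟩ := h2
  wlog hlt : m < n generalizing m n
  · exact this n m hmn.symm hne.symm (lt_of_le_of_ne (not_lt.1 hlt) hne.symm)
  have h3 : d ^ m < d ^ n := Nat.pow_lt_pow_right (by omega) hlt
  refine ⟨d ^ n - d ^ m, by omega, ?_⟩
  have h4 : a ^ (d ^ n - d ^ m) * a ^ (d ^ m) = a ^ (d ^ m) := by
    rw [← pow_add, Nat.sub_add_cancel h3.le]; exact hmn.symm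
  exact mul_right_cancel₀ (pow_ne_zero _ h0) (by rw [h4, one_mul])

/-- the polynomial curve `exp(tξ)w` truncated at order `s` -/
noncomputable def expCurve (ξ : Matrix (Fin r) (Fin r) L) (w : Fin r → L) (s : ℕ) (l : Fin r) :
    Polynomial L :=
  ∑ j ∈ range (s + 1), Polynomial.monomial j (((ξ ^ j).mulVec w l) / (j.factorial : L))

theorem expCurve_natDegree (ξ : Matrix (Fin r) (Fin r) L) (w : Fin r → L) (s : ℕ) (l : Fin r) :
    (expCurve ξ w s l).natDegree ≤ s := by
  refine Polynomial.natDegree_sum_le_of_forall_le _ _ fun j hj => ?_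
  exact (Polynomial.natDegree_monomial_le _).trans (by have := mem_range.1 hj; omega)

theorem expCurve_coeff (ξ : Matrix (Fin r) (Fin r) L) (w : Fin r → L) (s : ℕ) (l : Fin r) :
    (expCurve ξ w s l).coeff s = ((ξ ^ s).mulVec w l) / (s.factorial : L) := by
  rw [expCurve, Polynomial.finsetSum_coeff, sum_eq_single s]
  · simp [Polynomial.coeff_monomial]
  · intro b _ hb; rw [Polynomial.coeff_monomial, if_neg hb]
  · simp

theorem expCurve_derivative [CharZero L] (ξ : Matrix (Fin r) (Fin r) L) (w : Fin r → L) (s : ℕ)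
    (hs : (ξ ^ (s + 1)) = 0) (l : Fin r) :
    Polynomial.derivative (expCurve ξ w s l) =
      ∑ m, Polynomial.C (ξ l m) * expCurve ξ w s m := by
  have h1 : ∑ m, Polynomial.C (ξ l m) * expCurve ξ w s m =
      ∑ j ∈ range (s + 1), Polynomial.monomial j (((ξ ^ (j + 1)).mulVec w l) / (j.factorial : L)) := by
    simp_rw [expCurve, mul_sum]
    rw [sum_comm]
    refine sum_congr rfl fun j _ => ?_
    simp_rw [Polynomial.C_mul_monomial]
    rw [← map_sum]
    refine congrArg (fun x => Polynomial.monomial j x) ?_
    rw [pow_succ', ← Matrix.mulVec_mulVec]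
    simp only [Matrix.mulVec, dotProduct]
    rw [sum_div]
    exact sum_congr rfl fun m _ => by ring
  rw [h1, expCurve, map_sum, sum_range_succ', sum_range_succ]
  simp only [Polynomial.derivative_monomial]
  rw [hs]
  simp only [Matrix.zero_mulVec, Pi.zero_apply, zero_div, map_zero, add_zero, Nat.cast_zero,
    mul_zero]
  refine sum_congr rfl fun j _ => ?_
  rw [Nat.add_sub_cancel]
  refine congrArg (fun x => Polynomial.monomial j x) ?_
  rw [Nat.factorial_succ]
  push_cast
  have h2 : (j.factorial : L) ≠ 0 := by exact_mod_cast j.factorial_ne_zero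
  have h3 : ((j : L) + 1) ≠ 0 := by exact_mod_cast Nat.succ_ne_zero j
  field_simp

theorem derivative_aeval {τ : Type*} [Fintype τ] (p : MvPolynomial τ L) (w : τ → Polynomial L) :
    Polynomial.derivative (aeval w p) =
      ∑ l, aeval w (pderiv l p) * Polynomial.derivative (w l) := by
  classical
  induction p using MvPolynomial.induction_on with
  | C a => simp
  | add p q hp hq => simp only [map_add, hp, hq, add_mul, sum_add_distrib]
  | mul_X p i hp =>
    rw [map_mul, aeval_X, Polynomial.derivative_mul, hp]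
    simp only [Derivation.leibniz, smul_eq_mul, pderiv_X, map_add, map_mul, aeval_X, add_mul,
      sum_add_distrib]
    rw [add_comm]
    refine congrArg₂ (fun s t => s + t) ?_ ?_
    · rw [sum_eq_single i]
      · simp
      · intro b _ hb
        rw [Pi.single_eq_of_ne hb.symm]; simp
      · simp
    · rw [sum_mul]
      exact sum_congr rfl fun l _ => by ring

/-- **infinitesimal freeness** -/
theorem NoZero.lie_injective [IsAlgClosed L] [CharZero L] {c : Idx r d → L} (hc : NoZero c)
    (hd : 2 ≤ d) {ξ : Matrix (Fin r) (Fin r) L} (h : lie ξ c = 0) : ξ = 0 := by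
  have hd1 : 1 ≤ d := by omega
  -- `ξ` is nilpotent
  have hnil : IsNilpotent ξ := by
    apply nilpotent_of_eigenvalues
    refine finite_orbit_zero hd {a : L | Module.End.HasEigenvalue (Matrix.toLin' ξ) a}
      (Module.End.finite_hasEigenvalue _) ?_
    intro a ha
    obtain ⟨w, hw⟩ := ha.exists_hasEigenvector
    have h1 := eigen_of_lie_zero hd1 h (w := w) (a := a) (by
      have := hw.apply_eq_smul
      rwa [Matrix.toLin'_apply] at this)
    refine Module.End.hasEigenvalue_of_hasEigenvector (x := val c w) ?_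
    rw [Module.End.hasEigenvector_iff, Module.End.mem_eigenspace_iff, Matrix.toLin'_apply]
    exact ⟨h1, hc.val_ne hw.2⟩
  by_contra hne
  -- the nilpotency index
  obtain ⟨s, hs1, hs2⟩ : ∃ s, ξ ^ s ≠ 0 ∧ ξ ^ (s + 1) = 0 := by
    classical
    obtain ⟨n, hn⟩ := hnil
    have hex : ∃ n, ξ ^ n = 0 := ⟨n, hn⟩
    have h0 : Nat.find hex ≠ 0 := by
      intro h0
      have := Nat.find_spec hex
      rw [h0, pow_zero] at this
      apply hne
      rw [← mul_one ξ, this, mul_zero]
    obtain ⟨m, hm⟩ := Nat.exists_eq_succ_of_ne_zero h0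
    refine ⟨m, ?_, ?_⟩
    · exact Nat.find_min hex (by omega)
    · have := Nat.find_spec hex
      rwa [hm] at this
  have hs : 1 ≤ s := by
    rcases Nat.eq_zero_or_pos s with h0 | h0
    · subst h0
      rw [zero_add, pow_one] at hs2
      exact absurd hs2 hne
    · exact h0
  obtain ⟨w, hw⟩ : ∃ w, (ξ ^ s).mulVec w ≠ 0 := by
    by_contra hcon
    push Not at hcon
    apply hs1
    apply Matrix.toLin'.injective
    apply LinearMap.ext
    intro w
    rw [Matrix.toLin'_apply, hcon w]; simp
  refine hc.degree_lemma hd hs (expCurve ξ w s) (expCurve_natDegree ξ w s) ?_ ?_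
  · intro h0
    apply hw
    funext l
    have h1 := congrFun h0 l
    simp only [expCurve_coeff, Pi.zero_apply] at h1
    have h2 : (s.factorial : L) ≠ 0 := by exact_mod_cast s.factorial_ne_zero
    rcases div_eq_zero_iff.1 h1 with h3 | h3
    · exact h3
    · exact absurd h3 h2
  · -- the curve satisfies the differential equation
    have hG : ∀ j, Polynomial.derivative (aeval (expCurve ξ w s) (form c j)) =
        ∑ i, Polynomial.C (ξ j i) * aeval (expCurve ξ w s) (form c i) := by
      intro j
      rw [derivative_aeval]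
      have h1 := congrArg (aeval (expCurve ξ w s)) (lie_zero_eq hd1 h j)
      rw [map_sum, map_sum] at h1
      simp only [map_mul, aeval_C, Polynomial.algebraMap_eq] at h1
      rw [h1]
      refine sum_congr rfl fun l _ => ?_
      rw [expCurve_derivative ξ w s hs2, mul_comm]
      refine congrArg (fun t => t * aeval (expCurve ξ w s) (pderiv l (form c j))) ?_
      simp [lin]
    have hG2 : ∀ n j, (Polynomial.derivative^[n]) (aeval (expCurve ξ w s) (form c j)) =
        ∑ i, Polynomial.C ((ξ ^ n) j i) * aeval (expCurve ξ w s) (form c i) := by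
      intro n
      induction n with
      | zero =>
        intro j
        rw [Function.iterate_zero, id, pow_zero, sum_eq_single j]
        · simp
        · intro b _ hb; rw [Matrix.one_apply_ne hb.symm]; simp
        · simp
      | succ n ih =>
        intro j
        rw [Function.iterate_succ_apply', ih, map_sum]
        simp_rw [Polynomial.derivative_C_mul, hG, mul_sum]
        rw [sum_comm]
        refine sum_congr rfl fun i _ => ?_
        rw [pow_succ, Matrix.mul_apply, map_sum, sum_mul]
        refine sum_congr rfl fun m _ => ?_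
        rw [map_mul, mul_assoc]
    intro j
    have h3 := hG2 (s + 1) j
    rw [hs2] at h3
    simp only [Matrix.zero_apply, map_zero, zero_mul, sum_const_zero] at h3
    rw [Polynomial.natDegree_le_iff_coeff_eq_zero]
    intro N hN
    have h4 := congrArg (fun q => q.coeff (N - (s + 1))) h3
    simp only [Polynomial.coeff_iterate_derivative, Polynomial.coeff_zero] at h4
    rw [Nat.sub_add_cancel (by omega : s + 1 ≤ N), nsmul_eq_mul] at h4
    rcases mul_eq_zero.1 h4 with h5 | h5
    · exfalso
      have h6 : N.descFactorial (s + 1) = 0 := by exact_mod_cast h5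
      rw [Nat.descFactorial_eq_zero_iff_lt] at h6
      omega
    · exact h5

end Pool.Agent.Helper16.Endo
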