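import Pool.Agent.Helper16.Endo19

set_option autoImplicit false

namespace Pool.Agent.Helper16.Endo

open MvPolynomial Finset

universe u

variable {r d : ℕ} {k : Type u} [Field k]

/-! ### comparison with the function field -/

/-- the function field of the space of tuples -/
abbrev KK (r d : ℕ) (k : Type u) [Field k] : Type u := FractionRing (MvPolynomial (Idx r d) k)

/-- the inclusion of the local ring in the function field -/
noncomputable def toK (c : Idx r d → k) : OO c →ₐ[k] KK r d k :=
  IsLocalization.liftAlgHom (M := (PI c).primeCompl)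
    (f := IsScalarTower.toAlgHom k (MvPolynomial (Idx r d) k) (KK r d k)) (fun y => by
      rw [isUnit_iff_ne_zero]
      intro h0
      have h1 : algebraMap (MvPolynomial (Idx r d) k) (KK r d k) y = 0 := h0
      have h2 : (y : MvPolynomial (Idx r d) k) = 0 :=
        (map_eq_zero_iff _ (IsFractionRing.injective _ _)).1 h1
      apply y.2
      rw [h2]
      exact Ideal.zero_mem _)

theorem toK_toO (c : Idx r d → k) (a : MvPolynomial (Idx r d) k) :
    toK c (toO c a) = algebraMap (MvPolynomial (Idx r d) k) (KK r d k) a := by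
  unfold toK
  rw [IsLocalization.liftAlgHom_apply, IsLocalization.lift_eq]
  rfl

theorem toK_injective (c : Idx r d → k) : Function.Injective (toK c) := by
  rw [injective_iff_map_eq_zero]
  intro x hx
  obtain ⟨a, b, hb, h⟩ := OO_surj c x
  have h1 := congrArg (toK c) h
  rw [map_mul, hx, zero_mul, toK_toO] at h1
  have h2 : a = 0 := (map_eq_zero_iff _ (IsFractionRing.injective _ _)).1 h1.symm
  rw [h2, map_zero] at h
  rcases mul_eq_zero.1 h with h3 | h3
  · exact h3
  · exact absurd h3 (isUnit_toO.2 hb).ne_zero

/-- the dimension of the invariant local ring is at most the number of constant directions -/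
theorem ringKrullDim_RO_le [IsAlgClosed k] [CharZero k] (hr : 1 ≤ r) (hd : 1 ≤ d)
    {c : Idx r d → k} {m : ℕ} {V : Fin m → Idx r d → k} {e : (Fin m ⊕ Ent r) ≃ Idx r d}
    (he : frDet V e ≠ 0) : ringKrullDim (RO c) ≤ m := by
  classical
  obtain ⟨D, hD⟩ := Pool.Agent.Helper4.EndoT2.T2_exists_D (k := k) (σ := Idx r d)
  let R' : Subalgebra k (KK r d k) := (RO c).map (toK c)
  -- the universal point
  let Y : Idx r d → KK r d k := fun p => algebraMap (MvPolynomial (Idx r d) k) (KK r d k) (X p)
  have hYa : ∀ q : MvPolynomial (Idx r d) k, aeval Y q =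
      algebraMap (MvPolynomial (Idx r d) k) (KK r d k) q := by
    intro q
    have := aeval_algebraMap_hom (R := k) (S := MvPolynomial (Idx r d) k) (T := KK r d k) q X
    rw [aeval_X_left_apply] at this
    exact this.symm
  have he' : aeval Y (frDet V e) ≠ 0 := by
    rw [hYa]
    intro h0
    exact he ((map_eq_zero_iff _ (IsFractionRing.injective _ _)).1 h0)
  let Φ : (Idx r d → KK r d k) →ₗ[KK r d k] (Ent r → KK r d k) :=
    LinearMap.pi fun q => ∑ s, (lie (Matrix.single q.1 q.2 1) Y s) •
      LinearMap.proj (R := KK r d k) (φ := fun _ => KK r d k) s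
  have hΦ : ∀ y q, Φ y q = ∑ s, lie (Matrix.single q.1 q.2 1) Y s * y s := by
    intro y q
    simp [Φ]
  let Ψ : (Idx r d → KK r d k) →ₗ[KK r d k] (Fin m → KK r d k) :=
    LinearMap.pi fun j => ∑ s, (algebraMap k (KK r d k) (V j s)) •
      LinearMap.proj (R := KK r d k) (φ := fun _ => KK r d k) s
  have hΨ : ∀ y j, Ψ y j = ∑ s, algebraMap k (KK r d k) (V j s) * y s := by
    intro y j
    simp only [Ψ, LinearMap.pi_apply, LinearMap.sum_apply, LinearMap.smul_apply,
      LinearMap.proj_apply, smul_eq_mul]
  have hN : ∀ x ∈ R', (fun s => D s x) ∈ LinearMap.ker Φ := by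
    rintro _ ⟨y, hy, rfl⟩
    obtain ⟨κ, e', a, b, ha, hb, hai, hbi, hbc, -, hyx⟩ := RO_semi hr hd hy
    have h1 := congrArg (toK c) hyx
    rw [map_mul, toK_toO, toK_toO] at h1
    have hb0 : algebraMap (MvPolynomial (Idx r d) k) (KK r d k) b ≠ 0 := by
      intro h0
      have := (map_eq_zero_iff _ (IsFractionRing.injective _ _)).1 h0
      rw [this, map_zero] at hbc
      exact hbc rfl
    set x := toK c y with hx
    have h2 : ∀ s, D s x * algebraMap (MvPolynomial (Idx r d) k) (KK r d k) b ^ 2 =
        algebraMap (MvPolynomial (Idx r d) k) (KK r d k) b *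
          algebraMap (MvPolynomial (Idx r d) k) (KK r d k) (pderiv s a) -
        algebraMap (MvPolynomial (Idx r d) k) (KK r d k) a *
          algebraMap (MvPolynomial (Idx r d) k) (KK r d k) (pderiv s b) := by
      intro s
      have h3 := congrArg (D s) h1
      rw [Derivation.leibniz, hD, hD, smul_eq_mul, smul_eq_mul] at h3
      linear_combination (algebraMap (MvPolynomial (Idx r d) k) (KK r d k) b) * h3 -
        algebraMap (MvPolynomial (Idx r d) k) (KK r d k) (pderiv s b) * h1
    rw [LinearMap.mem_ker]
    funext q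
    rw [hΦ, Pi.zero_apply]
    have h4 := SemiInv.lie hd hai hbi (S := KK r d k) (Matrix.single q.1 q.2 1) Y
    rw [hYa, hYa] at h4
    have h5 : (∑ s, lie (Matrix.single q.1 q.2 1) Y s * D s x) *
        algebraMap (MvPolynomial (Idx r d) k) (KK r d k) b ^ 2 = 0 := by
      have h6 : ∀ w : MvPolynomial (Idx r d) k, dd Y (lie (Matrix.single q.1 q.2 1) Y) w =
          ∑ s, lie (Matrix.single q.1 q.2 1) Y s *
            algebraMap (MvPolynomial (Idx r d) k) (KK r d k) (pderiv s w) := by
        intro w
        unfold dd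
        exact sum_congr rfl fun s _ => by rw [hYa]
      rw [h6, h6] at h4
      rw [sum_mul]
      have h7 : ∀ s, lie (Matrix.single q.1 q.2 1) Y s * D s x *
          algebraMap (MvPolynomial (Idx r d) k) (KK r d k) b ^ 2 =
          (lie (Matrix.single q.1 q.2 1) Y s *
            algebraMap (MvPolynomial (Idx r d) k) (KK r d k) (pderiv s a)) *
              algebraMap (MvPolynomial (Idx r d) k) (KK r d k) b -
          (lie (Matrix.single q.1 q.2 1) Y s *
            algebraMap (MvPolynomial (Idx r d) k) (KK r d k) (pderiv s b)) *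
              algebraMap (MvPolynomial (Idx r d) k) (KK r d k) a := by
        intro s
        rw [mul_assoc, h2]; ring
      rw [sum_congr rfl fun s _ => h7 s, sum_sub_distrib, ← sum_mul, ← sum_mul, h4, sub_self]
    exact (mul_eq_zero.1 h5).resolve_right (pow_ne_zero _ hb0)
  have h1 := Pool.Agent.Helper4.EndoT2.T2_ringKrullDim_le D hD R' (LinearMap.ker Φ) hN
  have h2 : ringKrullDim (RO c) = ringKrullDim R' :=
    ringKrullDim_eq_of_ringEquiv
      ((RO c).equivMapOfInjective (toK c) (toK_injective c)).toRingEquiv
  rw [h2]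
  refine h1.trans ?_
  have h3 : Module.finrank (KK r d k) (LinearMap.ker Φ) ≤ m := by
    have hinj : Function.Injective (Ψ.comp (LinearMap.ker Φ).subtype) := by
      rw [injective_iff_map_eq_zero]
      rintro ⟨y, hy⟩ hy'
      have hy1 : ∀ q : Ent r, ∑ s, lie (Matrix.single q.1 q.2 1) Y s * y s = 0 := by
        intro q
        rw [← hΦ, LinearMap.mem_ker.1 hy]; rfl
      have hy2 : ∀ j, ∑ s, algebraMap k (KK r d k) (V j s) * y s = 0 := by
        intro j
        rw [← hΨ]
        exact congrFun hy' j
      have hdet : (Matrix.of fun p s => fr V Y (e.symm p) s).det ≠ 0 := by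
        rw [← aeval_frDet]; exact he'
      by_contra hne
      apply hdet
      apply Matrix.exists_mulVec_eq_zero_iff.1
      refine ⟨y, fun h0 => hne (Subtype.ext h0), ?_⟩
      funext p
      rw [Matrix.mulVec, dotProduct, Pi.zero_apply]
      show ∑ s, fr V Y (e.symm p) s * y s = 0
      rcases e.symm p with j | q
      · exact hy2 j
      · exact hy1 q
    have h4 := LinearMap.finrank_le_finrank_of_injective hinj
    rwa [Module.finrank_fin_fun] at h4
  exact_mod_cast h3

/-! ### generators of the maximal ideal -/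

theorem exists_generators {R : Type*} [CommRing R] [IsNoetherianRing R] (I : Ideal R) {m : ℕ}
    (h : I.spanFinrank ≤ m) : ∃ t : Fin m → R, Ideal.span (Set.range t) = I := by
  classical
  have hfg : Submodule.FG I := IsNoetherian.noetherian I
  have h1 : (Submodule.generators I).Finite := Submodule.FG.finite_generators hfg
  have h2 : h1.toFinset.card ≤ m := by
    rw [← Set.ncard_eq_toFinset_card _ h1, Submodule.FG.generators_ncard hfg]
    exact h
  have h3 : Submodule.span R (Submodule.generators I) = I := Submodule.span_generators I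
  refine ⟨fun i => if hi : (i : ℕ) < h1.toFinset.card then
    (h1.toFinset.equivFin.symm ⟨i, hi⟩ : R) else 0, ?_⟩
  apply le_antisymm
  · rw [Ideal.span_le]
    rintro _ ⟨i, rfl⟩
    simp only
    split_ifs with hi
    · have h4 := (h1.toFinset.equivFin.symm ⟨i, hi⟩).2
      exact Submodule.FG.generators_mem I (h1.mem_toFinset.1 h4)
    · exact I.zero_mem
  · conv_lhs => rw [← h3]
    rw [Submodule.span_le]
    intro x hx
    apply Ideal.subset_span
    have hx' : x ∈ h1.toFinset := h1.mem_toFinset.2 hx
    refine ⟨⟨h1.toFinset.equivFin ⟨x, hx'⟩, lt_of_lt_of_le (Fin.is_lt _) h2⟩, ?_⟩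
    simp

/-! ### directional derivatives and generators -/

/-- if a direction kills generators of the maximal ideal, it kills all invariant germs -/
theorem dv_eq_zero_of_generators {L : Type u} [Field L] [Algebra k L] {c : Idx r d → k}
    {c' : Idx r d → L} (h : ∀ b : MvPolynomial (Idx r d) k, eval c b ≠ 0 → aeval c' b ≠ 0)
    {m : ℕ} {t : Fin m → RO c}
    (ht : Ideal.span (Set.range t) = IsLocalRing.maximalIdeal (RO c)) (v : Idx r d → L)
    (hv : ∀ i, dv h v (t i) = 0) {x : OO c} (hx : x ∈ RO c) : dv h v x = 0 := by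
  classical
  let Dv : OO c → (Idx r d → OO c) := fun x s => dO c s x
  have hDv : ∀ x y, Dv (x * y) = x • Dv y + y • Dv x := by
    intro x y; funext s
    show dO c s (x * y) = x * dO c s y + y * dO c s x
    rw [Derivation.leibniz]; rfl
  have hDva : ∀ x y, Dv (x + y) = Dv x + Dv y := by
    intro x y; funext s
    show dO c s (x + y) = _
    rw [map_add]; rfl
  have hDvc : ∀ a : k, Dv (algebraMap k (OO c) a) = 0 := by
    intro a; funext s
    show dO c s (algebraMap k (OO c) a) = 0
    exact Derivation.map_algebraMap _ _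
  set P : Submodule (OO c) (Idx r d → OO c) :=
    Submodule.span (OO c) {y | ∃ x ∈ RO c, y = Dv x} with hP
  set P' : Submodule (OO c) (Idx r d → OO c) :=
    Submodule.span (OO c) (Set.range fun i => Dv (t i)) with hP'
  have hmax : ∀ y : RO c, y ∈ IsLocalRing.maximalIdeal (RO c) →
      Dv y ∈ P' ⊔ IsLocalRing.maximalIdeal (OO c) • P := by
    intro y hy
    rw [← ht] at hy
    refine Submodule.span_induction
      (p := fun y _ => Dv (y : RO c) ∈ P' ⊔ IsLocalRing.maximalIdeal (OO c) • P) ?_ ?_ ?_ ?_ hy
    · rintro _ ⟨i, rfl⟩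
      exact Submodule.mem_sup_left (Submodule.subset_span ⟨i, rfl⟩)
    · have : Dv ((0 : RO c) : OO c) = 0 := by
        funext s
        show dO c s 0 = 0
        exact map_zero _
      rw [this]; exact Submodule.zero_mem _
    · intro y z _ _ hy hz
      have : Dv ((y + z : RO c) : OO c) = Dv y + Dv z := hDva _ _
      rw [this]; exact Submodule.add_mem _ hy hz
    · intro a y hys hy
      have : Dv ((a • y : RO c) : OO c) = (a : OO c) • Dv y + (y : OO c) • Dv a := hDv _ _
      rw [this]
      refine Submodule.add_mem _ (Submodule.smul_mem _ _ hy) (Submodule.mem_sup_right ?_)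
      refine Submodule.smul_mem_smul ?_ (Submodule.subset_span ⟨a, a.2, rfl⟩)
      rw [← RO_mem_max, ← ht]
      exact hys
  have hPP : P ≤ P' ⊔ IsLocalRing.maximalIdeal (OO c) • P := by
    conv_lhs => rw [hP]
    rw [Submodule.span_le]
    rintro _ ⟨x, hx, rfl⟩
    let x' : RO c := ⟨x, hx⟩
    let y : RO c := x' - algebraMap k (RO c) (ev0 c x)
    have hy : y ∈ IsLocalRing.maximalIdeal (RO c) := by
      rw [RO_mem_max, mem_max_OO]
      show ev0 c (x - algebraMap k (OO c) (ev0 c x)) = 0
      rw [map_sub, AlgHom.commutes]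
      exact sub_self _
    have h1 : Dv x = Dv y := by
      have h2 : x = (y : OO c) + algebraMap k (OO c) (ev0 c x) := by
        show x = (x - algebraMap k (OO c) (ev0 c x)) + algebraMap k (OO c) (ev0 c x)
        ring
      conv_lhs => rw [h2]
      rw [hDva, hDvc, add_zero]
    rw [h1]
    exact hmax y hy
  have hle : P ≤ P' := Submodule.le_of_le_smul_of_le_jacobson_bot (IsNoetherian.noetherian P)
    (IsLocalRing.maximalIdeal_le_jacobson _) hPP
  let Z : Submodule (OO c) (Idx r d → OO c) :=
    { carrier := {y | ∑ s, v s * evO h (y s) = 0}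
      add_mem' := fun {y z} hy hz => by
        show ∑ s, v s * evO h ((y + z) s) = 0
        have hy' : ∑ s, v s * evO h (y s) = 0 := hy
        have hz' : ∑ s, v s * evO h (z s) = 0 := hz
        have : ∀ s, v s * evO h ((y + z) s) = v s * evO h (y s) + v s * evO h (z s) := by
          intro s; rw [Pi.add_apply, map_add]; ring
        rw [sum_congr rfl fun s _ => this s, sum_add_distrib, hy', hz', add_zero]
      zero_mem' := by
        show ∑ s, v s * evO h ((0 : Idx r d → OO c) s) = 0
        exact sum_eq_zero fun s _ => by rw [Pi.zero_apply, map_zero, mul_zero]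
      smul_mem' := fun a y hy => by
        show ∑ s, v s * evO h ((a • y) s) = 0
        have hy' : ∑ s, v s * evO h (y s) = 0 := hy
        have : ∀ s, v s * evO h ((a • y) s) = evO h a * (v s * evO h (y s)) := by
          intro s; rw [Pi.smul_apply, smul_eq_mul, map_mul]; ring
        rw [sum_congr rfl fun s _ => this s, ← mul_sum, hy', mul_zero] }
  have hP'Z : P' ≤ Z := by
    rw [hP', Submodule.span_le]
    rintro _ ⟨i, rfl⟩
    exact hv i
  exact hP'Z (hle (Submodule.subset_span ⟨x, hx, rfl⟩))

end Pool.Agent.Helper16.Endo
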