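import Pool.Agent.Helper16.Endo20

set_option autoImplicit false

namespace Pool.Agent.Helper16.Endo

open MvPolynomial Finset

universe u

variable {r d : ℕ} {k : Type u} [Field k]

/-- a vanishing polynomial has a vanishing prime factor -/
theorem exists_prime_factor {c : Idx r d → k} {a : MvPolynomial (Idx r d) k} (ha : a ≠ 0)
    (hac : eval c a = 0) : ∃ h, Prime h ∧ h ∣ a ∧ eval c h = 0 := by
  classical
  obtain ⟨f, hf, hfa⟩ := UniqueFactorizationMonoid.exists_prime_factors a ha
  obtain ⟨u, hu⟩ := hfa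
  have h1 : eval c f.prod = 0 := by
    have h2 := congrArg (eval c) hu
    rw [map_mul, hac] at h2
    exact (mul_eq_zero.1 h2).resolve_right ((u.isUnit.map (eval c)).ne_zero)
  rw [map_multiset_prod, Multiset.prod_eq_zero_iff] at h1
  obtain ⟨h, hh, hh0⟩ := Multiset.mem_map.1 h1
  exact ⟨h, hf h hh, (Multiset.dvd_prod hh).trans ⟨_, hu.symm⟩, hh0⟩

theorem generic_aux [IsAlgClosed k] [CharZero k] (hrd : 3 ≤ r ∨ (2 ≤ r ∧ 3 ≤ d)) (hd : 2 ≤ d)
    {c : Idx r d → k} (hc : NoZero c) {h : MvPolynomial (Idx r d) k}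
    (hprime : (Ideal.span {h}).IsPrime) (hhc : eval c h = 0)
    {κ L : Type u} [Field κ] [Algebra (MvPolynomial (Idx r d) k ⧸ Ideal.span {h}) κ]
    [IsFractionRing (MvPolynomial (Idx r d) k ⧸ Ideal.span {h}) κ]
    [Algebra k κ] [IsScalarTower k (MvPolynomial (Idx r d) k ⧸ Ideal.span {h}) κ]
    [Field L] [IsAlgClosed L] [Algebra κ L] [Algebra.IsAlgebraic κ L] [Algebra k L]
    [IsScalarTower k κ L] :
    CharZero L ∧ ∃ c' : Idx r d → L,
      (∀ b : MvPolynomial (Idx r d) k, eval c b ≠ 0 → aeval c' b ≠ 0) ∧ aeval c' h = 0 ∧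
      NoZero c' ∧ (∀ g : Matrix (Fin r) (Fin r) L, IsUnit g.det → act g g⁻¹ c' = c' →
        ∃ a : L, g = a • 1) := by
  have hκ0 : CharZero κ := charZero_of_injective_algebraMap (algebraMap k κ).injective
  have hL0 : CharZero L := charZero_of_injective_algebraMap (algebraMap κ L).injective
  refine ⟨hL0, ?_⟩
  let c' : Idx r d → L := fun p => algebraMap κ L (algebraMap
    (MvPolynomial (Idx r d) k ⧸ Ideal.span {h}) κ (Ideal.Quotient.mk _ (X p)))
  have hk : ∀ x : k, algebraMap κ L (algebraMap (MvPolynomial (Idx r d) k ⧸ Ideal.span {h}) κ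
      (Ideal.Quotient.mk _ (C x))) = algebraMap k L x := by
    intro x
    rw [IsScalarTower.algebraMap_apply k κ L,
      IsScalarTower.algebraMap_apply k (MvPolynomial (Idx r d) k ⧸ Ideal.span {h}) κ]
    rfl
  have hev : ∀ q : MvPolynomial (Idx r d) k, aeval c' q = algebraMap κ L (algebraMap
      (MvPolynomial (Idx r d) k ⧸ Ideal.span {h}) κ (Ideal.Quotient.mk _ q)) := by
    intro q
    induction q using MvPolynomial.induction_on with
    | C a => rw [aeval_C, hk]
    | add p q hp hq => rw [map_add, map_add, map_add, map_add, hp, hq]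
    | mul_X p l hp => rw [map_mul, map_mul, map_mul, map_mul, hp, aeval_X]
  have hev0 : ∀ q : MvPolynomial (Idx r d) k, aeval c' q = 0 ↔ q ∈ Ideal.span {h} := by
    intro q
    rw [hev, map_eq_zero_iff _ (algebraMap κ L).injective,
      map_eq_zero_iff _ (IsFractionRing.injective _ κ), Ideal.Quotient.eq_zero_iff_mem]
  have hspec : ∀ b : MvPolynomial (Idx r d) k, eval c b ≠ 0 → aeval c' b ≠ 0 := by
    intro b hb h0
    rw [hev0] at h0
    obtain ⟨q, rfl⟩ := Ideal.mem_span_singleton.1 h0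
    rw [map_mul, hhc, zero_mul] at hb
    exact hb rfl
  have hc' : NoZero c' := noZero_of_specialization hc hspec
  exact ⟨c', hspec, (hev0 h).2 (Ideal.mem_span_singleton_self h), hc', fun g hg hfix =>
    stab_of_prime hrd hd hprime hk (fun p => rfl) hc' g hg hfix⟩

theorem exists_generic_point [IsAlgClosed k] [CharZero k] (hrd : 3 ≤ r ∨ (2 ≤ r ∧ 3 ≤ d))
    (hd : 2 ≤ d) {c : Idx r d → k} (hc : NoZero c) {h : MvPolynomial (Idx r d) k}
    (hh : Prime h) (hhc : eval c h = 0) :
    ∃ (L : Type u) (_ : Field L) (_ : IsAlgClosed L) (_ : CharZero L) (_ : Algebra k L)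
      (c' : Idx r d → L),
      (∀ b : MvPolynomial (Idx r d) k, eval c b ≠ 0 → aeval c' b ≠ 0) ∧ aeval c' h = 0 ∧
      NoZero c' ∧ (∀ g : Matrix (Fin r) (Fin r) L, IsUnit g.det → act g g⁻¹ c' = c' →
        ∃ a : L, g = a • 1) := by
  have hprime : (Ideal.span {h}).IsPrime :=
    (Ideal.span_singleton_prime hh.ne_zero).2 hh
  have h1 := generic_aux hrd hd hc hprime hhc
    (κ := FractionRing (MvPolynomial (Idx r d) k ⧸ Ideal.span {h}))
    (L := AlgebraicClosure (FractionRing (MvPolynomial (Idx r d) k ⧸ Ideal.span {h})))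
  exact ⟨_, inferInstance, inferInstance, h1.1, inferInstance, h1.2⟩

/-- the case of a jacobian determinant vanishing at the point -/
theorem not_regular_aux1 [IsAlgClosed k] [CharZero k] (hr : 1 ≤ r) (hd : 2 ≤ d)
    {c : Idx r d → k} (hc : NoZero c) {m : ℕ} {V : Fin m → Idx r d → k}
    {e : (Fin m ⊕ Ent r) ≃ Idx r d} (hVe : eval c (frDet V e) ≠ 0) {t : Fin m → RO c}
    (ht : Ideal.span (Set.range t) = IsLocalRing.maximalIdeal (RO c))
    {L : Type u} [Field L] [IsAlgClosed L] [CharZero L] [Algebra k L] {c' : Idx r d → L}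
    (hspec : ∀ b : MvPolynomial (Idx r d) k, eval c b ≠ 0 → aeval c' b ≠ 0)
    (hc' : NoZero c') (hstab : ∀ g : Matrix (Fin r) (Fin r) L, IsUnit g.det →
      act g g⁻¹ c' = c' → ∃ a : L, g = a • 1)
    (hδ' : (Matrix.of fun i j => dv hspec (fr V c' (Sum.inl j)) (t i) :
        Matrix (Fin m) (Fin m) L).det = 0) : False := by
  classical
  have hfr' : aeval c' (frDet V e) ≠ 0 := hspec _ hVe
  obtain ⟨μ, hμ0, hμ⟩ := Matrix.exists_mulVec_eq_zero_iff.2 hδ'
  -- the direction
  obtain ⟨v, hvdef⟩ : ∃ v : Idx r d → L, v = ∑ j, μ j • fr V c' (Sum.inl j) := ⟨_, rfl⟩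
  have hv : ∀ i, dv hspec v (t i) = 0 := by
    intro i
    rw [hvdef, dv_sumv]
    have h1 := congrFun hμ i
    rw [Matrix.mulVec, dotProduct, Pi.zero_apply] at h1
    rw [← h1]
    refine sum_congr rfl fun j _ => ?_
    rw [dv_smulv, mul_comm]
    rfl
  have hvall : ∀ x ∈ RO c, dv hspec v x = 0 := fun x hx =>
    dv_eq_zero_of_generators hspec ht v hv hx
  have hvlie : ∃ ξ : Matrix (Fin r) (Fin r) L, v = lie ξ c' := by
    by_contra hcon
    push Not at hcon
    obtain ⟨x, hx, hne⟩ := enough hspec hr hd hc hc' hstab hcon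
    exact hne (hvall x hx)
  obtain ⟨ξ, hξ⟩ := hvlie
  have h1 := fr_indep hfr' (fun x => Sum.elim μ (fun p => - ξ p.1 p.2) x) (fun s => by
    rw [Fintype.sum_sum_type]
    simp only [Sum.elim_inl, Sum.elim_inr]
    have h2 : ∑ j, μ j * fr V c' (Sum.inl j) s = v s := by
      rw [hvdef, Finset.sum_apply]
      rfl
    have h3 : ∑ p : Ent r, - ξ p.1 p.2 * fr V c' (Sum.inr p) s = - lie ξ c' s := by
      have h4 := lie_sum_single (fun p : Ent r => ξ p.1 p.2) c' s
      have h5 : (Matrix.of fun i j => ξ i j) = ξ := rfl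
      rw [h5] at h4
      rw [← h4, ← sum_neg_distrib]
      exact sum_congr rfl fun p _ => by rw [neg_mul]; rfl
    rw [h2, h3, hξ, add_neg_cancel])
  apply hμ0
  funext j
  exact congrFun h1 (Sum.inl j)

/-- the case of a jacobian determinant not vanishing at the point -/
theorem not_regular_aux2 [IsAlgClosed k] [CharZero k] (hrd : 3 ≤ r ∨ (2 ≤ r ∧ 3 ≤ d))
    (hd : 2 ≤ d) {c : Idx r d → k} (hc : NoZero c) {g : Matrix (Fin r) (Fin r) k}
    (hg : IsUnit g.det) (hfix : act g g⁻¹ c = c) (hns : ∀ a : k, g ≠ a • 1)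
    {m : ℕ} {V : Fin m → Idx r d → k}
    {e : (Fin m ⊕ Ent r) ≃ Idx r d} (hVe : eval c (frDet V e) ≠ 0) {t : Fin m → RO c}
    (hid : ∀ b : MvPolynomial (Idx r d) k, eval c b ≠ 0 → aeval c b ≠ 0)
    (hδ' : (Matrix.of fun i j => dv hid (fr V c (Sum.inl j)) (t i) :
        Matrix (Fin m) (Fin m) k).det ≠ 0) : False := by
  classical
  have hr : 1 ≤ r := by omega
  obtain ⟨M, hM, hgM⟩ := hc.finite_order hd hg hfix
  refine la_lemma hrd hd hns hM hgM hfix ⊤ ?_ ?_
  · rw [finrank_top]; omega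
  · intro v _
    set w := v - act g g⁻¹ v with hw
    have hw0 : ∀ x ∈ RO c, dv hid w x = 0 := by
      intro x hx
      rw [hw, dv_subv, dv_fix hid hr (by omega) hx hg hfix, sub_self]
    obtain ⟨μ, hμ⟩ := fr_span (V := V) (e := e) (c := c) hVe w
    have hdec : w = ∑ j, μ (Sum.inl j) • fr V c (Sum.inl j) +
        lie (Matrix.of fun i j => μ (Sum.inr (i, j))) c := by
      funext s
      rw [← hμ s, Fintype.sum_sum_type, Pi.add_apply, Finset.sum_apply]
      refine congrArg₂ (fun a b => a + b) rfl ?_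
      exact lie_sum_single (fun p : Ent r => μ (Sum.inr p)) c s
    have h1 : (fun j => μ (Sum.inl j)) = 0 := by
      by_contra hne
      apply hδ'
      apply Matrix.exists_mulVec_eq_zero_iff.1
      refine ⟨_, hne, ?_⟩
      funext i
      rw [Matrix.mulVec, dotProduct, Pi.zero_apply]
      have h2 := hw0 (t i) (t i).2
      rw [hdec, dv_addv, dv_lie hid hr (by omega) (t i).2, add_zero, dv_sumv] at h2
      rw [← h2]
      refine sum_congr rfl fun j _ => ?_
      rw [dv_smulv, mul_comm]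
      rfl
    refine ⟨Matrix.of fun i j => μ (Sum.inr (i, j)), ?_⟩
    have h2 : ∑ j, μ (Sum.inl j) • fr V c (Sum.inl j) = 0 := by
      refine sum_eq_zero fun j _ => ?_
      have h3 : μ (Sum.inl j) = 0 := congrFun h1 j
      rw [h3, zero_smul]
    rw [h2, zero_add] at hdec
    exact hdec

/-- the jacobian matrix -/
noncomputable def jac {c : Idx r d → k} {m : ℕ} (V : Fin m → Idx r d → k) (t : Fin m → RO c) :
    Matrix (Fin m) (Fin m) (OO c) := Matrix.of fun i j =>
    ∑ s, algebraMap k (OO c) (V j s) * dO c s (t i)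

theorem evO_jac_det {c : Idx r d → k} {m : ℕ} (V : Fin m → Idx r d → k) (t : Fin m → RO c)
    {L : Type u} [Field L] [Algebra k L] {c' : Idx r d → L}
    (h : ∀ b : MvPolynomial (Idx r d) k, eval c b ≠ 0 → aeval c' b ≠ 0) :
    evO h (jac V t).det = (Matrix.of fun i j => dv h (fr V c' (Sum.inl j)) (t i) :
        Matrix (Fin m) (Fin m) L).det := by
  rw [AlgHom.map_det]
  refine congrArg Matrix.det ?_
  ext1 i j
  show evO h (∑ s, algebraMap k (OO c) (V j s) * dO c s (t i)) = ∑ s, _
  rw [map_sum]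
  refine sum_congr rfl fun s _ => ?_
  rw [map_mul, AlgHom.commutes]
  rfl


theorem gens_general {R : Type*} [CommRing R] [IsLocalRing R] (hreg : IsRegularLocalRing R) {m : ℕ}
    (hdim : ringKrullDim R ≤ m) :
    ∃ t : Fin m → R, Ideal.span (Set.range t) = IsLocalRing.maximalIdeal R := by
  have hspan : (IsLocalRing.maximalIdeal R).spanFinrank ≤ m := by
    have h1 := hreg.spanFinrank_maximalIdeal
    rw [← h1] at hdim
    exact_mod_cast hdim
  exact exists_generators _ hspan

/-- **the invariant local ring at a point with a symmetry is not regular** -/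
theorem not_regular [IsAlgClosed k] [CharZero k] (hrd : 3 ≤ r ∨ (2 ≤ r ∧ 3 ≤ d)) (hd : 2 ≤ d)
    {c : Idx r d → k} (hc : NoZero c) {g : Matrix (Fin r) (Fin r) k} (hg : IsUnit g.det)
    (hfix : act g g⁻¹ c = c) (hns : ∀ a : k, g ≠ a • 1) : ¬ IsRegularLocalRing (RO c) := by
  classical
  intro hreg
  have hr : 1 ≤ r := by omega
  obtain ⟨m, V, e, hVe⟩ := exists_frame hd hc
  have hfr0 : frDet V e ≠ 0 := by
    intro h0
    rw [h0, map_zero] at hVe
    exact hVe rfl
  have hdim := ringKrullDim_RO_le (c := c) hr (by omega) hfr0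
  obtain ⟨t, ht⟩ := gens_general hreg hdim
  by_cases hδ : ev0 c (jac V t).det = 0
  · -- a prime divisor through the point
    obtain ⟨a, b, hb, hab⟩ := OO_surj c (jac V t).det
    have hac : eval c a = 0 := by
      have h1 := congrArg (ev0 c) hab
      rw [map_mul, hδ, zero_mul, ev0_toO] at h1
      exact h1.symm
    obtain ⟨h, hh, hha, hhc⟩ : ∃ h : MvPolynomial (Idx r d) k, Prime h ∧ h ∣ a ∧
        eval c h = 0 := by
      by_cases ha : a = 0
      · have hmon : Nonempty (Mon r d) :=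
          ⟨⟨Finsupp.single ⟨0, by omega⟩ d, mem_mon (by simp [Finsupp.degree_single])⟩⟩
        let p₀ : Idx r d := (⟨0, by omega⟩, hmon.some)
        have h1 : (X p₀ - C (c p₀) : MvPolynomial (Idx r d) k) ≠ 0 := by
          intro h0
          have h2 := congrArg (eval (c + 1)) h0
          rw [map_sub, eval_X, eval_C, map_zero] at h2
          simp at h2
        obtain ⟨h, hh, -, hhc⟩ := exists_prime_factor (c := c) h1 (by simp)
        exact ⟨h, hh, by rw [ha]; exact dvd_zero h, hhc⟩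
      · exact exists_prime_factor ha hac
    obtain ⟨L, i1, i2, i3, i4, c', hspec, hh0, hc', hstab⟩ :=
      exists_generic_point hrd hd hc hh hhc
    refine not_regular_aux1 hr hd hc hVe ht hspec hc' hstab ?_
    rw [← evO_jac_det]
    have h1 := congrArg (evO hspec) hab
    rw [map_mul, evO_toO, evO_toO] at h1
    have h2 : aeval c' a = 0 := by
      obtain ⟨q, rfl⟩ := hha
      rw [map_mul, hh0, zero_mul]
    rw [h2] at h1
    exact (mul_eq_zero.1 h1).resolve_right (hspec b hb)
  · -- regular parameters separate all transversal directions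
    have hid : ∀ b : MvPolynomial (Idx r d) k, eval c b ≠ 0 → aeval c b ≠ 0 := fun _ hb => hb
    have hδ' : evO hid (jac V t).det ≠ 0 := hδ
    rw [evO_jac_det] at hδ'
    exact not_regular_aux2 hrd hd hc hg hfix hns hVe hid hδ'

end Pool.Agent.Helper16.Endo
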