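import Pool.Agent.Helper16.Endo21

set_option autoImplicit false

namespace Pool.Agent.Helper16.Endo

open MvPolynomial Finset

universe u

variable {r d : ℕ} {k : Type u} [Field k]

/-! ### more on semi-invariants -/

theorem gr_injective_of_domain (r : ℕ) (A : Type*) [CommRing A] [IsDomain A] :
    Function.Injective (algebraMap (MvPolynomial (Ent r) A) (GR r A)) :=
  IsLocalization.injective _
    (powers_le_nonZeroDivisors_of_noZeroDivisors (gen_det_ne_zero r A))

/-- semi-invariants at the generic conjugate of the universal point -/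
theorem semi_gc {κ e₀ w : ℕ} {a : MvPolynomial (Idx r d) k} (ha : a.IsHomogeneous e₀)
    (hai : SemiInv κ a) (hw : w + κ = d * e₀) :
    aeval (gc (X : Idx r d → MvPolynomial (Idx r d) k))
      (MvPolynomial.map (C : k →+* MvPolynomial (Idx r d) k) a) =
      (gen r (MvPolynomial (Idx r d) k)).det ^ w * C a := by
  apply gr_injective_of_domain
  have h1 := aeval_gc (A := MvPolynomial (Idx r d) k)
    (ha.map (C : k →+* MvPolynomial (Idx r d) k)) X
  have h2 : aeval (gy (X : Idx r d → MvPolynomial (Idx r d) k))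
      (MvPolynomial.map (C : k →+* MvPolynomial (Idx r d) k) a) =
      aeval (gy (X : Idx r d → MvPolynomial (Idx r d) k)) a := by
    have := aeval_map_algebraMap (MvPolynomial (Idx r d) k)
      (gy (X : Idx r d → MvPolynomial (Idx r d) k)) a
    exact this
  have h3 := hai (GR r (MvPolynomial (Idx r d) k)) (gX r (MvPolynomial (Idx r d) k))
    isUnit_gX_det (fun p => algebraMap (MvPolynomial (Idx r d) k) _ (X p))
  have h4 : aeval (fun p => algebraMap (MvPolynomial (Idx r d) k)
      (GR r (MvPolynomial (Idx r d) k)) (X p)) a =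
      algebraMap (MvPolynomial (Idx r d) k) (GR r (MvPolynomial (Idx r d) k)) a := by
    have := aeval_algebraMap_hom (R := k) (S := MvPolynomial (Idx r d) k)
      (T := GR r (MvPolynomial (Idx r d) k)) a X
    rw [aeval_X_left_apply] at this
    exact this.symm
  rw [h4] at h3
  rw [h1, h2, ← hw, pow_add, mul_assoc]
  have h5 : aeval (gy (X : Idx r d → MvPolynomial (Idx r d) k)) a =
      aeval (act (gX r (MvPolynomial (Idx r d) k)) (gX r (MvPolynomial (Idx r d) k))⁻¹
        (fun p => algebraMap (MvPolynomial (Idx r d) k) _ (X p))) a := rfl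
  rw [h5, h3, map_mul, map_pow, ← gX_det,
    IsScalarTower.algebraMap_apply (MvPolynomial (Idx r d) k)
      (MvPolynomial (Ent r) (MvPolynomial (Idx r d) k)) (GR r (MvPolynomial (Idx r d) k))]
  rfl

/-- semi-invariants are constants for Reynolds operators -/
theorem Rey_mul_semi {κ e₀ w : ℕ} {a : MvPolynomial (Idx r d) k} (ha : a.IsHomogeneous e₀)
    (hai : SemiInv κ a) (hw : w + κ = d * e₀) (T u : ℕ) (q : MvPolynomial (Idx r d) k) :
    Rey T u (q * a) = Rey T (u + w) q * a := by
  unfold Rey rey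
  rw [map_mul, map_mul, semi_gc ha hai hw, pow_add, mul_comm (Lam T _) a, ← Lam_C_mul]
  refine congrArg (Lam T) ?_
  ring

theorem Rey_add (T u : ℕ) (q q' : MvPolynomial (Idx r d) k) :
    Rey T u (q + q') = Rey T u q + Rey T u q' := by
  unfold Rey
  rw [map_add, rey_add]

theorem Rey_sum {ι : Type*} (T u : ℕ) (s : Finset ι) (q : ι → MvPolynomial (Idx r d) k) :
    Rey T u (∑ i ∈ s, q i) = ∑ i ∈ s, Rey T u (q i) := by
  unfold Rey
  rw [map_sum, rey_sum]

theorem eval_Rey (T u : ℕ) (q : MvPolynomial (Idx r d) k) (c : Idx r d → k) :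
    eval c (Rey T u q) = rey T u q c := by
  have h3 := aeval_Rey T u q c
  rw [show MvPolynomial.map (algebraMap k k) q = q from MvPolynomial.map_id q] at h3
  exact h3

theorem hc_mul {σ : Type*} {e₀ : ℕ} {a : MvPolynomial σ k} (ha : a.IsHomogeneous e₀)
    (q : MvPolynomial σ k) (e : ℕ) :
    homogeneousComponent (e + e₀) (q * a) = homogeneousComponent e q * a := by
  classical
  conv_lhs => rw [← sum_homogeneousComponent q, sum_mul, map_sum]
  have h1 : ∀ j, homogeneousComponent (e + e₀) (homogeneousComponent j q * a) =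
      if e = j then homogeneousComponent j q * a else 0 := by
    intro j
    rw [homogeneousComponent_of_mem ((homogeneousComponent_isHomogeneous j q).mul ha)]
    by_cases hej : e = j
    · rw [if_pos (by rw [hej]), if_pos hej]
    · rw [if_neg (by omega), if_neg hej]
  rw [sum_congr rfl fun j _ => h1 j, sum_ite_eq]
  split_ifs with h
  · rfl
  · rw [mem_range, not_lt] at h
    rw [homogeneousComponent_eq_zero e q (by omega), zero_mul]

/-- translation of polynomials by a matrix -/
noncomputable def tr (g : Matrix (Fin r) (Fin r) k) :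
    MvPolynomial (Idx r d) k →ₐ[k] MvPolynomial (Idx r d) k :=
  aeval (act (g.map C) (g.map C)⁻¹ (X : Idx r d → MvPolynomial (Idx r d) k))

theorem eval_tr {g : Matrix (Fin r) (Fin r) k} (hg : IsUnit g.det) (q : MvPolynomial (Idx r d) k)
    (y : Idx r d → k) : eval y (tr g q) = eval (act g g⁻¹ y) q := by
  have h1 : (g.map (C : k → MvPolynomial (Idx r d) k))⁻¹ = g⁻¹.map C :=
    inv_map_hom (C : k →+* MvPolynomial (Idx r d) k) hg
  have h2 := act_map (eval y) (g.map (C : k → MvPolynomial (Idx r d) k)) (g⁻¹.map C)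
    (X : Idx r d → MvPolynomial (Idx r d) k)
  have h3 : ∀ M : Matrix (Fin r) (Fin r) k, (M.map (C : k → MvPolynomial (Idx r d) k)).map
      (eval y) = M := by
    intro M; ext1 i j
    rw [Matrix.map_apply, Matrix.map_apply, eval_C]
  have h4 : (fun p => eval y (X p : MvPolynomial (Idx r d) k)) = y := by
    funext p; rw [eval_X]
  rw [h3, h3, h4] at h2
  unfold tr
  rw [h1, h2]
  induction q using MvPolynomial.induction_on with
  | C a => simp
  | add p q hp hq => rw [map_add, map_add, map_add, hp, hq]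
  | mul_X p l hp => rw [map_mul, map_mul, map_mul, hp, aeval_X, eval_X]

theorem tr_semi {κ : ℕ} {a : MvPolynomial (Idx r d) k} (ha : SemiInv κ a)
    {g : Matrix (Fin r) (Fin r) k} (hg : IsUnit g.det) : C (g.det ^ κ) * tr g a = a := by
  have hu : IsUnit (g.map (C : k →+* MvPolynomial (Idx r d) k)).det := by
    rw [det_map_hom]; exact hg.map _
  have h1 := ha (MvPolynomial (Idx r d) k) (g.map C) hu X
  rw [aeval_X_left_apply, det_map_hom, ← map_pow] at h1
  exact h1

/-! ### purity -/

/-- common denominators for invariant germs -/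
theorem common_den [IsAlgClosed k] (hr : 1 ≤ r) (hd : 1 ≤ d) {c : Idx r d → k} {ι : Type*}
    [Fintype ι] (y : ι → OO c) (hy : ∀ i, y i ∈ RO c) :
    ∃ (κ e : ℕ) (b : MvPolynomial (Idx r d) k) (a : ι → MvPolynomial (Idx r d) k),
      b.IsHomogeneous e ∧ SemiInv κ b ∧ eval c b ≠ 0 ∧ r * κ = e * (d - 1) ∧
      ∀ i, (a i).IsHomogeneous e ∧ SemiInv κ (a i) ∧ y i * toO c b = toO c (a i) := by
  classical
  have h1 := fun i => RO_semi hr hd (hy i)
  choose κ e a b ha hb hai hbi hbc hκe hyi using h1
  have hprod : ∀ (s : Finset ι), SemiInv (∑ i ∈ s, κ i) (∏ i ∈ s, b i) := by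
    intro s
    induction s using Finset.induction_on with
    | empty => rw [sum_empty, prod_empty]; exact SemiInv.one
    | insert i s hi ih => rw [sum_insert hi, prod_insert hi]; exact (hbi i).mul ih
  refine ⟨∑ i, κ i, ∑ i, e i, ∏ i, b i, fun i => a i * ∏ j ∈ univ.erase i, b j,
    IsHomogeneous.prod _ _ _ fun i _ => hb i, hprod univ, ?_, ?_, fun i => ⟨?_, ?_, ?_⟩⟩
  · rw [map_prod]
    exact prod_ne_zero_iff.2 fun i _ => hbc i
  · rw [mul_sum, sum_mul]
    exact sum_congr rfl fun i _ => hκe i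
  · rw [← add_sum_erase univ e (mem_univ i)]
    exact (ha i).mul (IsHomogeneous.prod _ _ _ fun j _ => hb j)
  · rw [← add_sum_erase univ κ (mem_univ i)]
    exact (hai i).mul (hprod _)
  · rw [map_mul, ← hyi i, ← mul_prod_erase univ b (mem_univ i), map_mul]; ring

/-- **purity of the invariant local ring** -/
theorem RO_pure [IsAlgClosed k] [CharZero k] (hr : 1 ≤ r) (hd : 2 ≤ d) {c : Idx r d → k}
    (hc : NoZero c) (J : Ideal (RO c)) : (J.map (RO c).val).comap (RO c).val ≤ J := by
  classical
  have hinf : Infinite k := IsAlgClosed.instInfinite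
  intro x hx
  rw [Ideal.mem_comap] at hx
  have hx' : (x : OO c) ∈ Submodule.span (OO c) ((RO c).val '' (J : Set (RO c))) := hx
  obtain ⟨n, f, g, hfg⟩ := Submodule.mem_span_set'.1 hx'
  have hg : ∀ i, ∃ j : RO c, j ∈ J ∧ (j : OO c) = g i := fun i => by
    obtain ⟨j, hj, hj'⟩ := (g i).2
    exact ⟨j, hj, hj'⟩
  choose jj hjJ hjg using hg
  -- common denominators
  obtain ⟨κ, e₀, b, a, hb, hbi, hbc, hκe, ha⟩ := common_den hr (by omega)
    (fun o : Option (Fin n) => o.elim (x : OO c) fun i => (jj i : OO c)) (by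
      rintro (_ | i)
      · exact x.2
      · exact (jj i).2)
  obtain ⟨s, hs⟩ := IsLocalization.exist_integer_multiples_of_finite (PI c).primeCompl f
  choose p hp using hs
  have hsc : eval c (s : MvPolynomial (Idx r d) k) ≠ 0 := s.2
  have hx1 : (x : OO c) * toO c b = toO c (a none) := (ha none).2.2
  have hj1 : ∀ i, (jj i : OO c) * toO c b = toO c (a (some i)) := fun i => (ha (some i)).2.2
  have hp1 : ∀ i, toO c (p i) = toO c s * f i := fun i => by
    rw [← Algebra.smul_def]
    exact hp i
  have hbu : toO c b ≠ 0 := (isUnit_toO.2 hbc).ne_zero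
  -- the ideal
  let I : Ideal (MvPolynomial (Idx r d) k) :=
    Submodule.comap (LinearMap.mulRight (MvPolynomial (Idx r d) k) (a none))
      (Ideal.span (Set.range fun i : Fin n => a (some i)))
  have hI : ∀ q, q ∈ I ↔ ∃ p : Fin n → MvPolynomial (Idx r d) k,
      ∑ i, p i * a (some i) = q * a none := by
    intro q
    exact Ideal.mem_span_range_iff_exists_fun
  have hsI : (s : MvPolynomial (Idx r d) k) ∈ I := by
    rw [hI]
    refine ⟨p, ?_⟩
    apply toO_injective c
    rw [map_sum, map_mul, ← hx1, ← hfg, sum_mul, mul_sum]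
    refine sum_congr rfl fun i _ => ?_
    rw [map_mul, hp1, ← hj1, hjg, smul_eq_mul]; ring
  obtain ⟨w, hw⟩ : ∃ w, w + κ = d * e₀ := by
    refine ⟨d * e₀ - κ, Nat.sub_add_cancel ?_⟩
    calc κ ≤ r * κ := Nat.le_mul_of_pos_left _ hr
      _ = e₀ * (d - 1) := hκe
      _ ≤ d * e₀ := by rw [mul_comm]; exact Nat.mul_le_mul_right _ (by omega)
  obtain ⟨T, u, e, q, hqI, hqe, hwu, hne⟩ := exists_rey_ne_zero hd hc I
    (by
      intro q hq e
      rw [hI] at hq ⊢
      obtain ⟨p, hp⟩ := hq
      refine ⟨fun i => homogeneousComponent e (p i), ?_⟩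
      have h1 := congrArg (homogeneousComponent (e + e₀)) hp
      rw [map_sum, hc_mul (ha none).1] at h1
      rw [← h1]
      exact sum_congr rfl fun i _ => (hc_mul (ha (some i)).1 _ _).symm)
    (by
      intro g hg
      have hginv : IsUnit g⁻¹.det := Matrix.isUnit_nonsing_inv_det _ hg
      refine ⟨tr g⁻¹ s, ?_, ?_⟩
      · rw [hI] at hsI ⊢
        obtain ⟨p, hp⟩ := hsI
        refine ⟨fun i => tr g⁻¹ (p i), ?_⟩
        have h1 := congrArg (fun y => C (g⁻¹.det ^ κ) * tr g⁻¹ y) hp
        simp only [map_sum, map_mul] at h1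
        have h2 : ∀ i, tr g⁻¹ (p i) * a (some i) =
            C (g⁻¹.det ^ κ) * (tr g⁻¹ (p i) * tr g⁻¹ (a (some i))) := by
          intro i
          conv_lhs => rw [← tr_semi (ha (some i)).2.1 hginv]
          ring
        rw [sum_congr rfl fun i _ => h2 i, ← mul_sum, h1]
        conv_rhs => rw [← tr_semi (ha none).2.1 hginv]
        ring
      · rw [eval_tr hginv, act_mul_inv, Matrix.nonsing_inv_mul _ hg, inv_one, act_one]
        exact hsc) w
  obtain ⟨u', rfl⟩ : ∃ u', u = u' + w := ⟨u - w, by omega⟩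
  rw [hI] at hqI
  obtain ⟨p', hp'⟩ := hqI
  have hp'' : ∑ i, homogeneousComponent e (p' i) * a (some i) = q * a none := by
    have h1 := congrArg (homogeneousComponent (e + e₀)) hp'
    rw [map_sum, hc_mul (ha none).1, homogeneousComponent_eq_self hqe] at h1
    rw [← h1]
    exact sum_congr rfl fun i _ => (hc_mul (ha (some i)).1 _ _).symm
  have hR := congrArg (Rey T u') hp''
  rw [Rey_sum, Rey_mul_semi (ha none).1 (ha none).2.1 hw] at hR
  have hR2 : ∑ i, Rey T (u' + w) (homogeneousComponent e (p' i)) * a (some i) =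
      Rey T (u' + w) q * a none := by
    rw [← hR]
    exact sum_congr rfl fun i _ => (Rey_mul_semi (ha (some i)).1 (ha (some i)).2.1 hw _ _ _).symm
  have hqc : eval c (Rey T (u' + w) q) ≠ 0 := by
    rw [eval_Rey]; exact hne
  obtain ⟨z, hz⟩ := (isUnit_toO (c := c)).2 hqc
  have hzi : (↑z⁻¹ : OO c) * toO c (Rey T (u' + w) q) = 1 := by
    rw [← hz, Units.inv_mul]
  have hoR : ∀ i, toO c (Rey T (u' + w) (homogeneousComponent e (p' i))) * ↑z⁻¹ ∈ RO c := by
    intro i
    refine mem_RO.2 ⟨e, Rey T (u' + w) (homogeneousComponent e (p' i)), Rey T (u' + w) q,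
      Rey_isHomogeneous T _ (homogeneousComponent_isHomogeneous e _),
      Rey_isHomogeneous T _ hqe, Rey_isInv _ _ _, Rey_isInv _ _ _, hqc, ?_⟩
    rw [mul_assoc, hzi, mul_one]
  have hfinal : x = ∑ i, (⟨_, hoR i⟩ : RO c) * jj i := by
    apply Subtype.ext
    have h1 : ((∑ i, (⟨_, hoR i⟩ : RO c) * jj i : RO c) : OO c) =
        ∑ i, toO c (Rey T (u' + w) (homogeneousComponent e (p' i))) * ↑z⁻¹ * (jj i : OO c) := by
      have := map_sum (RO c).val (fun i => (⟨_, hoR i⟩ : RO c) * jj i) univ
      exact this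
    rw [h1]
    apply mul_right_cancel₀ hbu
    rw [sum_mul]
    have h2 : ∀ i, toO c (Rey T (u' + w) (homogeneousComponent e (p' i))) * ↑z⁻¹ *
        (jj i : OO c) * toO c b = ↑z⁻¹ * toO c (Rey T (u' + w) (homogeneousComponent e (p' i)) *
          a (some i)) := by
      intro i
      rw [map_mul, ← hj1]; ring
    rw [sum_congr rfl fun i _ => h2 i, ← mul_sum, ← map_sum, hR2, map_mul, ← mul_assoc, hzi,
      one_mul, hx1]
  rw [hfinal]
  exact Submodule.sum_mem _ fun i _ => J.mul_mem_left _ (hjJ i)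

end Pool.Agent.Helper16.Endo
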