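import Pool.Agent.Helper16.Endo22

set_option autoImplicit false

namespace Pool.Agent.Helper16.Endo

open MvPolynomial Finset

universe u

variable {r d : ℕ} {k : Type u} [Field k]

/-! ### Taylor expansion -/

theorem X_sub_C_mem_PI (c : Idx r d → k) (s : Idx r d) : X s - C (c s) ∈ PI c := by
  rw [mem_PI, map_sub, eval_X, eval_C, sub_self]

theorem sub_C_mem_span (c : Idx r d → k) (a : MvPolynomial (Idx r d) k) :
    a - C (eval c a) ∈ Ideal.span (Set.range fun s => (X s - C (c s) :
      MvPolynomial (Idx r d) k)) := by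
  induction a using MvPolynomial.induction_on with
  | C a => rw [eval_C, sub_self]; exact Ideal.zero_mem _
  | add p q hp hq =>
    have : p + q - C (eval c (p + q)) = (p - C (eval c p)) + (q - C (eval c q)) := by
      rw [map_add, map_add]; ring
    rw [this]; exact Ideal.add_mem _ hp hq
  | mul_X p l hp =>
    have : p * X l - C (eval c (p * X l)) = X l * (p - C (eval c p)) +
        C (eval c p) * (X l - C (c l)) := by
      rw [map_mul, map_mul, eval_X]; ring
    rw [this]
    exact Ideal.add_mem _ (Ideal.mul_mem_left _ _ hp)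
      (Ideal.mul_mem_left _ _ (Ideal.subset_span ⟨l, rfl⟩))

theorem taylor_mem (c : Idx r d → k) (a : MvPolynomial (Idx r d) k) :
    a - C (eval c a) - ∑ s, C (eval c (pderiv s a)) * (X s - C (c s)) ∈ (PI c) ^ 2 := by
  classical
  induction a using MvPolynomial.induction_on with
  | C a =>
    have : (C a - C (eval c (C a)) - ∑ s, C (eval c (pderiv s (C a))) * (X s - C (c s)) :
        MvPolynomial (Idx r d) k) = 0 := by
      rw [eval_C, sub_self, zero_sub, neg_eq_zero]
      exact sum_eq_zero fun s _ => by rw [pderiv_C, map_zero, map_zero, zero_mul]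
    rw [this]; exact Ideal.zero_mem _
  | add p q hp hq =>
    have : p + q - C (eval c (p + q)) -
        ∑ s, C (eval c (pderiv s (p + q))) * (X s - C (c s)) =
        (p - C (eval c p) - ∑ s, C (eval c (pderiv s p)) * (X s - C (c s))) +
        (q - C (eval c q) - ∑ s, C (eval c (pderiv s q)) * (X s - C (c s))) := by
      have h1 : ∀ s, C (eval c (pderiv s (p + q))) * (X s - C (c s)) =
          C (eval c (pderiv s p)) * (X s - C (c s)) +
            C (eval c (pderiv s q)) * (X s - C (c s)) := by
        intro s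
        rw [map_add, map_add, map_add]; ring
      rw [sum_congr rfl fun s _ => h1 s, sum_add_distrib, map_add, map_add]; ring
    rw [this]; exact Ideal.add_mem _ hp hq
  | mul_X p l hp =>
    have h1 : ∑ s, C (eval c (pderiv s (p * X l))) * (X s - C (c s)) =
        C (eval c p) * (X l - C (c l)) +
          C (c l) * ∑ s, C (eval c (pderiv s p)) * (X s - C (c s)) := by
      have h2 : ∀ s, C (eval c (pderiv s (p * X l))) * (X s - C (c s)) =
          (if s = l then C (eval c p) * (X s - C (c s)) else 0) +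
            C (c l) * (C (eval c (pderiv s p)) * (X s - C (c s))) := by
        intro s
        rw [Derivation.leibniz, smul_eq_mul, smul_eq_mul, map_add, map_mul, map_mul, map_add,
          map_mul, map_mul, eval_X]
        by_cases hs : s = l
        · subst hs
          rw [pderiv_X_self, if_pos rfl, map_one, map_one]; ring
        · rw [pderiv_X_of_ne (fun h => hs h.symm), if_neg hs, map_zero, map_zero]; ring
      rw [sum_congr rfl fun s _ => h2 s, sum_add_distrib, sum_ite_eq' , if_pos (mem_univ _),
        mul_sum]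
    have h2 : p * X l - C (eval c (p * X l)) -
        ∑ s, C (eval c (pderiv s (p * X l))) * (X s - C (c s)) =
        C (c l) * (p - C (eval c p) - ∑ s, C (eval c (pderiv s p)) * (X s - C (c s))) +
        (p - C (eval c p)) * (X l - C (c l)) := by
      rw [h1, map_mul, map_mul, eval_X]; ring
    rw [h2]
    refine Ideal.add_mem _ (Ideal.mul_mem_left _ _ hp) ?_
    rw [pow_two]
    refine Ideal.mul_mem_mul ?_ (X_sub_C_mem_PI c l)
    rw [mem_PI, map_sub, eval_C, sub_self]

theorem max_OO_eq (c : Idx r d → k) :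
    IsLocalRing.maximalIdeal (OO c) = (PI c).map (toO c) :=
  (IsLocalization.AtPrime.map_eq_maximalIdeal (PI c) (OO c)).symm

theorem max_OO_le (c : Idx r d → k) : IsLocalRing.maximalIdeal (OO c) ≤
    Ideal.span (Set.range fun s => toO c (X s - C (c s))) := by
  rw [max_OO_eq, Ideal.map_le_iff_le_comap]
  intro a ha
  have h1 := sub_C_mem_span c a
  rw [mem_PI.1 ha, map_zero, sub_zero] at h1
  have h2 := Ideal.mem_map_of_mem (toO c) h1
  rw [Ideal.map_span, ← Set.range_comp] at h2
  exact h2

/-- a germ vanishing to second order lies in the square of the maximal ideal -/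
theorem mem_sq_of_deriv {c : Idx r d → k} {y : OO c} (hy : ev0 c y = 0)
    (hd : ∀ s, ev0 c (dO c s y) = 0) : y ∈ IsLocalRing.maximalIdeal (OO c) ^ 2 := by
  obtain ⟨a, b, hb, hyb⟩ := OO_surj c y
  have ha : eval c a = 0 := by
    have h1 := congrArg (ev0 c) hyb
    rw [map_mul, hy, zero_mul, ev0_toO] at h1
    exact h1.symm
  have hda : ∀ s, eval c (pderiv s a) = 0 := by
    intro s
    have h1 := congrArg (fun y => ev0 c (dO c s y)) hyb
    simp only [Derivation.leibniz, dO_toO, smul_eq_mul, map_add, map_mul, ev0_toO, hy, hd,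
      zero_mul, mul_zero, add_zero] at h1
    exact h1.symm
  have h1 := taylor_mem c a
  rw [ha, map_zero, sub_zero, sum_eq_zero (fun s _ => by rw [hda, map_zero, zero_mul]),
    sub_zero] at h1
  have h2 : toO c a ∈ IsLocalRing.maximalIdeal (OO c) ^ 2 := by
    rw [max_OO_eq, ← Ideal.map_pow]
    exact Ideal.mem_map_of_mem _ h1
  rw [← hyb] at h2
  obtain ⟨w, hw⟩ := (isUnit_toO (c := c)).2 hb
  have h3 : y = ↑w⁻¹ * (y * toO c b) := by
    rw [← hw, mul_comm y, ← mul_assoc, Units.inv_mul, one_mul]
  rw [h3]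
  exact Ideal.mul_mem_left _ _ h2

/-! ### invariant vector fields -/

/-- the derivation of the infinitesimal action -/
noncomputable def lD (c : Idx r d → k) (p : Ent r) : Derivation k (OO c) (OO c) :=
  ∑ s, toO c (lie (Matrix.single p.1 p.2 1) (X : Idx r d → MvPolynomial (Idx r d) k) s) • dO c s

theorem lD_apply (c : Idx r d → k) (p : Ent r) (x : OO c) : lD c p x =
    ∑ s, toO c (lie (Matrix.single p.1 p.2 1) (X : Idx r d → MvPolynomial (Idx r d) k) s) *
      dO c s x := by
  unfold lD
  rw [Pool.Agent.Helper68.sum_apply_der]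
  rfl

theorem lD_RO [IsAlgClosed k] (hr : 1 ≤ r) (hd : 1 ≤ d) {c : Idx r d → k} (p : Ent r) {x : OO c}
    (hx : x ∈ RO c) : lD c p x = 0 := by
  obtain ⟨κ, e, a, b, ha, hb, hai, hbi, hbc, -, hxe⟩ := RO_semi hr hd hx
  have hbu : toO c b ≠ 0 := (isUnit_toO.2 hbc).ne_zero
  have h1 := SemiInv.lie hd hai hbi (S := MvPolynomial (Idx r d) k)
    (Matrix.single p.1 p.2 1) X
  rw [aeval_X_left_apply, aeval_X_left_apply] at h1
  have h6 : ∀ w : MvPolynomial (Idx r d) k, dd X (lie (Matrix.single p.1 p.2 1) X) w =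
      ∑ s, lie (Matrix.single p.1 p.2 1) (X : Idx r d → MvPolynomial (Idx r d) k) s *
        pderiv s w := by
    intro w
    unfold dd
    exact sum_congr rfl fun s _ => by rw [aeval_X_left_apply]
  rw [h6, h6] at h1
  have h2 := congrArg (toO c) h1
  rw [map_mul, map_mul, map_sum, map_sum] at h2
  have h3 : ∀ s, dO c s x * toO c b ^ 2 =
      toO c b * toO c (pderiv s a) - toO c a * toO c (pderiv s b) := by
    intro s
    have h4 := congrArg (dO c s) hxe
    rw [Derivation.leibniz, dO_toO, dO_toO, smul_eq_mul, smul_eq_mul] at h4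
    linear_combination (toO c b) * h4 - toO c (pderiv s b) * hxe
  have h4 : lD c p x * toO c b ^ 2 = 0 := by
    rw [lD_apply, sum_mul]
    have h5 : ∀ s, toO c (lie (Matrix.single p.1 p.2 1)
        (X : Idx r d → MvPolynomial (Idx r d) k) s) * dO c s x * toO c b ^ 2 =
        toO c (lie (Matrix.single p.1 p.2 1) X s * pderiv s a) * toO c b -
        toO c (lie (Matrix.single p.1 p.2 1) X s * pderiv s b) * toO c a := by
      intro s
      rw [mul_assoc, h3, map_mul, map_mul]; ring
    rw [sum_congr rfl fun s _ => h5 s, sum_sub_distrib, ← sum_mul, ← sum_mul, h2, sub_self]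
  exact (mul_eq_zero.1 h4).resolve_right (pow_ne_zero _ hbu)

/-! ### dual frames -/

/-- the frame at a rational point and its dual -/
theorem exists_dual_frame {m : ℕ} {V : Fin m → Idx r d → k} {e : (Fin m ⊕ Ent r) ≃ Idx r d}
    {c : Idx r d → k} (h : eval c (frDet V e) ≠ 0) :
    ∃ ℓ : Fin m ⊕ Ent r → Idx r d → k,
      (∀ x y, ∑ s, fr V c x s * ℓ y s = if x = y then 1 else 0) ∧
      (∀ s s', ∑ x, ℓ x s * fr V c x s' = if s = s' then 1 else 0) ∧
      (∀ (w : Idx r d → k) y, (∀ x, ∑ s, fr V c x s * w s = if x = y then 1 else 0) →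
        w = ℓ y) := by
  classical
  have h0 : aeval c (frDet V e) ≠ 0 := h
  rw [aeval_frDet] at h0
  set M : Matrix (Idx r d) (Idx r d) k := Matrix.of fun p s => fr V c (e.symm p) s with hM
  have hu : IsUnit M.det := isUnit_iff_ne_zero.2 h0
  have hMe : ∀ x s, M (e x) s = fr V c x s := by
    intro x s
    rw [hM, Matrix.of_apply, Equiv.symm_apply_apply]
  have h1 := Matrix.mul_nonsing_inv _ hu
  have h2 := Matrix.nonsing_inv_mul _ hu
  refine ⟨fun x s => M⁻¹ s (e x), ?_, ?_, ?_⟩
  · intro x y
    have h3 := congrFun (congrFun h1 (e x)) (e y)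
    rw [Matrix.mul_apply, Matrix.one_apply] at h3
    simp only [hMe] at h3
    rw [h3]
    by_cases hxy : x = y
    · rw [if_pos (by rw [hxy]), if_pos hxy]
    · rw [if_neg (fun h => hxy (e.injective h)), if_neg hxy]
  · intro s s'
    have h3 := congrFun (congrFun h2 s) s'
    rw [Matrix.mul_apply, Matrix.one_apply, ← Equiv.sum_comp e] at h3
    simp only [hMe] at h3
    exact h3
  · intro w y hw
    have h3 : Matrix.mulVec M w = Pi.single (e y) 1 := by
      funext p
      rw [Matrix.mulVec, dotProduct]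
      obtain ⟨x, rfl⟩ := e.surjective p
      simp only [hMe]
      rw [hw x]
      by_cases hxy : x = y
      · subst hxy; rw [if_pos rfl, Pi.single_eq_same]
      · rw [if_neg hxy, Pi.single_eq_of_ne (fun h => hxy (e.injective h))]
    have h4 : w = Matrix.mulVec M⁻¹ (Matrix.mulVec M w) := by
      rw [Matrix.mulVec_mulVec, h2, Matrix.one_mulVec]
    rw [h4, h3]
    funext s
    rw [Matrix.mulVec_single_one]
    rfl

/-- invariant germs with prescribed transversal derivatives -/
theorem exists_dual_germs [IsAlgClosed k] [CharZero k] (hr : 1 ≤ r) (hd : 2 ≤ d)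
    {c : Idx r d → k} (hc : NoZero c)
    (hstab : ∀ g : Matrix (Fin r) (Fin r) k, IsUnit g.det → act g g⁻¹ c = c →
      ∃ a : k, g = a • 1)
    {m : ℕ} {V : Fin m → Idx r d → k} {e : (Fin m ⊕ Ent r) ≃ Idx r d}
    (hVe : eval c (frDet V e) ≠ 0)
    (hid : ∀ b : MvPolynomial (Idx r d) k, eval c b ≠ 0 → aeval c b ≠ 0) (i : Fin m) :
    ∃ x ∈ RO c, ∀ j, dv hid (fr V c (Sum.inl j)) x = if j = i then 1 else 0 := by
  classical
  let Φ : (RO c) →ₗ[k] (Fin m → k) :=
    { toFun := fun x j => dv hid (fr V c (Sum.inl j)) x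
      map_add' := fun x y => by funext j; exact dv_add _ _ _ _
      map_smul' := fun a x => by
        funext j
        show dv hid (fr V c (Sum.inl j)) ((a • x : RO c) : OO c) = a * dv hid _ _
        have h1 : ((a • x : RO c) : OO c) = algebraMap k (OO c) a * (x : OO c) := by
          rw [← Algebra.smul_def]; rfl
        have h2 : dv hid (fr V c (Sum.inl j)) (algebraMap k (OO c) a) = 0 := by
          unfold dv
          refine sum_eq_zero fun s _ => ?_
          rw [Derivation.map_algebraMap, map_zero, mul_zero]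
        rw [h1, dv_mul, h2, mul_zero, add_zero, AlgHom.commutes]
        rfl }
  have hsurj : LinearMap.range Φ = ⊤ := by
    by_contra hcon
    obtain ⟨f, hf0, hf⟩ := Submodule.exists_le_ker_of_lt_top _ (lt_top_iff_ne_top.2 hcon)
    -- the direction
    obtain ⟨v, hvdef⟩ : ∃ v : Idx r d → k, v = ∑ j, f (Pi.single j 1) • fr V c (Sum.inl j) :=
      ⟨_, rfl⟩
    have hvall : ∀ x ∈ RO c, dv hid v x = 0 := by
      intro x hx
      rw [hvdef, dv_sumv]
      have h1 : f (Φ ⟨x, hx⟩) = 0 := hf ⟨_, rfl⟩
      have h2 : Φ ⟨x, hx⟩ = ∑ j, dv hid (fr V c (Sum.inl j)) x • Pi.single j (1 : k) := by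
        funext j
        rw [Finset.sum_apply, sum_eq_single j]
        · rw [Pi.smul_apply, Pi.single_eq_same, smul_eq_mul, mul_one]; rfl
        · intro b _ hb
          rw [Pi.smul_apply, Pi.single_eq_of_ne hb.symm, smul_zero]
        · simp
      rw [h2, map_sum] at h1
      rw [← h1]
      refine sum_congr rfl fun j _ => ?_
      rw [dv_smulv, map_smul, smul_eq_mul, mul_comm]
    have hvlie : ∃ ξ : Matrix (Fin r) (Fin r) k, v = lie ξ c := by
      by_contra hcon
      push Not at hcon
      obtain ⟨x, hx, hne⟩ := enough hid hr hd hc hc hstab hcon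
      exact hne (hvall x hx)
    obtain ⟨ξ, hξ⟩ := hvlie
    have h1 := fr_indep (hid _ hVe)
      (fun x => Sum.elim (fun j => f (Pi.single j 1)) (fun p => - ξ p.1 p.2) x) (fun s => by
      rw [Fintype.sum_sum_type]
      simp only [Sum.elim_inl, Sum.elim_inr]
      have h2 : ∑ j, f (Pi.single j 1) * fr V c (Sum.inl j) s = v s := by
        rw [hvdef, Finset.sum_apply]
        rfl
      have h3 : ∑ p : Ent r, - ξ p.1 p.2 * fr V c (Sum.inr p) s = - lie ξ c s := by
        have h4 := lie_sum_single (fun p : Ent r => ξ p.1 p.2) c s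
        have h5 : (Matrix.of fun i j => ξ i j) = ξ := rfl
        rw [h5] at h4
        rw [← h4, ← sum_neg_distrib]
        exact sum_congr rfl fun p _ => by rw [neg_mul]; rfl
      rw [h2, h3, hξ, add_neg_cancel])
    apply hf0
    refine LinearMap.pi_ext' fun j => LinearMap.ext_ring ?_
    exact congrFun h1 (Sum.inl j)
  have h1 : (Pi.single i 1 : Fin m → k) ∈ LinearMap.range Φ := by rw [hsurj]; trivial
  obtain ⟨x, hx⟩ := h1
  refine ⟨x, x.2, fun j => ?_⟩
  have h2 : dv hid (fr V c (Sum.inl j)) x = Φ x j := rfl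
  rw [h2, hx]
  by_cases hji : j = i
  · subst hji; rw [Pi.single_eq_same, if_pos rfl]
  · rw [Pi.single_eq_of_ne hji, if_neg hji]

end Pool.Agent.Helper16.Endo
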