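import Pool.Agent.Helper16.Endo23

set_option autoImplicit false

namespace Pool.Agent.Helper16.Endo

open MvPolynomial Finset

universe u

variable {r d : ℕ} {k : Type u} [Field k]

theorem aeval_lie_X {c : Idx r d → k} (p : Ent r) (s : Idx r d) :
    eval c (lie (Matrix.single p.1 p.2 1) (X : Idx r d → MvPolynomial (Idx r d) k) s) =
      lie (Matrix.single p.1 p.2 1) c s := by
  have h1 := lie_map (eval c) (Matrix.single p.1 p.2 1)
    (X : Idx r d → MvPolynomial (Idx r d) k)
  have h2 : (Matrix.single p.1 p.2 (1 : MvPolynomial (Idx r d) k)).map (eval c) =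
      Matrix.single p.1 p.2 1 := by
    ext1 i j
    rw [Matrix.map_apply, Matrix.single_apply, Matrix.single_apply]
    split_ifs
    · exact map_one _
    · exact map_zero _
  have h3 : (fun p => eval c (X p : MvPolynomial (Idx r d) k)) = c := by
    funext p; rw [eval_X]
  rw [h2, h3] at h1
  exact (congrFun h1 s).symm

/-- **the invariant local ring at a point without symmetries is regular** -/
theorem regular_of_trivial [IsAlgClosed k] [CharZero k] (hr : 1 ≤ r) (hd : 2 ≤ d)
    {c : Idx r d → k} (hc : NoZero c)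
    (hstab : ∀ g : Matrix (Fin r) (Fin r) k, IsUnit g.det → act g g⁻¹ c = c →
      ∃ a : k, g = a • 1) : IsRegularLocalRing (RO c) := by
  classical
  obtain ⟨m, V, e, hVe⟩ := exists_frame hd hc
  have hid : ∀ b : MvPolynomial (Idx r d) k, eval c b ≠ 0 → aeval c b ≠ 0 := fun _ hb => hb
  obtain ⟨ℓ, hℓ1, hℓ2, hℓ3⟩ := exists_dual_frame hVe
  have hgerm := exists_dual_germs hr hd hc hstab hVe hid
  choose x hxR hx using hgerm
  -- the invariant germs
  let h : Fin m → RO c := fun i => ⟨x i, hxR i⟩ - algebraMap k (RO c) (ev0 c (x i))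
  have hh : ∀ i, (h i : OO c) = x i - algebraMap k (OO c) (ev0 c (x i)) := fun i => rfl
  have hh0 : ∀ i, ev0 c (h i) = 0 := by
    intro i
    rw [hh, map_sub, AlgHom.commutes]
    exact sub_self _
  have hhd : ∀ i s, ev0 c (dO c s (h i)) = ℓ (Sum.inl i) s := by
    intro i
    have h1 : ∀ s, ev0 c (dO c s (h i)) = ev0 c (dO c s (x i)) := by
      intro s
      rw [hh, map_sub, Derivation.map_algebraMap, sub_zero]
    have h2 := hℓ3 (fun s => ev0 c (dO c s (x i))) (Sum.inl i) (by
      intro y
      have h3 : ∑ s, fr V c y s * ev0 c (dO c s (x i)) = dv hid (fr V c y) (x i) := rfl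
      rw [h3]
      rcases y with j | p
      · rw [hx i j]
        by_cases hji : j = i
        · rw [if_pos hji, if_pos (by rw [hji])]
        · rw [if_neg hji, if_neg (fun h => hji (Sum.inl_injective h))]
      · rw [if_neg (by simp)]
        exact dv_lie hid hr (by omega) (hxR i) _)
    intro s
    rw [h1]
    exact congrFun h2 s
  -- the remaining coordinates
  let z : Ent r → OO c := fun p => ∑ s, algebraMap k (OO c) (ℓ (Sum.inr p) s) *
    toO c (X s - C (c s))
  have hX0 : ∀ s, ev0 c (toO c (X s - C (c s))) = 0 := by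
    intro s
    rw [ev0_toO, map_sub, eval_X, eval_C, sub_self]
  have hXd : ∀ s s', ev0 c (dO c s (toO c (X s' - C (c s')))) = if s = s' then 1 else 0 := by
    intro s s'
    rw [dO_toO, ev0_toO, map_sub, pderiv_C, sub_zero]
    by_cases hs : s = s'
    · subst hs
      rw [pderiv_X_self, map_one, if_pos rfl]
    · rw [pderiv_X_of_ne (fun h => hs h.symm), map_zero, if_neg hs]
  have hz0 : ∀ p, ev0 c (z p) = 0 := by
    intro p
    show ev0 c (∑ s, _) = 0
    rw [map_sum]
    exact sum_eq_zero fun s _ => by rw [map_mul, hX0, mul_zero]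
  have hzd : ∀ p s, ev0 c (dO c s (z p)) = ℓ (Sum.inr p) s := by
    intro p s
    show ev0 c (dO c s (∑ s', _)) = _
    rw [map_sum, map_sum, sum_eq_single s]
    · rw [Derivation.leibniz, Derivation.map_algebraMap, smul_zero, add_zero, smul_eq_mul,
        map_mul, hXd, if_pos rfl, mul_one, AlgHom.commutes]
      rfl
    · intro s' _ hs'
      rw [Derivation.leibniz, Derivation.map_algebraMap, smul_zero, add_zero, smul_eq_mul,
        map_mul, hXd, if_neg hs'.symm, mul_zero]
    · simp
  let q := Fintype.card (Ent r)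
  let eq : Ent r ≃ Fin q := Fintype.equivFin (Ent r)
  refine Pool.Agent.Helper68.T4_regular (RO c) (fun x => RO_mem_max x) m q h
    (fun i => ?_) (fun i => z (eq.symm i)) ?_ (fun i => ?_) (fun i => lD c (eq.symm i))
    (fun j x hx => lD_RO hr (by omega) _ hx) ?_ (fun J => RO_pure hr hd hc J) ?_
  · rw [RO_mem_max, mem_max_OO]
    exact hh0 i
  · -- generators
    set N : Ideal (OO c) := Ideal.span (Set.range (fun i => (h i : OO c)) ∪
      Set.range (fun i => z (eq.symm i))) with hN
    have hNh : ∀ i, (h i : OO c) ∈ N := fun i => Ideal.subset_span (Or.inl ⟨i, rfl⟩)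
    have hNz : ∀ p, z p ∈ N := fun p => by
      refine Ideal.subset_span (Or.inr ⟨eq p, ?_⟩)
      simp only [Equiv.symm_apply_apply]
    have hfg : (IsLocalRing.maximalIdeal (OO c)).FG := IsNoetherian.noetherian _
    refine Submodule.le_of_le_smul_of_le_jacobson_bot hfg
      (IsLocalRing.maximalIdeal_le_jacobson _) ?_
    refine (max_OO_le c).trans ?_
    rw [Ideal.span_le]
    rintro _ ⟨s, rfl⟩
    show toO c (X s - C (c s)) ∈ N ⊔ IsLocalRing.maximalIdeal (OO c) •
      IsLocalRing.maximalIdeal (OO c)
    set y : OO c := toO c (X s - C (c s)) -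
      (∑ i, algebraMap k (OO c) (fr V c (Sum.inl i) s) * h i +
        ∑ p, algebraMap k (OO c) (fr V c (Sum.inr p) s) * z p) with hy
    have hymem : y ∈ IsLocalRing.maximalIdeal (OO c) ^ 2 := by
      apply mem_sq_of_deriv
      · rw [hy, map_sub, map_add, map_sum, map_sum, hX0,
          sum_eq_zero (fun i _ => by rw [map_mul, hh0, mul_zero]),
          sum_eq_zero (fun p _ => by rw [map_mul, hz0, mul_zero]), add_zero, sub_zero]
      · intro s'
        rw [hy, map_sub, map_add, map_sum, map_sum, map_sub, map_add, map_sum, map_sum, hXd]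
        have e1 : ∀ i, ev0 c (dO c s' (algebraMap k (OO c) (fr V c (Sum.inl i) s) * h i)) =
            ℓ (Sum.inl i) s' * fr V c (Sum.inl i) s := by
          intro i
          rw [Derivation.leibniz, Derivation.map_algebraMap, smul_zero, add_zero, smul_eq_mul,
            map_mul, hhd, AlgHom.commutes, mul_comm]
          rfl
        have e2 : ∀ p, ev0 c (dO c s' (algebraMap k (OO c) (fr V c (Sum.inr p) s) * z p)) =
            ℓ (Sum.inr p) s' * fr V c (Sum.inr p) s := by
          intro p
          rw [Derivation.leibniz, Derivation.map_algebraMap, smul_zero, add_zero, smul_eq_mul,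
            map_mul, hzd, AlgHom.commutes, mul_comm]
          rfl
        rw [sum_congr rfl fun i _ => e1 i, sum_congr rfl fun p _ => e2 p,
          ← Fintype.sum_sum_type (fun x => ℓ x s' * fr V c x s), hℓ2, sub_self]
    have hdec : toO c (X s - C (c s)) =
        (∑ i, algebraMap k (OO c) (fr V c (Sum.inl i) s) * h i +
          ∑ p, algebraMap k (OO c) (fr V c (Sum.inr p) s) * z p) + y := by
      rw [hy]; ring
    rw [hdec]
    refine Submodule.add_mem _ (Submodule.mem_sup_left (Submodule.add_mem _ ?_ ?_))
      (Submodule.mem_sup_right ?_)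
    · exact Submodule.sum_mem _ fun i _ => Ideal.mul_mem_left _ _ (hNh i)
    · exact Submodule.sum_mem _ fun p _ => Ideal.mul_mem_left _ _ (hNz p)
    · rw [smul_eq_mul, ← pow_two]
      exact hymem
  · rw [mem_max_OO]
    exact hz0 _
  · -- the determinant
    rw [isUnit_OO, AlgHom.map_det]
    have h1 : (ev0 c).mapMatrix (Matrix.of fun i j => lD c (eq.symm j) (z (eq.symm i))) = 1 := by
      ext1 i j
      show ev0 c (lD c (eq.symm j) (z (eq.symm i))) = (1 : Matrix (Fin q) (Fin q) k) i j
      rw [lD_apply, map_sum]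
      have h2 : ∀ s, ev0 c (toO c (lie (Matrix.single (eq.symm j).1 (eq.symm j).2 1)
          (X : Idx r d → MvPolynomial (Idx r d) k) s) * dO c s (z (eq.symm i))) =
          fr V c (Sum.inr (eq.symm j)) s * ℓ (Sum.inr (eq.symm i)) s := by
        intro s
        rw [map_mul, hzd, ev0_toO, aeval_lie_X]
        rfl
      rw [sum_congr rfl fun s _ => h2 s, hℓ1, Matrix.one_apply]
      by_cases hij : i = j
      · subst hij; rw [if_pos rfl, if_pos rfl]
      · rw [if_neg hij, if_neg (fun h => hij (eq.symm.injective (Sum.inr_injective h)).symm)]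
    rw [h1, Matrix.det_one]
    exact one_ne_zero
  · -- the dimension
    have h1 := Pool.Agent.Helper68.T5_dim c (PI c) rfl
    have h2 : m + q = Fintype.card (Idx r d) := by
      rw [← Fintype.card_congr e, Fintype.card_sum, Fintype.card_fin]
    rw [h1, h2]

end Pool.Agent.Helper16.Endo
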