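import Pool.Agent.Helper16.EndoDefs

set_option autoImplicit false

namespace Pool.Agent.Helper16.Endo

open MvPolynomial

universe u

variable {r d : ℕ} {k : Type u} [Field k]

/-- the tuple with coefficient vector `c` defines an endomorphism of projective space: its forms
have no common zero besides the origin -/
def IsEndo (c : Idx r d → k) : Prop :=
  ∀ x : Fin r → k, (∀ i, eval x (form c i) = 0) → x = 0

/-- the endomorphism `f` of projective space defined by the tuple has a nontrivial automorphism:
there is a non-scalar invertible matrix `g` with `g⁻¹ ∘ f ∘ g = f` up to a scalar factor -/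
def HasAut (c : Idx r d → k) : Prop :=
  ∃ g : GL (Fin r) k, (∀ a : k, (g : Matrix (Fin r) (Fin r) k) ≠ a • 1) ∧
    ∃ u : k, act (↑g⁻¹ : Matrix (Fin r) (Fin r) k) (g : Matrix (Fin r) (Fin r) k) c = u • c

/-- polynomials in the coefficients of the tuple that are invariant under conjugation by matrices
of determinant one -/
def Invariant (a : MvPolynomial (Idx r d) k) : Prop :=
  ∀ (g : Matrix.SpecialLinearGroup (Fin r) k) (c : Idx r d → k),
    eval (act (↑g⁻¹ : Matrix (Fin r) (Fin r) k) (g : Matrix (Fin r) (Fin r) k) c) a = eval c a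

/-- the fractions `a / b` of homogeneous invariants of the same degree with `b` not vanishing
at the point `c` -/
def germs (c : Idx r d → k) : Set (FractionRing (MvPolynomial (Idx r d) k)) :=
  {x | ∃ (e : ℕ) (a b : MvPolynomial (Idx r d) k), a.IsHomogeneous e ∧ b.IsHomogeneous e ∧
    Invariant a ∧ Invariant b ∧ eval c b ≠ 0 ∧
    x = algebraMap (MvPolynomial (Idx r d) k) (FractionRing (MvPolynomial (Idx r d) k)) a /
      algebraMap (MvPolynomial (Idx r d) k) (FractionRing (MvPolynomial (Idx r d) k)) b}

theorem Invariant.mul {a b : MvPolynomial (Idx r d) k} (ha : Invariant a) (hb : Invariant b) :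
    Invariant (a * b) := fun g c => by rw [map_mul, map_mul, ha, hb]

theorem Invariant.add {a b : MvPolynomial (Idx r d) k} (ha : Invariant a) (hb : Invariant b) :
    Invariant (a + b) := fun g c => by rw [map_add, map_add, ha, hb]

theorem germs_ne {c : Idx r d → k} {b : MvPolynomial (Idx r d) k} (hb : eval c b ≠ 0) :
    algebraMap (MvPolynomial (Idx r d) k) (FractionRing (MvPolynomial (Idx r d) k)) b ≠ 0 := by
  intro h
  have h1 := (map_eq_zero_iff _ (IsFractionRing.injective (MvPolynomial (Idx r d) k)
    (FractionRing (MvPolynomial (Idx r d) k)))).1 h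
  rw [h1, map_zero] at hb
  exact hb rfl

theorem germs_mul {c : Idx r d → k} {x y : FractionRing (MvPolynomial (Idx r d) k)}
    (hx : x ∈ germs c) (hy : y ∈ germs c) : x * y ∈ germs c := by
  obtain ⟨e, a, b, ha, hb, hai, hbi, hbc, rfl⟩ := hx
  obtain ⟨e', a', b', ha', hb', hai', hbi', hbc', rfl⟩ := hy
  refine ⟨e + e', a * a', b * b', ha.mul ha', hb.mul hb', hai.mul hai', hbi.mul hbi', ?_, ?_⟩
  · rw [map_mul]; exact mul_ne_zero hbc hbc'
  · rw [map_mul, map_mul, div_mul_div_comm]

theorem germs_add {c : Idx r d → k} {x y : FractionRing (MvPolynomial (Idx r d) k)}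
    (hx : x ∈ germs c) (hy : y ∈ germs c) : x + y ∈ germs c := by
  obtain ⟨e, a, b, ha, hb, hai, hbi, hbc, rfl⟩ := hx
  obtain ⟨e', a', b', ha', hb', hai', hbi', hbc', rfl⟩ := hy
  refine ⟨e + e', a * b' + b * a', b * b', (ha.mul hb').add (hb.mul ha'), hb.mul hb',
    (hai.mul hbi').add (hbi.mul hai'), hbi.mul hbi', ?_, ?_⟩
  · rw [map_mul]; exact mul_ne_zero hbc hbc'
  · rw [div_add_div _ _ (germs_ne hbc) (germs_ne hbc'), map_mul, map_add, map_mul, map_mul]

theorem germs_algebraMap (c : Idx r d → k) (x : k) :
    algebraMap k (FractionRing (MvPolynomial (Idx r d) k)) x ∈ germs c := by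
  refine ⟨0, C x, 1, isHomogeneous_C _ _, isHomogeneous_one _ _, fun g c => by
    rw [eval_C, eval_C], fun g c => by rw [map_one, map_one], ?_, ?_⟩
  · rw [map_one]; exact one_ne_zero
  · rw [map_one, div_one, IsScalarTower.algebraMap_apply k (MvPolynomial (Idx r d) k)]
    rfl

/-- the local ring, at the class of `c`, of the quotient of the projective space of tuples by the
conjugation action: the ring of fractions `a / b` of homogeneous invariants of the same degree
with `b c ≠ 0` -/
noncomputable def localRing (c : Idx r d → k) :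
    Subalgebra k (FractionRing (MvPolynomial (Idx r d) k)) where
  carrier := germs c
  mul_mem' := germs_mul
  add_mem' := germs_add
  algebraMap_mem' := germs_algebraMap c

/-- the class of `c` is a singular point of the quotient: its local ring is not regular -/
def IsSingularPoint (c : Idx r d → k) : Prop := ¬ IsRegularLocalRing (localRing c)

end Pool.Agent.Helper16.Endo
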