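import Pool.Agent.Helper16.Endo24
import Pool.Agent.Helper16.EndoDefs2

set_option autoImplicit false

namespace Pool.Agent.Helper16.Endo

open MvPolynomial

universe u

variable {r d : ℕ} {k : Type u} [Field k]

theorem isInv_iff (a : MvPolynomial (Idx r d) k) : IsInv a ↔ Invariant a := by
  constructor
  · intro h g c
    refine h _ _ ?_ (Matrix.SpecialLinearGroup.det_coe _) c
    rw [← Matrix.SpecialLinearGroup.coe_mul, inv_mul_cancel, Matrix.SpecialLinearGroup.coe_one]
  · intro h g g' hgg hg c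
    have hg' : g'.det = 1 := by
      have h1 := congrArg Matrix.det hgg
      rw [Matrix.det_mul, hg, one_mul, Matrix.det_one] at h1
      exact h1
    have h1 := h ⟨g', hg'⟩ c
    have h2 : ((⟨g', hg'⟩ : Matrix.SpecialLinearGroup (Fin r) k)⁻¹ :
        Matrix.SpecialLinearGroup (Fin r) k).1 = g := by
      rw [Matrix.SpecialLinearGroup.coe_inv]
      show g'.adjugate = g
      have h3 := Matrix.mul_adjugate g'
      rw [hg', one_smul] at h3
      calc g'.adjugate = (g * g') * g'.adjugate := by rw [hgg, one_mul]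
        _ = g := by rw [mul_assoc, h3, mul_one]
    rw [← h2]
    exact h1

theorem map_RO (c : Idx r d → k) : (RO c).map (toK c) = localRing c := by
  apply le_antisymm
  · rintro _ ⟨y, hy, rfl⟩
    obtain ⟨e, a, b, ha, hb, hai, hbi, hbc, h⟩ := mem_RO.1 hy
    refine ⟨e, a, b, ha, hb, (isInv_iff a).1 hai, (isInv_iff b).1 hbi, hbc, ?_⟩
    rw [eq_div_iff (germs_ne hbc), ← toK_toO c b, ← toK_toO c a, ← h]
    exact (map_mul (toK c) _ _).symm
  · rintro x ⟨e, a, b, ha, hb, hai, hbi, hbc, rfl⟩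
    obtain ⟨w, hw⟩ := (isUnit_toO (c := c)).2 hbc
    refine ⟨toO c a * ↑w⁻¹, mem_RO.2 ⟨e, a, b, ha, hb, (isInv_iff a).2 hai, (isInv_iff b).2 hbi,
      hbc, ?_⟩, ?_⟩
    · rw [← hw, mul_assoc, Units.inv_mul, mul_one]
    · rw [eq_div_iff (germs_ne hbc), ← toK_toO c b, ← toK_toO c a]
      show toK c (toO c a * ↑w⁻¹) * toK c (toO c b) = toK c (toO c a)
      rw [← map_mul, ← hw, mul_assoc, Units.inv_mul, mul_one]

/-- the two descriptions of the local ring agree -/
noncomputable def equivRO (c : Idx r d → k) : RO c ≃+* localRing c :=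
  ((RO c).equivMapOfInjective (toK c) (toK_injective c)).toRingEquiv.trans
    (Subalgebra.equivOfEq _ _ (map_RO c)).toRingEquiv

theorem regular_iff (c : Idx r d → k) :
    IsRegularLocalRing (localRing c) ↔ IsRegularLocalRing (RO c) :=
  ⟨fun _ => IsRegularLocalRing.of_ringEquiv (R := localRing c) (R' := RO c) (equivRO c).symm,
    fun _ => IsRegularLocalRing.of_ringEquiv (R := RO c) (R' := localRing c) (equivRO c)⟩

theorem stab_of_not_hasAut {c : Idx r d → k} (h : ¬ HasAut c) (g : Matrix (Fin r) (Fin r) k)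
    (hg : IsUnit g.det) (hfix : act g g⁻¹ c = c) : ∃ a : k, g = a • 1 := by
  by_contra hcon
  push Not at hcon
  apply h
  have hgi : g⁻¹ * g = 1 := Matrix.nonsing_inv_mul _ hg
  have hgi' : g * g⁻¹ = 1 := Matrix.mul_nonsing_inv _ hg
  refine ⟨⟨g⁻¹, g, hgi, hgi'⟩, ?_, 1, ?_⟩
  · intro a ha
    have ha' : g⁻¹ = a • 1 := ha
    have ha0 : a • g = 1 := by
      rw [← hgi', ha', Matrix.mul_smul, mul_one]
    apply hcon a⁻¹
    have hane : a ≠ 0 := by
      rintro rfl
      rw [zero_smul] at ha0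
      have h1 : g = 0 := by rw [← mul_one g, ← ha0, mul_zero]
      have h2 := hcon 0
      rw [zero_smul] at h2
      exact h2 h1
    rw [← ha0, smul_smul, inv_mul_cancel₀ hane, one_smul]
  · rw [one_smul]
    exact hfix

theorem exists_sym [IsAlgClosed k] (hr : 1 ≤ r) (hd : 2 ≤ d) {c : Idx r d → k}
    (hc : NoZero c) (h : HasAut c) : ∃ g : Matrix (Fin r) (Fin r) k, IsUnit g.det ∧
      act g g⁻¹ c = c ∧ ∀ a : k, g ≠ a • 1 := by
  obtain ⟨g, hg, u, hu⟩ := h
  have hdet : IsUnit (g : Matrix (Fin r) (Fin r) k).det :=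
    (Matrix.isUnit_iff_isUnit_det _).1 g.isUnit
  set m : Matrix (Fin r) (Fin r) k := (↑g⁻¹ : Matrix (Fin r) (Fin r) k) with hm
  have hmdet : IsUnit m.det := (Matrix.isUnit_iff_isUnit_det _).1 g⁻¹.isUnit
  have hmg : m * (g : Matrix (Fin r) (Fin r) k) = 1 := by
    rw [hm]; exact Units.inv_mul g
  have hgm : (g : Matrix (Fin r) (Fin r) k) * m = 1 := by
    rw [hm]; exact Units.mul_inv g
  have hminv : m⁻¹ = (g : Matrix (Fin r) (Fin r) k) := Matrix.inv_eq_right_inv hmg
  rw [← hminv] at hu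
  have hu0 : u ≠ 0 := by
    rintro rfl
    rw [zero_smul] at hu
    apply noZero_ne_zero hr hc
    apply act_injective hmdet
    rw [hu]
    have := act_smul (0 : k) m m⁻¹ c
    rw [zero_smul, zero_smul] at this
    exact this.symm
  obtain ⟨l, hl⟩ := IsAlgClosed.exists_pow_nat_eq u (n := d - 1) (by omega)
  have hl0 : l ≠ 0 := by
    rintro rfl
    rw [zero_pow (by omega)] at hl
    exact hu0 hl.symm
  refine ⟨l • m, ?_, ?_, ?_⟩
  · rw [Matrix.det_smul]
    exact ((isUnit_iff_ne_zero.2 hl0).pow _).mul hmdet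
  · rw [act_smul_inv (by omega) (mul_inv_cancel₀ hl0) hmdet, hu, smul_smul, inv_pow, hl,
      inv_mul_cancel₀ hu0, one_smul]
  · intro a ha
    have h1 : m = (l⁻¹ * a) • 1 := by
      rw [mul_smul, ← ha, smul_smul, inv_mul_cancel₀ hl0, one_smul]
    have hla : l⁻¹ * a ≠ 0 := by
      intro h0
      rw [h0, zero_smul] at h1
      rw [h1] at hmg
      rw [zero_mul] at hmg
      have hne : Nonempty (Fin r) := ⟨⟨0, by omega⟩⟩
      exact zero_ne_one hmg
    apply hg (l⁻¹ * a)⁻¹
    calc (g : Matrix (Fin r) (Fin r) k) = (l⁻¹ * a)⁻¹ • (l⁻¹ * a) •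
          (g : Matrix (Fin r) (Fin r) k) := by
          rw [smul_smul, inv_mul_cancel₀ hla, one_smul]
      _ = (l⁻¹ * a)⁻¹ • 1 := by
          have h2 : (l⁻¹ * a) • (g : Matrix (Fin r) (Fin r) k) = 1 := by
            rw [← hmg, h1, Matrix.smul_mul, one_mul]
          rw [h2]

/-- singular points of the moduli space are the classes of maps with a symmetry -/
theorem singular_iff {N d : ℕ} (hN : 1 ≤ N) (hd : 2 ≤ d) (hNd : ¬ (N = 1 ∧ d = 2))
    {k : Type u} [Field k] [IsAlgClosed k] [CharZero k] {c : Idx (N + 1) d → k}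
    (hc : IsEndo c) : ¬ IsRegularLocalRing (localRing c) ↔ HasAut c := by
  have hc' : NoZero c := hc
  have hrd : 3 ≤ N + 1 ∨ (2 ≤ N + 1 ∧ 3 ≤ d) := by omega
  rw [regular_iff]
  constructor
  · intro h
    by_contra hcon
    exact h (regular_of_trivial (by omega) hd hc' (stab_of_not_hasAut hcon))
  · intro h
    obtain ⟨g, hg, hfix, hns⟩ := exists_sym (by omega) hd hc' h
    exact not_regular hrd hd hc' hg hfix hns

end Pool.Agent.Helper16.Endo
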