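import Pool.Agent.Helper16.Endo2

set_option autoImplicit false

namespace Pool.Agent.Helper16.Endo

open MvPolynomial Finset

variable {r d : ℕ} {L : Type*} [Field L]

theorem val_equivariant {g : Matrix (Fin r) (Fin r) L} (hg : IsUnit g.det) {c : Idx r d → L}
    (h : act g g⁻¹ c = c) (x : Fin r → L) : val c (g.mulVec x) = g.mulVec (val c x) := by
  have h1 : act 1 g c = act g 1 c := by
    conv_lhs => rw [← h]
    rw [act_act, one_mul, Matrix.nonsing_inv_mul _ hg]
  funext j
  have h2 := congrArg (fun c' => eval x (form c' j)) h1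
  simp only [eval_form_act] at h2
  rw [Matrix.one_mulVec] at h2
  have h3 : ∑ i, (1 : Matrix (Fin r) (Fin r) L) j i * eval (g.mulVec x) (form c i) =
      eval (g.mulVec x) (form c j) := by
    rw [sum_eq_single j]
    · simp
    · intro b _ hb; rw [Matrix.one_apply_ne hb.symm]; simp
    · simp
  rw [h3] at h2
  exact h2

theorem val_equivariant_pow {g : Matrix (Fin r) (Fin r) L} {c : Idx r d → L}
    (h : ∀ x, val c (g.mulVec x) = g.mulVec (val c x)) (n : ℕ) (x : Fin r → L) :
    val c ((g ^ n).mulVec x) = (g ^ n).mulVec (val c x) := by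
  induction n with
  | zero => simp
  | succ n ih => rw [pow_succ', ← Matrix.mulVec_mulVec, h, ih, Matrix.mulVec_mulVec]

theorem eval_aeval_curve {τ : Type*} (w : τ → Polynomial L) (p : MvPolynomial τ L) (t : L) :
    (aeval w p).eval t = eval (fun l => (w l).eval t) p := by
  induction p using MvPolynomial.induction_on with
  | C a => simp
  | add p q hp hq => simp only [map_add, Polynomial.eval_add, hp, hq]
  | mul_X p i hp => simp only [map_mul, Polynomial.eval_mul, hp, aeval_X, eval_X]

/-- the polynomial curve interpolating `(1+ν)^n w` -/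
noncomputable def binCurve (ν : Matrix (Fin r) (Fin r) L) (w : Fin r → L) (s : ℕ) (l : Fin r) :
    Polynomial L :=
  ∑ j ∈ range (s + 1), Polynomial.C (((ν ^ j).mulVec w l) / (j.factorial : L)) *
    descPochhammer L j

theorem binCurve_natDegree (ν : Matrix (Fin r) (Fin r) L) (w : Fin r → L) (s : ℕ) (l : Fin r) :
    (binCurve ν w s l).natDegree ≤ s := by
  refine Polynomial.natDegree_sum_le_of_forall_le _ _ fun j hj => ?_
  refine (Polynomial.natDegree_C_mul_le _ _).trans ?_
  rw [descPochhammer_natDegree]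
  have := mem_range.1 hj; omega

theorem binCurve_coeff (ν : Matrix (Fin r) (Fin r) L) (w : Fin r → L) (s : ℕ) (l : Fin r) :
    (binCurve ν w s l).coeff s = ((ν ^ s).mulVec w l) / (s.factorial : L) := by
  rw [binCurve, Polynomial.finsetSum_coeff, sum_eq_single s]
  · rw [Polynomial.coeff_C_mul]
    have h1 := (monic_descPochhammer L s).coeff_natDegree
    rw [descPochhammer_natDegree] at h1
    rw [h1, mul_one]
  · intro b hb hbs
    rw [Polynomial.coeff_C_mul, Polynomial.coeff_eq_zero_of_natDegree_lt, mul_zero]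
    rw [descPochhammer_natDegree]
    have := mem_range.1 hb; omega
  · simp

theorem binCurve_eval [CharZero L] (ν : Matrix (Fin r) (Fin r) L) (w : Fin r → L) (s : ℕ)
    (hs : ν ^ (s + 1) = 0) (n : ℕ) (l : Fin r) :
    (binCurve ν w s l).eval (n : L) = ((1 + ν) ^ n).mulVec w l := by
  have h1 : (binCurve ν w s l).eval (n : L) =
      ∑ j ∈ range (s + 1), (n.choose j : L) * (ν ^ j).mulVec w l := by
    rw [binCurve, Polynomial.eval_finsetSum]
    refine sum_congr rfl fun j _ => ?_
    rw [Polynomial.eval_mul, Polynomial.eval_C, descPochhammer_eval_eq_descFactorial,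
      Nat.descFactorial_eq_factorial_mul_choose]
    have h2 : (j.factorial : L) ≠ 0 := by exact_mod_cast j.factorial_ne_zero
    push_cast
    field_simp
  have h2 : ((1 + ν) ^ n).mulVec w l =
      ∑ j ∈ range (n + 1), (n.choose j : L) * (ν ^ j).mulVec w l := by
    rw [add_comm 1 ν, (Commute.one_right ν).add_pow n]
    rw [Matrix.sum_mulVec, Finset.sum_apply]
    refine sum_congr rfl fun j _ => ?_
    rw [one_pow, mul_one, ← nsmul_eq_mul', Matrix.smul_mulVec, Pi.smul_apply, nsmul_eq_mul]
  rw [h1, h2]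
  have h3 : ∑ j ∈ range (s + 1), (n.choose j : L) * (ν ^ j).mulVec w l =
      ∑ j ∈ range (n + s + 1), (n.choose j : L) * (ν ^ j).mulVec w l := by
    refine sum_subset (range_subset_range.2 (by omega)) fun j _ hj => ?_
    rw [mem_range, not_lt] at hj
    have h4 : ν ^ j = 0 := by
      rw [← Nat.sub_add_cancel hj, pow_add, hs, mul_zero]
    rw [h4]; simp
  have h4 : ∑ j ∈ range (n + 1), (n.choose j : L) * (ν ^ j).mulVec w l =
      ∑ j ∈ range (n + s + 1), (n.choose j : L) * (ν ^ j).mulVec w l := by
    refine sum_subset (range_subset_range.2 (by omega)) fun j _ hj => ?_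
    rw [mem_range, not_lt] at hj
    rw [Nat.choose_eq_zero_of_lt (by omega)]; simp
  rw [h3, h4]

theorem exists_nilp_index {R : Type*} [Ring R] {ξ : R} (hnil : IsNilpotent ξ) (hne : ξ ≠ 0) :
    ∃ s, 1 ≤ s ∧ ξ ^ s ≠ 0 ∧ ξ ^ (s + 1) = 0 := by
  classical
  obtain ⟨n, hn⟩ := hnil
  have hex : ∃ n, ξ ^ n = 0 := ⟨n, hn⟩
  have h0 : Nat.find hex ≠ 0 := by
    intro h0
    have := Nat.find_spec hex
    rw [h0, pow_zero] at this
    apply hne
    rw [← mul_one ξ, this, mul_zero]
  obtain ⟨m, hm⟩ := Nat.exists_eq_succ_of_ne_zero h0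
  have h1 : ξ ^ (m + 1) = 0 := by
    have := Nat.find_spec hex
    rwa [hm] at this
  refine ⟨m, ?_, Nat.find_min hex (by omega), h1⟩
  rcases Nat.eq_zero_or_pos m with h2 | h2
  · subst h2
    rw [zero_add, pow_one] at h1
    exact absurd h1 hne
  · exact h2

/-- a unipotent symmetry is trivial -/
theorem NoZero.unipotent [CharZero L] {c : Idx r d → L} (hc : NoZero c) (hd : 2 ≤ d)
    {ν : Matrix (Fin r) (Fin r) L} (hν : IsNilpotent ν)
    (h : ∀ n x, val c (((1 + ν) ^ n).mulVec x) = ((1 + ν) ^ n).mulVec (val c x)) : ν = 0 := by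
  by_contra hne
  obtain ⟨s, hs, hs1, hs2⟩ := exists_nilp_index hν hne
  obtain ⟨w, hw⟩ : ∃ w, (ν ^ s).mulVec w ≠ 0 := by
    by_contra hcon
    push Not at hcon
    apply hs1
    apply Matrix.toLin'.injective
    apply LinearMap.ext
    intro w
    rw [Matrix.toLin'_apply, hcon w]; simp
  refine hc.degree_lemma hd hs (binCurve ν w s) (binCurve_natDegree ν w s) ?_ ?_
  · intro h0
    apply hw
    funext l
    have h1 := congrFun h0 l
    simp only [binCurve_coeff, Pi.zero_apply] at h1
    have h2 : (s.factorial : L) ≠ 0 := by exact_mod_cast s.factorial_ne_zero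
    rcases div_eq_zero_iff.1 h1 with h3 | h3
    · exact h3
    · exact absurd h3 h2
  · intro j
    have h1 : aeval (binCurve ν w s) (form c j) = binCurve ν (val c w) s j := by
      apply Polynomial.eq_of_infinite_eval_eq
      refine (Set.infinite_range_of_injective (Nat.cast_injective (R := L))).mono ?_
      rintro _ ⟨n, rfl⟩
      show (aeval (binCurve ν w s) (form c j)).eval (n : L) = (binCurve ν (val c w) s j).eval (n : L)
      rw [eval_aeval_curve, binCurve_eval ν _ s hs2]
      have h2 : (fun l => (binCurve ν w s l).eval (n : L)) = ((1 + ν) ^ n).mulVec w := by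
        funext l; rw [binCurve_eval ν _ s hs2]
      rw [h2]
      exact congrFun (h n w) j
    rw [h1]
    exact binCurve_natDegree ν _ s j

theorem prod_dvd_pow_card (q : Polynomial L) (m : Multiset L) (h : ∀ a ∈ m, q.IsRoot a) :
    (m.map (fun a => Polynomial.X - Polynomial.C a)).prod ∣ q ^ (Multiset.card m) := by
  induction m using Multiset.induction_on with
  | empty => simp
  | cons a m ih =>
    rw [Multiset.map_cons, Multiset.prod_cons, Multiset.card_cons, pow_succ']
    exact mul_dvd_mul (Polynomial.dvd_iff_isRoot.2 (h a (Multiset.mem_cons_self a m)))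
      (ih fun b hb => h b (Multiset.mem_cons_of_mem hb))

/-- **symmetries have finite order** -/
theorem NoZero.finite_order [IsAlgClosed L] [CharZero L] {c : Idx r d → L} (hc : NoZero c)
    (hd : 2 ≤ d) {g : Matrix (Fin r) (Fin r) L} (hg : IsUnit g.det) (h : act g g⁻¹ c = c) :
    ∃ M, 0 < M ∧ g ^ M = 1 := by
  classical
  have heq := val_equivariant hg h
  set S : Set L := {a : L | Module.End.HasEigenvalue (Matrix.toLin' g) a} with hS
  have hSfin : S.Finite := Module.End.finite_hasEigenvalue _
  have hS0 : ∀ a ∈ S, a ≠ 0 := by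
    rintro a ha rfl
    obtain ⟨w, hw⟩ := ha.exists_hasEigenvector
    have h1 := hw.apply_eq_smul
    rw [Matrix.toLin'_apply, zero_smul] at h1
    apply hw.2
    have h2 : g⁻¹.mulVec (g.mulVec w) = w := by
      rw [Matrix.mulVec_mulVec, Matrix.nonsing_inv_mul _ hg, Matrix.one_mulVec]
    rw [← h2, h1, Matrix.mulVec_zero]
  have hSd : ∀ a ∈ S, a ^ d ∈ S := by
    intro a ha
    obtain ⟨w, hw⟩ := ha.exists_hasEigenvector
    have h1 := hw.apply_eq_smul
    rw [Matrix.toLin'_apply] at h1
    refine Module.End.hasEigenvalue_of_hasEigenvector (x := val c w) ?_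
    rw [Module.End.hasEigenvector_iff, Module.End.mem_eigenspace_iff, Matrix.toLin'_apply]
    refine ⟨?_, hc.val_ne hw.2⟩
    rw [← heq, h1]
    funext j
    have h2 : eval (fun l => a * w l) (form c j) = a ^ d * eval w (form c j) := by
      have h3 := aeval_mul_of_isHomogeneous (form_isHomogeneous c j) a w
      simpa using h3
    exact h2
  have hroot := finite_orbit_root hd S hSfin hSd
  have hroot' : ∀ a : L, ∃ M : ℕ, 0 < M ∧ (a ∈ S → a ^ M = 1) := by
    intro a
    by_cases ha : a ∈ S
    · obtain ⟨M, h1, h2⟩ := hroot a ha (hS0 a ha)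
      exact ⟨M, h1, fun _ => h2⟩
    · exact ⟨1, one_pos, fun h => absurd h ha⟩
  choose m hm0 hm using hroot'
  set M := ∏ a ∈ hSfin.toFinset, m a with hM
  have hM0 : 0 < M := Finset.prod_pos fun a _ => hm0 a
  have hMa : ∀ a ∈ S, a ^ M = 1 := by
    intro a ha
    have h1 : m a ∣ M := Finset.dvd_prod_of_mem _ (hSfin.mem_toFinset.2 ha)
    obtain ⟨q, hq⟩ := h1
    rw [hq, pow_mul, hm a ha, one_pow]
  refine ⟨M, hM0, ?_⟩
  -- `g ^ M - 1` is nilpotent
  have hnil : IsNilpotent (g ^ M - 1) := by
    set f := Matrix.toLin' g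
    have hmon := minpoly.monic (Algebra.IsIntegral.isIntegral (R := L) f)
    have hs := IsAlgClosed.splits (minpoly L f)
    have h4 := hs.eq_prod_roots_of_monic hmon
    have h5 := prod_dvd_pow_card (Polynomial.X ^ M - 1 : Polynomial L) (minpoly L f).roots (by
      intro a ha
      have h6 : a ∈ S := Module.End.hasEigenvalue_of_isRoot (Polynomial.isRoot_of_mem_roots ha)
      rw [Polynomial.IsRoot, Polynomial.eval_sub, Polynomial.eval_pow, Polynomial.eval_X,
        hMa a h6, Polynomial.eval_one, sub_self])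
    rw [← h4] at h5
    have h6 : Polynomial.aeval f ((Polynomial.X ^ M - 1 : Polynomial L) ^
        (Multiset.card (minpoly L f).roots)) = 0 := by
      obtain ⟨q, hq⟩ := h5
      rw [hq, map_mul, minpoly.aeval, zero_mul]
    refine ⟨Multiset.card (minpoly L f).roots, ?_⟩
    have h7 : Matrix.toLin' ((g ^ M - 1) ^ (Multiset.card (minpoly L f).roots)) = 0 := by
      rw [Matrix.toLin'_pow, map_sub, Matrix.toLin'_pow, Matrix.toLin'_one]
      rw [map_pow, map_sub, map_pow, Polynomial.aeval_X, map_one] at h6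
      exact h6
    exact (LinearEquiv.map_eq_zero_iff _).1 h7
  have h8 : g ^ M - 1 = 0 := by
    refine hc.unipotent hd hnil fun n x => ?_
    rw [add_sub_cancel, ← pow_mul]
    exact val_equivariant_pow heq _ x
  exact sub_eq_zero.1 h8

end Pool.Agent.Helper16.Endo
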