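import Pool.Agent.Helper16.Endo3

set_option autoImplicit false

namespace Pool.Agent.Helper16.Endo

open MvPolynomial Finset

variable {r d : ℕ} {A B L : Type*} [CommRing A] [CommRing B] [Field L]

/-- the dual number ring -/
abbrev Dual (A : Type*) [CommRing A] : Type _ := TrivSqZeroExt A A

/-- the element `ε` -/
def eps (A : Type*) [CommRing A] : Dual A := TrivSqZeroExt.inr 1

theorem eps_mul_eps : eps A * eps A = 0 := by
  simp [eps]

/-- constants in the dual numbers -/
def cst (A : Type*) [CommRing A] : A →+* Dual A := TrivSqZeroExt.inlHom A A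

@[simp] theorem fst_cst (a : A) : (cst A a).fst = a := rfl
@[simp] theorem snd_cst (a : A) : (cst A a).snd = 0 := rfl
@[simp] theorem fst_eps : (eps A).fst = 0 := rfl
@[simp] theorem snd_eps : (eps A).snd = 1 := rfl

theorem dual_ext {x y : Dual A} (h1 : x.fst = y.fst) (h2 : x.snd = y.snd) : x = y :=
  TrivSqZeroExt.ext h1 h2

theorem dual_eq (x : Dual A) : x = cst A x.fst + eps A * cst A x.snd := by
  apply dual_ext <;> simp

/-- the point `c + ε v` -/
def pt (c v : Idx r d → A) : Idx r d → Dual A := fun p => cst A (c p) + eps A * cst A (v p)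

theorem pt_fst (c v : Idx r d → A) (p : Idx r d) : (pt c v p).fst = c p := by simp [pt]
theorem pt_snd (c v : Idx r d → A) (p : Idx r d) : (pt c v p).snd = v p := by simp [pt]

theorem pt_injective {c v c' v' : Idx r d → A} (h : pt c v = pt c' v') : c = c' ∧ v = v' := by
  constructor
  · funext p
    rw [← pt_fst c v p, h, pt_fst]
  · funext p
    rw [← pt_snd c v p, h, pt_snd]

theorem pt_eq (c v : Idx r d → A) :
    pt c v = (fun p => cst A (c p)) + eps A • (fun p => cst A (v p)) := rfl

theorem pt_surj (x : Idx r d → Dual A) : x = pt (fun p => (x p).fst) (fun p => (x p).snd) := by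
  funext p; exact dual_eq _

theorem act_pt (g h : Matrix (Fin r) (Fin r) A) (c v : Idx r d → A) :
    act (g.map (cst A)) (h.map (cst A)) (pt c v) = pt (act g h c) (act g h v) := by
  rw [pt_eq, act_add, act_smul, act_map, act_map, pt_eq]

theorem act_inf_pt (hd : 1 ≤ d) (ξ : Matrix (Fin r) (Fin r) A) (c v : Idx r d → A) :
    act (1 + eps A • ξ.map (cst A)) (1 - eps A • ξ.map (cst A)) (pt c v) =
      pt c (v + lie ξ c) := by
  rw [pt_eq, act_infinitesimal hd _ eps_mul_eps, lie_map, pt_eq]
  congr 2
  funext p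
  simp

/-- equivariance of the infinitesimal action -/
theorem act_lie (hd : 1 ≤ d) {b b' : Matrix (Fin r) (Fin r) A} (h1 : b * b' = 1) (h2 : b' * b = 1)
    (ξ : Matrix (Fin r) (Fin r) A) (c : Idx r d → A) :
    act b b' (lie ξ c) = lie (b * ξ * b') (act b b' c) := by
  have key : act (b.map (cst A)) (b'.map (cst A))
      (act (1 + eps A • ξ.map (cst A)) (1 - eps A • ξ.map (cst A)) (pt c 0)) =
      act (1 + eps A • (b * ξ * b').map (cst A)) (1 - eps A • (b * ξ * b').map (cst A))
        (act (b.map (cst A)) (b'.map (cst A)) (pt c 0)) := by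
    rw [act_act, act_act]
    have hb : b.map (cst A) * b'.map (cst A) = 1 := by
      rw [← Matrix.map_mul, h1, Matrix.map_one _ (map_zero _) (map_one _)]
    have hb' : b'.map (cst A) * b.map (cst A) = 1 := by
      rw [← Matrix.map_mul, h2, Matrix.map_one _ (map_zero _) (map_one _)]
    have e1 : b.map (cst A) * (1 + eps A • ξ.map (cst A)) =
        (1 + eps A • (b * ξ * b').map (cst A)) * b.map (cst A) := by
      rw [Matrix.map_mul, Matrix.map_mul, mul_add, add_mul, mul_one, one_mul, Matrix.mul_smul,
        Matrix.smul_mul, mul_assoc, mul_assoc, hb', mul_one]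
    have e2 : (1 - eps A • ξ.map (cst A)) * b'.map (cst A) =
        b'.map (cst A) * (1 - eps A • (b * ξ * b').map (cst A)) := by
      rw [Matrix.map_mul, Matrix.map_mul, mul_sub, sub_mul, mul_one, one_mul, Matrix.mul_smul,
        Matrix.smul_mul, ← mul_assoc, ← mul_assoc, hb', one_mul]
    rw [e1, e2]
  rw [act_inf_pt hd, act_pt, act_pt, act_inf_pt hd] at key
  have h3 := (pt_injective key).2
  rw [zero_add] at h3
  rw [h3]
  have : act b b' (0 : Idx r d → A) = 0 := by
    have := act_smul (0 : A) b b' (0 : Idx r d → A)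
    simpa using this
  rw [this, zero_add]

/-! ### diagonal matrices -/

theorem sub_diagonal_monomial (μ : Fin r → A) (α : Fin r →₀ ℕ) (a : A) :
    sub (Matrix.diagonal μ) (monomial α a) = monomial α ((∏ i, μ i ^ α i) * a) := by
  unfold sub
  rw [aeval_monomial]
  have h1 : ∀ l, ∑ m, C (Matrix.diagonal μ l m) * X m = (C (μ l) * X l : MvPolynomial (Fin r) A) := by
    intro l
    rw [sum_eq_single l]
    · rw [Matrix.diagonal_apply_eq]
    · intro b _ hb
      rw [Matrix.diagonal_apply_ne _ hb.symm]; simp
    · simp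
  simp_rw [h1, mul_pow]
  rw [Finsupp.prod_mul, monomial_eq, algebraMap_eq, map_mul, map_prod]
  have h2 : (α.prod fun i k => (C (μ i) : MvPolynomial (Fin r) A) ^ k) = ∏ i, C (μ i ^ α i) := by
    rw [Finsupp.prod_fintype _ _ (fun i => by simp)]
    exact prod_congr rfl fun i _ => by rw [map_pow]
  rw [h2]; ring

theorem act_diagonal (lam μ : Fin r → A) (c : Idx r d → A) (j : Fin r) (α : Mon r d) :
    act (Matrix.diagonal lam) (Matrix.diagonal μ) c (j, α) =
      lam j * (∏ i, μ i ^ (α : Fin r →₀ ℕ) i) * c (j, α) := by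
  have h1 : form (act (Matrix.diagonal lam) (Matrix.diagonal μ) c) j =
      ∑ β : Mon r d, monomial (β : Fin r →₀ ℕ)
        (lam j * (∏ i, μ i ^ (β : Fin r →₀ ℕ) i) * c (j, β)) := by
    rw [form_act, sum_eq_single j]
    · rw [Matrix.diagonal_apply_eq]
      unfold form
      rw [map_sum, mul_sum]
      refine sum_congr rfl fun β _ => ?_
      rw [sub_diagonal_monomial, C_mul_monomial, mul_assoc]
    · intro b _ hb
      rw [Matrix.diagonal_apply_ne _ hb.symm]; simp
    · simp
  have h2 : form (act (Matrix.diagonal lam) (Matrix.diagonal μ) c) j =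
      form (fun p : Idx r d => lam p.1 * (∏ i, μ i ^ (p.2 : Fin r →₀ ℕ) i) * c p) j := h1
  have h3 := coeff_form (act (Matrix.diagonal lam) (Matrix.diagonal μ) c) j α
  rw [h2, coeff_form] at h3
  exact h3.symm

/-- diagonalisation of matrices of finite order -/
theorem exists_diagonalization [IsAlgClosed L] [CharZero L] {g : Matrix (Fin r) (Fin r) L} {M : ℕ}
    (hM : 0 < M) (hg : g ^ M = 1) :
    ∃ (a : Matrix (Fin r) (Fin r) L) (lam : Fin r → L), IsUnit a.det ∧
      g * a = a * Matrix.diagonal lam := by
  classical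
  have : NeZero (M : L) := ⟨by exact_mod_cast hM.ne'⟩
  set f : Module.End L (Fin r → L) := Matrix.toLin' g with hf
  have hss : f.IsSemisimple := by
    refine Module.End.isSemisimple_of_squarefree_aeval_eq_zero
      (p := (Polynomial.X ^ M - 1 : Polynomial L)) ?_ ?_
    · have : (Polynomial.X ^ M - 1 : Polynomial L).Separable :=
        Polynomial.separable_X_pow_sub_C (1 : L) (NeZero.ne (M : L)) one_ne_zero
      exact this.squarefree
    · rw [map_sub, map_pow, Polynomial.aeval_X, map_one, hf, ← Matrix.toLin'_pow, hg,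
        Matrix.toLin'_one]
      exact sub_self _
  let eigenDecomp := DirectSum.isInternal_submodule_of_iSupIndep_of_iSup_eq_top
    f.eigenspaces_iSupIndep hss.iSup_eigenspace_eq_top
  let I := (ν : L) × Fin (Module.finrank L (f.eigenspace ν))
  let v : Module.Basis I L (Fin r → L) :=
    eigenDecomp.collectedBasis fun μ ↦ Module.finBasis L (f.eigenspace μ)
  have : Fintype I := FiniteDimensional.fintypeBasisIndex v
  have hsv (i : I) : f (v i) = i.1 • v i :=
    Module.End.mem_eigenspace_iff.mp (eigenDecomp.collectedBasis_mem _ i)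
  have hcard : Fintype.card I = Fintype.card (Fin r) := by
    rw [← Module.finrank_eq_card_basis v, Module.finrank_fin_fun, Fintype.card_fin]
  let e : I ≃ Fin r := Fintype.equivOfCardEq hcard
  let v' : Module.Basis (Fin r) L (Fin r → L) := v.reindex e
  refine ⟨(Pi.basisFun L (Fin r)).toMatrix v', fun i => (e.symm i).1, ?_, ?_⟩
  · exact Module.Basis.isUnit_det _ v' 
  · ext i j
    have h1 : f (v' j) = (e.symm j).1 • v' j := by
      simp only [v', Module.Basis.reindex_apply]
      exact hsv _
    rw [Matrix.mul_diagonal]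
    have h2 : g.mulVec (v' j) i = (e.symm j).1 * v' j i := by
      have h3 : f (v' j) = g.mulVec (v' j) := Matrix.toLin'_apply g (v' j)
      rw [← h3, h1, Pi.smul_apply, smul_eq_mul]
    simp only [Matrix.mulVec, dotProduct] at h2
    rw [Matrix.mul_apply]
    simp only [Module.Basis.toMatrix_apply, Pi.basisFun_repr]
    rw [h2, mul_comm]

end Pool.Agent.Helper16.Endo
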