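import Pool.Agent.Helper16.Endo4

set_option autoImplicit false

namespace Pool.Agent.Helper16.Endo

open MvPolynomial Finset

variable {r d : ℕ} {L : Type*} [Field L]

/-! ### The counting lemma -/

section count

variable [DecidableEq L]

theorem count_rearrange (lam : Fin r → L) {c : L} (hc : c ≠ 0) :
    ∑ i, (univ.filter fun j => lam j = c * lam i).card ≤
      ∑ i, (univ.filter fun j => lam j = lam i).card := by
  set m : L → ℕ := fun x => (univ.filter fun j => lam j = x).card with hm
  set S := univ.image lam with hS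
  have h0 : ∀ x, x ∉ S → m x = 0 := by
    intro x hx
    rw [hm]
    simp only [card_eq_zero, filter_eq_empty_iff, mem_univ, forall_const]
    intro j hj
    exact hx (mem_image.2 ⟨j, mem_univ _, hj⟩)
  have h1 : ∀ g : L → ℕ, ∑ i, g (lam i) = ∑ x ∈ S, m x * g x := by
    intro g
    rw [← sum_fiberwise_of_maps_to (g := lam) (t := S) (fun i _ => mem_image_of_mem _ (mem_univ i))]
    refine sum_congr rfl fun x _ => ?_
    rw [sum_congr rfl (g := fun _ => g x) (fun i hi => by rw [(mem_filter.1 hi).2])]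
    rw [sum_const, smul_eq_mul]
  have h2 : ∑ i, (univ.filter fun j => lam j = c * lam i).card = ∑ x ∈ S, m x * m (c * x) :=
    h1 fun x => m (c * x)
  have h3 : ∑ i, (univ.filter fun j => lam j = lam i).card = ∑ x ∈ S, m x * m x :=
    h1 fun x => m x
  rw [h2, h3]
  have h4 : ∑ x ∈ S, m (c * x) * m (c * x) ≤ ∑ x ∈ S, m x * m x := by
    have h5 : ∑ x ∈ S, m (c * x) * m (c * x) = ∑ y ∈ S.image (fun x => c * x), m y * m y := by
      have h6 : Set.InjOn (fun x => c * x) (S : Set L) :=
        fun x _ y _ hxy => mul_left_cancel₀ hc hxy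
      exact (Finset.sum_image (f := fun y => m y * m y) h6).symm
    rw [h5]
    calc ∑ y ∈ S.image (fun x => c * x), m y * m y
        = ∑ y ∈ (S.image (fun x => c * x)).filter (· ∈ S), m y * m y := by
          rw [sum_filter_of_ne]
          intro y _ hy
          by_contra hcon
          exact hy (by rw [h0 y hcon, mul_zero])
      _ ≤ ∑ x ∈ S, m x * m x := by
          refine sum_le_sum_of_subset fun y hy => (mem_filter.1 hy).2
  have h5 : 2 * ∑ x ∈ S, m x * m (c * x) ≤
      ∑ x ∈ S, m x * m x + ∑ x ∈ S, m (c * x) * m (c * x) := by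
    rw [mul_sum, ← sum_add_distrib]
    refine sum_le_sum fun x _ => ?_
    nlinarith [two_mul_le_add_sq (m x) (m (c * x))]
  omega

/-- the weight of a monomial -/
def wt (lam : Fin r → L) (α : Fin r →₀ ℕ) : L := ∏ i, lam i ^ α i

theorem mon_degree_single_add (i₀ i : Fin r) (hd : 1 ≤ d) :
    (Finsupp.single i₀ (d - 1) + Finsupp.single i 1 : Fin r →₀ ℕ).degree = d := by
  rw [map_add, Finsupp.degree_single, Finsupp.degree_single]; omega

/-- the monomial `x₀^(d-1) x_i` -/
noncomputable def mon1 (i₀ : Fin r) (hd : 1 ≤ d) (i : Fin r) : Mon r d :=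
  ⟨_, mem_mon (mon_degree_single_add i₀ i hd)⟩

theorem mon1_injective (i₀ : Fin r) (hd : 1 ≤ d) : Function.Injective (mon1 i₀ hd) := by
  intro i j hij
  have h1 : (Finsupp.single i₀ (d - 1) + Finsupp.single i 1 : Fin r →₀ ℕ) =
      Finsupp.single i₀ (d - 1) + Finsupp.single j 1 := congrArg Subtype.val hij
  have h2 := add_left_cancel h1
  have h3 := (Finsupp.single_left_inj (one_ne_zero)).1 h2
  exact h3

omit [DecidableEq L] in
theorem wt_add (lam : Fin r → L) (α β : Fin r →₀ ℕ) :
    wt lam (α + β) = wt lam α * wt lam β := by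
  simp [wt, pow_add, prod_mul_distrib]

omit [DecidableEq L] in
theorem wt_single (lam : Fin r → L) (i : Fin r) (n : ℕ) :
    wt lam (Finsupp.single i n) = lam i ^ n := by
  rw [wt, prod_eq_single i]
  · simp
  · intro b _ hb
    rw [Finsupp.single_eq_of_ne hb]; simp
  · simp

theorem exists_two_extra (hrd : 3 ≤ r ∨ (2 ≤ r ∧ 3 ≤ d)) (hd : 2 ≤ d) :
    ∃ (i₀ : Fin r) (α β : Mon r d), α ≠ β ∧ (∀ i, mon1 i₀ (by omega) i ≠ α) ∧
      ∀ i, mon1 i₀ (by omega) i ≠ β := by
  have hval : ∀ (i₀ i : Fin r), d - 1 ≤ ((mon1 (d := d) i₀ (by omega) i : Mon r d) : Fin r →₀ ℕ) i₀ := by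
    intro i₀ i
    show d - 1 ≤ (Finsupp.single i₀ (d - 1) + Finsupp.single i 1 : Fin r →₀ ℕ) i₀
    rw [Finsupp.add_apply, Finsupp.single_eq_same]; omega
  rcases hrd with hr | ⟨hr, hd3⟩
  · have h01 : (⟨0, by omega⟩ : Fin r) ≠ ⟨1, by omega⟩ := by simp
    have h02 : (⟨0, by omega⟩ : Fin r) ≠ ⟨2, by omega⟩ := by simp
    have h12 : (⟨1, by omega⟩ : Fin r) ≠ ⟨2, by omega⟩ := by simp
    refine ⟨⟨0, by omega⟩,
      ⟨Finsupp.single ⟨0, by omega⟩ (d - 2) + Finsupp.single ⟨1, by omega⟩ 2,
        mem_mon (by rw [map_add, Finsupp.degree_single, Finsupp.degree_single]; omega)⟩,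
      ⟨Finsupp.single ⟨0, by omega⟩ (d - 2) + Finsupp.single ⟨2, by omega⟩ 2,
        mem_mon (by rw [map_add, Finsupp.degree_single, Finsupp.degree_single]; omega)⟩, ?_, ?_, ?_⟩
    · intro h
      have h1 := congrArg Subtype.val h
      have h2 := add_left_cancel h1
      exact h12 ((Finsupp.single_left_inj (two_ne_zero)).1 h2)
    · intro i h
      have h1 := hval ⟨0, by omega⟩ i
      rw [h] at h1
      change d - 1 ≤ (Finsupp.single _ (d - 2) + Finsupp.single _ 2 : Fin r →₀ ℕ) _ at h1
      rw [Finsupp.add_apply, Finsupp.single_eq_same, Finsupp.single_eq_of_ne h01] at h1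
      omega
    · intro i h
      have h1 := hval ⟨0, by omega⟩ i
      rw [h] at h1
      change d - 1 ≤ (Finsupp.single _ (d - 2) + Finsupp.single _ 2 : Fin r →₀ ℕ) _ at h1
      rw [Finsupp.add_apply, Finsupp.single_eq_same, Finsupp.single_eq_of_ne h02] at h1
      omega
  · have h01 : (⟨0, by omega⟩ : Fin r) ≠ ⟨1, by omega⟩ := by simp
    refine ⟨⟨0, by omega⟩,
      ⟨Finsupp.single ⟨0, by omega⟩ (d - 2) + Finsupp.single ⟨1, by omega⟩ 2,
        mem_mon (by rw [map_add, Finsupp.degree_single, Finsupp.degree_single]; omega)⟩,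
      ⟨Finsupp.single ⟨0, by omega⟩ (d - 3) + Finsupp.single ⟨1, by omega⟩ 3,
        mem_mon (by rw [map_add, Finsupp.degree_single, Finsupp.degree_single]; omega)⟩, ?_, ?_, ?_⟩
    · intro h
      have h1 := congrArg (fun x : Mon r d => (x : Fin r →₀ ℕ) ⟨0, by omega⟩) h
      change (Finsupp.single _ (d - 2) + Finsupp.single _ 2 : Fin r →₀ ℕ) _ =
        (Finsupp.single _ (d - 3) + Finsupp.single _ 3 : Fin r →₀ ℕ) _ at h1
      rw [Finsupp.add_apply, Finsupp.add_apply, Finsupp.single_eq_same, Finsupp.single_eq_same,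
        Finsupp.single_eq_of_ne h01, Finsupp.single_eq_of_ne h01] at h1
      omega
    · intro i h
      have h1 := hval ⟨0, by omega⟩ i
      rw [h] at h1
      change d - 1 ≤ (Finsupp.single _ (d - 2) + Finsupp.single _ 2 : Fin r →₀ ℕ) _ at h1
      rw [Finsupp.add_apply, Finsupp.single_eq_same, Finsupp.single_eq_of_ne h01] at h1
      omega
    · intro i h
      have h1 := hval ⟨0, by omega⟩ i
      rw [h] at h1
      change d - 1 ≤ (Finsupp.single _ (d - 3) + Finsupp.single _ 3 : Fin r →₀ ℕ) _ at h1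
      rw [Finsupp.add_apply, Finsupp.single_eq_same, Finsupp.single_eq_of_ne h01] at h1
      omega

/-- the dimension count -/
theorem counting (hrd : 3 ≤ r ∨ (2 ≤ r ∧ 3 ≤ d)) (hd : 2 ≤ d) (lam : Fin r → L)
    (h0 : ∀ i, lam i ≠ 0) (hne : ∃ i j, lam i ≠ lam j) :
    (univ.filter fun p : Fin r × Fin r => lam p.1 ≠ lam p.2).card + 2 ≤
      (univ.filter fun p : Idx r d => lam p.1 ≠ wt lam p.2).card := by
  obtain ⟨i₀, α, β, hαβ, hα, hβ⟩ := exists_two_extra hrd hd
  have hd1 : 1 ≤ d := by omega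
  set N : Mon r d → ℕ := fun γ => (univ.filter fun j : Fin r => lam j ≠ wt lam γ).card with hN
  have h1 : (univ.filter fun p : Idx r d => lam p.1 ≠ wt lam p.2).card = ∑ γ, N γ := by
    rw [hN]
    simp only [card_filter]
    rw [Fintype.sum_prod_type_right]
  have hNpos : ∀ γ, 1 ≤ N γ := by
    intro γ
    obtain ⟨i, j, hij⟩ := hne
    rw [hN, Nat.succ_le_iff, card_pos]
    by_cases hi : lam i = wt lam γ
    · exact ⟨j, mem_filter.2 ⟨mem_univ _, fun hj => hij (hi.trans hj.symm)⟩⟩
    · exact ⟨i, mem_filter.2 ⟨mem_univ _, hi⟩⟩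
  set S0 := univ.image (mon1 i₀ hd1 : Fin r → Mon r d) with hS0
  have h2 : ∑ γ ∈ S0, N γ = ∑ i, N (mon1 i₀ hd1 i) :=
    sum_image fun i _ j _ h => mon1_injective i₀ hd1 h
  have hαS : α ∉ S0 := by
    rw [hS0, mem_image]; rintro ⟨i, _, hi⟩; exact hα i hi
  have hβS : β ∉ insert α S0 := by
    rw [mem_insert, not_or]
    refine ⟨hαβ.symm, ?_⟩
    rw [hS0, mem_image]; rintro ⟨i, _, hi⟩; exact hβ i hi
  have h3 : ∑ γ ∈ insert β (insert α S0), N γ ≤ ∑ γ, N γ :=
    sum_le_sum_of_subset (subset_univ _)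
  rw [sum_insert hβS, sum_insert hαS, h2] at h3
  have h4 : (univ.filter fun p : Fin r × Fin r => lam p.1 ≠ lam p.2).card ≤
      ∑ i, N (mon1 i₀ hd1 i) := by
    have h5 : ∀ i, N (mon1 i₀ hd1 i) =
        r - (univ.filter fun j => lam j = (lam i₀ ^ (d - 1)) * lam i).card := by
      intro i
      have h6 : wt lam (mon1 i₀ hd1 i : Mon r d) = (lam i₀ ^ (d - 1)) * lam i := by
        show wt lam (Finsupp.single i₀ (d - 1) + Finsupp.single i 1) = _
        rw [wt_add, wt_single, wt_single, pow_one]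
      rw [hN]
      simp only [h6]
      rw [filter_not, card_sdiff_of_subset (filter_subset _ _), card_univ, Fintype.card_fin]
    have h7 : (univ.filter fun p : Fin r × Fin r => lam p.1 ≠ lam p.2).card =
        ∑ i, (r - (univ.filter fun j => lam j = lam i).card) := by
      simp only [card_filter]
      rw [Fintype.sum_prod_type_right]
      refine sum_congr rfl fun i _ => ?_
      rw [← card_filter, ← card_filter, filter_not, card_sdiff_of_subset (filter_subset _ _),
        card_univ, Fintype.card_fin]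
    have h8 := count_rearrange lam (pow_ne_zero (d - 1) (h0 i₀))
    have hle : ∀ (P : Fin r → Prop) [DecidablePred P], (univ.filter P).card ≤ r := by
      intro P _
      calc _ ≤ (univ : Finset (Fin r)).card := card_le_card (filter_subset _ _)
        _ = r := by rw [card_univ, Fintype.card_fin]
    rw [h7]
    simp_rw [h5]
    have h9 : ∑ i : Fin r, (r - (univ.filter fun j => lam j = lam i).card) +
        ∑ i, (univ.filter fun j => lam j = lam i).card = ∑ i : Fin r, r := by
      rw [← sum_add_distrib]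
      exact sum_congr rfl fun i _ => Nat.sub_add_cancel (hle _)
    have h10 : ∑ i : Fin r, (r - (univ.filter fun j => lam j = (lam i₀ ^ (d - 1)) * lam i).card) +
        ∑ i, (univ.filter fun j => lam j = (lam i₀ ^ (d - 1)) * lam i).card = ∑ i : Fin r, r := by
      rw [← sum_add_distrib]
      exact sum_congr rfl fun i _ => Nat.sub_add_cancel (hle _)
    omega
  have h5 := hNpos α
  have h6 := hNpos β
  rw [h1]
  omega

end count

/-! ### The linear algebra lemma -/

open scoped Classical in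
/-- the diagonal case -/
theorem la_diagonal (hrd : 3 ≤ r ∨ (2 ≤ r ∧ 3 ≤ d)) (hd : 2 ≤ d)
    {c : Idx r d → L} (lam : Fin r → L) (h0 : ∀ i, lam i ≠ 0) (hne : ∃ i j, lam i ≠ lam j)
    (hfix : act (Matrix.diagonal lam) (Matrix.diagonal fun i => (lam i)⁻¹) c = c)
    (T : Submodule L (Idx r d → L))
    (hT : Module.finrank L (Idx r d → L) ≤ Module.finrank L T + 1)
    (h : ∀ v ∈ T, ∃ ξ, v - act (Matrix.diagonal lam) (Matrix.diagonal fun i => (lam i)⁻¹) v =
      lie ξ c) : False := by
  have hd1 : 1 ≤ d := by omega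
  set μ : Idx r d → L := fun p => lam p.1 * ∏ i, (lam i)⁻¹ ^ (p.2 : Fin r →₀ ℕ) i with hμ
  have hact : ∀ (v : Idx r d → L) p,
      act (Matrix.diagonal lam) (Matrix.diagonal fun i => (lam i)⁻¹) v p = μ p * v p := by
    rintro v ⟨j, α⟩
    exact act_diagonal lam _ v j α
  have hμ1 : ∀ p : Idx r d, μ p ≠ 1 ↔ lam p.1 ≠ wt lam p.2 := by
    intro p
    have hw : wt lam (p.2 : Fin r →₀ ℕ) ≠ 0 := by
      rw [wt]; exact prod_ne_zero_iff.2 fun i _ => pow_ne_zero _ (h0 i)
    have h1 : ∏ i, (lam i)⁻¹ ^ (p.2 : Fin r →₀ ℕ) i = (wt lam (p.2 : Fin r →₀ ℕ))⁻¹ := by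
      rw [wt, ← prod_inv_distrib]
      exact prod_congr rfl fun i _ => inv_pow _ _
    rw [hμ]
    simp only [h1]
    rw [not_iff_not, mul_inv_eq_one₀ hw]
  -- the pairs with different eigenvalues
  let P := {p : Fin r × Fin r // lam p.1 ≠ lam p.2}
  let Q := {p : Idx r d // μ p ≠ 1}
  have hcard : Fintype.card P + 2 ≤ Fintype.card Q := by
    have h1 := counting hrd hd lam h0 hne
    have h2 : Fintype.card P = (univ.filter fun p : Fin r × Fin r => lam p.1 ≠ lam p.2).card :=
      Fintype.card_subtype _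
    have h3 : Fintype.card Q = (univ.filter fun p : Idx r d => μ p ≠ 1).card :=
      Fintype.card_subtype _
    rw [h2, h3]
    simp_rw [hμ1]
    exact h1
  -- equal eigenvalues
  have hdiagmul : Matrix.diagonal lam * Matrix.diagonal (fun i => (lam i)⁻¹) = 1 := by
    rw [Matrix.diagonal_mul_diagonal, ← Matrix.diagonal_one]
    refine congrArg _ (funext fun i => ?_)
    exact mul_inv_cancel₀ (h0 i)
  have hdiagmul' : Matrix.diagonal (fun i => (lam i)⁻¹) * Matrix.diagonal lam = 1 := by
    rw [Matrix.diagonal_mul_diagonal, ← Matrix.diagonal_one]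
    refine congrArg _ (funext fun i => ?_)
    exact inv_mul_cancel₀ (h0 i)
  have hE : ∀ (i j : Fin r), lam i = lam j → ∀ p, μ p ≠ 1 → lie (Matrix.single i j 1) c p = 0 := by
    intro i j hij p hp
    have h1 := act_lie hd1 hdiagmul hdiagmul' (Matrix.single i j (1 : L)) c
    rw [hfix] at h1
    have h2 : Matrix.diagonal lam * Matrix.single i j (1 : L) *
        Matrix.diagonal (fun i => (lam i)⁻¹) = Matrix.single i j 1 := by
      ext a b
      rw [Matrix.mul_diagonal, Matrix.diagonal_mul, Matrix.single_apply]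
      split_ifs with hab
      · obtain ⟨rfl, rfl⟩ := hab
        rw [mul_one, hij, mul_inv_cancel₀ (h0 _)]
      · simp
    rw [h2] at h1
    have h3 := congrFun h1 p
    rw [hact] at h3
    have h4 : (μ p - 1) * lie (Matrix.single i j 1) c p = 0 := by rw [sub_mul, h3]; ring
    exact (mul_eq_zero.1 h4).resolve_left (sub_ne_zero.2 hp)
  -- the restriction map
  let π : (Idx r d → L) →ₗ[L] (Q → L) := LinearMap.funLeft L L (fun q : Q => q.1)
  let Φ : (P → L) →ₗ[L] (Q → L) :=
    { toFun := fun x q => (1 - μ q.1)⁻¹ * ∑ p : P, x p * lie (Matrix.single p.1.1 p.1.2 1) c q.1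
      map_add' := by
        intro x y; funext q
        simp only [Pi.add_apply, add_mul, sum_add_distrib, mul_add]
      map_smul' := by
        intro a x; funext q
        simp only [Pi.smul_apply, smul_eq_mul, RingHom.id_apply, mul_assoc, ← mul_sum]
        ring }
  have hsub : T.map π ≤ LinearMap.range Φ := by
    rintro _ ⟨v, hv, rfl⟩
    obtain ⟨ξ, hξ⟩ := h v hv
    refine ⟨fun p => ξ p.1.1 p.1.2, ?_⟩
    funext q
    have h1 := congrFun hξ q.1
    rw [Pi.sub_apply, hact] at h1
    have h2 : lie ξ c q.1 = ∑ p : P, ξ p.1.1 p.1.2 * lie (Matrix.single p.1.1 p.1.2 1) c q.1 := by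
      have h3 : ξ = ∑ i, ∑ j, ξ i j • Matrix.single i j (1 : L) := by
        conv_lhs => rw [Matrix.matrix_eq_sum_single ξ]
        refine sum_congr rfl fun i _ => sum_congr rfl fun j _ => ?_
        rw [Matrix.smul_single, smul_eq_mul, mul_one]
      have h4 : lie ξ c q.1 = ∑ i, ∑ j, ξ i j * lie (Matrix.single i j 1) c q.1 := by
        conv_lhs => rw [h3, ← lieL_apply]
        rw [map_sum, Finset.sum_apply]
        refine sum_congr rfl fun i _ => ?_
        rw [map_sum, Finset.sum_apply]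
        refine sum_congr rfl fun j _ => ?_
        rw [map_smul, Pi.smul_apply, smul_eq_mul, lieL_apply]
      rw [h4, ← Fintype.sum_prod_type']
      have h5 := Finset.sum_subtype_eq_sum_filter (s := (univ : Finset (Fin r × Fin r)))
        (f := fun p => ξ p.1 p.2 * lie (Matrix.single p.1 p.2 1) c q.1)
        (p := fun p => lam p.1 ≠ lam p.2)
      rw [← sum_filter_of_ne (p := fun p : Fin r × Fin r => lam p.1 ≠ lam p.2)]
      · rw [← h5]
        refine sum_congr ?_ fun _ _ => rfl
        ext x; simp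
      · intro p _ hp heq
        exact hp (by rw [hE p.1 p.2 heq q.1 q.2, mul_zero])
    show (1 - μ q.1)⁻¹ * ∑ p : P, ξ p.1.1 p.1.2 * lie (Matrix.single p.1.1 p.1.2 1) c q.1 = v q.1
    rw [← h2, ← h1]
    have h6 : 1 - μ q.1 ≠ 0 := sub_ne_zero.2 q.2.symm
    field_simp
  have hfr1 : Module.finrank L (T.map π) ≤ Fintype.card P := by
    calc _ ≤ Module.finrank L (LinearMap.range Φ) := Submodule.finrank_mono hsub
      _ ≤ Module.finrank L (P → L) := LinearMap.finrank_range_le Φ
      _ = Fintype.card P := Module.finrank_fintype_fun_eq_card L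
  -- the image of `T` is large
  have hπ : Function.Surjective π := by
    intro y
    refine ⟨fun p => if hp : μ p ≠ 1 then y ⟨p, hp⟩ else 0, ?_⟩
    funext q
    show (if hp : μ q.1 ≠ 1 then y ⟨q.1, hp⟩ else 0) = y q
    rw [dif_pos q.2]
  have hker : Module.finrank L (LinearMap.ker π) + Fintype.card Q =
      Module.finrank L (Idx r d → L) := by
    have h1 := LinearMap.finrank_range_add_finrank_ker π
    rw [LinearMap.range_eq_top.2 hπ, finrank_top, Module.finrank_fintype_fun_eq_card] at h1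
    omega
  have hTk : Module.finrank L (T.map π) + Module.finrank L (LinearMap.ker π) ≥
      Module.finrank L T := by
    have h1 := LinearMap.finrank_range_add_finrank_ker (π.domRestrict T)
    have h2 : LinearMap.range (π.domRestrict T) = T.map π := by
      ext x; simp [Submodule.mem_map]
    rw [h2] at h1
    have h3 : Module.finrank L (LinearMap.ker (π.domRestrict T)) ≤
        Module.finrank L (LinearMap.ker π) := by
      have : LinearMap.ker (π.domRestrict T) = (LinearMap.ker π).comap T.subtype := by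
        ext x; simp [LinearMap.mem_ker]
      rw [this]
      let ψ : (LinearMap.ker π).comap T.subtype →ₗ[L] LinearMap.ker π :=
        (T.subtype.restrict (fun x hx => hx))
      refine LinearMap.finrank_le_finrank_of_injective (f := ψ) ?_
      intro x y hxy
      apply Subtype.ext
      apply Subtype.ext
      have h4 := congrArg (fun z : LinearMap.ker π => (z : Idx r d → L)) hxy
      exact h4
    omega
  omega

/-- **the linear algebra lemma** -/
theorem la_lemma [IsAlgClosed L] [CharZero L] (hrd : 3 ≤ r ∨ (2 ≤ r ∧ 3 ≤ d)) (hd : 2 ≤ d)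
    {c : Idx r d → L} {g : Matrix (Fin r) (Fin r) L} (hns : ∀ a : L, g ≠ a • 1)
    {M : ℕ} (hM : 0 < M) (hgM : g ^ M = 1) (hfix : act g g⁻¹ c = c)
    (T : Submodule L (Idx r d → L))
    (hT : Module.finrank L (Idx r d → L) ≤ Module.finrank L T + 1)
    (h : ∀ v ∈ T, ∃ ξ, v - act g g⁻¹ v = lie ξ c) : False := by
  have hd1 : 1 ≤ d := by omega
  obtain ⟨a, lam, ha, hga⟩ := exists_diagonalization hM hgM
  have haa : a * a⁻¹ = 1 := Matrix.mul_nonsing_inv _ ha
  have haa' : a⁻¹ * a = 1 := Matrix.nonsing_inv_mul _ ha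
  have hgdet : IsUnit g.det := by
    have h1 : g.det ^ M = 1 := by rw [← Matrix.det_pow, hgM, Matrix.det_one]
    exact IsUnit.of_pow_eq_one h1 hM.ne'
  have hgg : g * g⁻¹ = 1 := Matrix.mul_nonsing_inv _ hgdet
  have hD : Matrix.diagonal lam = a⁻¹ * g * a := by
    rw [mul_assoc, hga, ← mul_assoc, haa', one_mul]
  have h0 : ∀ i, lam i ≠ 0 := by
    have h1 : IsUnit (Matrix.diagonal lam).det := by
      rw [hD, Matrix.det_mul, Matrix.det_mul]
      exact ((Matrix.isUnit_nonsing_inv_det _ ha).mul hgdet).mul ha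
    rw [Matrix.det_diagonal] at h1
    intro i hi
    exact h1.ne_zero (prod_eq_zero (mem_univ i) hi)
  have hne : ∃ i j, lam i ≠ lam j := by
    by_contra hcon
    push Not at hcon
    rcases Nat.eq_zero_or_pos r with hr | hr
    · omega
    apply hns (lam ⟨0, hr⟩)
    have h1 : Matrix.diagonal lam = lam ⟨0, hr⟩ • (1 : Matrix (Fin r) (Fin r) L) := by
      rw [Matrix.smul_one_eq_diagonal]
      exact congrArg _ (funext fun i => hcon i _)
    have h2 : g = a * Matrix.diagonal lam * a⁻¹ := by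
      rw [← hga, mul_assoc, haa, mul_one]
    rw [h2, h1, Matrix.mul_smul, mul_one, Matrix.smul_mul, haa]
  have hDinv : Matrix.diagonal (fun i => (lam i)⁻¹) = a⁻¹ * g⁻¹ * a := by
    have h1 : Matrix.diagonal lam * (a⁻¹ * g⁻¹ * a) = 1 := by
      rw [hD]
      calc a⁻¹ * g * a * (a⁻¹ * g⁻¹ * a) = a⁻¹ * g * (a * a⁻¹) * g⁻¹ * a := by
            simp only [mul_assoc]
        _ = 1 := by rw [haa, mul_one, mul_assoc a⁻¹, hgg, mul_one, haa']
    have h2 : Matrix.diagonal (fun i => (lam i)⁻¹) * Matrix.diagonal lam = 1 := by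
      rw [Matrix.diagonal_mul_diagonal, ← Matrix.diagonal_one]
      exact congrArg _ (funext fun i => inv_mul_cancel₀ (h0 i))
    calc _ = Matrix.diagonal (fun i => (lam i)⁻¹) * (Matrix.diagonal lam * (a⁻¹ * g⁻¹ * a)) := by
          rw [h1, mul_one]
      _ = _ := by rw [← mul_assoc, h2, one_mul]
  have hconj : ∀ v : Idx r d → L, act (Matrix.diagonal lam) (Matrix.diagonal fun i => (lam i)⁻¹)
      (act a⁻¹ a v) = act a⁻¹ a (act g g⁻¹ v) := by
    intro v
    rw [hDinv, hD, act_act, act_act]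
    have e1 : a⁻¹ * g * a * a⁻¹ = a⁻¹ * g := by rw [mul_assoc, haa, mul_one]
    have e2 : a * (a⁻¹ * g⁻¹ * a) = g⁻¹ * a := by rw [← mul_assoc, ← mul_assoc, haa, one_mul]
    rw [e1, e2]
  let e : (Idx r d → L) ≃ₗ[L] (Idx r d → L) :=
    { toFun := act a⁻¹ a
      invFun := act a a⁻¹
      map_add' := act_add _ _
      map_smul' := fun x v => act_smul x _ _ v
      left_inv := fun v => by rw [act_act, haa, act_one]
      right_inv := fun v => by rw [act_act, haa', act_one] }
  refine la_diagonal hrd hd (c := act a⁻¹ a c) lam h0 hne ?_ (T.map (e : _ →ₗ[L] _)) ?_ ?_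
  · rw [hconj, hfix]
  · rw [LinearEquiv.finrank_map_eq]; exact hT
  · rintro _ ⟨v, hv, rfl⟩
    obtain ⟨ξ, hξ⟩ := h v hv
    refine ⟨a⁻¹ * ξ * a, ?_⟩
    show act a⁻¹ a v - act _ _ (act a⁻¹ a v) = _
    rw [hconj, ← act_lie hd1 haa' haa, ← hξ]
    have h1 : act a⁻¹ a (v - act g g⁻¹ v) = e (v - act g g⁻¹ v) := rfl
    rw [h1, map_sub]
    rfl

end Pool.Agent.Helper16.Endo
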