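import Pool.Agent.Helper16.Endo5

set_option autoImplicit false

namespace Pool.Agent.Helper16.Endo

open MvPolynomial Finset

variable {r d : ℕ} {L : Type*} [Field L]

/-- strong form of having no common zero -/
def SNoZero (c : Idx r d → L) : Prop :=
  ∃ e : ℕ, ∀ i : Fin r, (X i : MvPolynomial (Fin r) L) ^ e ∈ Ideal.span (Set.range (form c))

theorem NoZero.strong [IsAlgClosed L] {c : Idx r d → L} (hc : NoZero c) : SNoZero c := by
  classical
  set I : Ideal (MvPolynomial (Fin r) L) := Ideal.span (Set.range (form c)) with hI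
  have h1 : ∀ i : Fin r, (X i : MvPolynomial (Fin r) L) ∈ I.radical := by
    intro i
    rw [← vanishingIdeal_zeroLocus_eq_radical (K := L), mem_vanishingIdeal_iff]
    intro x hx
    rw [mem_zeroLocus_iff] at hx
    have h2 : x = 0 := by
      apply hc
      intro j
      have := hx (form c j) (Ideal.subset_span ⟨j, rfl⟩)
      simpa using this
    rw [h2]; simp
  have h2 : ∀ i : Fin r, ∃ n : ℕ, (X i : MvPolynomial (Fin r) L) ^ n ∈ I := fun i => h1 i
  choose n hn using h2
  refine ⟨∑ i, n i, fun i => ?_⟩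
  have h3 : n i ≤ ∑ i, n i := single_le_sum (fun _ _ => Nat.zero_le _) (mem_univ i)
  rw [← Nat.sub_add_cancel h3, pow_add]
  exact I.mul_mem_left _ (hn i)

theorem SNoZero.map {L' : Type*} [Field L'] (φ : L →+* L') {c : Idx r d → L} (hc : SNoZero c) :
    SNoZero (fun p => φ (c p)) := by
  obtain ⟨e, he⟩ := hc
  refine ⟨e, fun i => ?_⟩
  have h1 := Ideal.mem_map_of_mem (MvPolynomial.map φ) (he i)
  rw [Ideal.map_span, ← Set.range_comp] at h1
  have h2 : (⇑(MvPolynomial.map φ) ∘ form c) = form (fun p => φ (c p)) := by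
    funext i; rw [form_map]; rfl
  rw [h2, map_pow, map_X] at h1
  exact h1

theorem SNoZero.noZero {c : Idx r d → L} (hc : SNoZero c) : NoZero c := by
  obtain ⟨e, he⟩ := hc
  intro x hx
  funext i
  have h1 : Ideal.span (Set.range (form c)) ≤ RingHom.ker (eval x) := by
    rw [Ideal.span_le]
    rintro _ ⟨j, rfl⟩
    exact hx j
  have h2 := h1 (he i)
  rw [RingHom.mem_ker, map_pow, eval_X] at h2
  exact eq_zero_of_pow_eq_zero h2

section valuation

variable {K : Type*} [Field K] (O : ValuationSubring K)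


theorem eval_map_hom {A B τ : Type*} [CommRing A] [CommRing B] (φ : A →+* B) (y : τ → A)
    (p : MvPolynomial τ A) : eval (fun i => φ (y i)) (MvPolynomial.map φ p) = φ (eval y p) := by
  induction p using MvPolynomial.induction_on with
  | C a => simp
  | add p q hp hq => simp only [map_add, hp, hq]
  | mul_X p l hp => simp only [map_mul, hp, map_X, eval_X]

theorem eval_smul_form {A : Type*} [CommRing A] (c : Idx r d → A) (a : A) (x : Fin r → A)
    (j : Fin r) : eval (fun l => a * x l) (form c j) = a ^ d * eval x (form c j) := by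
  have h3 := aeval_mul_of_isHomogeneous (form_isHomogeneous c j) a x
  simpa using h3

theorem val_form_ge {c : Idx r d → O}
    (hc : NoZero (fun p => IsLocalRing.residue O (c p))) (x : Fin r → K) (s : Fin r)
    (hs : ∀ i, O.valuation (x i) ≤ O.valuation (x s)) (hx : x s ≠ 0) :
    ∃ j, O.valuation (x s) ^ d ≤ O.valuation (eval x (form (fun p => (c p : K)) j)) := by
  have hvs : O.valuation (x s) ≠ 0 := (Valuation.ne_zero_iff _).2 hx
  have hy : ∀ i, (x s)⁻¹ * x i ∈ O := by
    intro i
    apply ValuationSubring.mem_of_valuation_le_one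
    rw [map_mul, map_inv₀]
    rw [inv_mul_le_iff₀ (zero_lt_iff.2 hvs), mul_one]
    exact hs i
  set y : Fin r → O := fun i => ⟨(x s)⁻¹ * x i, hy i⟩ with hydef
  have h1 : ∃ j, IsUnit (eval y (form c j)) := by
    by_contra hcon
    push Not at hcon
    have h2 := hc (fun i => IsLocalRing.residue O (y i)) (fun j => by
      have h3 := hcon j
      have h4 : IsLocalRing.residue O (eval y (form c j)) = 0 := by
        rw [IsLocalRing.residue_eq_zero_iff]
        exact (IsLocalRing.mem_maximalIdeal _).2 h3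
      rw [form_map, eval_map_hom, h4])
    have h3 := congrFun h2 s
    have h4 : y s = 1 := Subtype.ext (inv_mul_cancel₀ hx)
    rw [h4, map_one] at h3
    exact one_ne_zero h3
  obtain ⟨j, hj⟩ := h1
  refine ⟨j, ?_⟩
  have h2 : ((eval y (form c j) : O) : K) = eval (fun i => (x s)⁻¹ * x i)
      (form (fun p => (c p : K)) j) := by
    have h3 := eval_map_hom (O.subtype) y (form c j)
    rw [← form_map] at h3
    exact h3.symm
  have h3 : O.valuation ((eval y (form c j) : O) : K) = 1 :=
    (ValuationSubring.valuation_eq_one_iff O _).1 hj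
  rw [h2, eval_smul_form, map_mul, map_pow, map_inv₀] at h3
  rw [inv_pow, inv_mul_eq_one₀ (pow_ne_zero _ hvs)] at h3
  exact h3.le

/-- **valuative closedness of the orbit** -/
theorem inv_mem_of_act_mem (hd : 2 ≤ d) {c : Idx r d → O}
    (hc : NoZero (fun p => IsLocalRing.residue O (c p)))
    {g : Matrix (Fin r) (Fin r) K} (hg : IsUnit g.det)
    (h : ∀ p, act g g⁻¹ (fun p => (c p : K)) p ∈ O) (i j : Fin r) : g⁻¹ i j ∈ O := by
  classical
  set c' : Idx r d → K := fun p => (c p : K) with hc'
  obtain ⟨⟨a, b⟩, -, hab⟩ := Finset.exists_max_image (univ : Finset (Fin r × Fin r))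
    (fun q => O.valuation (g⁻¹ q.1 q.2)) ⟨(i, j), mem_univ _⟩
  apply ValuationSubring.mem_of_valuation_le_one
  refine (hab (i, j) (mem_univ _)).trans ?_
  simp only at hab ⊢
  by_contra hcon
  rw [not_le] at hcon
  set C := O.valuation (g⁻¹ a b) with hC
  have hC0 : g⁻¹ a b ≠ 0 := by
    intro h0
    rw [hC, h0, map_zero] at hcon
    exact absurd hcon (by simp)
  -- the vector `x = g⁻¹ e_b`
  obtain ⟨l, hl⟩ := val_form_ge O hc (fun i => g⁻¹ i b) a (fun i => hab (i, b) (mem_univ _)) hC0
  have h1 : eval (fun i => g⁻¹ i b) (form c' l) =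
      ∑ i, g⁻¹ l i * eval (Pi.single b 1) (form (act g g⁻¹ c') i) := by
    have h2 : c' = act g⁻¹ g (act g g⁻¹ c') := by
      rw [act_act, Matrix.nonsing_inv_mul _ hg, act_one]
    conv_lhs => rw [h2]
    rw [eval_form_act]
    refine sum_congr rfl fun i _ => ?_
    congr 2
    have h3 : (fun i => g⁻¹ i b) = g⁻¹.mulVec (Pi.single b 1) := by
      rw [Matrix.mulVec_single_one]; rfl
    rw [h3, Matrix.mulVec_mulVec, Matrix.mul_nonsing_inv _ hg, Matrix.one_mulVec]
  have h2 : ∀ i, O.valuation (eval (Pi.single b 1) (form (act g g⁻¹ c') i)) ≤ 1 := by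
    intro i
    rw [ValuationSubring.valuation_le_one_iff]
    have h3 : eval (Pi.single b 1) (form (act g g⁻¹ c') i) =
        ((eval (Pi.single b (1 : O)) (form (fun p => (⟨_, h p⟩ : O)) i) : O) : K) := by
      have h4 := eval_map_hom (O.subtype) (Pi.single b (1 : O)) (form (fun p => (⟨_, h p⟩ : O)) i)
      rw [← form_map] at h4
      have h5 : (fun l => O.subtype ((Pi.single b (1 : O) : Fin r → O) l)) =
          (Pi.single b (1 : K) : Fin r → K) := by
        funext l
        by_cases hlb : l = b
        · subst hlb; simp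
        · simp [Pi.single_eq_of_ne hlb]
      rw [h5] at h4
      exact h4
    rw [h3]
    exact Subtype.coe_prop _
  have h3 : O.valuation (eval (fun i => g⁻¹ i b) (form c' l)) ≤ C := by
    rw [h1]
    refine Valuation.map_sum_le _ fun i _ => ?_
    rw [map_mul]
    calc O.valuation (g⁻¹ l i) * O.valuation (eval (Pi.single b 1) (form (act g g⁻¹ c') i))
        ≤ C * 1 := mul_le_mul' (hab (l, i) (mem_univ _)) (h2 i)
      _ = C := mul_one _
  have h4 : C ^ d ≤ C := hl.trans h3
  have h5 : C ^ 1 < C ^ d := pow_lt_pow_right₀ hcon (by omega)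
  rw [pow_one] at h5
  exact absurd h4 (not_le.2 h5)

end valuation

/-- **integrality of the group over the orbit** -/
theorem integral_of_orbit {S : Type*} [CommRing S] [IsDomain S] [Algebra L S] (hd : 2 ≤ d)
    {c : Idx r d → L} (hc : SNoZero c) {g : Matrix (Fin r) (Fin r) S} (hg : IsUnit g.det)
    (A : Subalgebra L S) (hA : ∀ p, act g g⁻¹ (fun p => algebraMap L S (c p)) p ∈ A)
    {κ : ℕ} (hκ : 0 < κ) (huA' : g.det ^ κ ∈ A)
    (i j : Fin r) : IsIntegral A (g i j) := by
  classical
  let K := FractionRing S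
  let φ : S →+* K := algebraMap S K
  have hφ : Function.Injective φ := IsFractionRing.injective S K
  -- integrality can be tested in the fraction field
  have hmem : φ (g i j) ∈ (integralClosure (Subring.closure (φ '' (A : Set S))) K).toSubring := by
    rw [← iInf_valuationSubring_superset]
    rw [Subring.mem_iInf]
    rintro ⟨O, hO⟩
    have hAO : ∀ x ∈ A, φ x ∈ O := fun x hx => hO ⟨x, hx, rfl⟩
    show φ (g i j) ∈ O
    -- the matrix over `K`
    have hgK : IsUnit (g.map φ).det := by
      have : (g.map φ).det = φ g.det := by rw [RingHom.map_det]; rfl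
      rw [this]; exact hg.map φ
    have hginv : (g.map φ)⁻¹ = g⁻¹.map φ := by
      apply Matrix.inv_eq_left_inv
      rw [← Matrix.map_mul, Matrix.nonsing_inv_mul _ hg, Matrix.map_one _ (map_zero _) (map_one _)]
    have hcO : ∀ a : L, φ (algebraMap L S a) ∈ O := fun a => hAO _ (A.algebraMap_mem a)
    let ψ : L →+* O := (φ.comp (algebraMap L S)).codRestrict O hcO
    have hres : NoZero (fun p => IsLocalRing.residue O (ψ (c p))) := by
      have := hc.map ((IsLocalRing.residue O).comp ψ)
      exact this.noZero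
    have h1 : ∀ i j, (g.map φ)⁻¹ i j ∈ O := by
      refine inv_mem_of_act_mem O hd (c := fun p => ψ (c p)) hres hgK ?_
      intro p
      have h2 : act (g.map φ) (g.map φ)⁻¹ (fun p => ((ψ (c p) : O) : K)) =
          fun p => φ (act g g⁻¹ (fun p => algebraMap L S (c p)) p) := by
        rw [hginv, ← act_map]; rfl
      rw [h2]
      exact hAO _ (hA p)
    have hdet : φ g.det ∈ O := by
      have h2 : O.valuation (φ g.det) ^ κ ≤ 1 := by
        rw [← map_pow, ← map_pow, ValuationSubring.valuation_le_one_iff]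
        exact hAO _ huA'
      apply ValuationSubring.mem_of_valuation_le_one
      exact (pow_le_one_iff_of_nonneg zero_le hκ.ne').1 h2
    have h2 : g.map φ = (g.map φ).det • ((g.map φ)⁻¹).adjugate := by
      have h3 := Matrix.adjugate_mul ((g.map φ)⁻¹)
      have h4 : ((g.map φ)⁻¹).adjugate * (g.map φ)⁻¹ * g.map φ = ((g.map φ)⁻¹).adjugate := by
        rw [mul_assoc, Matrix.nonsing_inv_mul _ hgK, mul_one]
      rw [h3, Matrix.smul_mul, one_mul] at h4
      rw [← h4, smul_smul, ← Matrix.det_mul, Matrix.mul_nonsing_inv _ hgK, Matrix.det_one, one_smul]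
    have h3 : (g.map φ) i j = (g.map φ).det * ((g.map φ)⁻¹).adjugate i j := by
      conv_lhs => rw [h2]
      rfl
    show (g.map φ) i j ∈ O
    rw [h3]
    refine O.mul_mem _ _ ?_ ?_
    · have : (g.map φ).det = φ g.det := by rw [RingHom.map_det]; rfl
      rw [this]; exact hdet
    · let N : Matrix (Fin r) (Fin r) O := fun a b => ⟨(g.map φ)⁻¹ a b, h1 a b⟩
      have h4 : ((g.map φ)⁻¹).adjugate = N.adjugate.map O.subtype := by
        have h5 := RingHom.map_adjugate O.subtype N
        have h6 : (O.subtype.mapMatrix N) = (g.map φ)⁻¹ := by ext; rfl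
        rw [h6] at h5
        exact h5.symm
      rw [h4]
      exact Subtype.coe_prop _
  have h1 : IsIntegral (Subring.closure (φ '' (A : Set S))) (φ (g i j)) := hmem
  -- transfer
  have h2 : Subring.closure (φ '' (A : Set S)) = A.toSubring.map φ := by
    apply le_antisymm
    · rw [Subring.closure_le]
      rintro _ ⟨x, hx, rfl⟩
      exact ⟨x, hx, rfl⟩
    · rintro _ ⟨x, hx, rfl⟩
      exact Subring.subset_closure ⟨x, hx, rfl⟩
  rw [h2] at h1
  obtain ⟨p, hp, hp'⟩ := h1
  -- lift the polynomial
  have hlift : ∀ x : A.toSubring.map φ, ∃ a : A, φ (a : S) = x := by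
    rintro ⟨_, x, hx, rfl⟩
    exact ⟨⟨x, hx⟩, rfl⟩
  let θ : A →+* A.toSubring.map φ :=
    { toFun := fun a => ⟨φ a, a, a.2, rfl⟩
      map_one' := Subtype.ext (by simp)
      map_mul' := fun a b => Subtype.ext (by simp)
      map_zero' := Subtype.ext (by simp)
      map_add' := fun a b => Subtype.ext (by simp) }
  have hθ : Function.Surjective θ := fun x => by
    obtain ⟨a, ha⟩ := hlift x
    exact ⟨a, Subtype.ext ha⟩
  have hpl : p ∈ Polynomial.lifts θ :=
    (Polynomial.lifts_iff_coeff_lifts p).2 fun n => hθ _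
  obtain ⟨q, hq, -, hqm⟩ := Polynomial.lifts_and_natDegree_eq_and_monic hpl hp
  refine ⟨q, hqm, ?_⟩
  apply hφ
  rw [map_zero, ← hp', ← hq, Polynomial.eval₂_map, Polynomial.hom_eval₂]
  rfl

end Pool.Agent.Helper16.Endo
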