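import Pool.Agent.Helper16.Endo6

set_option autoImplicit false

namespace Pool.Agent.Helper16.Endo

open MvPolynomial Finset

/-! ### The apolar pairing -/

section pairing

variable {τ : Type*} [Fintype τ] {A B : Type*} [CommRing A] [CommRing B]

/-- product of factorials -/
def fac (α : τ →₀ ℕ) : ℕ := ∏ i, (α i).factorial

/-- the apolar pairing -/
noncomputable def pair (p q : MvPolynomial τ A) : A :=
  ∑ α ∈ p.support, (fac α : A) * coeff α p * coeff α q

theorem pair_eq_sum {p q : MvPolynomial τ A} {s : Finset (τ →₀ ℕ)} (hs : p.support ⊆ s) :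
    pair p q = ∑ α ∈ s, (fac α : A) * coeff α p * coeff α q := by
  unfold pair
  refine sum_subset hs fun α _ hα => ?_
  rw [notMem_support_iff.1 hα]; ring

theorem pair_add_left (p p' q : MvPolynomial τ A) : pair (p + p') q = pair p q + pair p' q := by
  classical
  rw [pair_eq_sum (s := (p + p').support ∪ (p.support ∪ p'.support)) subset_union_left,
    pair_eq_sum (p := p) (s := (p + p').support ∪ (p.support ∪ p'.support))
      (subset_union_left.trans subset_union_right),
    pair_eq_sum (p := p') (s := (p + p').support ∪ (p.support ∪ p'.support))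
      (subset_union_right.trans subset_union_right), ← sum_add_distrib]
  exact sum_congr rfl fun α _ => by rw [coeff_add]; ring

theorem pair_monomial (α : τ →₀ ℕ) (a : A) (q : MvPolynomial τ A) :
    pair (monomial α a) q = (fac α : A) * a * coeff α q := by
  classical
  rw [pair_eq_sum (s := {α}) support_monomial_subset, sum_singleton, coeff_monomial, if_pos rfl]

theorem pair_add_right (p q q' : MvPolynomial τ A) : pair p (q + q') = pair p q + pair p q' := by
  unfold pair
  rw [← sum_add_distrib]
  exact sum_congr rfl fun α _ => by rw [coeff_add]; ring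

theorem pair_C_mul_right (a : A) (p q : MvPolynomial τ A) : pair p (C a * q) = a * pair p q := by
  unfold pair
  rw [mul_sum]
  exact sum_congr rfl fun α _ => by rw [coeff_C_mul]; ring

theorem pair_C_mul_left (a : A) (p q : MvPolynomial τ A) : pair (C a * p) q = a * pair p q := by
  induction p using MvPolynomial.induction_on' with
  | monomial α b => rw [C_mul_monomial, pair_monomial, pair_monomial]; ring
  | add p p' hp hp' => rw [mul_add, pair_add_left, pair_add_left, hp, hp']; ring

theorem pair_sum_left {ι : Type*} (s : Finset ι) (p : ι → MvPolynomial τ A)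
    (q : MvPolynomial τ A) : pair (∑ i ∈ s, p i) q = ∑ i ∈ s, pair (p i) q := by
  classical
  induction s using Finset.induction_on with
  | empty =>
    rw [sum_empty, sum_empty]
    have := pair_C_mul_left (0 : A) (0 : MvPolynomial τ A) q
    simpa using this
  | insert a s ha ih => rw [sum_insert ha, sum_insert ha, pair_add_left, ih]

theorem pair_sum_right {ι : Type*} (s : Finset ι) (p : MvPolynomial τ A)
    (q : ι → MvPolynomial τ A) : pair p (∑ i ∈ s, q i) = ∑ i ∈ s, pair p (q i) := by
  classical
  induction s using Finset.induction_on with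
  | empty =>
    rw [sum_empty, sum_empty]
    have := pair_C_mul_right (0 : A) p (0 : MvPolynomial τ A)
    simpa using this
  | insert a s ha ih => rw [sum_insert ha, sum_insert ha, pair_add_right, ih]

theorem pair_map (φ : A →+* B) (p q : MvPolynomial τ A) :
    pair (MvPolynomial.map φ p) (MvPolynomial.map φ q) = φ (pair p q) := by
  induction p using MvPolynomial.induction_on' with
  | monomial α b =>
    rw [map_monomial, pair_monomial, pair_monomial, coeff_map, map_mul, map_mul, map_natCast]
  | add p p' hp hp' => rw [map_add, pair_add_left, pair_add_left, hp, hp', map_add]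

theorem pair_X_mul [DecidableEq τ] (i : τ) (p q : MvPolynomial τ A) :
    pair (X i * p) q = pair p (pderiv i q) := by
  induction p using MvPolynomial.induction_on' with
  | monomial α b =>
    have h1 : (X i * monomial α b : MvPolynomial τ A) = monomial (Finsupp.single i 1 + α) b := by
      rw [X, monomial_mul, one_mul]
    rw [h1, pair_monomial, pair_monomial]
    have h2 : coeff α (pderiv i q) = (α i + 1 : ℕ) * coeff (Finsupp.single i 1 + α) q := by
      rw [add_comm (Finsupp.single i 1) α, coeff_pderiv]
      push_cast; ring
    rw [h2]
    have h3 : fac (Finsupp.single i 1 + α) = (α i + 1) * fac α := by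
      unfold fac
      rw [← mul_prod_erase univ _ (mem_univ i), ← mul_prod_erase univ _ (mem_univ i)]
      rw [Finsupp.add_apply, Finsupp.single_eq_same, add_comm 1 (α i), Nat.factorial_succ,
        mul_assoc]
      refine congrArg (fun t => (α i + 1) * ((α i).factorial * t)) ?_
      refine prod_congr rfl fun j hj => ?_
      rw [Finsupp.add_apply, Finsupp.single_eq_of_ne (ne_of_mem_erase hj), zero_add]
    rw [h3]; push_cast; ring
  | add p p' hp hp' => rw [mul_add, pair_add_left, pair_add_left, hp, hp']

theorem pair_C_left (a : A) (q : MvPolynomial τ A) : pair (C a) q = a * coeff 0 q := by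
  have h1 : (C a : MvPolynomial τ A) = monomial 0 a := rfl
  rw [h1, pair_monomial]
  simp [fac]

/-- positivity of the pairing -/
theorem pair_self_ne_zero {p : MvPolynomial τ ℤ} (hp : p ≠ 0) : pair p p ≠ 0 := by
  have h1 : 0 < pair p p := by
    unfold pair
    refine sum_pos (fun α hα => ?_) (support_nonempty.2 hp)
    have h2 : coeff α p ≠ 0 := mem_support_iff.1 hα
    have h3 : 0 < fac α := Finset.prod_pos fun i _ => Nat.factorial_pos _
    have h4 : (0 : ℤ) < (fac α : ℤ) := by exact_mod_cast h3
    have h5 : 0 < coeff α p * coeff α p := mul_self_pos.2 h2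
    rw [mul_assoc]
    exact mul_pos h4 h5
  exact h1.ne'

end pairing

/-! ### Substitutions in the generic matrix -/

section subst

variable {r : ℕ} {A B : Type*} [CommRing A] [CommRing B]

/-- index type of the matrix entries -/
abbrev Ent (r : ℕ) : Type := Fin r × Fin r

/-- right multiplication of the generic matrix by `g` -/
noncomputable def rmul (g : Matrix (Fin r) (Fin r) A) :
    MvPolynomial (Ent r) A →ₐ[A] MvPolynomial (Ent r) A :=
  aeval fun p => ∑ k, X (p.1, k) * C (g k p.2)

/-- the generic matrix -/
noncomputable def gen (r : ℕ) (A : Type*) [CommRing A] :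
    Matrix (Fin r) (Fin r) (MvPolynomial (Ent r) A) :=
  Matrix.of fun i j => X (i, j)

theorem gen_apply (i j : Fin r) : gen r A i j = X (i, j) := rfl

theorem rmul_gen (g : Matrix (Fin r) (Fin r) A) :
    (gen r A).map (rmul g) = gen r A * g.map C := by
  ext i j
  rw [Matrix.map_apply, gen_apply, rmul, aeval_X, Matrix.mul_apply]
  rfl

theorem rmul_C (g : Matrix (Fin r) (Fin r) A) (a : A) : rmul g (C a) = C a := by
  simp [rmul]

theorem rmul_det (g : Matrix (Fin r) (Fin r) A) :
    rmul g (gen r A).det = C g.det * (gen r A).det := by
  have h1 : rmul g (gen r A).det = ((gen r A).map (rmul g)).det := by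
    have := AlgHom.map_det (rmul g) (gen r A)
    exact this
  rw [h1, rmul_gen, Matrix.det_mul, mul_comm]
  have h2 : (g.map (C : A → MvPolynomial (Ent r) A)).det = C g.det := by
    have := RingHom.map_det (C : A →+* MvPolynomial (Ent r) A) g
    exact this.symm
  rw [h2]

theorem pderiv_rmul (g : Matrix (Fin r) (Fin r) A) (i j : Fin r) (p : MvPolynomial (Ent r) A) :
    pderiv (i, j) (rmul g p) = ∑ k, C (g j k) * rmul g (pderiv (i, k) p) := by
  classical
  induction p using MvPolynomial.induction_on with
  | C a => simp [rmul]
  | add p q hp hq => simp only [map_add, hp, hq, mul_add, sum_add_distrib]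
  | mul_X p l hp =>
    obtain ⟨a, b⟩ := l
    have h1 : rmul g (X (a, b)) = ∑ k, X (a, k) * C (g k b) := by simp [rmul]
    have h2 : pderiv (i, j) (rmul g (X (a, b))) =
        ∑ k, C (g j k) * rmul g (pderiv (i, k) (X (a, b))) := by
      rw [h1, map_sum]
      simp only [Derivation.leibniz, smul_eq_mul, pderiv_C, mul_zero, zero_add]
      by_cases hia : i = a
      · subst hia
        rw [sum_eq_single j, sum_eq_single b]
        · rw [pderiv_X_self, pderiv_X_self, map_one]
        · intro k _ hk
          rw [pderiv_X_of_ne (by simpa using hk.symm)]; simp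
        · simp
        · intro k _ hk
          rw [pderiv_X_of_ne (by simpa using hk)]; simp
        · simp
      · rw [sum_eq_zero, sum_eq_zero]
        · intro k _
          rw [pderiv_X_of_ne (by simp; intro h; exact absurd h.symm hia)]; simp
        · intro k _
          rw [pderiv_X_of_ne (by simp; intro h; exact absurd h.symm hia)]; simp
    rw [map_mul, Derivation.leibniz, hp, h2, smul_eq_mul, smul_eq_mul, mul_sum, mul_sum,
      ← sum_add_distrib]
    refine sum_congr rfl fun k _ => ?_
    rw [Derivation.leibniz, map_add, smul_eq_mul, smul_eq_mul, map_mul, map_mul]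
    ring

/-- adjointness of right multiplications -/
theorem pair_rmul (g : Matrix (Fin r) (Fin r) A) (p q : MvPolynomial (Ent r) A) :
    pair (rmul g.transpose p) q = pair p (rmul g q) := by
  classical
  induction p using MvPolynomial.induction_on generalizing q with
  | C a =>
    rw [rmul_C, pair_C_left, pair_C_left]
    refine congrArg (fun t => a * t) ?_
    rw [← constantCoeff_eq]
    induction q using MvPolynomial.induction_on with
    | C a => rw [rmul_C]
    | add p q hp hq => rw [map_add, map_add, map_add, hp, hq]
    | mul_X p l hp => rw [map_mul, map_mul, map_mul, hp]; simp [rmul]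
  | add p p' hp hp' => rw [map_add, pair_add_left, pair_add_left, hp, hp']
  | mul_X p l hp =>
    obtain ⟨i, j⟩ := l
    rw [map_mul, mul_comm, mul_comm p, pair_X_mul, pderiv_rmul]
    have h1 : rmul g.transpose (X (i, j)) = ∑ k, C (g j k) * X (i, k) := by
      simp [rmul, mul_comm]
    rw [h1, sum_mul, pair_sum_left, pair_sum_right]
    refine sum_congr rfl fun k _ => ?_
    rw [mul_assoc, pair_C_mul_left, pair_C_mul_right, pair_X_mul, hp]

end subst

end Pool.Agent.Helper16.Endo
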