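import Pool.Agent.Helper16.Endo7

set_option autoImplicit false

namespace Pool.Agent.Helper16.Endo

open MvPolynomial Finset

variable {r d : ℕ} {A B : Type*} [CommRing A] [CommRing B]

/-! ### the polynomial conjugation -/

/-- homogenised conjugation by an arbitrary matrix -/
noncomputable def cj (g : Matrix (Fin r) (Fin r) A) (c : Idx r d → A) : Idx r d → A :=
  act g g.adjugate c

theorem cj_cj (g h : Matrix (Fin r) (Fin r) A) (c : Idx r d → A) :
    cj g (cj h c) = cj (g * h) c := by
  unfold cj
  rw [act_act, Matrix.adjugate_mul_distrib]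

theorem cj_map (φ : A →+* B) (g : Matrix (Fin r) (Fin r) A) (c : Idx r d → A) :
    cj (g.map φ) (fun p => φ (c p)) = fun p => φ (cj g c p) := by
  unfold cj
  rw [← act_map]
  refine congrArg (fun t => act (g.map φ) t (fun p => φ (c p))) ?_
  have h := RingHom.map_adjugate φ g
  exact h.symm

theorem cj_smul (a : A) (g : Matrix (Fin r) (Fin r) A) (c : Idx r d → A) :
    cj g (a • c) = a • cj g c := act_smul a g _ c

theorem cj_eq {g : Matrix (Fin r) (Fin r) A} (hg : IsUnit g.det) (c : Idx r d → A) :
    cj g c = g.det ^ d • act g g⁻¹ c := by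
  have h1 : g.adjugate = g.det • g⁻¹ := by
    rw [Matrix.inv_def, smul_smul, Ring.mul_inverse_cancel _ hg, one_smul]
  unfold cj
  rw [h1, act_smul_right]

theorem cj_smul_one (a : A) (c : Idx r d → A) :
    cj (a • (1 : Matrix (Fin r) (Fin r) A)) c = a ^ (1 + d * (r - 1)) • c := by
  have h1 : (a • (1 : Matrix (Fin r) (Fin r) A)).adjugate = a ^ (r - 1) • 1 := by
    rw [Matrix.adjugate_smul, Matrix.adjugate_one, Fintype.card_fin]
  unfold cj
  rw [h1, act_smul_left, act_smul_right, act_one, smul_smul]
  refine congrArg (fun t => t • c) ?_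
  ring

theorem inv_map_hom (φ : A →+* B) {g : Matrix (Fin r) (Fin r) A} (hg : IsUnit g.det) :
    (g.map φ)⁻¹ = g⁻¹.map φ := by
  apply Matrix.inv_eq_left_inv
  rw [← Matrix.map_mul, Matrix.nonsing_inv_mul _ hg, Matrix.map_one _ (map_zero _) (map_one _)]

theorem det_map_hom (φ : A →+* B) (g : Matrix (Fin r) (Fin r) A) :
    (g.map φ).det = φ g.det := (RingHom.map_det φ g).symm

theorem act_inv_map (φ : A →+* B) {g : Matrix (Fin r) (Fin r) A} (hg : IsUnit g.det)
    (c : Idx r d → A) :
    act (g.map φ) (g.map φ)⁻¹ (fun p => φ (c p)) = fun p => φ (act g g⁻¹ c p) := by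
  rw [inv_map_hom φ hg, act_map]

/-! ### the functional `Λ_T` -/

/-- apolar pairing with the power of the determinant -/
noncomputable def Lam (T : ℕ) (p : MvPolynomial (Ent r) A) : A := pair ((gen r A).det ^ T) p

theorem Lam_add (T : ℕ) (p q : MvPolynomial (Ent r) A) : Lam T (p + q) = Lam T p + Lam T q :=
  pair_add_right _ _ _

theorem Lam_C_mul (T : ℕ) (a : A) (p : MvPolynomial (Ent r) A) :
    Lam T (C a * p) = a * Lam T p := pair_C_mul_right _ _ _

theorem Lam_sum {ι : Type*} (T : ℕ) (s : Finset ι) (p : ι → MvPolynomial (Ent r) A) :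
    Lam T (∑ i ∈ s, p i) = ∑ i ∈ s, Lam T (p i) := pair_sum_right _ _ _

theorem gen_map (φ : A →+* B) : (gen r A).map (MvPolynomial.map φ) = gen r B := by
  ext1 i j
  rw [Matrix.map_apply, gen_apply, gen_apply, map_X]

theorem gen_det_map (φ : A →+* B) : MvPolynomial.map φ (gen r A).det = (gen r B).det := by
  rw [← gen_map φ, det_map_hom]

theorem Lam_map (φ : A →+* B) (T : ℕ) (p : MvPolynomial (Ent r) A) :
    Lam T (MvPolynomial.map φ p) = φ (Lam T p) := by
  unfold Lam
  rw [← gen_det_map φ, ← map_pow, pair_map]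

theorem Lam_rmul (T : ℕ) (g : Matrix (Fin r) (Fin r) A) (p : MvPolynomial (Ent r) A) :
    Lam T (rmul g p) = g.det ^ T * Lam T p := by
  unfold Lam
  rw [← pair_rmul, map_pow, rmul_det, Matrix.det_transpose, mul_pow, ← map_pow, pair_C_mul_left]

/-- linear version -/
noncomputable def LamL (T : ℕ) : MvPolynomial (Ent r) A →ₗ[A] A where
  toFun := Lam T
  map_add' := Lam_add T
  map_smul' a p := by
    rw [smul_eq_C_mul, Lam_C_mul]; rfl

theorem gen_det_ne_zero (r : ℕ) (A : Type*) [CommRing A] [Nontrivial A] :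
    (gen r A).det ≠ 0 := by
  intro h
  have h1 : (eval (fun p : Ent r => if p.1 = p.2 then (1 : A) else 0)) (gen r A).det = 1 := by
    rw [← det_map_hom]
    have : (gen r A).map (eval (fun p : Ent r => if p.1 = p.2 then (1 : A) else 0)) = 1 := by
      ext1 i j
      rw [Matrix.map_apply, gen_apply, eval_X, Matrix.one_apply]
    rw [this, Matrix.det_one]
  rw [h, map_zero] at h1
  exact zero_ne_one h1

/-- the normalising constant -/
noncomputable def nrm (r T : ℕ) : ℤ := Lam T ((gen r ℤ).det ^ T)

theorem nrm_ne_zero (r T : ℕ) : nrm r T ≠ 0 :=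
  pair_self_ne_zero (pow_ne_zero _ (gen_det_ne_zero r ℤ))

theorem Lam_det (T : ℕ) : Lam T ((gen r A).det ^ T) = (nrm r T : A) := by
  have h := Lam_map (Int.castRingHom A) T ((gen r ℤ).det ^ T)
  rw [map_pow, gen_det_map] at h
  rw [h]; rfl

/-! ### Reynolds operators -/

/-- the generic conjugate of `c` -/
noncomputable def gc (c : Idx r d → A) : Idx r d → MvPolynomial (Ent r) A :=
  cj (gen r A) (fun p => C (c p))

theorem gc_map (φ : A →+* B) (c : Idx r d → A) :
    gc (fun p => φ (c p)) = fun p => MvPolynomial.map φ (gc c p) := by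
  unfold gc
  rw [← cj_map, gen_map]
  refine congrArg (fun t => cj (gen r B) t) ?_
  funext p
  rw [map_C]

theorem gc_rmul (g : Matrix (Fin r) (Fin r) A) (c : Idx r d → A) :
    (fun p => rmul g (gc c p)) = gc (cj g c) := by
  have h1 := cj_map (rmul g).toRingHom (gen r A) (fun p => C (c p))
  have h2 : (fun p : Idx r d => (rmul g).toRingHom (C (c p))) = fun p => C (c p) := by
    funext p; exact rmul_C g _
  have h3 : (gen r A).map (rmul g).toRingHom = gen r A * g.map C := rmul_gen g
  rw [h2, h3, ← cj_cj, cj_map] at h1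
  exact h1.symm

/-- the Reynolds polynomial as a function -/
noncomputable def rey (T u : ℕ) (q : MvPolynomial (Idx r d) A) (c : Idx r d → A) : A :=
  Lam T ((gen r A).det ^ u * aeval (gc c) q)

theorem aeval_map_hom {τ : Type*} (φ : A →+* B) (q : MvPolynomial τ A)
    (y : τ → MvPolynomial (Ent r) A) :
    aeval (fun p => MvPolynomial.map φ (y p)) (MvPolynomial.map φ q) =
      MvPolynomial.map φ (aeval y q) := by
  induction q using MvPolynomial.induction_on with
  | C a => simp
  | add p q hp hq => simp only [map_add, hp, hq]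
  | mul_X p l hp => simp only [map_mul, hp, map_X, aeval_X]

theorem rey_map (φ : A →+* B) (T u : ℕ) (q : MvPolynomial (Idx r d) A) (c : Idx r d → A) :
    rey T u (MvPolynomial.map φ q) (fun p => φ (c p)) = φ (rey T u q c) := by
  unfold rey
  rw [← Lam_map, map_mul, map_pow, gen_det_map, gc_map, aeval_map_hom]

theorem rey_cj (T u : ℕ) (q : MvPolynomial (Idx r d) A) (g : Matrix (Fin r) (Fin r) A)
    (c : Idx r d → A) : g.det ^ u * rey T u q (cj g c) = g.det ^ T * rey T u q c := by
  unfold rey
  rw [← Lam_rmul, map_mul, map_pow, rmul_det, mul_pow, ← map_pow, mul_assoc, Lam_C_mul]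
  have h1 : rmul g (aeval (gc c) q) = aeval (gc (cj g c)) q := by
    rw [← gc_rmul]
    exact (DFunLike.congr_fun (comp_aeval (gc c) (rmul g)) q)
  rw [h1]

theorem rey_add (T u : ℕ) (q q' : MvPolynomial (Idx r d) A) (c : Idx r d → A) :
    rey T u (q + q') c = rey T u q c + rey T u q' c := by
  unfold rey
  rw [map_add, mul_add, Lam_add]

theorem rey_C_mul (T u : ℕ) (a : A) (q : MvPolynomial (Idx r d) A) (c : Idx r d → A) :
    rey T u (C a * q) c = a * rey T u q c := by
  unfold rey
  rw [map_mul, aeval_C, algebraMap_eq, mul_left_comm, Lam_C_mul]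

theorem rey_sum {ι : Type*} (T u : ℕ) (s : Finset ι) (q : ι → MvPolynomial (Idx r d) A)
    (c : Idx r d → A) : rey T u (∑ i ∈ s, q i) c = ∑ i ∈ s, rey T u (q i) c := by
  unfold rey
  rw [map_sum, mul_sum, Lam_sum]

theorem gc_smul (a : A) (c : Idx r d → A) : gc (a • c) = fun p => C a * gc c p := by
  unfold gc
  have h : (fun p => C ((a • c) p)) = (C a : MvPolynomial (Ent r) A) • fun p => C (c p) := by
    funext p
    simp
  rw [h, cj_smul]
  rfl

theorem rey_smul (T u : ℕ) {q : MvPolynomial (Idx r d) A} {e : ℕ} (hq : q.IsHomogeneous e)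
    (a : A) (c : Idx r d → A) : rey T u q (a • c) = a ^ e * rey T u q c := by
  unfold rey
  rw [gc_smul, aeval_mul_of_isHomogeneous hq, ← map_pow, mul_left_comm, Lam_C_mul]

/-- weights -/
theorem rey_weight [Algebra ℚ A] (T u : ℕ) {q : MvPolynomial (Idx r d) A} {e : ℕ}
    (hq : q.IsHomogeneous e) (c : Idx r d → A)
    (h : r * u + e * (1 + d * (r - 1)) ≠ r * T) : rey T u q c = 0 := by
  have h1 := rey_cj T u q ((2 : A) • (1 : Matrix (Fin r) (Fin r) A)) c
  rw [cj_smul_one, rey_smul T u hq, Matrix.det_smul, Matrix.det_one, mul_one,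
    Fintype.card_fin, ← pow_mul, ← pow_mul, ← pow_mul, ← mul_assoc, ← pow_add] at h1
  rw [mul_comm (1 + d * (r - 1)) e] at h1
  have h2 : ((2 : ℚ) ^ (r * u + e * (1 + d * (r - 1))) - 2 ^ (r * T)) ≠ 0 := by
    rw [sub_ne_zero]
    intro h3
    apply h
    exact pow_right_injective₀ (by norm_num : (0:ℚ) < 2) (by norm_num) h3
  have h3 : IsUnit (algebraMap ℚ A ((2 : ℚ) ^ (r * u + e * (1 + d * (r - 1))) - 2 ^ (r * T))) :=
    (IsUnit.mk0 _ h2).map _
  rw [map_sub, map_pow, map_pow, map_ofNat] at h3
  rw [← sub_eq_zero, ← sub_mul] at h1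
  exact (h3.mul_right_eq_zero).1 h1

/-- the Reynolds polynomial -/
noncomputable def Rey (T u : ℕ) (q : MvPolynomial (Idx r d) A) : MvPolynomial (Idx r d) A :=
  rey T u (MvPolynomial.map C q) X

theorem aeval_Rey {S : Type*} [CommRing S] [Algebra A S] (T u : ℕ) (q : MvPolynomial (Idx r d) A)
    (c : Idx r d → S) :
    aeval c (Rey T u q) = rey T u (MvPolynomial.map (algebraMap A S) q) c := by
  unfold Rey
  have h := rey_map (aeval c : MvPolynomial (Idx r d) A →ₐ[A] S).toRingHom T u
    (MvPolynomial.map C q) X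
  rw [MvPolynomial.map_map] at h
  have h1 : ((aeval c : MvPolynomial (Idx r d) A →ₐ[A] S).toRingHom.comp C) =
      algebraMap A S := by
    ext a; simp
  have h2 : (fun p => (aeval c : MvPolynomial (Idx r d) A →ₐ[A] S).toRingHom (X p)) = c := by
    funext p; simp
  rw [h1, h2] at h
  exact h.symm

theorem isHomogeneous_of_eval {k σ : Type*} [Field k] [Infinite k] {p : MvPolynomial σ k} {e : ℕ}
    (h : ∀ (a : k) (x : σ → k), eval (fun i => a * x i) p = a ^ e * eval x p) :
    p.IsHomogeneous e := by
  classical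
  have h1 : ∀ j, j ≠ e → homogeneousComponent j p = 0 := by
    intro j hj
    apply MvPolynomial.funext
    intro x
    rw [map_zero]
    set P : Polynomial k := ∑ i ∈ range (p.totalDegree + 1),
      Polynomial.monomial i (eval x (homogeneousComponent i p)) -
        Polynomial.monomial e (eval x p) with hP
    have h2 : P = 0 := by
      apply Polynomial.funext
      intro a
      have h3 : p = ∑ i ∈ range (p.totalDegree + 1), homogeneousComponent i p :=
        (sum_homogeneousComponent p).symm
      have h4 := h a x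
      conv_lhs at h4 => rw [h3, map_sum]
      have h5 : ∀ i, eval (fun s => a * x s) (homogeneousComponent i p) =
          a ^ i * eval x (homogeneousComponent i p) := by
        intro i
        have := aeval_mul_of_isHomogeneous (homogeneousComponent_isHomogeneous i p) a x
        simpa using this
      simp_rw [h5] at h4
      rw [hP, Polynomial.eval_sub, Polynomial.eval_finsetSum, Polynomial.eval_monomial,
        Polynomial.eval_zero, sub_eq_zero]
      rw [mul_comm, ← h4]
      refine sum_congr rfl fun i _ => ?_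
      rw [Polynomial.eval_monomial, mul_comm]
    by_cases hjd : j < p.totalDegree + 1
    · have h3 := congrArg (fun Q => Polynomial.coeff Q j) h2
      simp only [hP, Polynomial.coeff_sub, Polynomial.finsetSum_coeff, Polynomial.coeff_monomial,
        Polynomial.coeff_zero] at h3
      rw [if_neg hj.symm, sub_zero, sum_ite_eq' , if_pos (mem_range.2 hjd)] at h3
      exact h3
    · rw [homogeneousComponent_eq_zero _ _ (by omega), map_zero]
  have h2 : p = homogeneousComponent e p := by
    conv_lhs => rw [← sum_homogeneousComponent p]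
    by_cases he : e < p.totalDegree + 1
    · rw [sum_eq_single e (fun j _ hj => h1 j hj) (fun h => absurd (mem_range.2 he) h)]
    · rw [homogeneousComponent_eq_zero e p (by omega)]
      exact sum_eq_zero fun j hj => h1 j (by have := mem_range.1 hj; omega)
  rw [h2]
  exact homogeneousComponent_isHomogeneous e p

theorem Rey_isHomogeneous {k : Type*} [Field k] [Infinite k] (T u : ℕ)
    {q : MvPolynomial (Idx r d) k} {e : ℕ} (hq : q.IsHomogeneous e) :
    (Rey T u q).IsHomogeneous e := by
  apply isHomogeneous_of_eval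
  intro a x
  have h1 := aeval_Rey T u q x
  have h2 := aeval_Rey T u q (a • x)
  rw [rey_smul T u (hq.map _)] at h2
  rw [← h1] at h2
  exact h2

end Pool.Agent.Helper16.Endo
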