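import Pool.Agent.Helper16.Endo8

set_option autoImplicit false

namespace Pool.Agent.Helper16.Endo

open MvPolynomial Finset

variable {r d : ℕ} {A B : Type*} [CommRing A] [CommRing B]

/-! ### the coordinate ring of the general linear group -/

/-- the coordinate ring of the general linear group -/
abbrev GR (r : ℕ) (A : Type*) [CommRing A] : Type _ := Localization.Away (gen r A).det

/-- the generic invertible matrix -/
noncomputable def gX (r : ℕ) (A : Type*) [CommRing A] : Matrix (Fin r) (Fin r) (GR r A) :=
  (gen r A).map (algebraMap (MvPolynomial (Ent r) A) (GR r A))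

theorem gX_apply (i j : Fin r) :
    gX r A i j = algebraMap (MvPolynomial (Ent r) A) (GR r A) (X (i, j)) := rfl

theorem gX_det : (gX r A).det = algebraMap (MvPolynomial (Ent r) A) (GR r A) (gen r A).det :=
  det_map_hom _ _

theorem isUnit_gX_det : IsUnit (gX r A).det := by
  rw [gX_det]
  exact IsLocalization.Away.algebraMap_isUnit _

/-- inverse determinant -/
noncomputable def gDi (r : ℕ) (A : Type*) [CommRing A] : GR r A := Ring.inverse (gX r A).det

theorem gDi_mul : gDi r A * (gX r A).det = 1 := Ring.inverse_mul_cancel _ isUnit_gX_det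

theorem mul_gDi : (gX r A).det * gDi r A = 1 := Ring.mul_inverse_cancel _ isUnit_gX_det

theorem gr_eq (x : GR r A) : ∃ (m : MvPolynomial (Ent r) A) (n : ℕ),
    x = algebraMap (MvPolynomial (Ent r) A) (GR r A) m * gDi r A ^ n := by
  obtain ⟨n, m, h⟩ := IsLocalization.Away.surj (gen r A).det x
  refine ⟨m, n, ?_⟩
  rw [← h, ← gX_det, mul_assoc, ← mul_pow, mul_gDi, one_pow, mul_one]

theorem gr_top (U : Subring (GR r A)) (h1 : ∀ a : A, algebraMap A (GR r A) a ∈ U)
    (h2 : ∀ i j, gX r A i j ∈ U) (h3 : gDi r A ∈ U) (x : GR r A) : x ∈ U := by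
  obtain ⟨m, n, rfl⟩ := gr_eq x
  refine U.mul_mem ?_ (U.pow_mem h3 n)
  induction m using MvPolynomial.induction_on with
  | C a =>
    have := h1 a
    rw [IsScalarTower.algebraMap_apply A (MvPolynomial (Ent r) A) (GR r A)] at this
    exact this
  | add p q hp hq => rw [map_add]; exact U.add_mem hp hq
  | mul_X p l hp => rw [map_mul]; exact U.mul_mem hp (h2 l.1 l.2)

theorem gr_hom_ext {S : Type*} [CommRing S] {φ ψ : GR r A →+* S}
    (h1 : ∀ a : A, φ (algebraMap A (GR r A) a) = ψ (algebraMap A (GR r A) a))
    (h2 : ∀ i j, φ (gX r A i j) = ψ (gX r A i j)) : φ = ψ := by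
  have h3 : ∀ x : GR r A, x ∈ RingHom.eqLocus φ ψ := by
    apply gr_top
    · exact h1
    · exact h2
    · have e1 : ∀ i j, gX r A i j ∈ RingHom.eqLocus φ ψ := h2
      have e2 : φ (gX r A).det = ψ (gX r A).det := by
        rw [← det_map_hom, ← det_map_hom]
        refine congrArg Matrix.det ?_
        ext1 i j
        exact h2 i j
      show φ (gDi r A) = ψ (gDi r A)
      have e3 : φ (gDi r A) * φ (gX r A).det = 1 := by rw [← map_mul, gDi_mul, map_one]
      have e4 : ψ (gX r A).det * ψ (gDi r A) = 1 := by rw [← map_mul, mul_gDi, map_one]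
      calc φ (gDi r A) = φ (gDi r A) * (ψ (gX r A).det * ψ (gDi r A)) := by rw [e4, mul_one]
        _ = φ (gDi r A) * φ (gX r A).det * ψ (gDi r A) := by rw [e2, mul_assoc]
        _ = ψ (gDi r A) := by rw [e3, one_mul]
  ext x
  exact h3 x

/-- evaluation at an invertible matrix -/
noncomputable def grLift {S : Type*} [CommRing S] [Algebra A S] (g : Matrix (Fin r) (Fin r) S)
    (hg : IsUnit g.det) : GR r A →ₐ[A] S :=
  IsLocalization.liftAlgHom (M := Submonoid.powers (gen r A).det)
    (f := (aeval (fun p : Ent r => g p.1 p.2) : MvPolynomial (Ent r) A →ₐ[A] S)) (by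
      rintro ⟨_, n, rfl⟩
      have h1 : (aeval (fun p : Ent r => g p.1 p.2) : MvPolynomial (Ent r) A →ₐ[A] S)
          (gen r A).det = g.det := by
        rw [AlgHom.map_det]
        refine congrArg Matrix.det ?_
        ext1 i j
        show aeval (fun p : Ent r => g p.1 p.2) (X (i, j)) = g i j
        rw [aeval_X]
      show IsUnit ((aeval (fun p : Ent r => g p.1 p.2) : MvPolynomial (Ent r) A →ₐ[A] S)
          ((gen r A).det ^ n))
      rw [map_pow, h1]
      exact hg.pow n)

theorem grLift_algebraMap {S : Type*} [CommRing S] [Algebra A S] (g : Matrix (Fin r) (Fin r) S)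
    (hg : IsUnit g.det) (m : MvPolynomial (Ent r) A) :
    grLift g hg (algebraMap (MvPolynomial (Ent r) A) (GR r A) m) =
      aeval (fun p : Ent r => g p.1 p.2) m := by
  unfold grLift
  rw [IsLocalization.liftAlgHom_apply, IsLocalization.lift_eq]
  rfl

theorem grLift_gX {S : Type*} [CommRing S] [Algebra A S] (g : Matrix (Fin r) (Fin r) S)
    (hg : IsUnit g.det) (i j : Fin r) : grLift (A := A) g hg (gX r A i j) = g i j := by
  rw [gX_apply, grLift_algebraMap, aeval_X]

/-- the generic point of the orbit of `c` -/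
noncomputable def gy (c : Idx r d → A) : Idx r d → GR r A :=
  act (gX r A) (gX r A)⁻¹ (fun p => algebraMap A (GR r A) (c p))

/-- images of the generic point under homomorphisms -/
theorem hom_gy {S : Type*} [CommRing S] (φ : GR r A →+* S) (c : Idx r d → A) :
    (fun p => φ (gy c p)) = act ((gX r A).map φ) ((gX r A).map φ)⁻¹
      (fun p => φ (algebraMap A (GR r A) (c p))) := by
  unfold gy
  rw [inv_map_hom φ isUnit_gX_det, act_map]

/-- the generic point multiplied by a power of the determinant is polynomial -/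
theorem gy_eq (c : Idx r d → A) (p : Idx r d) :
    algebraMap (MvPolynomial (Ent r) A) (GR r A) (gc c p) = (gX r A).det ^ d * gy c p := by
  have h1 := cj_map (algebraMap (MvPolynomial (Ent r) A) (GR r A)) (gen r A) (fun p => C (c p))
  have h2 := cj_eq isUnit_gX_det (fun p => algebraMap A (GR r A) (c p))
  have h3 : cj (gX r A) (fun p => algebraMap A (GR r A) (c p)) =
      fun p => algebraMap (MvPolynomial (Ent r) A) (GR r A) (gc c p) := by
    unfold gc
    rw [← h1]
    refine congrArg (fun t => cj (gX r A) t) ?_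
    funext p
    rw [IsScalarTower.algebraMap_apply A (MvPolynomial (Ent r) A) (GR r A)]
    rfl
  rw [h2] at h3
  exact (congrFun h3 p).symm

theorem aeval_algebraMap_hom {R S T τ : Type*} [CommRing R] [CommRing S] [CommRing T]
    [Algebra R S] [Algebra R T] [Algebra S T] [IsScalarTower R S T] (q : MvPolynomial τ R)
    (y : τ → S) : algebraMap S T (aeval y q) = aeval (fun p => algebraMap S T (y p)) q := by
  rw [← MvPolynomial.aeval_algebraMap_apply]
  rfl

/-- homogeneous polynomials at the generic point -/
theorem aeval_gc {q : MvPolynomial (Idx r d) A} {e : ℕ} (hq : q.IsHomogeneous e)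
    (c : Idx r d → A) :
    algebraMap (MvPolynomial (Ent r) A) (GR r A) (aeval (gc c) q) =
      (gX r A).det ^ (d * e) * aeval (gy c) q := by
  rw [aeval_algebraMap_hom, pow_mul, ← aeval_mul_of_isHomogeneous hq]
  refine congrArg (fun t => aeval t q) ?_
  funext p
  exact gy_eq c p

end Pool.Agent.Helper16.Endo
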