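import Mathlib

set_option autoImplicit false

namespace Pool.Agent.Helper16.Endo

open MvPolynomial

variable {r d : ℕ} {A : Type*} [CommRing A]

/-- exponent vectors of the monomials of degree `d` in `r` variables -/
abbrev Mon (r d : ℕ) : Type := ↥((Finset.univ : Finset (Fin r)).finsuppAntidiag d)

/-- coordinates of the space of `r`-tuples of forms of degree `d` in `r` variables -/
abbrev Idx (r d : ℕ) : Type := Fin r × Mon r d

/-- the `i`-th form of the tuple with coefficient vector `c` -/
noncomputable def form (c : Idx r d → A) (i : Fin r) : MvPolynomial (Fin r) A :=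
  ∑ α : Mon r d, monomial (α : Fin r →₀ ℕ) (c (i, α))

/-- the coefficient vector of the tuple `x ↦ g • F (h • x)` -/
noncomputable def act (g h : Matrix (Fin r) (Fin r) A) (c : Idx r d → A) : Idx r d → A :=
  fun p => coeff (p.2 : Fin r →₀ ℕ)
    (∑ i, C (g p.1 i) * aeval (fun l => ∑ m, C (h l m) * X m) (form c i))

end Pool.Agent.Helper16.Endo
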