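import Mathlib

set_option autoImplicit false
set_option maxHeartbeats 4000000
set_option linter.unusedSimpArgs false
set_option linter.unusedSectionVars false

/-! Explicit complex `A^2 → A^6 → A^6 → A^2` and its contracting homotopies. -/

namespace Pool.Agent.Helper16

open Matrix

variable {A : Type} [CommRing A]

/-- relations -/
def Rm (x y u v t : A) : Matrix (Fin 6) (Fin 2) A := !![u - x*y, 0; v, 0; t - x*y, x; -x*y, u; -y^2, v; 0, y + t]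

/-- first syzygies -/
def Sm (x y u v t : A) : Matrix (Fin 6) (Fin 6) A := !![v, -u + x*y, 0, 0, 0, 0; -x + t, y - y^2, -u, x, 0, 0; 0, t - x*y, -y - v, 0, x, x; -y^2, x*y, 0, v + y^2, -u, -y*u; 0, 0, -y, y + t, 0, x - u; -x, y, 0, x, t, -v]

/-- second syzygies -/
def Tm (x y u v t : A) : Matrix (Fin 2) (Fin 6) A := !![-x + t, -y - v, u, x, 0, y - y^2; y, x, 0, t, -v, -x + u]

/-- left inverse up to `(x+t)^2` -/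
def Hm (x y v t : A) : Matrix (Fin 6) (Fin 2) A := !![t, 0; 0, x; 0, 0; x, y + v + t; 0, t; 0, 0]

theorem vecMul_R (x y u v t : A) (w : Fin 6 → A) : w ᵥ* Rm x y u v t = ![u*w 0 + v*w 1 + t*w 2 - x*y*w 0 - x*y*w 2 - x*y*w 3 - y^2*w 4, x*w 2 + y*w 5 + u*w 3 + v*w 4 + t*w 5] := by
  ext j
  fin_cases j <;> simp [Rm, Matrix.vecMul, dotProduct, Fin.sum_univ_six] <;> ring

theorem vecMul_S (x y u v t : A) (w : Fin 6 → A) : w ᵥ* Sm x y u v t = ![-x*w 1 - x*w 5 + v*w 0 + t*w 1 - y^2*w 3,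
    y*w 1 + y*w 5 - u*w 0 + t*w 2 + x*y*w 0 - x*y*w 2 + x*y*w 3 - y^2*w 1,
    -y*w 2 - y*w 4 - u*w 1 - v*w 2,
    x*w 1 + x*w 5 + y*w 4 + v*w 3 + t*w 4 + y^2*w 3,
    x*w 2 - u*w 3 + t*w 5,
    x*w 2 + x*w 4 - u*w 4 - v*w 5 - y*u*w 3] := by
  ext j
  fin_cases j <;> simp [Sm, Matrix.vecMul, dotProduct, Fin.sum_univ_six] <;> ring

theorem vecMul_T (x y u v t : A) (w : Fin 2 → A) : w ᵥ* Tm x y u v t = ![-x*w 0 + y*w 1 + t*w 0,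
    x*w 1 - y*w 0 - v*w 0,
    u*w 0,
    x*w 0 + t*w 1,
    -v*w 1,
    -x*w 1 + y*w 0 + u*w 1 - y^2*w 0] := by
  ext j
  fin_cases j <;> simp [Tm, Matrix.vecMul, dotProduct, Fin.sum_univ_two] <;> ring

theorem vecMul_H (x y v t : A) (w : Fin 6 → A) : w ᵥ* Hm x y v t = ![x*w 3 + t*w 0, x*w 1 + y*w 3 + v*w 3 + t*w 3 + t*w 4] := by
  ext j
  fin_cases j <;> simp [Hm, Matrix.vecMul, dotProduct, Fin.sum_univ_six] <;> ring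

variable {x y u v t : A} (h1 : x * u = y * v) (h2 : x * t = 0) (h3 : y * t = 0)
include h1 h2 h3

theorem SR_zero (w : Fin 6 → A) : (w ᵥ* Sm x y u v t) ᵥ* Rm x y u v t = 0 := by
  rw [vecMul_S, vecMul_R]
  ext j
  fin_cases j
  · simp only [Matrix.cons_val, Pi.zero_apply, Fin.zero_eta, Fin.mk_one]
    linear_combination (-w 1 - w 5 + y*w 1) * h1 + (-y*w 1 - y*w 4) * h2 + (-w 2 - w 4 - y*w 5) * h3
  · simp only [Matrix.cons_val, Pi.zero_apply, Fin.zero_eta, Fin.mk_one]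
    linear_combination (w 5) * h1 + (w 2 + w 4) * h2 + (-u*w 3) * h3

theorem TS_zero (w : Fin 2 → A) : (w ᵥ* Tm x y u v t) ᵥ* Sm x y u v t = 0 := by
  rw [vecMul_T, vecMul_S]
  ext j
  fin_cases j
  · simp only [Matrix.cons_val, Pi.zero_apply, Fin.zero_eta, Fin.mk_one, Fin.reduceFinMk]
    linear_combination (-w 1) * h1 + (w 1) * h2 + (-w 0 - y*w 1) * h3
  · simp only [Matrix.cons_val, Pi.zero_apply, Fin.zero_eta, Fin.mk_one, Fin.reduceFinMk]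
    linear_combination (w 0 - y*w 0) * h1 + (y*w 0 + y*w 1) * h2
  · simp only [Matrix.cons_val, Pi.zero_apply, Fin.zero_eta, Fin.mk_one, Fin.reduceFinMk]
    linear_combination (-w 1) * h1
  · simp only [Matrix.cons_val, Pi.zero_apply, Fin.zero_eta, Fin.mk_one, Fin.reduceFinMk]
    linear_combination (w 1) * h1 + (y*w 1) * h3
  · simp only [Matrix.cons_val, Pi.zero_apply, Fin.zero_eta, Fin.mk_one, Fin.reduceFinMk]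
    linear_combination (-w 1) * h2 + (w 0 - y*w 0) * h3
  · simp only [Matrix.cons_val, Pi.zero_apply, Fin.zero_eta, Fin.mk_one, Fin.reduceFinMk]
    linear_combination (w 0 - y*w 0) * h1 + (-u*w 1) * h3

theorem TH_eq (w : Fin 2 → A) : (w ᵥ* Tm x y u v t) ᵥ* Hm x y v t = (x + t) ^ 2 • w := by
  rw [vecMul_T, vecMul_H]
  ext j
  fin_cases j
  · simp only [Matrix.cons_val, Pi.smul_apply, smul_eq_mul, Fin.zero_eta, Fin.mk_one]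
    linear_combination -((3*w 0 - w 1) * h2 + (-w 1) * h3)
  · simp only [Matrix.cons_val, Pi.smul_apply, smul_eq_mul, Fin.zero_eta, Fin.mk_one]
    linear_combination -((-w 0 + 2*w 1) * h2 + (-w 1) * h3)

theorem ex1_u2 (w : Fin 6 → A) (hw : w ᵥ* Rm x y u v t = 0) :
    ∃ p : Fin 6 → A, (u ^ 2) • w = p ᵥ* Sm x y u v t := by
  rw [vecMul_R] at hw
  have e0 : u*w 0 + v*w 1 + t*w 2 - x*y*w 0 - x*y*w 2 - x*y*w 3 - y^2*w 4 = 0 := congrFun hw 0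
  have e1 : x*w 2 + y*w 5 + u*w 3 + v*w 4 + t*w 5 = 0 := congrFun hw 1
  refine ⟨![-u*w 1,
    -u*w 0 - u*w 2 - u*w 3 - v*w 1 - v*w 4 - t*w 2 - t*w 5,
    0,
    -u*w 4 + t*w 2,
    -u*w 5 - v*w 2 + y*u*w 4 + y*v*w 0 + y*v*w 2 + y*v*w 3,
    u*w 0 + u*w 2 + u*w 3 + v*w 1 + v*w 4 + t*w 2 + t*w 5 - y*u*w 0 - y*u*w 2 - y*u*w 3], ?_⟩
  rw [vecMul_S]
  ext j
  fin_cases j
  · simp only [Matrix.cons_val, Pi.smul_apply, smul_eq_mul, Fin.zero_eta, Fin.mk_one, Fin.reduceFinMk]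
    linear_combination (u + t) * e0 + (t) * e1 + (-w 2 + y*w 0 + y*w 2 + y*w 3) * h2 + (-w 5 + y*w 2 + y*w 4) * h3
  · simp only [Matrix.cons_val, Pi.smul_apply, smul_eq_mul, Fin.zero_eta, Fin.mk_one, Fin.reduceFinMk]
    linear_combination (y*w 1 + y*w 4) * h1 + (-y*w 2) * h2 + (-y*w 2 - y*w 5) * h3
  · simp only [Matrix.cons_val, Pi.smul_apply, smul_eq_mul, Fin.zero_eta, Fin.mk_one, Fin.reduceFinMk]
    linear_combination (-u) * e0 + (-u) * e1 + (w 2 - y*w 0 - y*w 2 - y*w 3) * h1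
  · simp only [Matrix.cons_val, Pi.smul_apply, smul_eq_mul, Fin.zero_eta, Fin.mk_one, Fin.reduceFinMk]
    linear_combination (u) * e1 + (-w 2 + y*w 0 + y*w 2 + y*w 3) * h1 + (-y*w 2 - u*w 4 - v*w 0 - v*w 2 - v*w 3) * h3
  · simp only [Matrix.cons_val, Pi.smul_apply, smul_eq_mul, Fin.zero_eta, Fin.mk_one, Fin.reduceFinMk]
    linear_combination (-t) * e0 + (-t) * e1 + (w 2 - y*w 0 - y*w 2 - y*w 3) * h2 + (w 5 - y*w 4 + u*w 0 + u*w 2 + u*w 3) * h3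
  · simp only [Matrix.cons_val, Pi.smul_apply, smul_eq_mul, Fin.zero_eta, Fin.mk_one, Fin.reduceFinMk]
    linear_combination (v) * e0 + (v) * e1 + (w 5 - y*w 4) * h1 + (u*w 2) * h3

theorem ex2_u2 (w : Fin 6 → A) (hw : w ᵥ* Sm x y u v t = 0) :
    ∃ q : Fin 2 → A, (u ^ 2) • w = q ᵥ* Tm x y u v t := by
  rw [vecMul_S] at hw
  have e0 : -x*w 1 - x*w 5 + v*w 0 + t*w 1 - y^2*w 3 = 0 := congrFun hw 0
  have e1 : y*w 1 + y*w 5 - u*w 0 + t*w 2 + x*y*w 0 - x*y*w 2 + x*y*w 3 - y^2*w 1 = 0 := congrFun hw 1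
  have e2 : -y*w 2 - y*w 4 - u*w 1 - v*w 2 = 0 := congrFun hw 2
  have e3 : x*w 1 + x*w 5 + y*w 4 + v*w 3 + t*w 4 + y^2*w 3 = 0 := congrFun hw 3
  have e4 : x*w 2 - u*w 3 + t*w 5 = 0 := congrFun hw 4
  have e5 : x*w 2 + x*w 4 - u*w 4 - v*w 5 - y*u*w 3 = 0 := congrFun hw 5
  refine ⟨![u*w 2,
    u*w 1 + u*w 5 + v*w 2 - y*u*w 1 + y*v*w 0 - y*v*w 2 + y*v*w 3], ?_⟩
  rw [vecMul_T]
  ext j
  fin_cases j
  · simp only [Matrix.cons_val, Pi.smul_apply, smul_eq_mul, Fin.zero_eta, Fin.mk_one, Fin.reduceFinMk]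
    linear_combination (-u) * e1 + (w 2 + y*w 0 - y*w 2 + y*w 3) * h1
  · simp only [Matrix.cons_val, Pi.smul_apply, smul_eq_mul, Fin.zero_eta, Fin.mk_one, Fin.reduceFinMk]
    linear_combination (-u) * e0 + (-v) * e1 + (-u - t) * e2 + (-u) * e3 + (-v) * e4 + (-t) * e5 + (-w 1 - w 5 + y*w 1) * h1 + (w 2 + w 4) * h2 + (-w 2 - w 4 - u*w 3) * h3
  · simp only [Matrix.cons_val, Pi.smul_apply, smul_eq_mul, Fin.zero_eta, Fin.mk_one, Fin.reduceFinMk]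
    linear_combination 0
  · simp only [Matrix.cons_val, Pi.smul_apply, smul_eq_mul, Fin.zero_eta, Fin.mk_one, Fin.reduceFinMk]
    linear_combination (t) * e2 + (-u) * e4 + (w 2 + w 4 + u*w 1 - v*w 0 + v*w 2 - v*w 3) * h3
  · simp only [Matrix.cons_val, Pi.smul_apply, smul_eq_mul, Fin.zero_eta, Fin.mk_one, Fin.reduceFinMk]
    linear_combination (y*v) * e0 + (-v + y*v) * e2 + (y*v) * e3 + (y*u) * e4 + (-u) * e5 + (w 2 + w 4 - y*w 2) * h1 + (-u*w 5 - v*w 1 - v*w 4) * h3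
  · simp only [Matrix.cons_val, Pi.smul_apply, smul_eq_mul, Fin.zero_eta, Fin.mk_one, Fin.reduceFinMk]
    linear_combination (u - y*u) * e0 + (v) * e1 + (u + t - y*u) * e2 + (u - y*u) * e3 + (v) * e4 + (t) * e5 + (w 1 + w 5 - y*w 1) * h1 + (-w 2 - w 4) * h2 + (w 2 + w 4 + u*w 1 + u*w 3 + u*w 4) * h3

theorem ex1_c3 (w : Fin 6 → A) (hw : w ᵥ* Rm x y u v t = 0) :
    ∃ p : Fin 6 → A, ((y + v) ^ 3) • w = p ᵥ* Sm x y u v t := by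
  rw [vecMul_R] at hw
  have e0 : u*w 0 + v*w 1 + t*w 2 - x*y*w 0 - x*y*w 2 - x*y*w 3 - y^2*w 4 = 0 := congrFun hw 0
  have e1 : x*w 2 + y*w 5 + u*w 3 + v*w 4 + t*w 5 = 0 := congrFun hw 1
  refine ⟨![y*w 0 + t*w 1 - y^2*w 0 - y^2*w 2 - y^2*w 3 + 3*y*v*w 0 + 3*y*v*w 2 + 3*y*v*w 3 + v^2*w 0 + 3*v*t*w 4 - v*t*w 5,
    -y*w 1 - 3*u*w 0 - 4*v*w 1 - 3*t*w 2 - 6*y*v*w 4 - u*v*w 3 - 4*v^2*w 4 + v^2*w 5 - v*t*w 5,
    u*w 1 - y^2*w 0 - y^2*w 2 - y^2*w 3 + 3*y*u*w 4 + 3*u*v*w 4 - u*v*w 5 - v^2*w 2,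
    -y*w 0 + v^2*w 3 + 3*v*t*w 2,
    y^2*w 0 + y^2*w 3 + 4*y*v*w 0 + y*v*w 2 + 4*y*v*w 3 - 3*v^2*w 2,
    y*w 1 + 4*u*w 0 + 4*v*w 1 + 4*t*w 2 - 4*y*u*w 0 - y*u*w 2 - y*u*w 3 + 6*y*v*w 4 + 3*u*v*w 2 + 4*u*v*w 3 + 4*v^2*w 4 - v^2*w 5 + 4*v*t*w 5 - y*u*v*w 3], ?_⟩
  rw [vecMul_S]
  ext j
  fin_cases j
  · simp only [Matrix.cons_val, Pi.smul_apply, smul_eq_mul, Fin.zero_eta, Fin.mk_one, Fin.reduceFinMk]
    linear_combination (3*t) * e0 + (v*t) * e1 + (w 0 - 4*y*w 0 - y*w 2 - y*w 3 + 3*v*w 2 + 3*v*w 3 - y*v*w 3) * h1 + (w 2 + 3*y*w 0 + 3*y*w 2 + 3*y*w 3 - v*w 2 + 3*v*w 5) * h2 + (w 1 + 3*y*w 4 + 6*v*w 4 - v*w 5 + 3*y*v*w 2) * h3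
  · simp only [Matrix.cons_val, Pi.smul_apply, smul_eq_mul, Fin.zero_eta, Fin.mk_one, Fin.reduceFinMk]
    linear_combination (3*y*v + v^2) * e0 + (y*w 1 + 3*y^2*w 4 + 3*y*v*w 4 - y*v*w 5) * h1 + (-y*w 1 - 3*y*v*w 2 - 3*y*v*w 4 + y*v*w 5) * h2 + (-w 2 + y*w 0 - 2*y*w 2 + y*w 3 - 3*u*w 4 - 3*v*w 2 - 3*v*w 5 - y*v*w 5) * h3
  · simp only [Matrix.cons_val, Pi.smul_apply, smul_eq_mul, Fin.zero_eta, Fin.mk_one, Fin.reduceFinMk]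
    linear_combination (-3*u) * e0 + (-u*v) * e1 + (-3*y*w 0 - 3*y*w 2 - 3*y*w 3 + v*w 2) * h1
  · simp only [Matrix.cons_val, Pi.smul_apply, smul_eq_mul, Fin.zero_eta, Fin.mk_one, Fin.reduceFinMk]
    linear_combination (-w 0 + 4*y*w 0 + y*w 2 + y*w 3 - 3*v*w 2 - 3*v*w 3 + y*v*w 3) * h1 + (-w 2 - 3*v*w 5) * h2 + (-y*w 0 - y*w 3 - 4*v*w 0 - v*w 2 - 4*v*w 3 - 3*y*v*w 2) * h3
  · simp only [Matrix.cons_val, Pi.smul_apply, smul_eq_mul, Fin.zero_eta, Fin.mk_one, Fin.reduceFinMk]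
    linear_combination (-y - 4*t) * e0 + (v^2 - 4*v*t) * e1 + (-w 1 - 3*y*w 4 - 3*v*w 4 + v*w 5) * h1 + (-4*y*w 0 - 4*y*w 2 - 4*y*w 3 + 4*v*w 2) * h2 + (-w 1 + w 2 - 4*y*w 4 + 4*u*w 0 + u*w 2 + u*w 3 - 6*v*w 4 + 4*v*w 5 + u*v*w 3) * h3
  · simp only [Matrix.cons_val, Pi.smul_apply, smul_eq_mul, Fin.zero_eta, Fin.mk_one, Fin.reduceFinMk]
    linear_combination (4*v) * e0 + (y^2 + 3*y*v + 4*v^2) * e1 + (-w 1 - 3*y*w 4 - 3*v*w 4 + v*w 5) * h1 + (-y*w 5 - 3*v*w 5 + 3*u*v*w 2) * h3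

theorem ex2_c3 (w : Fin 6 → A) (hw : w ᵥ* Sm x y u v t = 0) :
    ∃ q : Fin 2 → A, ((y + v) ^ 3) • w = q ᵥ* Tm x y u v t := by
  rw [vecMul_S] at hw
  have e0 : -x*w 1 - x*w 5 + v*w 0 + t*w 1 - y^2*w 3 = 0 := congrFun hw 0
  have e1 : y*w 1 + y*w 5 - u*w 0 + t*w 2 + x*y*w 0 - x*y*w 2 + x*y*w 3 - y^2*w 1 = 0 := congrFun hw 1
  have e2 : -y*w 2 - y*w 4 - u*w 1 - v*w 2 = 0 := congrFun hw 2
  have e3 : x*w 1 + x*w 5 + y*w 4 + v*w 3 + t*w 4 + y^2*w 3 = 0 := congrFun hw 3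
  have e4 : x*w 2 - u*w 3 + t*w 5 = 0 := congrFun hw 4
  have e5 : x*w 2 + x*w 4 - u*w 4 - v*w 5 - y*u*w 3 = 0 := congrFun hw 5
  refine ⟨![-y*w 1 - y*w 5 + u*w 0 - t*w 2 + 3*y*u*w 3 + 3*u*v*w 3 - u*v*w 4 - v^2*w 1 - v^2*w 5 - 3*v*t*w 5 - y*u*v*w 3,
    y^2*w 0 - y^2*w 2 + y^2*w 3 - y*u*w 1 + 4*y*v*w 0 + 2*y*v*w 2 + 4*y*v*w 3 + 3*u*v*w 1 + 3*v^2*w 2 - v^2*w 4], ?_⟩
  rw [vecMul_T]
  ext j
  fin_cases j
  · simp only [Matrix.cons_val, Pi.smul_apply, smul_eq_mul, Fin.zero_eta, Fin.mk_one, Fin.reduceFinMk]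
    linear_combination (y - y^2 + 3*y*v + v^2) * e0 + (t) * e1 + (-y^2 + 3*y*v) * e2 + (-y^2 + 3*y*v) * e3 + (3*v*t) * e4 + (-v*t) * e5 + (w 0 + 3*y*w 3 + 3*v*w 3 - v*w 4 - y*v*w 3) * h1 + (-w 2 - y*w 0 + y*w 2 - y*w 3 - 2*v*w 2 + v*w 4 - 3*v*w 5) * h2 + (-w 1 + 2*y*w 1 + y*w 4 - 3*u*w 3 - 3*v*w 1 - 3*v*w 4) * h3
  · simp only [Matrix.cons_val, Pi.smul_apply, smul_eq_mul, Fin.zero_eta, Fin.mk_one, Fin.reduceFinMk]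
    linear_combination (-3*u) * e0 + (-y - 4*v) * e1 + (-3*t) * e2 + (-u*v) * e3 + (-6*y*v - 4*v^2) * e4 + (v^2 - v*t) * e5 + (-3*w 1 - 3*w 5 + y*w 1 - 2*v*w 1 + v*w 5) * h1 + (v*w 2 + v*w 4) * h2 + (-3*w 2 - 3*w 4 + 3*v*w 5 - u*v*w 3) * h3
  · simp only [Matrix.cons_val, Pi.smul_apply, smul_eq_mul, Fin.zero_eta, Fin.mk_one, Fin.reduceFinMk]
    linear_combination (-y^2) * e0 + (u) * e1 + (-y^2 - v^2) * e2 + (-y^2) * e3 + (3*y*u + 3*u*v) * e4 + (-u*v) * e5 + (-y*w 0 - 2*y*w 2 - y*w 3 - 2*v*w 2 + v*w 4) * h1 + (y*w 1 + y*w 4 - 3*u*w 5) * h3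
  · simp only [Matrix.cons_val, Pi.smul_apply, smul_eq_mul, Fin.zero_eta, Fin.mk_one, Fin.reduceFinMk]
    linear_combination (-y) * e0 + (3*v*t) * e2 + (v^2) * e3 + (-w 0 - 3*y*w 3 - 3*v*w 3 + v*w 4 + y*v*w 3) * h1 + (w 2 + 3*v*w 5) * h2 + (w 1 - y*w 0 + y*w 2 - y*w 3 + u*w 1 - 4*v*w 0 + v*w 2 - 4*v*w 3 + 3*v*w 4) * h3
  · simp only [Matrix.cons_val, Pi.smul_apply, smul_eq_mul, Fin.zero_eta, Fin.mk_one, Fin.reduceFinMk]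
    linear_combination (y^2 + 4*y*v) * e0 + (y*v - 3*v^2) * e2 + (y^2 + 4*y*v) * e3 + (-y*w 1 - y*w 4 - 4*v*w 1 - 4*v*w 4) * h3
  · simp only [Matrix.cons_val, Pi.smul_apply, smul_eq_mul, Fin.zero_eta, Fin.mk_one, Fin.reduceFinMk]
    linear_combination (4*u - 4*y*u) * e0 + (y + 4*v) * e1 + (4*t - y*u + 3*u*v) * e2 + (-y*u + 4*u*v - y*u*v) * e3 + (6*y*v + 4*v^2) * e4 + (-v^2 + 4*v*t) * e5 + (4*w 1 + 4*w 5 - 4*y*w 1 - 3*y*w 5 - v*w 1 - 4*v*w 5 + y*v*w 1 + y*v*w 5) * h1 + (-4*v*w 2 - 4*v*w 4) * h2 + (4*w 2 + 4*w 4 - y*w 2 + 4*u*w 1 + u*w 4 - 3*v*w 5 - 3*y*v*w 5 + 4*u*v*w 3 + u*v*w 4) * h3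

theorem ann_u2 (w : Fin 2 → A) : ∃ p : Fin 6 → A, p ᵥ* Rm x y u v t = (u ^ 2) • w := by
  refine ⟨![u*w 0 + t*w 0 + t*w 1, 0, -u*w 0 - u*w 1, u*w 1, -t*w 0 - t*w 1, v*w 0 + v*w 1], ?_⟩
  rw [vecMul_R]
  ext j
  fin_cases j
  · simp only [Matrix.cons_val, Pi.smul_apply, smul_eq_mul, Fin.zero_eta, Fin.mk_one]
    linear_combination (-y*w 0 - y*w 1) * h2 + (y*w 0 + y*w 1) * h3
  · simp only [Matrix.cons_val, Pi.smul_apply, smul_eq_mul, Fin.zero_eta, Fin.mk_one]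
    linear_combination (-w 0 - w 1) * h1

theorem ann_c3 (w : Fin 2 → A) : ∃ p : Fin 6 → A, p ᵥ* Rm x y u v t = ((y + v) ^ 3) • w := by
  refine ⟨![3*t*w 0 + v*t*w 1, 3*y*v*w 0 + v^2*w 0, -3*u*w 0 - u*v*w 1, 0, -y*w 0 - 4*t*w 0 + v^2*w 1 - 4*v*t*w 1, 4*v*w 0 + y^2*w 1 + 3*y*v*w 1 + 4*v^2*w 1], ?_⟩
  rw [vecMul_R]
  ext j
  fin_cases j
  · simp only [Matrix.cons_val, Pi.smul_apply, smul_eq_mul, Fin.zero_eta, Fin.mk_one]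
    linear_combination (3*y*w 0 + y*v*w 1) * h1 + (-3*y*w 0 - y*v*w 1) * h2 + (4*y*w 0 + 4*y*v*w 1) * h3
  · simp only [Matrix.cons_val, Pi.smul_apply, smul_eq_mul, Fin.zero_eta, Fin.mk_one]
    linear_combination (-3*w 0 - v*w 1) * h1 + (y*w 1 + 3*v*w 1) * h3

theorem ann_t2 (w : Fin 2 → A) : ∃ p : Fin 6 → A, p ᵥ* Rm x y u v t = (t ^ 2) • w := by
  refine ⟨![0, 0, t*w 0, 0, 0, t*w 1], ?_⟩
  rw [vecMul_R]
  ext j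
  fin_cases j
  · simp only [Matrix.cons_val, Pi.smul_apply, smul_eq_mul, Fin.zero_eta, Fin.mk_one]
    linear_combination (-y*w 0) * h2
  · simp only [Matrix.cons_val, Pi.smul_apply, smul_eq_mul, Fin.zero_eta, Fin.mk_one]
    linear_combination (w 0) * h2 + (w 1) * h3

end Pool.Agent.Helper16
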