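import Pool.Agent.Helper16.GradeRes

set_option autoImplicit false
set_option linter.unusedSectionVars false

/-! Dimension theory of the example. -/

noncomputable section

namespace Pool.Agent.Helper16

open PowerSeries Matrix

/-- the local ring of the example -/
abbrev AA : Type := GA pu pc pd

theorem pu_mem : pu ∈ IsLocalRing.maximalIdeal L := by
  rw [IsLocalRing.mem_maximalIdeal, mem_nonunits_iff]
  intro h
  have := h.map (constantCoeff (R := B))
  simp [pu] at this

theorem pc_mem : pc ∈ IsLocalRing.maximalIdeal L := by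
  rw [IsLocalRing.mem_maximalIdeal, mem_nonunits_iff]
  intro h
  have := (h.map (constantCoeff (R := B))).map (constantCoeff (R := E))
  simp [pc] at this

theorem pd_mem : pd ∈ IsLocalRing.maximalIdeal L := by
  rw [IsLocalRing.mem_maximalIdeal, mem_nonunits_iff]
  intro h
  have := ((h.map (constantCoeff (R := B))).map (constantCoeff (R := E))).map
    (constantCoeff (R := ℚ))
  simp [pd] at this

instance : IsLocalRing AA := GA.isLocalRing pu_mem pc_mem pd_mem

/-- restriction of `L` to the `d`-axis -/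
def kap : L →+* E := (constantCoeff (R := E)).comp (constantCoeff (R := B))

@[simp] theorem kap_pu : kap pu = 0 := by simp [kap, pu]
@[simp] theorem kap_pc : kap pc = 0 := by simp [kap, pc]
@[simp] theorem kap_pd : kap pd = X := by simp [kap, pd]

/-- restriction of `AA` to the `x`-axis -/
def chi : AA →+* E where
  toFun z := kap (constantCoeff z.g) + kap z.a * X
  map_one' := by simp
  map_zero' := by simp
  map_add' z w := by simp; ring
  map_mul' z w := by simp; ring

theorem chi_apply (z : AA) : chi z = kap (constantCoeff z.g) + kap z.a * X := rfl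

@[simp] theorem chi_x : chi GA.x = X := by simp [chi_apply]
@[simp] theorem chi_y : chi GA.y = 0 := by simp [chi_apply]
@[simp] theorem chi_u : chi GA.uu = 0 := by simp [chi_apply, GA.uu]
@[simp] theorem chi_v : chi GA.vv = 0 := by simp [chi_apply, GA.vv]
@[simp] theorem chi_t : chi GA.tt = 0 := by simp [chi_apply, GA.tt]

/-- section of `chi` modulo `t` -/
def jj : E →+* AA := (GA.sc pu pc pd).comp ((C (R := B)).comp (C (R := E)))

theorem sc_sub_mem (q : Ideal AA) (hu : GA.uu ∈ q) (hc : GA.sc pu pc pd pc ∈ q) (l : L) :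
    GA.sc pu pc pd l - jj (kap l) ∈ q := by
  have h1 : ∃ l' : L, l = C (constantCoeff l) + X * l' := by
    obtain ⟨l', hl'⟩ : (X : L) ∣ l - C (constantCoeff l) := by
      rw [X_dvd_iff]; simp
    exact ⟨l', by rw [← hl']; ring⟩
  have h2 : ∃ l'' : B, constantCoeff l = C (constantCoeff (constantCoeff l)) + X * l'' := by
    obtain ⟨l', hl'⟩ : (X : B) ∣ constantCoeff l - C (constantCoeff (constantCoeff l)) := by
      rw [X_dvd_iff]; simp
    exact ⟨l', by rw [← hl']; ring⟩
  obtain ⟨l', h1⟩ := h1
  obtain ⟨l'', h2⟩ := h2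
  have : GA.sc pu pc pd l - jj (kap l) =
      GA.sc pu pc pd pc * GA.sc pu pc pd (C l'') + GA.uu * GA.sc pu pc pd l' := by
    have e1 : (l : L) = C (C (kap l)) + (pc * C l'' + pu * l') := by
      conv_lhs => rw [h1, h2]
      simp [kap, pu, pc]
      ring
    have e2 : jj (kap l) = GA.sc pu pc pd (C (C (kap l))) := rfl
    have e3 := congrArg (GA.sc pu pc pd) e1
    rw [map_add, map_add, map_mul, map_mul] at e3
    rw [e2, GA.uu]
    linear_combination e3
  rw [this]
  exact Ideal.add_mem _ (Ideal.mul_mem_right _ _ hc) (Ideal.mul_mem_right _ _ hu)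

theorem sub_mem (q : Ideal AA) (hu : GA.uu ∈ q) (hc : GA.sc pu pc pd pc ∈ q)
    (hs : (GA.s : AA) ∈ q) (ht : (GA.tt : AA) ∈ q) (hy : (GA.y : AA) ∈ q) (z : AA) :
    z - jj (chi z) ∈ q := by
  obtain ⟨g', hg'⟩ : (X : L⟦X⟧) ∣ z.g - C (constantCoeff z.g) := by
    rw [X_dvd_iff]; simp
  have hx : (GA.x : AA) = jj X - GA.tt := by
    show (GA.x : AA) = GA.sc pu pc pd pd - (GA.sc pu pc pd pd - GA.x)
    ring
  have e : z - jj (chi z) = (GA.sc pu pc pd (constantCoeff z.g) - jj (kap (constantCoeff z.g)))
      + (GA.sc pu pc pd z.a - jj (kap z.a)) * GA.x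
      + (GA.s * GA.incl pu pc pd g' + GA.sc pu pc pd z.b * GA.y - jj (kap z.a) * GA.tt) := by
    have hd := GA.decomp z
    have : GA.incl pu pc pd z.g = GA.sc pu pc pd (constantCoeff z.g) + GA.s * GA.incl pu pc pd g' := by
      have h : z.g = C (constantCoeff z.g) + X * g' := by rw [← hg']; ring
      conv_lhs => rw [h]
      rw [map_add, map_mul]
      rfl
    rw [chi_apply, map_add, map_mul]
    rw [show jj X = GA.x + GA.tt by rw [hx]; ring]
    linear_combination hd + this
  rw [e]
  refine Ideal.add_mem _ (Ideal.add_mem _ (sc_sub_mem q hu hc _)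
    (Ideal.mul_mem_right _ _ (sc_sub_mem q hu hc _))) ?_
  exact Ideal.sub_mem _ (Ideal.add_mem _ (Ideal.mul_mem_right _ _ hs)
    (Ideal.mul_mem_left _ _ hy)) (Ideal.mul_mem_left _ _ ht)

theorem y_mem_of (q : Ideal AA) [q.IsPrime] (hu : GA.uu ∈ q) (hc : GA.sc pu pc pd pc ∈ q) :
    (GA.y : AA) ∈ q := by
  have h : (GA.y : AA) * GA.y = GA.y * GA.sc pu pc pd pc - GA.x * GA.uu := by
    rw [GA.x_mul_u, GA.vv]; ring
  have : (GA.y : AA) * GA.y ∈ q := by
    rw [h]
    exact Ideal.sub_mem _ (Ideal.mul_mem_left _ _ hc) (Ideal.mul_mem_left _ _ hu)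
  exact (‹q.IsPrime›.mem_or_mem this).elim id id

/-- the prime of the `x`-axis -/
def PP : Ideal AA := RingHom.ker chi

instance : PP.IsPrime := RingHom.ker_isPrime chi

theorem height_PP : PP.height ≤ 2 := by
  classical
  have h : PP ∈ (Ideal.span ({(GA.uu : AA), GA.sc pu pc pd pc} : Set AA)).minimalPrimes := by
    refine ⟨⟨inferInstance, ?_⟩, ?_⟩
    · rw [Ideal.span_le]
      rintro z (rfl | rfl)
      · exact chi_u
      · show chi _ = 0
        simp [chi_apply]
    · rintro q ⟨hq, hle⟩ hqP z hz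
      have hu : (GA.uu : AA) ∈ q := hle (Ideal.subset_span (by simp))
      have hc : GA.sc pu pc pd pc ∈ q := hle (Ideal.subset_span (by simp))
      have hx : (GA.x : AA) ∉ q := fun h => by
        have : chi GA.x = 0 := hqP h
        rw [chi_x] at this
        exact X_ne_zero this
      have hs : (GA.s : AA) ∈ q :=
        (hq.mem_or_mem (show (GA.x : AA) * GA.s ∈ q by rw [GA.x_mul_s]; exact q.zero_mem)).resolve_left
          hx
      have ht : (GA.tt : AA) ∈ q :=
        (hq.mem_or_mem (show (GA.x : AA) * GA.tt ∈ q by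
          rw [GA.x_mul_t]; exact q.zero_mem)).resolve_left hx
      have hy := y_mem_of q hu hc
      have := sub_mem q hu hc hs ht hy z
      have hz' : chi z = 0 := hz
      rwa [hz', map_zero, sub_zero] at this
  have h2 := Ideal.height_le_card_of_mem_minimalPrimes_span (Set.toFinite _) h
  refine h2.trans ?_
  have := Set.ncard_insert_le (GA.uu : AA) {GA.sc pu pc pd pc}
  rw [Set.ncard_singleton] at this
  exact_mod_cast this

theorem isUnit_of_constantCoeff (z : AA)
    (hz : constantCoeff (chi z) ≠ 0) : IsUnit z := by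
  rw [GA.isUnit_iff pu_mem pc_mem pd_mem]
  rw [PowerSeries.isUnit_iff_constantCoeff, PowerSeries.isUnit_iff_constantCoeff,
    PowerSeries.isUnit_iff_constantCoeff, PowerSeries.isUnit_iff_constantCoeff]
  rw [chi_apply] at hz
  simp only [map_add, map_mul, constantCoeff_X, mul_zero, add_zero] at hz
  exact isUnit_iff_ne_zero.mpr hz

theorem four_le_dim : (4 : WithBot ℕ∞) ≤ ringKrullDim AA := by
  have h0 : ringKrullDim ℚ = 0 := ringKrullDim_eq_zero_of_field ℚ
  have h1 : ringKrullDim ℚ + 1 ≤ ringKrullDim E := ringKrullDim_succ_le_ringKrullDim_powerseries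
  have h2 : ringKrullDim E + 1 ≤ ringKrullDim B := ringKrullDim_succ_le_ringKrullDim_powerseries
  have h3 : ringKrullDim B + 1 ≤ ringKrullDim L := ringKrullDim_succ_le_ringKrullDim_powerseries
  have h4 : ringKrullDim L + 1 ≤ ringKrullDim L⟦X⟧ := ringKrullDim_succ_le_ringKrullDim_powerseries
  have h5 : ringKrullDim L⟦X⟧ ≤ ringKrullDim AA :=
    ringKrullDim_le_of_surjective (GA.proj pu pc pd) GA.proj_surjective
  have : (4 : WithBot ℕ∞) = ringKrullDim ℚ + 1 + 1 + 1 + 1 := by rw [h0]; rfl
  rw [this]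
  refine le_trans ?_ h5
  refine le_trans (add_le_add_left ?_ 1) h4
  refine le_trans (add_le_add_left ?_ 1) h3
  exact le_trans (add_le_add_left h1 1) h2

end Pool.Agent.Helper16
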