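import Pool.Agent.Helper16.GradeReg
import Pool.Agent.Helper16.GradeComplex

set_option autoImplicit false
set_option linter.unusedSectionVars false

/-! Exactness of the explicit complex (acyclicity lemma by hand). -/

namespace Pool.Agent.Helper16

open Matrix

variable {A : Type} [CommRing A] {x y u v t : A} (h1 : x * u = y * v) (h2 : x * t = 0)
  (h3 : y * t = 0) (reg : Reg3 A (u ^ 2) ((y + v) ^ 3) ((x + t) ^ 2))
include h1 h2 h3 reg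

theorem T_inj (w : Fin 2 → A) (hw : w ᵥ* Tm x y u v t = 0) : w = 0 := by
  have h := TH_eq h1 h2 h3 w
  rw [hw, zero_vecMul] at h
  exact (reg.pi (Fin 2)).f4 w h.symm

theorem S_exact (w : Fin 6 → A) (hw : w ᵥ* Sm x y u v t = 0) :
    ∃ q : Fin 2 → A, q ᵥ* Tm x y u v t = w := by
  obtain ⟨q1, hq1⟩ := ex2_u2 h1 h2 h3 w hw
  obtain ⟨q2, hq2⟩ := ex2_c3 h1 h2 h3 w hw
  have h : (y + v) ^ 3 • q1 = u ^ 2 • q2 := by
    rw [← sub_eq_zero]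
    apply T_inj h1 h2 h3 reg
    rw [sub_vecMul, smul_vecMul, smul_vecMul, ← hq1, ← hq2, smul_comm, sub_self]
  obtain ⟨q', hq'⟩ := (reg.pi (Fin 2)).f2 q1 q2 h
  refine ⟨q', ?_⟩
  rw [← sub_eq_zero]
  apply (reg.pi (Fin 6)).f1
  rw [smul_sub, ← smul_vecMul, ← hq', ← hq1, sub_self]

theorem R_exact (w : Fin 6 → A) (hw : w ᵥ* Rm x y u v t = 0) :
    ∃ p : Fin 6 → A, p ᵥ* Sm x y u v t = w := by
  obtain ⟨p1, hp1⟩ := ex1_u2 h1 h2 h3 w hw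
  obtain ⟨p2, hp2⟩ := ex1_c3 h1 h2 h3 w hw
  have h : ((y + v) ^ 3 • p1 - u ^ 2 • p2) ᵥ* Sm x y u v t = 0 := by
    rw [sub_vecMul, smul_vecMul, smul_vecMul, ← hp1, ← hp2, smul_comm, sub_self]
  obtain ⟨q, hq⟩ := S_exact h1 h2 h3 reg _ h
  have hq3 := TH_eq h1 h2 h3 q
  rw [hq, sub_vecMul, smul_vecMul, smul_vecMul] at hq3
  obtain ⟨a, b, hab⟩ := (reg.pi (Fin 2)).f3 q (-(p2 ᵥ* Hm x y v t)) (p1 ᵥ* Hm x y v t)
    (by rw [← hq3, smul_neg]; abel)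
  rw [hab, add_vecMul, smul_vecMul, smul_vecMul] at hq
  obtain ⟨p', hp'⟩ := (reg.pi (Fin 6)).f2 (p1 - b ᵥ* Tm x y u v t) (p2 + a ᵥ* Tm x y u v t) (by
    rw [smul_sub, smul_add]
    rw [← sub_eq_zero] at hq ⊢
    rw [← neg_eq_zero, ← hq]
    abel)
  refine ⟨p', ?_⟩
  rw [← sub_eq_zero]
  apply (reg.pi (Fin 6)).f1
  rw [smul_sub, ← smul_vecMul, ← hp', sub_vecMul, TS_zero h1 h2 h3, sub_zero, ← hp1, sub_self]

end Pool.Agent.Helper16
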