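import Pool.Agent.Helper16.GradeDim

set_option autoImplicit false
set_option linter.unusedSectionVars false

/-! Annihilator, dimension and grade of the module of the example. -/

noncomputable section

namespace Pool.Agent.Helper16

open PowerSeries Matrix

/-- the module of the example -/
abbrev MA : Type := MM (GA.x : AA) GA.y GA.uu GA.vv GA.tt

theorem regAA : Reg3 AA ((GA.uu : AA) ^ 2) ((GA.y + GA.vv : AA) ^ 3) ((GA.x + GA.tt : AA) ^ 2) := by
  have h := regGA (u := pu) (c := pc) (d := pd) (regL 2 3 2)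
  have e1 : (GA.uu : AA) ^ 2 = GA.sc pu pc pd (pu ^ 2) := by rw [map_pow]; rfl
  have e2 : (GA.y + GA.vv : AA) ^ 3 = GA.sc pu pc pd (pc ^ 3) := by
    rw [map_pow]; congr 1; rw [GA.vv]; ring
  have e3 : (GA.x + GA.tt : AA) ^ 2 = GA.sc pu pc pd (pd ^ 2) := by
    rw [map_pow]; congr 1; rw [GA.tt]; ring
  rw [e1, e2, e3]
  exact h

theorem mem_ann_of (c : AA) (h : ∀ w : Fin 2 → AA, ∃ p : Fin 6 → AA,
    p ᵥ* Rm (GA.x : AA) GA.y GA.uu GA.vv GA.tt = c • w) : c ∈ Module.annihilator AA MA := by
  rw [Module.mem_annihilator]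
  intro m
  obtain ⟨w, rfl⟩ := Submodule.mkQ_surjective _ m
  rw [← map_smul, Submodule.mkQ_apply, Submodule.Quotient.mk_eq_zero]
  obtain ⟨p, hp⟩ := h w
  exact ⟨p, hp⟩

theorem u2_mem : (GA.uu : AA) ^ 2 ∈ Module.annihilator AA MA :=
  mem_ann_of _ (ann_u2 GA.x_mul_u GA.x_mul_t GA.y_mul_t)

theorem c3_mem : (GA.y + GA.vv : AA) ^ 3 ∈ Module.annihilator AA MA :=
  mem_ann_of _ (ann_c3 GA.x_mul_u GA.x_mul_t GA.y_mul_t)

theorem t2_mem : (GA.tt : AA) ^ 2 ∈ Module.annihilator AA MA :=
  mem_ann_of _ (ann_t2 GA.x_mul_u GA.x_mul_t GA.y_mul_t)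

theorem ann_le_PP : Module.annihilator AA MA ≤ PP := by
  intro r hr
  rw [Module.mem_annihilator] at hr
  have h := hr (Submodule.mkQ _ ![1, 0])
  rw [← map_smul, Submodule.mkQ_apply, Submodule.Quotient.mk_eq_zero] at h
  obtain ⟨w, hw⟩ := h
  have h0 : w ᵥ* Rm (GA.x : AA) GA.y GA.uu GA.vv GA.tt = r • ![1, 0] := hw
  rw [vecMul_R] at h0
  have h1 := congrArg chi (congrFun h0 0)
  simp at h1
  exact h1.symm

instance : Nontrivial MA := by
  by_contra hcon
  rw [not_nontrivial_iff_subsingleton] at hcon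
  have : (1 : AA) ∈ Module.annihilator AA MA := by
    rw [Module.mem_annihilator]
    intro m
    exact Subsingleton.elim _ _
  have h2 : chi 1 = 0 := ann_le_PP this
  rw [map_one] at h2
  exact one_ne_zero h2

theorem dim_quot_le : ringKrullDim (AA ⧸ Module.annihilator AA MA) ≤ 1 := by
  set J := Module.annihilator AA MA with hJ
  have hJtop : J ≠ ⊤ := by
    intro h
    have : (1 : AA) ∈ PP := ann_le_PP (by rw [← hJ, h]; trivial)
    exact (Ideal.ne_top_iff_one PP).mp Ideal.IsPrime.ne_top' this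
  have hnt : Nontrivial (AA ⧸ J) := Ideal.Quotient.nontrivial_iff.mpr hJtop
  have hloc : IsLocalRing (AA ⧸ J) :=
    IsLocalRing.of_surjective' (Ideal.Quotient.mk J) Ideal.Quotient.mk_surjective
  rw [← IsLocalRing.maximalIdeal_height_eq_ringKrullDim]
  have hmin : IsLocalRing.maximalIdeal (AA ⧸ J) ∈
      (Ideal.span {Ideal.Quotient.mk J (GA.x + GA.s)}).minimalPrimes := by
    refine ⟨⟨inferInstance, ?_⟩, ?_⟩
    · rw [Ideal.span_le, Set.singleton_subset_iff]
      show _ ∈ IsLocalRing.maximalIdeal (AA ⧸ J)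
      rw [IsLocalRing.mem_maximalIdeal, mem_nonunits_iff]
      intro hunit
      obtain ⟨w, hw⟩ := hunit.exists_right_inv
      obtain ⟨z, rfl⟩ := Ideal.Quotient.mk_surjective w
      rw [← map_mul, ← map_one (Ideal.Quotient.mk J), Ideal.Quotient.eq] at hw
      have h2 : chi ((GA.x + GA.s) * z - 1) = 0 := ann_le_PP hw
      have h3 := congrArg (constantCoeff (R := ℚ)) h2
      simp [chi_apply] at h3
    · rintro q ⟨hq, hle⟩ - b hb
      obtain ⟨z, rfl⟩ := Ideal.Quotient.mk_surjective b
      set q' := q.comap (Ideal.Quotient.mk J) with hq'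
      have hq'p : q'.IsPrime := hq.comap _
      have hJq : J ≤ q' := by
        intro r hr
        show Ideal.Quotient.mk J r ∈ q
        rw [Ideal.Quotient.eq_zero_iff_mem.mpr hr]
        exact q.zero_mem
      have hu : (GA.uu : AA) ∈ q' := hq'p.mem_of_pow_mem _ (hJq u2_mem)
      have hc0 : (GA.y + GA.vv : AA) ∈ q' := hq'p.mem_of_pow_mem _ (hJq c3_mem)
      have hc : GA.sc pu pc pd pc ∈ q' := by
        have : (GA.y + GA.vv : AA) = GA.sc pu pc pd pc := by rw [GA.vv]; ring
        rwa [this] at hc0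
      have ht : (GA.tt : AA) ∈ q' := hq'p.mem_of_pow_mem _ (hJq t2_mem)
      have hy := y_mem_of q' hu hc
      have hxs : (GA.x + GA.s : AA) ∈ q' := hle (Ideal.subset_span rfl)
      have hx : (GA.x : AA) ∈ q' := by
        have : (GA.x : AA) * GA.x ∈ q' := by
          have h := Ideal.mul_mem_left q' (GA.x : AA) hxs
          rwa [mul_add, GA.x_mul_s, add_zero] at h
        exact (hq'p.mem_or_mem this).elim id id
      have hs : (GA.s : AA) ∈ q' := by
        have := Ideal.sub_mem _ hxs hx
        rwa [add_sub_cancel_left] at this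
      have hz := sub_mem q' hu hc hs ht hy z
      have hz2 : constantCoeff (chi z) = 0 := by
        by_contra hne
        have hun := (isUnit_of_constantCoeff z hne).map (Ideal.Quotient.mk J)
        exact hb hun
      obtain ⟨f, hf⟩ : (X : E) ∣ chi z := by rwa [X_dvd_iff]
      have hjX : jj X ∈ q' := by
        have : jj X = GA.x + GA.tt := by
          show GA.sc pu pc pd pd = GA.x + (GA.sc pu pc pd pd - GA.x)
          ring
        rw [this]
        exact Ideal.add_mem _ hx ht
      have : z ∈ q' := by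
        have h3 : jj (chi z) ∈ q' := by
          rw [hf, map_mul]
          exact Ideal.mul_mem_right _ _ hjX
        have := Ideal.add_mem _ hz h3
        rwa [sub_add_cancel] at this
      exact this
  have := Ideal.height_le_one_of_isPrincipal_of_mem_minimalPrimes _ _ hmin
  exact_mod_cast this

theorem no_regular_three (rs : List AA) (hlen : rs.length = 3)
    (hmem : ∀ r ∈ rs, r ∈ Module.annihilator AA MA)
    (hreg : RingTheory.Sequence.IsWeaklyRegular AA rs) : False := by
  have h1 := hreg.isRegular_of_isLocalization_of_mem (Localization.AtPrime PP) PP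
    (fun r hr => ann_le_PP (hmem r hr))
  have h2 := ringKrullDim_add_length_eq_ringKrullDim_of_isRegular _ h1
  rw [List.length_map, hlen, IsLocalization.AtPrime.ringKrullDim_eq_height PP (Localization.AtPrime PP)] at h2
  have hnt : Nontrivial (Localization.AtPrime PP ⧸ Ideal.ofList (rs.map (algebraMap AA (Localization.AtPrime PP)))) := by
    rw [Ideal.Quotient.nontrivial_iff]
    intro h
    exact h1.top_ne_smul (by rw [h]; simp)
  have h3 : (0 : WithBot ℕ∞) ≤ ringKrullDim (Localization.AtPrime PP ⧸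
    Ideal.ofList (rs.map (algebraMap AA (Localization.AtPrime PP)))) := ringKrullDim_nonneg_of_nontrivial
  have h4 : (3 : WithBot ℕ∞) ≤ (PP.height : WithBot ℕ∞) := by
    rw [← h2]
    calc (3 : WithBot ℕ∞) = 0 + 3 := by rw [zero_add]
      _ ≤ _ := add_le_add_left h3 3
  have h5 : (3 : ℕ∞) ≤ PP.height := WithBot.coe_le_coe.mp h4
  have h6 := h5.trans height_PP
  exact absurd h6 (by decide)

end Pool.Agent.Helper16
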