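import Pool.Agent.Helper16.GradeRing

set_option autoImplicit false
set_option linter.unusedSectionVars false

noncomputable section

namespace Pool.Agent.Helper16

open PowerSeries

/-- the elementary form of `p, q, r` is an `M`-regular sequence and `r` is `M`-regular -/
structure Reg3 {R : Type} [CommRing R] (M : Type) [AddCommGroup M] [Module R M] (p q r : R) :
    Prop where
  f1 : ∀ a : M, p • a = 0 → a = 0
  f4 : ∀ a : M, r • a = 0 → a = 0
  f2 : ∀ a b : M, q • a = p • b → ∃ a', a = p • a'
  f3 : ∀ w a b : M, r • w = p • a + q • b → ∃ a' b', w = p • a' + q • b'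

theorem Reg3.pi {R : Type} [CommRing R] {M : Type} [AddCommGroup M] [Module R M] {p q r : R}
    (h : Reg3 M p q r) (ι : Type) : Reg3 (ι → M) p q r where
  f1 a ha := funext fun i => h.f1 _ (congrFun ha i)
  f4 a ha := funext fun i => h.f4 _ (congrFun ha i)
  f2 a b hab := by
    have h' : ∀ i, ∃ a', a i = p • a' := fun i => h.f2 (a i) (b i) (congrFun hab i)
    choose a' ha' using h'
    exact ⟨a', funext ha'⟩
  f3 w a b hw := by
    have h' : ∀ i, ∃ a' b', w i = p • a' + q • b' := fun i => h.f3 (w i) (a i) (b i) (congrFun hw i)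
    choose a' b' hab using h'
    exact ⟨a', b', funext hab⟩

/-- base ring -/
abbrev E : Type := ℚ⟦X⟧
abbrev B : Type := E⟦X⟧
abbrev L : Type := B⟦X⟧

/-- the parameters -/
def pu : L := X
def pc : L := C (X : B)
def pd : L := C (C (X : E))

theorem reg2B {z : E} (hz : z ≠ 0) (n : ℕ) (a b : B) (h : C z * a = X ^ n * b) :
    ∃ a', a = X ^ n * a' := by
  have : (X : B) ^ n ∣ a := by
    rw [X_pow_dvd_iff]
    intro m hm
    have h1 := congrArg (coeff m) h
    rw [coeff_C_mul, coeff_X_pow_mul', if_neg (by omega)] at h1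
    exact (mul_eq_zero.mp h1).resolve_left hz
  exact this

theorem pc_pow (j : ℕ) : pc ^ j = C ((X : B) ^ j) := by simp [pc, map_pow]
theorem pd_pow (k : ℕ) : pd ^ k = C (C ((X : E) ^ k)) := by simp [pd, map_pow]

theorem regL (i j k : ℕ) : Reg3 (R := L) L (pu ^ i) (pc ^ j) (pd ^ k) where
  f1 a ha := by
    rw [smul_eq_mul] at ha
    exact (mul_eq_zero.mp ha).resolve_left (pow_ne_zero _ X_ne_zero)
  f4 a ha := by
    rw [smul_eq_mul] at ha
    refine (mul_eq_zero.mp ha).resolve_left (pow_ne_zero _ ?_)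
    unfold pd
    rw [Ne, map_eq_zero_iff C C_injective, map_eq_zero_iff C C_injective]
    exact X_ne_zero
  f2 a b h := by
    simp only [smul_eq_mul] at h ⊢
    have : (X : L) ^ i ∣ a := by
      rw [X_pow_dvd_iff]
      intro m hm
      have h1 := congrArg (coeff m) h
      unfold pu at h1
      rw [pc_pow, coeff_C_mul, coeff_X_pow_mul', if_neg (by omega)] at h1
      exact (mul_eq_zero.mp h1).resolve_left (pow_ne_zero _ X_ne_zero)
    exact this
  f3 w a b h := by
    simp only [smul_eq_mul] at h ⊢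
    have h' : ∀ m : ℕ, ∃ e : B, m < i → coeff m w = X ^ j * e := by
      intro m
      by_cases hm : m < i
      · have h1 := congrArg (coeff m) h
        unfold pu at h1
        rw [map_add, pc_pow, pd_pow, coeff_C_mul, coeff_C_mul, coeff_X_pow_mul',
          if_neg (by omega), zero_add] at h1
        obtain ⟨e, he⟩ := reg2B (pow_ne_zero k X_ne_zero) j _ _ h1
        exact ⟨e, fun _ => he⟩
      · exact ⟨0, fun h => absurd h hm⟩
    choose e he using h'
    have : (X : L) ^ i ∣ w - C (X ^ j : B) * PowerSeries.mk e := by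
      rw [X_pow_dvd_iff]
      intro m hm
      rw [map_sub, coeff_C_mul, coeff_mk, he m hm, sub_self]
    obtain ⟨a', ha'⟩ := this
    refine ⟨a', PowerSeries.mk e, ?_⟩
    unfold pu
    rw [pc_pow]
    linear_combination ha'

theorem reg_powerSeries {R : Type} [CommRing R] {p q r : R} (h : Reg3 R p q r) :
    Reg3 (R := R) R⟦X⟧ p q r := by
  have hc : ∀ (l : R) (f : R⟦X⟧) (m : ℕ), coeff m (l • f) = l • coeff m f := fun l f m => by simp
  constructor
  · intro a ha
    ext m
    rw [map_zero]
    exact h.f1 _ (by rw [← hc, ha, map_zero])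
  · intro a ha
    ext m
    rw [map_zero]
    exact h.f4 _ (by rw [← hc, ha, map_zero])
  · intro a b hab
    have h' : ∀ m, ∃ a', coeff m a = p • a' := fun m => h.f2 _ (coeff m b) (by rw [← hc, ← hc, hab])
    choose a' ha' using h'
    refine ⟨PowerSeries.mk a', ?_⟩
    ext m
    rw [hc, coeff_mk, ha']
  · intro w a b hw
    have h' : ∀ m, ∃ a' b', coeff m w = p • a' + q • b' := fun m =>
      h.f3 _ (coeff m a) (coeff m b) (by rw [← hc, ← hc, ← hc, hw, map_add])
    choose a' b' hab using h'
    refine ⟨PowerSeries.mk a', PowerSeries.mk b', ?_⟩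
    ext m
    rw [map_add, hc, hc, coeff_mk, coeff_mk, hab]

theorem regGA {L : Type} [CommRing L] {u c d p q r : L} (h : Reg3 L p q r) :
    Reg3 (R := GA u c d) (GA u c d) (GA.sc u c d p) (GA.sc u c d q) (GA.sc u c d r) := by
  have h2 := reg_powerSeries h
  constructor
  · intro a ha
    rw [smul_eq_mul] at ha
    ext1
    · exact h2.f1 _ (by simpa [PowerSeries.smul_eq_C_mul] using congrArg GA.g ha)
    · exact h.f1 _ (by simpa using congrArg GA.a ha)
    · exact h.f1 _ (by simpa using congrArg GA.b ha)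
  · intro a ha
    rw [smul_eq_mul] at ha
    ext1
    · exact h2.f4 _ (by simpa [PowerSeries.smul_eq_C_mul] using congrArg GA.g ha)
    · exact h.f4 _ (by simpa using congrArg GA.a ha)
    · exact h.f4 _ (by simpa using congrArg GA.b ha)
  · intro a b hab
    simp only [smul_eq_mul] at hab ⊢
    obtain ⟨g', hg'⟩ := h2.f2 a.g b.g
      (by simpa [PowerSeries.smul_eq_C_mul] using congrArg GA.g hab)
    obtain ⟨a', ha'⟩ := h.f2 a.a b.a (by simpa using congrArg GA.a hab)
    obtain ⟨b', hb'⟩ := h.f2 a.b b.b (by simpa using congrArg GA.b hab)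
    refine ⟨GA.mk g' a' b', ?_⟩
    ext1
    · simpa [PowerSeries.smul_eq_C_mul] using hg'
    · simpa using ha'
    · simpa using hb'
  · intro w a b hw
    simp only [smul_eq_mul] at hw ⊢
    obtain ⟨g1, g2, hg⟩ := h2.f3 w.g a.g b.g
      (by simpa [PowerSeries.smul_eq_C_mul] using congrArg GA.g hw)
    obtain ⟨a1, a2, ha⟩ := h.f3 w.a a.a b.a (by simpa using congrArg GA.a hw)
    obtain ⟨b1, b2, hb⟩ := h.f3 w.b a.b b.b (by simpa using congrArg GA.b hw)
    refine ⟨GA.mk g1 a1 b1, GA.mk g2 a2 b2, ?_⟩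
    ext1
    · simpa [PowerSeries.smul_eq_C_mul] using hg
    · simpa using ha
    · simpa using hb

end Pool.Agent.Helper16
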