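import Pool.Agent.Helper16.GradeExact

set_option autoImplicit false
set_option linter.unusedSectionVars false

/-! From an exact sequence `0 → A^2 → A^6 → A^6 → A^2` to a finite projective resolution. -/

noncomputable section

namespace Pool.Agent.Helper16

open Matrix CategoryTheory

variable {A : Type} [CommRing A] (x y u v t : A)

/-- ranks -/
def rk : ℕ → ℕ
  | 0 => 2
  | 1 => 6
  | 2 => 6
  | 3 => 2
  | _ => 0

/-- differentials as linear maps -/
def dl : (n : ℕ) → (Fin (rk (n + 1)) → A) →ₗ[A] (Fin (rk n) → A)
  | 0 => (Rm x y u v t).vecMulLinear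
  | 1 => (Sm x y u v t).vecMulLinear
  | 2 => (Tm x y u v t).vecMulLinear
  | _ + 3 => 0

/-- the module -/
abbrev MM : Type := (Fin 2 → A) ⧸ LinearMap.range (Rm x y u v t).vecMulLinear

theorem dl_comp (h1 : x * u = y * v) (h2 : x * t = 0) (h3 : y * t = 0)
    (n : ℕ) (w : Fin (rk (n + 2)) → A) :
    dl x y u v t n (dl x y u v t (n + 1) w) = 0 := by
  match n with
  | 0 => exact SR_zero h1 h2 h3 w
  | 1 => exact TS_zero h1 h2 h3 w
  | 2 => exact map_zero _
  | n + 3 => rfl

/-- the complex -/
def cx (h1 : x * u = y * v) (h2 : x * t = 0) (h3 : y * t = 0) : ChainComplex (ModuleCat.{0} A) ℕ :=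
  ChainComplex.of (fun n => ModuleCat.of A (Fin (rk n) → A))
    (fun n => ModuleCat.ofHom (dl x y u v t n)) (fun n => by
      apply ModuleCat.hom_ext
      apply LinearMap.ext
      intro w
      exact dl_comp x y u v t h1 h2 h3 n w)

variable (h1 : x * u = y * v) (h2 : x * t = 0)
  (h3 : y * t = 0) (reg : Reg3 A (u ^ 2) ((y + v) ^ 3) ((x + t) ^ 2))

include h1 h2 h3 reg

theorem cx_exactAt_succ (n : ℕ) : (cx x y u v t h1 h2 h3).ExactAt (n + 1) := by
  rw [HomologicalComplex.exactAt_iff' _ (n + 1 + 1) (n + 1) n (by simp) (by simp)]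
  simp only [HomologicalComplex.sc', HomologicalComplex.shortComplexFunctor', cx,
    ChainComplex.of_d]
  rw [ShortComplex.moduleCat_exact_iff]
  intro w hw
  match n with
  | 0 => exact R_exact h1 h2 h3 reg w hw
  | 1 => exact S_exact h1 h2 h3 reg w hw
  | 2 => exact ⟨0, by
      have : w = 0 := T_inj h1 h2 h3 reg w hw
      rw [this]; exact map_zero _⟩
  | n + 3 => exact ⟨0, funext fun i => Fin.elim0 i⟩

set_option backward.defeqAttrib.useBackward true in
set_option backward.isDefEq.respectTransparency false in
theorem exists_res :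
    ∃ P : CategoryTheory.ProjectiveResolution (ModuleCat.of A (MM x y u v t)), ∃ n : ℕ,
      ∀ i : ℕ, n ≤ i → CategoryTheory.Limits.IsZero (P.complex.X i) := by
  let f : (cx x y u v t h1 h2 h3).X 0 ⟶ ModuleCat.of A (MM x y u v t) :=
    ModuleCat.ofHom (Submodule.mkQ _)
  have hf : (cx x y u v t h1 h2 h3).d 1 0 ≫ f = 0 := by
    apply ModuleCat.hom_ext
    apply LinearMap.ext
    intro w
    simp only [cx]
    show Submodule.mkQ _ ((Rm x y u v t).vecMulLinear w) = 0
    rw [Submodule.mkQ_apply, Submodule.Quotient.mk_eq_zero]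
    exact ⟨w, rfl⟩
  refine ⟨{ complex := cx x y u v t h1 h2 h3
            projective := ?_
            π := (ChainComplex.toSingle₀Equiv _ _).symm ⟨f, hf⟩
            quasiIso := ?_ }, 4, ?_⟩
  · intro n
    show Projective (ModuleCat.of A (Fin (rk n) → A))
    infer_instance
  · refine ⟨fun n => ?_⟩
    cases n
    · rw [ChainComplex.quasiIsoAt₀_iff, ShortComplex.quasiIso_iff_of_zeros']
      · dsimp
        let T : ShortComplex (ModuleCat.{0} A) :=
          ShortComplex.mk (ModuleCat.ofHom (dl x y u v t 0))
            (ModuleCat.ofHom (Submodule.mkQ (LinearMap.range (Rm x y u v t).vecMulLinear)) :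
              ModuleCat.of A (Fin (rk 0) → A) ⟶ ModuleCat.of A (MM x y u v t)) (by
              apply ModuleCat.hom_ext
              apply LinearMap.ext
              intro w
              show Submodule.mkQ _ ((Rm x y u v t).vecMulLinear w) = 0
              rw [Submodule.mkQ_apply, Submodule.Quotient.mk_eq_zero]
              exact ⟨w, rfl⟩)
        have hT : T.Exact := by
          rw [ShortComplex.moduleCat_exact_iff]
          intro w hw
          have hw' : Submodule.mkQ (LinearMap.range (Rm x y u v t).vecMulLinear) w = 0 := hw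
          rw [Submodule.mkQ_apply, Submodule.Quotient.mk_eq_zero] at hw'
          exact hw'
        have hE : Epi T.g := by
          rw [ModuleCat.epi_iff_surjective]
          exact Submodule.mkQ_surjective _
        refine (ShortComplex.exact_and_epi_g_iff_of_iso (S₂ := T) ?_).2 ⟨hT, hE⟩
        exact ShortComplex.isoMk (Iso.refl _) (Iso.refl _) (Iso.refl _)
          (by
            simp only [Iso.refl_hom, Category.id_comp, Category.comp_id]
            exact (ChainComplex.of_d (fun n => ModuleCat.of A (Fin (rk n) → A))
              (fun n => ModuleCat.ofHom (dl x y u v t n)) 0).symm) (by simp [T, f])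
      all_goals rfl
    · rw [quasiIsoAt_iff_exactAt']
      · apply cx_exactAt_succ
        exact reg
      · apply ChainComplex.exactAt_succ_single_obj
  · intro i hi
    have hi' : rk i = 0 := by
      match i with
      | 0 => omega
      | 1 => omega
      | 2 => omega
      | 3 => omega
      | n + 4 => rfl
    show CategoryTheory.Limits.IsZero (ModuleCat.of A (Fin (rk i) → A))
    rw [ModuleCat.isZero_of_iff_subsingleton, hi']
    infer_instance

end Pool.Agent.Helper16
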