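import Mathlib

set_option autoImplicit false
set_option linter.unusedSectionVars false

/-!
The local ring `GA L u c d`: as an additive group `L⟦X⟧ × L × L`, an element `(g, a, b)` stands for
`g + a x + b y`, with `X x = X y = 0`, `x^2 = d x`, `x y = d y`, `y^2 = c y - u x`.
-/

noncomputable section

namespace Pool.Agent.Helper16

open PowerSeries

variable {L : Type} [CommRing L]

/-- underlying type -/
def GA (_u _c _d : L) : Type := L⟦X⟧ × L × L

namespace GA

variable (u c d : L)

instance : AddCommGroup (GA u c d) := inferInstanceAs (AddCommGroup (L⟦X⟧ × L × L))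

variable {u c d}

/-- constructor -/
def mk (g : L⟦X⟧) (a b : L) : GA u c d := (g, a, b)

/-- first component -/
def g (z : GA u c d) : L⟦X⟧ := z.1
/-- second component -/
def a (z : GA u c d) : L := z.2.1
/-- third component -/
def b (z : GA u c d) : L := z.2.2

@[ext] theorem ext {z w : GA u c d} (h1 : z.g = w.g) (h2 : z.a = w.a) (h3 : z.b = w.b) : z = w :=
  Prod.ext h1 (Prod.ext h2 h3)

@[simp] theorem g_mk (g : L⟦X⟧) (a b : L) : (mk g a b : GA u c d).g = g := rfl
@[simp] theorem a_mk (g : L⟦X⟧) (a b : L) : (mk g a b : GA u c d).a = a := rfl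
@[simp] theorem b_mk (g : L⟦X⟧) (a b : L) : (mk g a b : GA u c d).b = b := rfl
@[simp] theorem g_add (z w : GA u c d) : (z + w).g = z.g + w.g := rfl
@[simp] theorem a_add (z w : GA u c d) : (z + w).a = z.a + w.a := rfl
@[simp] theorem b_add (z w : GA u c d) : (z + w).b = z.b + w.b := rfl
@[simp] theorem g_zero : (0 : GA u c d).g = 0 := rfl
@[simp] theorem a_zero : (0 : GA u c d).a = 0 := rfl
@[simp] theorem b_zero : (0 : GA u c d).b = 0 := rfl
@[simp] theorem g_neg (z : GA u c d) : (-z).g = -z.g := rfl
@[simp] theorem a_neg (z : GA u c d) : (-z).a = -z.a := rfl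
@[simp] theorem b_neg (z : GA u c d) : (-z).b = -z.b := rfl
@[simp] theorem g_sub (z w : GA u c d) : (z - w).g = z.g - w.g := rfl
@[simp] theorem a_sub (z w : GA u c d) : (z - w).a = z.a - w.a := rfl
@[simp] theorem b_sub (z w : GA u c d) : (z - w).b = z.b - w.b := rfl

instance : Mul (GA u c d) := ⟨fun z w => mk (z.g * w.g)
  (constantCoeff z.g * w.a + constantCoeff w.g * z.a + d * (z.a * w.a) - u * (z.b * w.b))
  (constantCoeff z.g * w.b + constantCoeff w.g * z.b + d * (z.a * w.b + z.b * w.a) + c * (z.b * w.b))⟩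

instance : One (GA u c d) := ⟨mk 1 0 0⟩

@[simp] theorem g_mul (z w : GA u c d) : (z * w).g = z.g * w.g := rfl
@[simp] theorem a_mul (z w : GA u c d) : (z * w).a =
  constantCoeff z.g * w.a + constantCoeff w.g * z.a + d * (z.a * w.a) - u * (z.b * w.b) := rfl
@[simp] theorem b_mul (z w : GA u c d) : (z * w).b =
  constantCoeff z.g * w.b + constantCoeff w.g * z.b + d * (z.a * w.b + z.b * w.a)
    + c * (z.b * w.b) := rfl
@[simp] theorem g_one : (1 : GA u c d).g = 1 := rfl
@[simp] theorem a_one : (1 : GA u c d).a = 0 := rfl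
@[simp] theorem b_one : (1 : GA u c d).b = 0 := rfl

instance : CommRing (GA u c d) :=
  { (inferInstance : AddCommGroup (GA u c d)) with
    mul := (· * ·)
    one := 1
    left_distrib := fun z w v => by ext1 <;> simp <;> ring
    right_distrib := fun z w v => by ext1 <;> simp <;> ring
    zero_mul := fun z => by ext1 <;> simp
    mul_zero := fun z => by ext1 <;> simp
    mul_assoc := fun z w v => by ext1 <;> simp <;> ring
    one_mul := fun z => by ext1 <;> simp
    mul_one := fun z => by ext1 <;> simp
    mul_comm := fun z w => by ext1 <;> simp <;> ring }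

variable (u c d) in
/-- projection onto the power series ring (restriction to the four-dimensional component) -/
def proj : GA u c d →+* L⟦X⟧ where
  toFun := g
  map_one' := rfl
  map_mul' _ _ := rfl
  map_zero' := rfl
  map_add' _ _ := rfl

@[simp] theorem proj_apply (z : GA u c d) : proj u c d z = z.g := rfl

theorem proj_surjective : Function.Surjective (proj u c d) := fun f => ⟨mk f 0 0, rfl⟩

variable (u c d) in
/-- inclusion of the power series ring -/
def incl : L⟦X⟧ →+* GA u c d where
  toFun f := mk f 0 0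
  map_one' := rfl
  map_mul' _ _ := by ext1 <;> simp
  map_zero' := rfl
  map_add' _ _ := by ext1 <;> simp

@[simp] theorem incl_g (f : L⟦X⟧) : (incl u c d f).g = f := rfl
@[simp] theorem incl_a (f : L⟦X⟧) : (incl u c d f).a = 0 := rfl
@[simp] theorem incl_b (f : L⟦X⟧) : (incl u c d f).b = 0 := rfl

/-- the scalars `L` -/
def sc (u c d : L) : L →+* GA u c d := (incl u c d).comp (C (R := L))

@[simp] theorem sc_mul_g (l : L) (z : GA u c d) : (sc u c d l * z).g = C l * z.g := rfl
@[simp] theorem sc_mul_a (l : L) (z : GA u c d) : (sc u c d l * z).a = l * z.a := by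
  simp [sc]
@[simp] theorem sc_mul_b (l : L) (z : GA u c d) : (sc u c d l * z).b = l * z.b := by
  simp [sc]

/-- the element `x` -/
def x : GA u c d := mk 0 1 0
/-- the element `y` -/
def y : GA u c d := mk 0 0 1
/-- the element `s` -/
def s : GA u c d := incl u c d X

@[simp] theorem x_g : (x : GA u c d).g = 0 := rfl
@[simp] theorem x_a : (x : GA u c d).a = 1 := rfl
@[simp] theorem x_b : (x : GA u c d).b = 0 := rfl
@[simp] theorem y_g : (y : GA u c d).g = 0 := rfl
@[simp] theorem y_a : (y : GA u c d).a = 0 := rfl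
@[simp] theorem y_b : (y : GA u c d).b = 1 := rfl
@[simp] theorem s_g : (s : GA u c d).g = X := rfl
@[simp] theorem s_a : (s : GA u c d).a = 0 := rfl
@[simp] theorem s_b : (s : GA u c d).b = 0 := rfl
@[simp] theorem sc_g (l : L) : (sc u c d l).g = C l := rfl
@[simp] theorem sc_a (l : L) : (sc u c d l).a = 0 := rfl
@[simp] theorem sc_b (l : L) : (sc u c d l).b = 0 := rfl

/-- the element `u` -/
def uu : GA u c d := sc u c d u
/-- the element `v` -/
def vv : GA u c d := sc u c d c - y
/-- the element `t` -/
def tt : GA u c d := sc u c d d - x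

theorem x_mul_s : (x : GA u c d) * s = 0 := by ext1 <;> simp
theorem y_mul_s : (y : GA u c d) * s = 0 := by ext1 <;> simp
theorem x_mul_t : (x : GA u c d) * tt = 0 := by ext1 <;> simp [tt]
theorem y_mul_t : (y : GA u c d) * tt = 0 := by ext1 <;> simp [tt]
theorem x_mul_u : (x : GA u c d) * uu = y * vv := by ext1 <;> simp [uu, vv]

theorem decomp (z : GA u c d) : z = incl u c d z.g + sc u c d z.a * x + sc u c d z.b * y := by
  ext1 <;> simp

instance [IsNoetherianRing L] : IsNoetherianRing (GA u c d) := by
  let _ : Algebra L⟦X⟧ (GA u c d) := (incl u c d).toAlgebra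
  let S : Set (GA u c d) := {1, (x : GA u c d), (y : GA u c d)}
  have hfin : Module.Finite L⟦X⟧ (GA u c d) := by
    refine ⟨Submodule.fg_def.2 ⟨S, Set.toFinite _, ?_⟩⟩
    rw [eq_top_iff]
    intro z _
    rw [decomp z]
    have h1 : (1 : GA u c d) ∈ Submodule.span L⟦X⟧ S := Submodule.subset_span (by simp [S])
    have h2 : (x : GA u c d) ∈ Submodule.span L⟦X⟧ S := Submodule.subset_span (by simp [S])
    have h3 : (y : GA u c d) ∈ Submodule.span L⟦X⟧ S := Submodule.subset_span (by simp [S])
    refine Submodule.add_mem _ (Submodule.add_mem _ ?_ ?_) ?_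
    · have := Submodule.smul_mem _ z.g h1
      rw [Algebra.smul_def, mul_one] at this
      exact this
    · have := Submodule.smul_mem _ (C z.a : L⟦X⟧) h2
      rw [Algebra.smul_def] at this
      exact this
    · have := Submodule.smul_mem _ (C z.b : L⟦X⟧) h3
      rw [Algebra.smul_def] at this
      exact this
  have : IsNoetherian L⟦X⟧ (GA u c d) := isNoetherian_of_isNoetherianRing_of_finite _ _
  exact isNoetherian_of_tower L⟦X⟧ this

theorem isUnit_iff [IsLocalRing L] (hu : u ∈ IsLocalRing.maximalIdeal L)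
    (hc : c ∈ IsLocalRing.maximalIdeal L) (hd : d ∈ IsLocalRing.maximalIdeal L)
    (z : GA u c d) : IsUnit z ↔ IsUnit z.g := by
  constructor
  · intro h; exact h.map (proj u c d)
  · intro h
    obtain ⟨w, hw⟩ := h.exists_right_inv
    have hw0 : constantCoeff z.g * constantCoeff w = 1 := by
      rw [← map_mul, hw, map_one]
    have hz0 : IsUnit (constantCoeff z.g) := IsUnit.of_mul_eq_one _ hw0
    set z0 := constantCoeff z.g with hz0def
    set w0 := constantCoeff w with hw0def
    have hadd : ∀ (p q : L), IsUnit p → q ∈ IsLocalRing.maximalIdeal L → IsUnit (p + q) := by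
      intro p q hp hq
      by_contra hcon
      have h1 : p + q ∈ IsLocalRing.maximalIdeal L := hcon
      have h2 : p ∈ IsLocalRing.maximalIdeal L := by
        have := Ideal.sub_mem _ h1 hq
        simpa using this
      exact h2 hp
    have hp1 : IsUnit (z0 + d * z.a) := hadd _ _ hz0 (Ideal.mul_mem_right _ _ hd)
    have hp2 : IsUnit (z0 + d * z.a + c * z.b) := hadd _ _ hp1 (Ideal.mul_mem_right _ _ hc)
    have hp3 : IsUnit ((z0 + d * z.a) * (z0 + d * z.a + c * z.b) + u * (d * z.b ^ 2)) :=
      hadd _ _ (hp1.mul hp2) (Ideal.mul_mem_right _ _ hu)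
    obtain ⟨δ, hδ⟩ := hp3.exists_right_inv
    refine IsUnit.of_mul_eq_one (mk w
      ((-(w0 * z.a * (z0 + d * z.a + c * z.b)) - u * z.b * (w0 * z.b)) * δ)
      (-(z.b) * δ)) ?_
    ext1
    · simpa using hw
    · simp only [a_mul, g_mk, a_mk, b_mk, a_one, ← hz0def, ← hw0def]
      linear_combination (-(w0 * z.a)) * hδ - (u * z.b ^ 2 * δ) * hw0
    · simp only [b_mul, g_mk, a_mk, b_mk, b_one, ← hz0def, ← hw0def]
      linear_combination (-(w0 * z.b)) * hδ + (z.b * δ * (z0 + d * z.a + c * z.b)) * hw0

theorem isLocalRing [IsLocalRing L] (hu : u ∈ IsLocalRing.maximalIdeal L)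
    (hc : c ∈ IsLocalRing.maximalIdeal L) (hd : d ∈ IsLocalRing.maximalIdeal L) :
    IsLocalRing (GA u c d) := by
  have : Nontrivial (GA u c d) := (proj_surjective (u := u) (c := c) (d := d)).nontrivial
  refine IsLocalRing.of_isUnit_or_isUnit_one_sub_self fun z => ?_
  rw [isUnit_iff hu hc hd, isUnit_iff hu hc hd]
  exact IsLocalRing.isUnit_or_isUnit_one_sub_self z.g

end GA

end Pool.Agent.Helper16
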