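import Pool.Agent.Helper16.Abund.Defs
import Pool.Agent.Helper8.Abund.TwoForms

/-!
An `L^q` pluricanonical form on a connected covering with infinite fibres forces two linearly
independent pluricanonical forms of the same weight on the base.
-/

open scoped Manifold ContDiff ENNReal
open Pool.Agent.Helper16.Abund

namespace Pool.Agent.Helper16.KodairaPositive

theorem result {n : ℕ} {X Y : Type*} [TopologicalSpace X] [T2Space X] [CompactSpace X]
    [ConnectedSpace X] [ChartedSpace (Fin n → ℂ) X] [TopologicalSpace Y] [ConnectedSpace Y]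
    [ChartedSpace (Fin n → ℂ) Y]
    [IsManifold 𝓘(ℂ, Fin n → ℂ) ω X] [IsManifold 𝓘(ℂ, Fin n → ℂ) ω Y] {p : Y → X}
    (hcov : IsCoveringMap p)
    (hloc : IsLocalDiffeomorph 𝓘(ℂ, Fin n → ℂ) 𝓘(ℂ, Fin n → ℂ) ω p)
    (hinf : ∃ x, (p ⁻¹' {x}).Infinite) {m : ℕ} (hm : 1 ≤ m)
    {η : Y → ℂ} (hη : IsPluriForm n Y m η) (hne : ∃ y, η y ≠ 0) {q : ℝ} (hq : 0 < q)
    (hLq : FibreLq n p m q η) :
    ∃ ℓ : ℕ, 1 ≤ ℓ ∧ ∃ c₁ c₂ : X → ℂ, IsPluriForm n X ℓ c₁ ∧ IsPluriForm n X ℓ c₂ ∧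
      LinearIndependent ℂ ![c₁, c₂] :=
  exists_two_forms hcov hloc hm hη hq hLq hne hinf

end Pool.Agent.Helper16.KodairaPositive
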