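import Mathlib

namespace Pool.Agent.Helper16.StarForest

open Function Equiv

variable {V : Type*}

open Classical in
/-- Index of `v` on the cycle of `r`. -/
noncomputable def idx (π : Perm V) (r v : V) : ℕ :=
  if h : ∃ j : ℕ, (π^[j]) r = v then Nat.find h else 0

theorem idx_iterate (π : Perm V) (r : V) {j : ℕ} (hj : j < minimalPeriod π r) :
    idx π r (π^[j] r) = j := by
  classical
  have h : ∃ i : ℕ, (π^[i]) r = π^[j] r := ⟨j, rfl⟩
  have h1 : idx π r (π^[j] r) = Nat.find h := by
    unfold idx
    rw [dif_pos h]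
  rw [h1]
  have h2 : Nat.find h ≤ j := Nat.find_min' h rfl
  have h3 : π^[Nat.find h] r = π^[j] r := Nat.find_spec h
  exact (iterate_injOn_Iio_minimalPeriod (f := π) (x := r)) (Set.mem_Iio.2 (lt_of_le_of_lt h2 hj))
    (Set.mem_Iio.2 hj) h3

theorem period_pos [Finite V] (π : Perm V) (r : V) : 0 < minimalPeriod π r :=
  minimalPeriod_pos_of_mem_periodicPts
      ((Function.Injective.mem_periodicPts π.injective) r)

theorem exists_iterate [Finite V] {π : Perm V} {r v : V} (h : π.SameCycle r v) :
    ∃ j < minimalPeriod π r, π^[j] r = v := by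
  obtain ⟨i, hi⟩ := h.exists_nat_pow_eq
  refine ⟨i % minimalPeriod π r, Nat.mod_lt _ (period_pos π r), ?_⟩
  rw [iterate_mod_minimalPeriod_eq, ← hi]
  rfl

theorem sameCycle_iterate (π : Perm V) (r : V) (j : ℕ) : π.SameCycle r (π^[j] r) :=
  ⟨j, by rw [zpow_natCast, Perm.iterate_eq_pow]⟩

/-- Take the next point of the cycle if the index satisfies `P`, the previous point otherwise. -/
noncomputable def alt (P : ℕ → Prop) [DecidablePred P] (π : Perm V) (r v : V) : V :=
  if P (idx π r v) then π v else π.symm v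

theorem alt_iterate (P : ℕ → Prop) [DecidablePred P] (π : Perm V) (r : V) {j : ℕ}
    (hj : j < minimalPeriod π r) :
    alt P π r (π^[j] r) = if P j then π^[j+1] r else π.symm (π^[j] r) := by
  unfold alt
  rw [idx_iterate π r hj, iterate_succ_apply']

theorem symm_iterate_succ (π : Perm V) (r : V) (j : ℕ) : π.symm (π^[j+1] r) = π^[j] r := by
  rw [iterate_succ_apply', symm_apply_apply]

theorem iterate_ne_self {π : Perm V} {r : V} {j : ℕ} (h0 : 0 < j) (hj : j < minimalPeriod π r) :
    π^[j] r ≠ r := by
  intro h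
  have := IsPeriodicPt.minimalPeriod_le (f := π) (x := r) h0 h
  omega

/-- The path matching on an odd cycle without its base point. -/
theorem alt_odd_spec [Finite V] {π : Perm V} {r v : V} (hodd : Odd (minimalPeriod π r))
    (hv : π.SameCycle r v) (hne : v ≠ r) :
    π.SameCycle r (alt Odd π r v) ∧ alt Odd π r v ≠ r ∧ alt Odd π r (alt Odd π r v) = v := by
  obtain ⟨j, hj, rfl⟩ := exists_iterate hv
  have hj0 : j ≠ 0 := by
    rintro rfl
    exact hne rfl
  obtain ⟨m, hm⟩ := hodd
  rw [alt_iterate Odd π r hj]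
  by_cases ho : Odd j
  · rw [if_pos ho]
    obtain ⟨t, ht⟩ := ho
    have hlt : j + 1 < minimalPeriod π r := by omega
    refine ⟨sameCycle_iterate π r _, iterate_ne_self (by omega) hlt, ?_⟩
    rw [alt_iterate Odd π r hlt, if_neg, symm_iterate_succ]
    rw [Nat.not_odd_iff_even]
    exact ⟨t + 1, by omega⟩
  · rw [if_neg ho]
    obtain ⟨i, rfl⟩ : ∃ i, j = i + 1 := ⟨j - 1, by omega⟩
    rw [symm_iterate_succ]
    have hev : Even (i + 1) := Nat.not_odd_iff_even.1 ho
    obtain ⟨t, ht⟩ := hev
    refine ⟨sameCycle_iterate π r _, iterate_ne_self (by omega) (by omega), ?_⟩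
    rw [alt_iterate Odd π r (by omega), if_pos]
    exact ⟨t - 1, by omega⟩

variable (G : SimpleGraph V)

/-- Permutations moving every point to a neighbour. -/
def Moves (π : Perm V) : Prop := ∀ v, G.Adj v (π v)

theorem Moves.symm {G : SimpleGraph V} {π : Perm V} (h : Moves G π) (v : V) :
    G.Adj v (π.symm v) := by
  have := h (π.symm v)
  rw [apply_symm_apply] at this
  exact this.symm

theorem Moves.alt {G : SimpleGraph V} {π : Perm V} (h : Moves G π) (P : ℕ → Prop)
    [DecidablePred P] (r v : V) : G.Adj v (alt P π r v) := by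
  unfold StarForest.alt
  split_ifs
  · exact h v
  · exact h.symm v

theorem exists_moves [Fintype V] [DecidableEq V] [DecidableRel G.Adj] (d : ℕ) (hd : 1 ≤ d)
    (hreg : ∀ v, G.degree v = d) : ∃ π : Perm V, Moves G π := by
  classical
  have hall : ∀ S : Finset V, S.card ≤ (S.biUnion fun v => G.neighborFinset v).card := by
    intro S
    have h1 : ∑ v ∈ S, (G.neighborFinset v).card = d * S.card := by
      rw [Finset.sum_congr rfl (fun v _ => by rw [SimpleGraph.card_neighborFinset_eq_degree, hreg v])]
      rw [Finset.sum_const, smul_eq_mul, mul_comm]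
    have h2 : ∑ v ∈ S, (G.neighborFinset v).card ≤
        ∑ w ∈ S.biUnion (fun v => G.neighborFinset v), (G.neighborFinset w).card := by
      have e1 : ∑ v ∈ S, (G.neighborFinset v).card =
          ∑ v ∈ S, ∑ w ∈ S.biUnion (fun v => G.neighborFinset v), if G.Adj v w then 1 else 0 := by
        refine Finset.sum_congr rfl fun v hv => ?_
        rw [← Finset.sum_filter, Finset.card_eq_sum_ones]
        refine Finset.sum_congr ?_ fun _ _ => rfl
        ext w
        simp only [SimpleGraph.mem_neighborFinset, Finset.mem_filter, Finset.mem_biUnion]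
        exact ⟨fun h => ⟨⟨v, hv, h⟩, h⟩, fun h => h.2⟩
      rw [e1, Finset.sum_comm]
      refine Finset.sum_le_sum fun w _ => ?_
      rw [← Finset.sum_filter, Finset.card_eq_sum_ones]
      refine Finset.sum_le_sum_of_subset ?_
      intro v hv
      rw [Finset.mem_filter] at hv
      rw [SimpleGraph.mem_neighborFinset]
      exact hv.2.symm
    have h3 : ∑ w ∈ S.biUnion (fun v => G.neighborFinset v), (G.neighborFinset w).card =
        d * (S.biUnion fun v => G.neighborFinset v).card := by
      rw [Finset.sum_congr rfl (fun v _ => by rw [SimpleGraph.card_neighborFinset_eq_degree, hreg v])]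
      rw [Finset.sum_const, smul_eq_mul, mul_comm]
    rw [h1, h3] at h2
    exact Nat.le_of_mul_le_mul_left h2 (by omega)
  obtain ⟨f, hf, hf2⟩ :=
    (Finset.all_card_le_biUnion_card_iff_exists_injective fun v => G.neighborFinset v).1 hall
  refine ⟨Equiv.ofBijective f (Finite.injective_iff_bijective.1 hf), fun v => ?_⟩
  rw [Equiv.ofBijective_apply, ← SimpleGraph.mem_neighborFinset]
  exact hf2 v

/-- The number of points of odd period. -/
noncomputable def oddCount [Fintype V] (π : Perm V) : ℕ :=
  by classical exact (Finset.univ.filter fun v => Odd (minimalPeriod π v)).card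

/-- The improved permutation. -/
theorem exists_better [Fintype V] {π : Perm V} (hπ : Moves G π) {u w : V}
    (hu : Odd (minimalPeriod π u)) (hw : Odd (minimalPeriod π w)) (huw : ¬ π.SameCycle u w)
    (hadj : G.Adj u w) : ∃ π' : Perm V, Moves G π' ∧ oddCount π' < oddCount π := by
  classical
  set g : V → V := fun v => if π.SameCycle u v then (if v = u then w else alt Odd π u v)
    else if π.SameCycle w v then (if v = w then u else alt Odd π w v) else π v with hg
  have hwu : ¬ π.SameCycle w u := fun h => huw h.symm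
  -- the swapped set
  set T : Set V := {v | π.SameCycle u v ∨ π.SameCycle w v} with hT
  have gu : g u = w := by
    simp only [hg, if_pos (Perm.SameCycle.refl π u), if_true]
  have gw : g w = u := by
    simp only [hg, if_neg huw, if_pos (Perm.SameCycle.refl π w), if_true]
  have g1 : ∀ v, π.SameCycle u v → v ≠ u → g v = alt Odd π u v := by
    intro v h1 h2
    simp only [hg]
    rw [if_pos h1, if_neg h2]
  have g2 : ∀ v, π.SameCycle w v → v ≠ w → g v = alt Odd π w v := by
    intro v h1 h2
    have h3 : ¬ π.SameCycle u v := fun h => huw (h.trans h1.symm)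
    simp only [hg]
    rw [if_neg h3, if_pos h1, if_neg h2]
  have g3 : ∀ v, v ∉ T → g v = π v := by
    intro v h1
    simp only [hT, Set.mem_ofPred_eq, not_or] at h1
    simp only [hg]
    rw [if_neg h1.1, if_neg h1.2]
  have key : ∀ v ∈ T, g v ∈ T ∧ g (g v) = v := by
    intro v hv
    rcases hv with hv | hv
    · by_cases hvu : v = u
      · subst hvu
        rw [gu, gw]
        exact ⟨Or.inr (Perm.SameCycle.refl π w), rfl⟩
      · obtain ⟨a1, a2, a3⟩ := alt_odd_spec hu hv hvu
        rw [g1 v hv hvu]
        refine ⟨Or.inl a1, ?_⟩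
        rw [g1 _ a1 a2, a3]
    · by_cases hvw : v = w
      · subst hvw
        rw [gw, gu]
        exact ⟨Or.inl (Perm.SameCycle.refl π u), rfl⟩
      · obtain ⟨a1, a2, a3⟩ := alt_odd_spec hw hv hvw
        rw [g2 v hv hvw]
        refine ⟨Or.inr a1, ?_⟩
        rw [g2 _ a1 a2, a3]
  have hTπ : ∀ v, π v ∈ T ↔ v ∈ T := by
    intro v
    simp only [hT, Set.mem_ofPred_eq, Perm.sameCycle_apply_right]
  have hinj : Injective g := by
    intro x y hxy
    by_cases hx : x ∈ T <;> by_cases hy : y ∈ T
    · rw [← (key x hx).2, ← (key y hy).2, hxy]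
    · exfalso
      have h1 := (key x hx).1
      rw [hxy, g3 y hy, hTπ] at h1
      exact hy h1
    · exfalso
      have h1 := (key y hy).1
      rw [← hxy, g3 x hx, hTπ] at h1
      exact hx h1
    · rw [g3 x hx, g3 y hy] at hxy
      exact π.injective hxy
  set π' : Perm V := Equiv.ofBijective g (Finite.injective_iff_bijective.1 hinj) with hπ'
  have happ : ∀ v, π' v = g v := fun v => rfl
  have hmov : Moves G π' := by
    intro v
    rw [happ]
    by_cases hv : v ∈ T
    · rcases hv with hv | hv
      · by_cases hvu : v = u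
        · rw [hvu, gu]; exact hadj
        · rw [g1 v hv hvu]; exact hπ.alt Odd u v
      · by_cases hvw : v = w
        · rw [hvw, gw]; exact hadj.symm
        · rw [g2 v hv hvw]; exact hπ.alt Odd w v
    · rw [g3 v hv]; exact hπ v
  refine ⟨π', hmov, ?_⟩
  have hevT : ∀ v ∈ T, ¬ Odd (minimalPeriod π' v) := by
    intro v hv
    have h2 : IsPeriodicPt π' 2 v := by
      change π' (π' v) = v
      rw [happ, happ]
      exact (key v hv).2
    have hdvd := h2.minimalPeriod_dvd
    have hne : minimalPeriod π' v ≠ 1 := by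
      intro h
      rw [minimalPeriod_eq_one_iff_isFixedPt] at h
      have h3 := hmov v
      rw [h] at h3
      exact h3.ne rfl
    rcases (Nat.dvd_prime Nat.prime_two).1 hdvd with h | h
    · exact absurd h hne
    · rw [h]; decide
  have hout : ∀ v, v ∉ T → ∀ k : ℕ, π'^[k] v = π^[k] v ∧ π^[k] v ∉ T := by
    intro v hv k
    induction k with
    | zero => exact ⟨rfl, hv⟩
    | succ k ih =>
      rw [iterate_succ_apply', iterate_succ_apply', ih.1, happ, g3 _ ih.2]
      exact ⟨rfl, fun h => ih.2 ((hTπ _).1 h)⟩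
  have hper : ∀ v, v ∉ T → minimalPeriod π' v = minimalPeriod π v := by
    intro v hv
    apply Nat.dvd_antisymm
    · apply IsPeriodicPt.minimalPeriod_dvd
      change π'^[_] v = v
      rw [(hout v hv _).1]
      exact isPeriodicPt_minimalPeriod π v
    · apply IsPeriodicPt.minimalPeriod_dvd
      change π^[_] v = v
      rw [← (hout v hv _).1]
      exact isPeriodicPt_minimalPeriod π' v
  unfold oddCount
  apply Finset.card_lt_card
  rw [Finset.ssubset_iff_of_subset]
  · refine ⟨u, ?_, ?_⟩
    · simp only [Finset.mem_filter, Finset.mem_univ, true_and]; exact hu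
    · simp only [Finset.mem_filter, Finset.mem_univ, true_and]
      exact hevT u (Or.inl (Perm.SameCycle.refl π u))
  · intro v hv
    simp only [Finset.mem_filter, Finset.mem_univ, true_and] at hv ⊢
    by_cases hvT : v ∈ T
    · exact absurd hv (hevT v hvT)
    · rw [← hper v hvT]; exact hv

/-- A permutation along edges with no edge between distinct odd cycles. -/
theorem exists_good [Fintype V] [DecidableEq V] [DecidableRel G.Adj] (d : ℕ) (hd : 1 ≤ d)
    (hreg : ∀ v, G.degree v = d) : ∃ π : Perm V, Moves G π ∧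
      ∀ u w, Odd (minimalPeriod π u) → Odd (minimalPeriod π w) → ¬ π.SameCycle u w →
        ¬ G.Adj u w := by
  classical
  have hex : ∃ n, ∃ π : Perm V, Moves G π ∧ oddCount π = n := by
    obtain ⟨π, hπ⟩ := exists_moves G d hd hreg
    exact ⟨_, π, hπ, rfl⟩
  obtain ⟨π, hπ, hn⟩ := Nat.find_spec hex
  refine ⟨π, hπ, fun u w hu hw huw hadj => ?_⟩
  obtain ⟨π', h1, h2⟩ := exists_better G hπ hu hw huw hadj
  have := Nat.find_min' hex ⟨π', h1, rfl⟩
  omega

theorem exists_star_forest {V : Type*} [Fintype V] [DecidableEq V] (G : SimpleGraph V)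
    [DecidableRel G.Adj] (d : ℕ) (hd : 1 ≤ d) (hreg : ∀ v, G.degree v = d) :
    ∃ (F : SimpleGraph V) (Z A B : Set V), F ≤ G ∧
      (∀ v ∉ Z, ∃ u, ∀ w, F.Adj v w ↔ w = u) ∧
      (∀ z ∈ Z, ∃ a ∈ A, ∃ b ∈ B, ∀ w, F.Adj z w ↔ (w = a ∨ w = b)) ∧
      (∀ v ∈ A ∪ B, ∀ w, F.Adj v w → w ∈ Z) ∧
      Disjoint A B ∧ Disjoint Z (A ∪ B) ∧
      (∀ u ∈ A, ∀ v ∈ A, ¬ G.Adj u v) ∧
      (∀ u ∈ B, ∀ v ∈ B, ¬ G.Adj u v) ∧
      (∀ u ∈ Z, ∀ v ∈ Z, ¬ G.Adj u v) := by
  classical
  obtain ⟨π, hπ, hgood⟩ := exists_good G d hd hreg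
  -- base points
  let st : Setoid V := Perm.SameCycle.setoid π
  let c : V → V := fun v => (Quotient.mk st v).out
  have hc1 : ∀ v, π.SameCycle (c v) v := fun v => Quotient.exact (Quotient.out_eq (Quotient.mk st v))
  have hc2 : ∀ v w, π.SameCycle v w → c v = c w := by
    intro v w h
    have : Quotient.mk st v = Quotient.mk st w := Quotient.sound h
    simp only [c, this]
  have hcc : ∀ v, c (c v) = c v := fun v => hc2 _ _ (hc1 v)
  have hcπ : ∀ v, c (π v) = c v := fun v => hc2 _ _ (by
    rw [Perm.sameCycle_apply_left])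
  have hcs : ∀ v, c (π.symm v) = c v := fun v => by
    rw [← hcπ (π.symm v), apply_symm_apply]
  let f : V → V := fun v => alt Even π (c v) v
  have hfadj : ∀ v, G.Adj v (f v) := fun v => hπ.alt Even (c v) v
  have hπne : ∀ v, π v ≠ v := fun v h => (hπ v).ne h.symm
  let Z : Set V := {z | c z = z ∧ Odd (minimalPeriod π z)}
  have hZ : ∀ z, z ∈ Z ↔ c z = z ∧ Odd (minimalPeriod π z) := fun z => Iff.rfl
  have hper3 : ∀ z, Odd (minimalPeriod π z) → 3 ≤ minimalPeriod π z := by
    intro z hz
    have h1 : minimalPeriod π z ≠ 1 := by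
      intro h
      rw [minimalPeriod_eq_one_iff_isFixedPt] at h
      exact hπne z h
    obtain ⟨m, hm⟩ := hz
    omega
  -- values of f
  have hfz : ∀ z ∈ Z, f z = π z := by
    intro z hz
    have h0 := hz.1
    have h1 := alt_iterate Even π z (j := 0) (period_pos π z)
    rw [if_pos (by decide)] at h1
    simp only [iterate_zero, id_eq, iterate_one, zero_add] at h1
    simp only [f, h0]
    exact h1
  have hperc : ∀ v, minimalPeriod π (c v) = minimalPeriod π v := by
    intro v
    obtain ⟨j, _, hj2⟩ := exists_iterate (hc1 v)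
    rw [← hj2]
    rw [minimalPeriod_apply_iterate]
    · rw [hj2]
    · exact (Function.Injective.mem_periodicPts π.injective) _
  -- main computation
  have hff : ∀ v, f v ∉ Z → f (f v) = v := by
    intro v hv
    obtain ⟨j, hj, hjv⟩ := exists_iterate (hc1 v)
    have hfv : f v = if Even j then π^[j+1] (c v) else π.symm (π^[j] (c v)) := by
      have := alt_iterate Even π (c v) hj
      rw [hjv] at this
      rw [hjv]
      exact this
    have hcf : c (f v) = c v := by
      rw [hfv, hjv]
      split_ifs
      · rw [iterate_succ_apply', hjv, hcπ]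
      · rw [hcs]
    by_cases hev : Even j
    · rw [if_pos hev] at hfv
      have hlt : j + 1 < minimalPeriod π (c v) := by
        by_contra hcon
        have heq : j + 1 = minimalPeriod π (c v) := by omega
        apply hv
        rw [hfv, heq, iterate_minimalPeriod]
        refine ⟨hcc v, ?_⟩
        rw [← heq]
        exact hev.add_one
      have h2 : f (f v) = alt Even π (c v) (π^[j+1] (c v)) := by
        change alt Even π (c (f v)) (f v) = _
        rw [hcf, hfv]
      rw [h2, alt_iterate Even π (c v) hlt, if_neg, symm_iterate_succ, hjv]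
      rw [Nat.not_even_iff_odd]
      exact hev.add_one
    · rw [if_neg hev] at hfv
      have hj0 : j ≠ 0 := by rintro rfl; exact hev (by decide)
      obtain ⟨i, rfl⟩ : ∃ i, j = i + 1 := ⟨j - 1, by omega⟩
      rw [symm_iterate_succ] at hfv
      have h2 : f (f v) = alt Even π (c v) (π^[i] (c v)) := by
        change alt Even π (c (f v)) (f v) = _
        rw [hcf, hfv]
      have hodd : Odd (i + 1) := Nat.not_even_iff_odd.1 hev
      rw [h2, alt_iterate Even π (c v) (by omega), if_pos, hjv]
      rw [Nat.odd_add_one, Nat.not_odd_iff_even] at hodd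
      exact hodd
  have hfcases : ∀ v, f v = π v ∨ f v = π.symm v := by
    intro v
    change alt Even π (c v) v = _ ∨ alt Even π (c v) v = _
    unfold alt
    split_ifs
    · exact Or.inl rfl
    · exact Or.inr rfl
  -- the last point of an odd cycle
  have hlast : ∀ z ∈ Z, f (π.symm z) = z := by
    intro z hz
    have h3 := hper3 z hz.2
    obtain ⟨n, hn⟩ : ∃ n, minimalPeriod π z = n + 1 := ⟨minimalPeriod π z - 1, by omega⟩
    have h1 : π^[n] z = π.symm z := by
      rw [← symm_iterate_succ π z n, ← hn, iterate_minimalPeriod]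
    have h2 : Even n := by
      have := hz.2
      rw [hn, Nat.odd_add_one, Nat.not_odd_iff_even] at this
      exact this
    change alt Even π (c (π.symm z)) (π.symm z) = z
    rw [hcs, hz.1, ← h1, alt_iterate Even π z (by omega), if_pos h2, ← hn, iterate_minimalPeriod]
  have hfirst : ∀ z ∈ Z, f (π z) = z := by
    intro z hz
    have h3 := hper3 z hz.2
    have h1 : π^[1] z = π z := rfl
    change alt Even π (c (π z)) (π z) = z
    rw [hcπ, hz.1, ← h1, alt_iterate Even π z (by omega), if_neg (by decide)]
    exact symm_apply_apply π z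
  -- leaves
  let A : Set V := {a | ∃ z ∈ Z, a = π.symm z}
  let B : Set V := {b | ∃ z ∈ Z, b = π z}
  let F : SimpleGraph V := SimpleGraph.fromRel (fun v w => w = f v)
  have hF : ∀ v w, F.Adj v w ↔ (w = f v ∨ v = f w) := by
    intro v w
    simp only [F, SimpleGraph.fromRel_adj]
    constructor
    · exact fun h => h.2
    · intro h
      refine ⟨?_, h⟩
      rintro rfl
      rcases h with h | h
      · exact (hfadj v).ne h
      · exact (hfadj v).ne h
  have hcA : ∀ z, c z = z → c (π.symm z) = z := fun z hz => by rw [hcs, hz]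
  have hcB : ∀ z, c z = z → c (π z) = z := fun z hz => by rw [hcπ, hz]
  have hAZ : ∀ a ∈ A, a ∉ Z := by
    rintro a ⟨z, hz, rfl⟩ ha
    have h1 := ha.1
    rw [hcA z hz.1] at h1
    apply hπne z
    have h2 := congrArg π h1
    rw [apply_symm_apply] at h2
    exact h2
  have hBZ : ∀ b ∈ B, b ∉ Z := by
    rintro b ⟨z, hz, rfl⟩ hb
    have h1 := hb.1
    rw [hcB z hz.1] at h1
    exact hπne z h1.symm
  have hindep : ∀ z ∈ Z, ∀ z' ∈ Z, z ≠ z' → ∀ u w, c u = z → c w = z' → ¬ G.Adj u w := by
    intro z hz z' hz' hne u w hu hw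
    apply hgood
    · rw [← hperc u, hu]; exact hz.2
    · rw [← hperc w, hw]; exact hz'.2
    · intro h
      apply hne
      rw [← hu, ← hw]
      exact hc2 _ _ h
  refine ⟨F, Z, A, B, ?_, ?_, ?_, ?_, ?_, ?_, ?_, ?_, ?_⟩
  · intro v w h
    rcases (hF v w).1 h with h | h
    · rw [h]; exact hfadj v
    · rw [h]; exact (hfadj w).symm
  · intro v hv
    refine ⟨f v, fun w => ?_⟩
    rw [hF]
    constructor
    · rintro (h | h)
      · exact h
      · have : f (f w) = w := hff w (by rw [← h]; exact hv)
        rw [h, this]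
    · exact fun h => Or.inl h
  · intro z hz
    refine ⟨π.symm z, ⟨z, hz, rfl⟩, π z, ⟨z, hz, rfl⟩, fun w => ?_⟩
    rw [hF, hfz z hz]
    constructor
    · rintro (h | h)
      · exact Or.inr h
      · rcases hfcases w with h1 | h1
        · left
          rw [h, h1, symm_apply_apply]
        · right
          rw [h, h1, apply_symm_apply]
    · rintro (h | h)
      · right
        rw [h]
        exact (hlast z hz).symm
      · exact Or.inl h
  · rintro v (hv | hv) w hvw
    · have hvZ := hAZ v hv
      obtain ⟨z, hz, rfl⟩ := hv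
      rcases (hF _ _).1 hvw with h | h
      · rw [h, hlast z hz]; exact hz
      · have h1 : f (f w) = w := hff w (by rw [← h]; exact hvZ)
        rw [← h1, ← h, hlast z hz]; exact hz
    · have hvZ := hBZ v hv
      obtain ⟨z, hz, rfl⟩ := hv
      rcases (hF _ _).1 hvw with h | h
      · rw [h, hfirst z hz]; exact hz
      · have h1 : f (f w) = w := hff w (by rw [← h]; exact hvZ)
        rw [← h1, ← h, hfirst z hz]; exact hz
  · rw [Set.disjoint_left]
    rintro a ⟨z, hz, rfl⟩ ⟨z', hz', h⟩
    have h1 : z = z' := by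
      rw [← hcA z hz.1, h, hcB z' hz'.1]
    subst h1
    have h2 : π (π z) = z := by
      rw [← h, apply_symm_apply]
    have h3 : IsPeriodicPt π 2 z := h2
    have h4 := h3.minimalPeriod_le (by norm_num)
    have h5 := hper3 z hz.2
    omega
  · rw [Set.disjoint_left]
    rintro a ha (h | h)
    · exact hAZ a h ha
    · exact hBZ a h ha
  · rintro u ⟨z, hz, rfl⟩ v ⟨z', hz', rfl⟩
    by_cases h : z = z'
    · rw [h]; exact G.loopless.irrefl _
    · exact hindep z hz z' hz' h _ _ (hcA z hz.1) (hcA z' hz'.1)
  · rintro u ⟨z, hz, rfl⟩ v ⟨z', hz', rfl⟩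
    by_cases h : z = z'
    · rw [h]; exact G.loopless.irrefl _
    · exact hindep z hz z' hz' h _ _ (hcB z hz.1) (hcB z' hz'.1)
  · intro z hz z' hz'
    by_cases h : z = z'
    · rw [h]; exact G.loopless.irrefl _
    · exact hindep z hz z' hz' h _ _ hz.1 hz'.1

end Pool.Agent.Helper16.StarForest
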