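import Mathlib

set_option autoImplicit false

namespace Pool.Agent.Helper16.Stick

open Finset

/-! ### Teichmuller character -/

section teich

variable {𝕂 : Type} [Field 𝕂]

theorem charP_res {p : ℕ} (hp : p.Prime) (O : ValuationSubring 𝕂)
    (hO : (p : 𝕂) ∈ O.nonunits) : CharP (IsLocalRing.ResidueField O) p := by
  rw [CharP.charP_iff_prime_eq_zero hp]
  have h : ((p : O) : 𝕂) ∈ O.nonunits := by simpa using hO
  rw [ValuationSubring.coe_mem_nonunits_iff] at h
  have := (IsLocalRing.residue_eq_zero_iff (p : O)).2 h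
  simpa using this

theorem algClosed_res [IsAlgClosed 𝕂] (O : ValuationSubring 𝕂) :
    IsAlgClosed (IsLocalRing.ResidueField O) := by
  apply IsAlgClosed.of_exists_root
  intro P hP hirr
  have hl : P ∈ Polynomial.lifts (IsLocalRing.residue O) :=
    (Polynomial.lifts_iff_coeff_lifts P).2 fun n => IsLocalRing.residue_surjective _
  obtain ⟨Q, hQ, hdeg, hmon⟩ := Polynomial.lifts_and_natDegree_eq_and_monic hl hP
  have hd : (Q.map (algebraMap O 𝕂)).degree ≠ 0 := by
    rw [hmon.degree_map, Polynomial.degree_eq_natDegree hmon.ne_zero, hdeg]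
    have := hirr.natDegree_pos
    exact_mod_cast this.ne'
  obtain ⟨α, hα⟩ := IsAlgClosed.exists_root _ hd
  have hint : IsIntegral O α := ⟨Q, hmon, by
    rw [Polynomial.IsRoot, Polynomial.eval_map] at hα; exact hα⟩
  obtain ⟨a, rfl⟩ := IsIntegrallyClosed.isIntegral_iff.1 hint
  refine ⟨IsLocalRing.residue O a, ?_⟩
  have h0 : Q.eval a = 0 := by
    have : (algebraMap O 𝕂) (Q.eval a) = 0 := by
      rw [Polynomial.IsRoot, Polynomial.eval_map, Polynomial.eval₂_at_apply] at hα
      exact hα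
    exact (map_eq_zero_iff _ (IsFractionRing.injective O 𝕂)).1 this
  rw [← hQ, Polynomial.eval_map, Polynomial.eval₂_at_apply, h0, map_zero]

theorem exists_teich {p f : ℕ} (hp : p.Prime) (hf : f ≠ 0) {F : Type} [Field F] [Fintype F]
    (hF : Fintype.card F = p ^ f) [CharZero 𝕂] [IsAlgClosed 𝕂]
    (O : ValuationSubring 𝕂) (hO : (p : 𝕂) ∈ O.nonunits) :
    ∃ (ι : F →+* IsLocalRing.ResidueField O) (ω : MulChar F 𝕂),
      ∀ x : F, ∃ h : ω x ∈ O, IsLocalRing.residue O ⟨ω x, h⟩ = ι x := by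
  classical
  have : Fact p.Prime := ⟨hp⟩
  have := charP_res hp O hO
  have := algClosed_res O
  have : CharP F p := by
    rw [CharP.charP_iff_prime_eq_zero hp]
    have h : ((Fintype.card F : ℕ) : F) = 0 := FiniteField.cast_card_eq_zero F
    rw [hF, Nat.cast_pow] at h
    exact eq_zero_of_pow_eq_zero h
  let : Algebra (ZMod p) F := ZMod.algebra F p
  let : Algebra (ZMod p) (IsLocalRing.ResidueField O) := ZMod.algebra _ p
  have : Algebra.IsAlgebraic (ZMod p) F := Algebra.IsAlgebraic.of_finite _ _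
  let ι : F →ₐ[ZMod p] IsLocalRing.ResidueField O := IsAlgClosed.lift
  have hq1 : 1 < Fintype.card F := Fintype.one_lt_card
  set n := Fintype.card Fˣ with hn
  have hn' : n = Fintype.card F - 1 := Fintype.card_units F
  have hn0 : n ≠ 0 := by omega
  have : NeZero n := ⟨hn0⟩
  have : NeZero (n : 𝕂) := ⟨by exact_mod_cast hn0⟩
  obtain ⟨ζ, hζ⟩ := HasEnoughRootsOfUnity.exists_primitiveRoot 𝕂 n
  have hval : ∀ x : 𝕂, x ^ n = 1 → x ∈ O := by
    intro x hx
    apply ValuationSubring.mem_of_valuation_le_one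
    have : O.valuation x ^ n = 1 := by rw [← map_pow, hx, map_one]
    by_contra hcon
    exact absurd this (one_lt_pow₀ (not_le.1 hcon) hn0).ne'
  have hζO : ζ ∈ O := hval ζ hζ.pow_eq_one
  set z : O := ⟨ζ, hζO⟩ with hz
  have hzn : z ^ n = 1 := Subtype.ext (by simpa using hζ.pow_eq_one)
  have hnκ : (n : IsLocalRing.ResidueField O) ≠ 0 := by
    intro h
    rw [CharP.cast_eq_zero_iff _ p, hn', hF] at h
    have h1 : p ∣ p ^ f := dvd_pow_self p hf
    have h2 : 1 ≤ p ^ f := Nat.one_le_pow _ _ hp.pos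
    have := (Nat.dvd_sub h1 h)
    rw [Nat.sub_sub_self h2] at this
    exact hp.one_lt.ne' (Nat.dvd_one.1 this)
  have hprim : IsPrimitiveRoot (IsLocalRing.residue O z) n := by
    rw [IsPrimitiveRoot.iff (Nat.pos_of_ne_zero hn0)]
    refine ⟨by rw [← map_pow, hzn, map_one], ?_⟩
    intro l hl hln h
    -- η = z ^ l
    have hne : ζ ^ l ≠ 1 := hζ.pow_ne_one_of_pos_of_lt hl.ne' hln
    have hgeom : ∑ i ∈ range n, (ζ ^ l) ^ i = 0 := by
      have h1 := mul_geom_sum (ζ ^ l) n
      rw [← pow_mul, mul_comm l n, pow_mul, hζ.pow_eq_one, one_pow, sub_self] at h1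
      exact (mul_eq_zero.1 h1).resolve_left (sub_ne_zero.2 hne)
    have hgeom' : ∑ i ∈ range n, (z ^ l) ^ i = 0 := Subtype.ext (by simpa using hgeom)
    have h2 := congrArg (IsLocalRing.residue O) hgeom'
    rw [map_sum, map_zero] at h2
    simp only [map_pow, h, one_pow, sum_const, card_range, nsmul_eq_mul, mul_one] at h2
    exact hnκ h2
  obtain ⟨g, hg⟩ := IsCyclic.exists_generator (α := Fˣ)
  have hgn : (ι (g : F)) ^ n = 1 := by
    rw [← map_pow, ← Units.val_pow_eq_pow_val, hn, pow_card_eq_one, Units.val_one, map_one]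
  obtain ⟨k, hk, hk'⟩ := hprim.eq_pow_of_pow_eq_one hgn
  have hzk : (ζ ^ k) ^ n = 1 := by rw [← pow_mul, mul_comm, pow_mul, hζ.pow_eq_one, one_pow]
  have hζ0 : ζ ≠ 0 := hζ.ne_zero hn0
  set u : 𝕂ˣ := Units.mk0 (ζ ^ k) (pow_ne_zero _ hζ0) with hu
  have humem : u ∈ rootsOfUnity (Fintype.card Fˣ) 𝕂 := by
    rw [mem_rootsOfUnity]; ext; simpa [hu] using hzk
  let ω : MulChar F 𝕂 := MulChar.ofRootOfUnity humem hg
  have hωg : ω (g : F) = ζ ^ k := by
    have := MulChar.ofRootOfUnity_spec humem hg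
    exact this
  refine ⟨(ι : F →+* _), ω, ?_⟩
  intro x
  by_cases hx : x = 0
  · subst hx
    refine ⟨by simp [MulChar.map_zero, O.zero_mem], ?_⟩
    have : (⟨ω 0, by simp [MulChar.map_zero, O.zero_mem]⟩ : O) = 0 :=
      Subtype.ext (by simp [MulChar.map_zero])
    rw [this]; simp
  · obtain ⟨m, hm⟩ := (Subgroup.mem_zpowers_iff.1 (hg (Units.mk0 x hx)))
    obtain ⟨m', hm'⟩ : ∃ m' : ℕ, g ^ m' = Units.mk0 x hx := by
      have : Units.mk0 x hx ∈ Submonoid.powers g := by
        rw [mem_powers_iff_mem_zpowers]; exact hg _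
      exact this
    have hx' : x = (g : F) ^ m' := by
      have := congrArg Units.val hm'
      simpa using this.symm
    have hωx : ω x = (ζ ^ k) ^ m' := by rw [hx', map_pow, hωg]
    have hmem : ω x ∈ O := by
      rw [hωx]
      exact pow_mem (pow_mem hζO _) _
    refine ⟨hmem, ?_⟩
    have h1 : (⟨ω x, hmem⟩ : O) = (z ^ k) ^ m' := Subtype.ext (by simp [hωx, hz])
    rw [h1, map_pow, map_pow, hk']
    simp [hx']

end teich

end Pool.Agent.Helper16.Stick
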