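import Pool.Agent.Helper16.Stick1

set_option autoImplicit false

namespace Pool.Agent.Helper16.Stick

open Finset

/-! ### Reduction of a Jacobi sum -/

theorem sum_inv_pow {F : Type} [Field F] [Fintype F] {j : ℕ} (hj : 1 ≤ j)
    (hj' : j + 2 ≤ Fintype.card F) :
    ∑ x : F, x ^ (Fintype.card F - 2) * (1 - x) ^ j = (j : F) := by
  classical
  set q := Fintype.card F with hq
  have hq2 : 3 ≤ q := by omega
  have h1 : ∀ x : F, x ^ (q - 2) * (1 - x) ^ j =
      ∑ l ∈ range (j + 1), ((-1) ^ l * (j.choose l : F)) * x ^ (q - 2 + l) := by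
    intro x
    have : (1 - x) ^ j = ((-x) + 1) ^ j := by ring
    rw [this, add_pow, mul_sum]
    refine sum_congr rfl fun l _ => ?_
    rw [neg_pow, pow_add]; ring
  simp_rw [h1]
  rw [sum_comm]
  simp_rw [← mul_sum]
  have h2 : ∀ l ∈ range (j + 1), l ≠ 1 → ((-1) ^ l * (j.choose l : F)) *
      ∑ x : F, x ^ (q - 2 + l) = 0 := by
    intro l hl hl1
    rw [mem_range] at hl
    have : ∑ x : F, x ^ (q - 2 + l) = 0 := by
      rcases Nat.eq_zero_or_pos l with h0 | h0
      · subst h0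
        exact FiniteField.sum_pow_lt_card_sub_one F _ (by omega)
      · have h3 : ∀ x : F, x ^ (q - 2 + l) = x ^ (l - 1) := by
          intro x
          have h4 : q - 2 + l = (q - 1) + (l - 1) := by omega
          rw [h4, pow_add]
          by_cases hx : x = 0
          · subst hx
            have h5 : l - 1 ≠ 0 := by omega
            rw [zero_pow h5, mul_zero]
          · rw [FiniteField.pow_card_sub_one_eq_one x hx, one_mul]
        simp_rw [h3]
        exact FiniteField.sum_pow_lt_card_sub_one F _ (by omega)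
    rw [this, mul_zero]
  rw [sum_eq_single_of_mem 1 (mem_range.2 (by omega)) h2]
  have h3 : ∑ x : F, x ^ (q - 2 + 1) = -1 := by
    have h4 : ∀ x : F, x ^ (q - 2 + 1) = if x = 0 then 0 else 1 := by
      intro x
      have h5 : q - 2 + 1 = q - 1 := by omega
      rw [h5]
      by_cases hx : x = 0
      · subst hx
        rw [if_pos rfl, zero_pow (by omega)]
      · rw [if_neg hx, FiniteField.pow_card_sub_one_eq_one x hx]
    simp_rw [h4]
    rw [← sum_filter_add_sum_filter_not univ (fun x : F => x = 0)]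
    rw [sum_congr rfl (g := fun _ => (0 : F)) (fun x hx => by simp [(mem_filter.1 hx).2])]
    rw [sum_congr (s₁ := univ.filter fun x : F => ¬ x = 0) rfl (g := fun _ => (1 : F))
      (fun x hx => by simp [(mem_filter.1 hx).2])]
    rw [sum_const_zero, zero_add, sum_const, nsmul_eq_mul, mul_one]
    have h6 : (univ.filter fun x : F => ¬ x = 0).card = q - 1 := by
      have h7 : (univ.filter fun x : F => ¬ x = 0) = univ.erase 0 := by
        ext x; simp
      rw [h7, card_erase_of_mem (mem_univ _), card_univ]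
    rw [h6, Nat.cast_sub (by omega), hq, FiniteField.cast_card_eq_zero]
    simp
  rw [h3]
  simp

section val

variable {p f : ℕ} {F : Type} [Field F] [Fintype F] {𝕂 : Type} [Field 𝕂]
  {O : ValuationSubring 𝕂}

/-- the hypothesis that `ω` is a Teichmuller character for the embedding `ι` -/
def IsTeich (ι : F →+* IsLocalRing.ResidueField O) (ω : MulChar F 𝕂) : Prop :=
  ∀ x : F, ∃ h : ω x ∈ O, IsLocalRing.residue O ⟨ω x, h⟩ = ι x

variable {ι : F →+* IsLocalRing.ResidueField O} {ω : MulChar F 𝕂}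

theorem IsTeich.pow_eq_one (h : IsTeich ι ω) {k : ℕ} (hk : ω ^ k = 1) :
    Fintype.card F - 1 ∣ k := by
  rw [← FiniteField.forall_pow_eq_one_iff]
  intro x
  obtain ⟨hx, hx'⟩ := h (x : F)
  have h1 : (ω (x : F)) ^ k = 1 := by
    rw [← MulChar.pow_apply_coe, hk, MulChar.one_apply_coe]
  have h2 : (⟨ω x, hx⟩ : O) ^ k = 1 := Subtype.ext (by simpa using h1)
  have h3 := congrArg (IsLocalRing.residue O) h2
  rw [map_pow, hx', map_one, ← map_pow, ← map_one ι] at h3
  have h4 := ι.injective h3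
  ext
  simpa using h4

theorem mulChar_pow_card (χ : MulChar F 𝕂) : χ ^ (Fintype.card F - 1) = 1 := by
  ext x
  rw [MulChar.pow_apply_coe, MulChar.one_apply_coe, ← map_pow, ← Units.val_pow_eq_pow_val]
  have : x ^ (Fintype.card F - 1) = 1 := by
    classical
    have := pow_card_eq_one (x := x)
    rwa [Fintype.card_units] at this
  rw [this]; simp

/-- the Jacobi sum `J(ω⁻¹, ω^j)` reduces to `j` -/
theorem IsTeich.jacobi (h : IsTeich ι ω) {j : ℕ} (hj : 1 ≤ j)
    (hj' : j + 2 ≤ Fintype.card F) :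
    ∃ hJ : jacobiSum (ω ^ (Fintype.card F - 2)) (ω ^ j) ∈ O,
      IsLocalRing.residue O ⟨_, hJ⟩ = (j : IsLocalRing.ResidueField O) := by
  have hq : Fintype.card F - 2 ≠ 0 := by omega
  have h1 : jacobiSum (ω ^ (Fintype.card F - 2)) (ω ^ j) =
      ((∑ x : F, (⟨ω x, (h x).1⟩ : O) ^ (Fintype.card F - 2) *
        (⟨ω (1 - x), (h (1 - x)).1⟩ : O) ^ j : O) : 𝕂) := by
    rw [jacobiSum]
    push_cast
    refine sum_congr rfl fun x _ => ?_
    rw [MulChar.pow_apply' _ hq, MulChar.pow_apply' _ (by omega)]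
  refine ⟨h1 ▸ Subtype.coe_prop _, ?_⟩
  have h2 : (⟨_, h1 ▸ Subtype.coe_prop _⟩ : O) = ∑ x : F, (⟨ω x, (h x).1⟩ : O) ^
      (Fintype.card F - 2) * (⟨ω (1 - x), (h (1 - x)).1⟩ : O) ^ j := Subtype.ext h1
  rw [h2, map_sum]
  have h3 : ∀ x : F, IsLocalRing.residue O ((⟨ω x, (h x).1⟩ : O) ^
      (Fintype.card F - 2) * (⟨ω (1 - x), (h (1 - x)).1⟩ : O) ^ j) =
      ι (x ^ (Fintype.card F - 2) * (1 - x) ^ j) := by
    intro x
    rw [map_mul, map_pow, map_pow, (h x).2, (h (1 - x)).2, map_mul, map_pow, map_pow]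
  simp_rw [h3]
  rw [← map_sum, sum_inv_pow hj hj', map_natCast]

theorem residue_ne_zero_val {x : 𝕂} (hx : x ∈ O) (h : IsLocalRing.residue O ⟨x, hx⟩ ≠ 0) :
    O.valuation x = 1 := by
  have h1 : IsUnit (⟨x, hx⟩ : O) := by
    by_contra hcon
    exact h ((IsLocalRing.residue_eq_zero_iff _).2 ((IsLocalRing.mem_maximalIdeal _).2 hcon))
  exact (ValuationSubring.valuation_eq_one_iff O ⟨x, hx⟩).1 h1

theorem val_root_unity {x : 𝕂} {n : ℕ} (hn : n ≠ 0) (hx : x ^ n = 1) : O.valuation x = 1 := by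
  have h1 : O.valuation x ^ n = 1 := by rw [← map_pow, hx, map_one]
  rcases lt_trichotomy (O.valuation x) 1 with h | h | h
  · exact absurd h1 (pow_lt_one₀ zero_le h hn).ne
  · exact h
  · exact absurd h1 (one_lt_pow₀ h hn).ne'

theorem val_mulChar_neg_one (χ : MulChar F 𝕂) : O.valuation (χ (-1)) = 1 := by
  refine val_root_unity two_ne_zero ?_
  rw [← map_pow]; simp

/-- one step of the recursion for valuations of Gauss sums -/
theorem IsTeich.step (h : IsTeich ι ω) (hp : CharP (IsLocalRing.ResidueField O) p)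
    (hq : p ∣ Fintype.card F)
    (ψ : AddChar F 𝕂) {m : ℕ} (hm : 1 ≤ m) (hm' : m + 3 ≤ Fintype.card F)
    (hpm : ¬ p ∣ m + 1) :
    O.valuation (gaussSum (ω⁻¹ ^ (m + 1)) ψ) =
      O.valuation (gaussSum (ω⁻¹ ^ m) ψ) * O.valuation (gaussSum ω⁻¹ ψ) := by
  set q := Fintype.card F with hqq
  have hinv : ∀ k : ℕ, k ≤ q - 1 → ω⁻¹ ^ k = ω ^ (q - 1 - k) := by
    intro k hk
    have h1 : ω ^ (q - 1 - k) * ω ^ k = 1 := by
      rw [← pow_add, Nat.sub_add_cancel hk, mulChar_pow_card]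
    rw [inv_pow]
    exact (eq_inv_of_mul_eq_one_left h1).symm
  have h1 : ω⁻¹ = ω ^ (q - 2) := by
    have := hinv 1 (by omega)
    rw [pow_one] at this
    rw [this]; congr 1
  have h2 : ω⁻¹ ^ m = ω ^ (q - 1 - m) := hinv m (by omega)
  have h3 : ω⁻¹ * ω⁻¹ ^ m ≠ 1 := by
    rw [← pow_succ', hinv (m + 1) (by omega)]
    intro hcon
    have := h.pow_eq_one hcon
    rw [← hqq] at this
    have := Nat.le_of_dvd (by omega) this
    omega
  have h4 := jacobiSum_mul_nontrivial h3 ψ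
  obtain ⟨hJ, hJ'⟩ := h.jacobi (j := q - 1 - m) (by omega) (by omega)
  have h5 : O.valuation (jacobiSum (ω ^ (q - 2)) (ω ^ (q - 1 - m))) = 1 := by
    refine residue_ne_zero_val hJ ?_
    rw [hJ']
    intro hcon
    rw [CharP.cast_eq_zero_iff _ p] at hcon
    apply hpm
    have h6 : m + 1 = q - (q - 1 - m) := by omega
    rw [h6]
    exact Nat.dvd_sub hq hcon
  rw [← h1, ← h2] at h5
  have h6 := congrArg O.valuation h4
  rw [map_mul, map_mul, h5, mul_one, ← pow_succ'] at h6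
  rw [h6, mul_comm]

end val

/-! ### An additive character invariant under Frobenius -/

theorem exists_addChar {p : ℕ} (hp : p.Prime) {F : Type} [Field F] [Fintype F] (hF : CharP F p)
    (𝕂 : Type) [Field 𝕂] [CharZero 𝕂] [IsAlgClosed 𝕂] :
    ∃ ψ : AddChar F 𝕂, ψ ≠ 1 ∧ ∀ x, ψ (x ^ p) = ψ x := by
  have : Fact p.Prime := ⟨hp⟩
  let : Algebra (ZMod p) F := ZMod.algebra F p
  have : NeZero p := ⟨hp.ne_zero⟩
  have : NeZero (p : 𝕂) := ⟨by exact_mod_cast hp.ne_zero⟩
  obtain ⟨ζ, hζ⟩ := HasEnoughRootsOfUnity.exists_primitiveRoot 𝕂 p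
  let ψ0 : AddChar (ZMod p) 𝕂 := AddChar.zmodChar p hζ.pow_eq_one
  let ψ : AddChar F 𝕂 := ψ0.compAddMonoidHom (Algebra.trace (ZMod p) F).toAddMonoidHom
  have hψ : ∀ x, ψ x = ψ0 (Algebra.trace (ZMod p) F x) := fun x => rfl
  refine ⟨ψ, ?_, ?_⟩
  · intro h
    obtain ⟨x, hx⟩ := Algebra.trace_surjective (ZMod p) F 1
    have h1 : ψ x = 1 := by rw [h]; rfl
    rw [hψ, hx] at h1
    have h2 : ψ0 1 = ζ := by
      have := AddChar.zmodChar_apply' hζ.pow_eq_one 1
      simpa using this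
    rw [h2] at h1
    exact hζ.ne_one hp.one_lt h1
  · intro x
    rw [hψ, hψ]
    congr 1
    have : Finite F := inferInstance
    let e : F ≃ₐ[ZMod p] F := AlgEquiv.ofRingEquiv (f := frobeniusEquiv F p) (by
      intro r
      rw [frobeniusEquiv_apply, frobenius_def, ← map_pow, ZMod.pow_card])
    have := Algebra.trace_eq_of_algEquiv e x
    simpa [e, frobenius_def] using this

theorem gauss_frob {p : ℕ} (hp : p.Prime) {F : Type} [Field F] [Fintype F] (hF : CharP F p)
    {𝕂 : Type} [Field 𝕂] (χ : MulChar F 𝕂) (ψ : AddChar F 𝕂) (hψ : ∀ x, ψ (x ^ p) = ψ x) :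
    gaussSum (χ ^ p) ψ = gaussSum χ ψ := by
  have : Fact p.Prime := ⟨hp⟩
  unfold gaussSum
  rw [← Equiv.sum_comp (frobeniusEquiv F p).toEquiv (fun y => χ y * ψ y)]
  refine Finset.sum_congr rfl fun x _ => ?_
  simp [hψ, MulChar.pow_apply' χ hp.ne_zero, map_pow, frobenius_def]

end Pool.Agent.Helper16.Stick
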