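import Pool.Agent.Helper16.Stick2

set_option autoImplicit false

namespace Pool.Agent.Helper16.Stick

open Finset

section val2

variable {p f : ℕ} {F : Type} [Field F] [Fintype F] {𝕂 : Type} [Field 𝕂]
  {O : ValuationSubring 𝕂} {ι : F →+* IsLocalRing.ResidueField O} {ω : MulChar F 𝕂}

/-- recursion for the valuations -/
theorem IsTeich.horner (h : IsTeich ι ω) (hp : p.Prime)
    (hcp : CharP (IsLocalRing.ResidueField O) p) (hF : CharP F p)
    (hq : p ∣ Fintype.card F)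
    (ψ : AddChar F 𝕂) (hψ : ψ ≠ 1) (hψ' : ∀ x, ψ (x ^ p) = ψ x) (a : ℕ) :
    ∀ d : ℕ, d < p → p * a + d + 2 ≤ Fintype.card F →
      O.valuation (gaussSum (ω⁻¹ ^ (p * a + d)) ψ) =
        O.valuation (gaussSum (ω⁻¹ ^ a) ψ) * O.valuation (gaussSum ω⁻¹ ψ) ^ d := by
  intro d
  induction d with
  | zero =>
    intro _ _
    rw [pow_zero, mul_one, add_zero, mul_comm p a, pow_mul, gauss_frob hp hF _ ψ hψ']
  | succ d ih =>
    intro hd hle
    have h1 := ih (by omega) (by omega)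
    rw [pow_succ, ← mul_assoc, ← h1]
    rcases Nat.eq_zero_or_pos (p * a + d) with h0 | h0
    · have h2 : p * a + (d + 1) = 1 := by omega
      rw [h2, h0, pow_one, pow_zero, gaussSum_one_left hψ]
      simp
    · refine h.step hcp hq ψ (m := p * a + d) h0 (by omega) ?_
      intro hdvd
      have h3 : p * a + d + 1 = p * a + (d + 1) := by ring
      rw [h3, Nat.dvd_add_right (dvd_mul_right p a)] at hdvd
      have := Nat.le_of_dvd (by omega) hdvd
      omega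

theorem val_gauss_mul (χ : MulChar F 𝕂) (hχ : χ ≠ 1) (ψ : AddChar F 𝕂) (hψ : ψ ≠ 1) :
    O.valuation (gaussSum χ ψ) * O.valuation (gaussSum χ⁻¹ ψ) =
      O.valuation ((Fintype.card F : ℕ) : 𝕂) := by
  rw [← gaussSum_mul_gaussSum_eq_card hχ (AddChar.IsPrimitive.of_ne_one hψ), map_mul]
  congr 1
  rw [← mul_gaussSum_inv_eq_gaussSum χ⁻¹ ψ, map_mul, val_mulChar_neg_one, one_mul]

/-- `v(g(ω⁻¹))^(p-1) = v(p)` -/
theorem IsTeich.val_one (h : IsTeich ι ω) (hp : p.Prime)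
    (hcp : CharP (IsLocalRing.ResidueField O) p) (hF : CharP F p) (hf : f ≠ 0)
    (hq : Fintype.card F = p ^ f) (hq3 : 3 ≤ Fintype.card F)
    (ψ : AddChar F 𝕂) (hψ : ψ ≠ 1) (hψ' : ∀ x, ψ (x ^ p) = ψ x) :
    O.valuation (gaussSum ω⁻¹ ψ) ^ (p - 1) = O.valuation (p : 𝕂) := by
  have hpq : p ∣ Fintype.card F := by rw [hq]; exact dvd_pow_self p hf
  have hp2 := hp.two_le
  set V1 := O.valuation (gaussSum ω⁻¹ ψ) with hV1
  have h1 : ∀ i : ℕ, i < f → O.valuation (gaussSum (ω⁻¹ ^ (p ^ i - 1)) ψ) = V1 ^ (i * (p - 1)) := by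
    intro i
    induction i with
    | zero =>
      intro _
      simp [gaussSum_one_left hψ]
    | succ i ih =>
      intro hi
      have h2 := ih (by omega)
      have h3 : 1 ≤ p ^ i := Nat.one_le_pow _ _ hp.pos
      have h4 : p ^ (i + 1) - 1 = p * (p ^ i - 1) + (p - 1) := by
        rw [pow_succ', Nat.mul_sub, mul_one]
        have : p ≤ p * p ^ i := Nat.le_mul_of_pos_right _ (by omega)
        omega
      have h5 : p ^ (i + 1) < p ^ f := Nat.pow_lt_pow_right hp.one_lt hi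
      have h6 : p ^ (i + 1) + 1 ≤ Fintype.card F := by omega
      have h7 : p ≤ p ^ (i + 1) := Nat.le_self_pow (by omega) p
      rw [h4, h.horner hp hcp hF hpq ψ hψ hψ' _ _ (by omega) (by omega), h2, ← pow_add]
      congr 1; ring
  obtain ⟨e, rfl⟩ := Nat.exists_eq_succ_of_ne_zero hf
  rw [Nat.succ_eq_add_one] at *
  have h2 := h1 e (by omega)
  have h3 : 1 ≤ p ^ e := Nat.one_le_pow _ _ hp.pos
  have h4 : p ^ (e + 1) - 2 = p * (p ^ e - 1) + (p - 2) := by
    rw [pow_succ', Nat.mul_sub, mul_one]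
    have : p ≤ p * p ^ e := Nat.le_mul_of_pos_right _ (by omega)
    omega
  have h5 : 2 ≤ p ^ (e + 1) := hp2.trans (Nat.le_self_pow (by omega) p)
  have h6 : O.valuation (gaussSum (ω⁻¹ ^ (p ^ (e + 1) - 2)) ψ) = V1 ^ (e * (p - 1) + (p - 2)) := by
    rw [h4, h.horner hp hcp hF hpq ψ hψ hψ' _ _ (by omega) (by omega), h2, ← pow_add]
  have h7 : (ω⁻¹ ^ (p ^ (e + 1) - 2)) = (ω⁻¹)⁻¹ := by
    rw [eq_inv_iff_mul_eq_one, ← pow_succ]
    have := mulChar_pow_card ω⁻¹
    rw [hq] at this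
    have h8 : p ^ (e + 1) - 2 + 1 = p ^ (e + 1) - 1 := by omega
    rw [h8, this]
  have hω : ω⁻¹ ≠ 1 := by
    intro hcon
    have h8 : ω ^ 1 = 1 := by rw [pow_one]; exact inv_eq_one.1 hcon
    have h9 := h.pow_eq_one h8
    have := Nat.le_of_dvd one_pos h9
    omega
  have h8 := val_gauss_mul (O := O) ω⁻¹ hω ψ hψ
  rw [← h7, h6, ← hV1, hq, ← pow_succ'] at h8
  have h9 : e * (p - 1) + (p - 2) + 1 = (p - 1) * (e + 1) := by
    have : p - 2 + 1 = p - 1 := by omega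
    rw [add_assoc, this]; ring
  rw [h9, pow_mul, Nat.cast_pow, map_pow] at h8
  exact (pow_left_inj₀ zero_le zero_le (by omega)).1 h8

/-- valuation of the Gauss sums of the characters of order dividing 67 -/
theorem IsTeich.val67 (h : IsTeich ι ω) (hp : p.Prime)
    (hcp : CharP (IsLocalRing.ResidueField O) p) (hF : CharP F p) (hf : f ≠ 0)
    (hq : Fintype.card F = p ^ f) (hq3 : 3 ≤ Fintype.card F)
    (ψ : AddChar F 𝕂) (hψ : ψ ≠ 1) (hψ' : ∀ x, ψ (x ^ p) = ψ x)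
    {M : ℕ} (hM : p ^ f = 67 * M + 1) {c : ℕ} (hc : c < 67) :
    O.valuation (gaussSum ((ω⁻¹ ^ M) ^ c) ψ) ^ 67 =
      O.valuation (p : 𝕂) ^ (∑ j ∈ range f, (p ^ j * c) % 67) := by
  have hpq : p ∣ Fintype.card F := by rw [hq]; exact dvd_pow_self p hf
  set V1 := O.valuation (gaussSum ω⁻¹ ψ) with hV1
  have hV := h.val_one hp hcp hF hf hq hq3 ψ hψ hψ'
  have hM0 : 1 ≤ M := by
    have : 3 ≤ 67 * M + 1 := by rw [← hM, ← hq]; exact hq3
    omega
  have hAf : p ^ f * c / 67 = M * c := by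
    rw [hM]
    have : (67 * M + 1) * c = c + 67 * (M * c) := by ring
    rw [this, Nat.add_mul_div_left _ _ (by norm_num), Nat.div_eq_of_lt hc, zero_add]
  have hMc : M * c ≤ M * 66 := Nat.mul_le_mul_left _ (by omega)
  have key : ∀ i : ℕ, i ≤ f → O.valuation (gaussSum (ω⁻¹ ^ (p ^ i * c / 67)) ψ) =
      V1 ^ (∑ j ∈ range i, (p * ((p ^ j * c) % 67)) / 67) := by
    intro i
    induction i with
    | zero =>
      intro _
      rw [pow_zero, one_mul, Nat.div_eq_of_lt hc, pow_zero, gaussSum_one_left hψ]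
      simp
    | succ i ih =>
      intro hi
      have h2 := ih (by omega)
      have h4 : p ^ (i + 1) * c / 67 = p * (p ^ i * c / 67) + (p * ((p ^ i * c) % 67)) / 67 := by
        have h5 := Nat.div_add_mod (p ^ i * c) 67
        have h6 : p ^ (i + 1) * c = 67 * (p * (p ^ i * c / 67)) + p * ((p ^ i * c) % 67) := by
          calc p ^ (i + 1) * c = p * (p ^ i * c) := by ring
            _ = p * (67 * (p ^ i * c / 67) + p ^ i * c % 67) := by rw [h5]
            _ = _ := by ring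
        rw [h6, add_comm, Nat.add_mul_div_left _ _ (by norm_num), add_comm]
      have h5 : p * ((p ^ i * c) % 67) / 67 < p := by
        rw [Nat.div_lt_iff_lt_mul (by norm_num)]
        exact Nat.mul_lt_mul_of_pos_left (Nat.mod_lt _ (by norm_num)) hp.pos
      have h6 : p ^ (i + 1) * c / 67 ≤ p ^ f * c / 67 :=
        Nat.div_le_div_right (Nat.mul_le_mul_right _ (Nat.pow_le_pow_right hp.pos hi))
      have h7 : p ^ (i + 1) * c / 67 + 2 ≤ Fintype.card F := by
        rw [hq, hM]; omega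
      rw [sum_range_succ, pow_add V1, ← h2, h4]
      exact h.horner hp hcp hF hpq ψ hψ hψ' _ _ h5 (by rw [← h4]; exact h7)
  have h1 := key f le_rfl
  rw [hAf, pow_mul] at h1
  rw [h1, ← pow_mul, ← hV, ← pow_mul]
  congr 1
  -- 67 * sum of digits
  have h2 : ∀ j, (p ^ (j + 1) * c) % 67 = (p * ((p ^ j * c) % 67)) % 67 := by
    intro j
    have : p ^ (j + 1) * c = p * (p ^ j * c) := by ring
    rw [this]
    simp [Nat.mul_mod]
  have h3 : ∀ j, 67 * ((p * ((p ^ j * c) % 67)) / 67) + (p ^ (j + 1) * c) % 67 =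
      p * ((p ^ j * c) % 67) := by
    intro j
    rw [h2]; exact Nat.div_add_mod _ _
  have h4 : 67 * (∑ j ∈ range f, (p * ((p ^ j * c) % 67)) / 67) +
      ∑ j ∈ range f, (p ^ (j + 1) * c) % 67 = p * ∑ j ∈ range f, (p ^ j * c) % 67 := by
    rw [mul_sum, mul_sum, ← sum_add_distrib]
    exact sum_congr rfl fun j _ => h3 j
  have h5 : ∑ j ∈ range f, (p ^ (j + 1) * c) % 67 = ∑ j ∈ range f, (p ^ j * c) % 67 := by
    have h6 := sum_range_succ (fun j => (p ^ j * c) % 67) f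
    have h7 := sum_range_succ' (fun j => (p ^ j * c) % 67) f
    have h8 : (p ^ f * c) % 67 = (p ^ 0 * c) % 67 := by
      rw [hM, pow_zero]
      have : (67 * M + 1) * c = 1 * c + 67 * (M * c) := by ring
      rw [this, Nat.add_mul_mod_self_left]
    have h9 := h6.symm.trans h7
    simp only [h8] at h9
    exact (Nat.add_right_cancel h9).symm
  rw [h5] at h4
  obtain ⟨p', rfl⟩ : ∃ p', p = p' + 1 := ⟨p - 1, by have := hp.pos; omega⟩
  simp only [Nat.add_sub_cancel]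
  rw [add_mul, one_mul] at h4
  have := Nat.add_right_cancel h4
  rw [mul_comm, this]

end val2

/-- the sum of residues -/
def T (P c : ℕ) : ℕ := ∑ j ∈ range 33, (P ^ j * c) % 67

/-- the condition to be checked -/
def Q (P n : ℕ) : Bool :=
  (T P (n % 67) + T P ((n * 29) % 67) == T P ((n * 30) % 67) + 15 * 67 &&
    T P ((n * 66) % 67) + T P ((n * 66 * 29) % 67) == T P ((n * 66 * 30) % 67) + 18 * 67) ||
  (T P (n % 67) + T P ((n * 29) % 67) == T P ((n * 30) % 67) + 18 * 67 &&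
    T P ((n * 66) % 67) + T P ((n * 66 * 29) % 67) == T P ((n * 66 * 30) % 67) + 15 * 67)

/-- the finite check -/
theorem finite_check : ∀ P < 67, P ^ 33 % 67 = 1 → P ^ 3 % 67 ≠ 1 → ∀ n < 67, 0 < n →
    Q P n = true := by
  decide +kernel

theorem T_mod (p c : ℕ) : T (p % 67) c = T p c := by
  unfold T
  refine sum_congr rfl fun j _ => ?_
  simp [Nat.mul_mod, Nat.pow_mod]

theorem exists_pow {F : Type} [Field F] [Fintype F] {𝕂 : Type} [Field 𝕂]
    {O : ValuationSubring 𝕂} {ι : F →+* IsLocalRing.ResidueField O} {ω : MulChar F 𝕂}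
    (h : IsTeich ι ω) (χ : MulChar F 𝕂) : ∃ k : ℕ, χ = ω⁻¹ ^ k := by
  classical
  obtain ⟨g, hg⟩ := IsCyclic.exists_generator (α := Fˣ)
  have hq1 : 1 < Fintype.card F := Fintype.one_lt_card
  have h1 : IsPrimitiveRoot (ω⁻¹ (g : F)) (Fintype.card F - 1) := by
    constructor
    · rw [← MulChar.pow_apply_coe, mulChar_pow_card, MulChar.one_apply_coe]
    · intro l hl
      rw [← MulChar.pow_apply_coe] at hl
      have h2 : ω⁻¹ ^ l = 1 := by
        rw [MulChar.eq_iff hg, hl, MulChar.one_apply_coe]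
      apply h.pow_eq_one
      rw [inv_pow] at h2
      exact inv_eq_one.1 h2
  have : NeZero (Fintype.card F - 1) := ⟨by omega⟩
  have h2 : (χ (g : F)) ^ (Fintype.card F - 1) = 1 := by
    rw [← MulChar.pow_apply_coe, mulChar_pow_card, MulChar.one_apply_coe]
  obtain ⟨k, -, hk⟩ := h1.eq_pow_of_pow_eq_one h2
  refine ⟨k, ?_⟩
  rw [MulChar.eq_iff hg, MulChar.pow_apply_coe, hk]

end Pool.Agent.Helper16.Stick

namespace Pool.Agent.Helper16

open Finset Stick

theorem stickelberger67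
    {p : ℕ} (hp : p.Prime) (h33 : (p : ZMod 67) ^ 33 = 1) (h3 : (p : ZMod 67) ^ 3 ≠ 1)
    {F : Type} [Field F] [Fintype F] (hF : Fintype.card F = p ^ 33)
    {𝕂 : Type} [Field 𝕂] [CharZero 𝕂] [IsAlgClosed 𝕂] (O : ValuationSubring 𝕂)
    (hO : (p : 𝕂) ∈ O.nonunits)
    (χ : MulChar F 𝕂) (hχ : orderOf χ = 67) :
    (O.valuation (jacobiSum χ (χ ^ 29)) = O.valuation (p : 𝕂) ^ 15 ∧
      O.valuation (jacobiSum χ⁻¹ (χ⁻¹ ^ 29)) = O.valuation (p : 𝕂) ^ 18) ∨
    (O.valuation (jacobiSum χ (χ ^ 29)) = O.valuation (p : 𝕂) ^ 18 ∧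
      O.valuation (jacobiSum χ⁻¹ (χ⁻¹ ^ 29)) = O.valuation (p : 𝕂) ^ 15) := by
  have hf : (33 : ℕ) ≠ 0 := by norm_num
  have : Fact p.Prime := ⟨hp⟩
  have hcp := charP_res hp O hO
  have hFp : CharP F p := by
    rw [CharP.charP_iff_prime_eq_zero hp]
    have h : ((Fintype.card F : ℕ) : F) = 0 := FiniteField.cast_card_eq_zero F
    rw [hF, Nat.cast_pow] at h
    exact eq_zero_of_pow_eq_zero h
  obtain ⟨ι, ω, hT⟩ := exists_teich hp hf hF O hO
  have h : IsTeich ι ω := hT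
  obtain ⟨ψ, hψ, hψ'⟩ := exists_addChar hp hFp 𝕂
  have hq3 : 3 ≤ Fintype.card F := by
    rw [hF]
    calc 3 ≤ 2 ^ 33 := by norm_num
      _ ≤ p ^ 33 := Nat.pow_le_pow_left hp.two_le 33
  -- arithmetic of p mod 67
  have hP : p ^ 33 % 67 = 1 := by
    have h1 : ((p ^ 33 : ℕ) : ZMod 67) = ((1 : ℕ) : ZMod 67) := by
      rw [Nat.cast_pow, h33, Nat.cast_one]
    have h2 := (ZMod.natCast_eq_natCast_iff' _ _ _).1 h1
    simpa using h2
  have hP3 : p ^ 3 % 67 ≠ 1 := by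
    intro h1
    apply h3
    have h2 : ((p ^ 3 : ℕ) : ZMod 67) = ((1 : ℕ) : ZMod 67) := by
      rw [ZMod.natCast_eq_natCast_iff']
      simpa using h1
    simpa using h2
  obtain ⟨M, hM⟩ : ∃ M, p ^ 33 = 67 * M + 1 := ⟨p ^ 33 / 67, by omega⟩
  set χ0 : MulChar F 𝕂 := ω⁻¹ ^ M with hχ0
  have hχ067 : χ0 ^ 67 = 1 := by
    rw [hχ0, ← pow_mul, mul_comm]
    have h1 := mulChar_pow_card ω⁻¹
    rwa [hF, hM, Nat.add_sub_cancel] at h1
  have hmod : ∀ c : ℕ, χ0 ^ c = χ0 ^ (c % 67) := by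
    intro c
    conv_lhs => rw [← Nat.div_add_mod c 67, pow_add, pow_mul, hχ067, one_pow, one_mul]
  -- valuations of Gauss sums
  have hW : ∀ c : ℕ, O.valuation (gaussSum (χ0 ^ c) ψ) ^ 67 =
      O.valuation (p : 𝕂) ^ T (p % 67) (c % 67) := by
    intro c
    rw [hmod c, T_mod]
    exact h.val67 hp hcp hFp hf hF hq3 ψ hψ hψ' hM (Nat.mod_lt _ (by norm_num))
  -- `χ` is a power of `χ0`
  obtain ⟨k, hk⟩ := exists_pow h χ
  have hM0 : 0 < M := by
    have : 3 ≤ 67 * M + 1 := by rw [← hM, ← hF]; exact hq3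
    omega
  obtain ⟨n, hn⟩ : ∃ n : ℕ, χ = χ0 ^ n := by
    have h1 : ω⁻¹ ^ (k * 67) = 1 := by
      rw [pow_mul, ← hk, ← hχ]; exact pow_orderOf_eq_one χ
    have h2 : Fintype.card F - 1 ∣ k * 67 := by
      apply h.pow_eq_one
      rw [inv_pow] at h1
      exact inv_eq_one.1 h1
    rw [hF, hM, Nat.add_sub_cancel, mul_comm k 67] at h2
    obtain ⟨n, rfl⟩ := Nat.dvd_of_mul_dvd_mul_left (by norm_num) h2
    exact ⟨n, by rw [hk, hχ0, ← pow_mul]⟩
  have hn0 : 0 < n % 67 := by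
    rw [Nat.pos_iff_ne_zero]
    intro h0
    rw [hmod, h0, pow_zero] at hn
    rw [hn, orderOf_one] at hχ
    norm_num at hχ
  have hn67 : n % 67 < 67 := Nat.mod_lt _ (by norm_num)
  -- the general evaluation
  have hp0 : O.valuation (p : 𝕂) ≠ 0 := by
    rw [Valuation.ne_zero_iff]
    exact_mod_cast hp.ne_zero
  have hgen : ∀ m e : ℕ, (m * 30) % 67 ≠ 0 →
      T (p % 67) (m % 67) + T (p % 67) ((m * 29) % 67) =
        T (p % 67) ((m * 30) % 67) + e * 67 →
      O.valuation (jacobiSum (χ0 ^ m) ((χ0 ^ m) ^ 29)) = O.valuation (p : 𝕂) ^ e := by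
    intro m e hm he
    have h1 : χ0 ^ m * (χ0 ^ m) ^ 29 = χ0 ^ (m * 30) := by
      rw [pow_mul χ0 m 30]; exact (pow_succ' (χ0 ^ m) 29).symm
    have h2 : χ0 ^ m * (χ0 ^ m) ^ 29 ≠ 1 := by
      rw [h1]
      intro hcon
      rw [hχ0, ← pow_mul, inv_pow] at hcon
      have h3 := h.pow_eq_one (inv_eq_one.1 hcon)
      rw [hF, hM, Nat.add_sub_cancel, mul_comm 67 M] at h3
      have h4 := Nat.dvd_of_mul_dvd_mul_left hM0 h3
      omega
    have h3 := congrArg O.valuation (jacobiSum_mul_nontrivial h2 ψ)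
    rw [map_mul, map_mul, h1, ← pow_mul χ0 m 29] at h3
    have h4 := congrArg (· ^ 67) h3
    simp only [mul_pow] at h4
    rw [hW, hW, hW, ← pow_add, he, pow_add] at h4
    have h5 := mul_left_cancel₀ (pow_ne_zero _ hp0) h4
    rw [pow_mul χ0 m 29, pow_mul (O.valuation (p : 𝕂)) e 67] at h5
    exact (pow_left_inj₀ zero_le zero_le (by norm_num)).1 h5
  have hinv : χ⁻¹ = χ0 ^ (n * 66) := by
    rw [inv_eq_iff_mul_eq_one, hn, ← pow_add]
    have : n + n * 66 = 67 * n := by ring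
    rw [this, pow_mul, hχ067, one_pow]
  have hfc := finite_check (p % 67) (Nat.mod_lt _ (by norm_num))
    (by rw [← Nat.pow_mod]; exact hP) (by rw [← Nat.pow_mod]; exact hP3) (n % 67) hn67 hn0
  simp only [Q, Bool.or_eq_true, Bool.and_eq_true, beq_iff_eq] at hfc
  have e1 : n % 67 % 67 = n % 67 := Nat.mod_mod _ _
  have e2 : n % 67 * 29 % 67 = n * 29 % 67 := by omega
  have e3 : n % 67 * 30 % 67 = n * 30 % 67 := by omega
  have e4 : n % 67 * 66 % 67 = n * 66 % 67 := by omega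
  have e5 : n % 67 * 66 * 29 % 67 = n * 66 * 29 % 67 := by omega
  have e6 : n % 67 * 66 * 30 % 67 = n * 66 * 30 % 67 := by omega
  rw [e1, e2, e3, e4, e5, e6] at hfc
  rw [hinv, hn]
  rcases hfc with ⟨ha, hb⟩ | ⟨ha, hb⟩
  · exact Or.inl ⟨hgen n 15 (by omega) ha, hgen (n * 66) 18 (by omega) hb⟩
  · exact Or.inr ⟨hgen n 18 (by omega) ha, hgen (n * 66) 15 (by omega) hb⟩

end Pool.Agent.Helper16
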