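import Pool.Agent.Helper12.Defs2

/-!
Packet 11 of helper12's plan for MP_ecbc8a_al, auxiliary statements.
-/

set_option autoImplicit false

open scoped commutatorElement Pointwise

namespace Pool.Agent.Helper12.TwoLen

/-- A solvable group is not generated by its derived subgroup and a proper normal subgroup. -/
theorem sup_commutator_ne {G : Type*} [Group G] {Q R : Subgroup G} [Group.IsSolvable Q]
    (hR : R ≤ Q) (hn : Nrm Q R) (hne : R ≠ Q) : R ⊔ ⁅Q, Q⁆ ≠ Q := by
  intro e
  have hN : (R.subgroupOf Q).Normal := subgroupOf_normal hn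
  set q : Q →* Q ⧸ R.subgroupOf Q := QuotientGroup.mk' (R.subgroupOf Q) with hq
  have hsurj : Function.Surjective q := QuotientGroup.mk'_surjective _
  have hsol : Group.IsSolvable (Q ⧸ R.subgroupOf Q) := Group.isSolvable_of_surjective hsurj
  have hnt : Nontrivial (Q ⧸ R.subgroupOf Q) := by
    rw [QuotientGroup.nontrivial_iff]
    intro h
    exact hne (le_antisymm hR (Subgroup.subgroupOf_eq_top.1 h))
  have h1 := Group.IsSolvable.commutator_lt_top_of_nontrivial (Q ⧸ R.subgroupOf Q)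
  apply h1.ne
  rw [eq_top_iff]
  intro y _
  obtain ⟨x, rfl⟩ := hsurj y
  have hx : (x : G) ∈ R ⊔ ⁅Q, Q⁆ := by rw [e]; exact x.2
  have hn' : Nrm ⁅Q, Q⁆ R := hn.mono (by
    rw [Subgroup.commutator_le]
    intro a ha b hb
    exact Q.mul_mem (Q.mul_mem (Q.mul_mem ha hb) (Q.inv_mem ha)) (Q.inv_mem hb))
  obtain ⟨r, hr, c, hc, hrc⟩ := (mem_sup_nrm hn').1 hx
  have hc' : c ∈ (_root_.commutator Q).map Q.subtype := by
    rw [Subgroup.map_subtype_commutator]; exact hc
  obtain ⟨c', hc'1, rfl⟩ := hc'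
  have hx2 : x = ⟨r, hR hr⟩ * c' := by ext; exact hrc
  have hqr : q ⟨r, hR hr⟩ = 1 := by
    rw [hq, QuotientGroup.mk'_apply, QuotientGroup.eq_one_iff, Subgroup.mem_subgroupOf]
    exact hr
  rw [hx2, map_mul, hqr, one_mul]
  have : (_root_.commutator Q).map q ≤ _root_.commutator (Q ⧸ R.subgroupOf Q) := by
    rw [commutator_def, commutator_def, Subgroup.map_commutator]
    exact Subgroup.commutator_mono le_top le_top
  exact this ⟨c', hc'1, rfl⟩

/-- Transfer: a central element of an abelian odd normal subgroup with 2-quotient is trivial if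
the group is generated by 2-elements. -/
theorem central_transfer {X : Type*} [Group X] [Finite X] {H : Subgroup X}
    (hcomm : ∀ x ∈ H, ∀ y ∈ H, x * y = y * x) (hO : IsO H) (hn : Nrm ⊤ H) (h2 : Is2M H ⊤)
    (htau : tau (⊤ : Subgroup X) = ⊤) {v : X} (hv : v ∈ H) (hc : ∀ x : X, x * v = v * x) :
    v = 1 := by
  let cg : CommGroup H :=
    { (inferInstance : Group H) with
      mul_comm := fun a b => Subtype.ext (hcomm a a.2 b b.2) }
  let τ : X →* H := @MonoidHom.transfer X _ H H cg (MonoidHom.id H) inferInstance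
  have hτ : ∀ x : X, τ x = 1 := by
    intro x
    have hx : x ∈ tau (⊤ : Subgroup X) := by rw [htau]; trivial
    have : tau (⊤ : Subgroup X) ≤ τ.ker := by
      rw [tau, Subgroup.closure_le]
      rintro y ⟨_, hy⟩
      have h3 : E2 ((τ y : H) : X) := (hy.map τ).map H.subtype
      have h4 : EO ((τ y : H) : X) := hO _ (τ y).2
      exact Subtype.ext (eq_one_of_E2_EO h3 h4)
    exact this hx
  obtain ⟨k, hk⟩ := relIndex_eq_two_pow (D := H) (R := H) (P := ⊤) le_rfl hn h2
  rw [Subgroup.relIndex_top_right] at hk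
  have h5 : τ v = (⟨v ^ H.index, by rw [hk]; exact H.pow_mem hv _⟩ : H) := by
    have := @MonoidHom.transfer_eq_pow X _ H H cg (MonoidHom.id H) inferInstance v (by
      intro k g₀ _
      have : Commute v g₀ := (hc g₀).symm
      have h6 : v ^ k * g₀ = g₀ * v ^ k := (this.pow_left k)
      rw [mul_assoc, h6]; group)
    exact this
  rw [hτ] at h5
  have h6 : v ^ H.index = 1 := (congrArg Subtype.val h5).symm
  rw [hk] at h6
  exact eq_one_of_E2_EO ⟨k, h6⟩ (hO v hv)

/-- The same for a section. -/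
theorem central_transfer_sec {G : Type*} [Group G] [Finite G] {R Q D : Subgroup G}
    (hQR : Q ≤ R) (hDQ : D ≤ Q) (hRD : Nrm R D) (hRQ : Nrm R Q) (hab : ⁅Q, Q⁆ ≤ D)
    (hodd : ∀ x ∈ Q, ∃ m : ℕ, Odd m ∧ x ^ m ∈ D) (h2 : Is2M Q R) (htau : tau R = R)
    {v : G} (hv : v ∈ Q) (hc : ∀ x ∈ R, x * v * x⁻¹ * v⁻¹ ∈ D) : v ∈ D := by
  have hN : (D.subgroupOf R).Normal := subgroupOf_normal hRD
  set q : R →* R ⧸ D.subgroupOf R := QuotientGroup.mk' (D.subgroupOf R) with hq
  have hsurj : Function.Surjective q := QuotientGroup.mk'_surjective _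
  have hDker : ∀ (x : R), q x = 1 ↔ (x : G) ∈ D := by
    intro x
    rw [hq, QuotientGroup.mk'_apply, QuotientGroup.eq_one_iff, Subgroup.mem_subgroupOf]
  have key : q ⟨v, hQR hv⟩ = 1 := by
    apply central_transfer (H := (Q.subgroupOf R).map q)
    · rintro _ ⟨x, hx, rfl⟩ _ ⟨y, hy, rfl⟩
      have : q (x * y * x⁻¹ * y⁻¹) = 1 := by
        rw [hDker]
        exact hab (Subgroup.commutator_mem_commutator hx hy)
      rw [map_mul, map_mul, map_mul, map_inv, map_inv] at this
      exact (mul_inv_eq_one.1 (by rw [mul_inv_rev, ← mul_assoc]; exact this))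
    · rintro _ ⟨x, hx, rfl⟩
      obtain ⟨m, hm, hx⟩ := hodd x hx
      refine ⟨m, hm, ?_⟩
      rw [← map_pow, hDker]
      simpa using hx
    · rintro y - _ ⟨x, hx, rfl⟩
      obtain ⟨z, rfl⟩ := hsurj y
      exact ⟨z * x * z⁻¹, hRQ z z.2 x hx, by simp⟩
    · rintro y -
      obtain ⟨z, rfl⟩ := hsurj y
      obtain ⟨k, hk⟩ := h2 z z.2
      exact ⟨k, z ^ (2 ^ k : ℕ), hk, by simp⟩
    · have h3 : tau (⊤ : Subgroup R) = ⊤ := by
        apply Subgroup.map_injective (Subgroup.subtype_injective R)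
        rw [map_tau_of_injective _ (Subgroup.subtype_injective R), ← MonoidHom.range_eq_map,
          Subgroup.range_subtype, htau]
      rw [← MonoidHom.range_eq_top.2 hsurj, MonoidHom.range_eq_map, ← map_tau Tor.of_finite, h3]
    · exact ⟨⟨v, hQR hv⟩, hv, rfl⟩
    · intro y
      obtain ⟨z, rfl⟩ := hsurj y
      have : q (z * ⟨v, hQR hv⟩ * z⁻¹ * (⟨v, hQR hv⟩ : R)⁻¹) = 1 := by
        rw [hDker]
        exact hc z z.2
      rw [map_mul, map_mul, map_mul, map_inv, map_inv] at this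
      exact (mul_inv_eq_one.1 (by rw [mul_inv_rev, ← mul_assoc]; exact this))
  exact (hDker _).1 key

end Pool.Agent.Helper12.TwoLen
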