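import Pool.Agent.Helper16.ThmF1

/-!
Packet 11 of helper12's plan for MP_ecbc8a_al: the fixed points of `A` in the section.
-/

set_option autoImplicit false

open scoped commutatorElement Pointwise

namespace Pool.Agent.Helper12.TwoLen

/-- Step (4): the fixed points of `A` on the section `Q / D` are trivial. -/
theorem fixed_sec {G : Type} [Group G] [Finite G] {A R Q D : Subgroup G}
    (hA : Is2 A) (hAR : Nrm A R) (hg : Good A R)
    (hQR : Q ≤ R) (hDQ : D ≤ Q) (hD : Nrm ⊤ D) (hQ : Nrm ⊤ Q) (hab : ⁅Q, Q⁆ ≤ D)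
    (hodd : ∀ x ∈ Q, ∃ m : ℕ, Odd m ∧ x ^ m ∈ D) (h2 : Is2M Q R) (htau : tau R = R)
    {v : G} (hv : v ∈ Q) (hc : ∀ a ∈ A, a * v * a⁻¹ * v⁻¹ ∈ D) : v ∈ D := by
  have hRD : Nrm R D := hD.mono le_top
  have hRQ : Nrm R Q := hQ.mono le_top
  obtain ⟨S, hSR, hS2, hAS, hSo⟩ := exists_inv_sylow hA hAR
  have hRS : Q ⊔ S = R := sup_eq_of_odd_relIndex hSR hQR hRQ h2 hSo
  have hgm : GoodMod A R D := hg.mod hA hRD
  have hvR : v ∈ R := hQR hv
  set T : Subgroup G := D ⊔ S with hT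
  have hDT : D ≤ T := le_sup_left
  have hTR : T ≤ R := sup_le (hDQ.trans hQR) hSR
  have hT2 : Is2M D T := Is2M.refl.sup_of_nrm hS2.is2M le_rfl (hD.mono le_top)
  have hAT : Nrm A T := (hD.mono le_top).sup_right hAS
  have key := hgm T (cK v T) hDT ?_ hTR ?_ hT2 ?_ hAT ?_
  · -- conclusion
    have hcomm : ∀ t ∈ T, t * v * t⁻¹ * v⁻¹ ∈ D := by
      intro t ht
      have h1 : t * v * t⁻¹ * v⁻¹ ∈ T ⊔ cK v T := by
        have h3 : v * t⁻¹ * v⁻¹ ∈ cK v T := by
          rw [mem_cK]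
          have : v⁻¹ * (v * t⁻¹ * v⁻¹) * v = t⁻¹ := by group
          rw [this]; exact T.inv_mem ht
        have : t * v * t⁻¹ * v⁻¹ = t * (v * t⁻¹ * v⁻¹) := by group
        rw [this]
        exact Subgroup.mul_mem_sup ht h3
      have h2 : t * v * t⁻¹ * v⁻¹ ∈ Q := Q.mul_mem (hQ t trivial v hv) (Q.inv_mem hv)
      obtain ⟨k, hk⟩ := key _ h1
      obtain ⟨m, hm, hm'⟩ := hodd _ h2
      exact mem_of_pow_mem hk hm hm'
    refine central_transfer_sec hQR hDQ hRD hRQ hab hodd h2 htau hv ?_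
    have hle : R ≤ fixer R D v hRD := by
      conv_lhs => rw [← hRS]
      refine sup_le ?_ ?_
      · intro x hx
        exact ⟨hQR hx, hab (Subgroup.commutator_mem_commutator hx hv)⟩
      · intro x hx
        exact ⟨hSR hx, hcomm x (Subgroup.mem_sup_right hx)⟩
    exact fun x hx => (hle hx).2
  · intro x hx
    rw [mem_cK]
    have := hD v⁻¹ trivial x hx
    simp only [inv_inv] at this
    exact hDT this
  · exact cK_le (Nrm.self R) hTR hvR
  · intro x hx
    rw [mem_cK] at hx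
    obtain ⟨k, hk⟩ := hT2 _ hx
    refine ⟨k, ?_⟩
    have e : (v⁻¹ * x * v) ^ (2 ^ k : ℕ) = v⁻¹ * x ^ (2 ^ k : ℕ) * v := by
      have := conj_pow (i := 2 ^ k) (a := v⁻¹) (b := x)
      simpa using this
    rw [e] at hk
    have := hD v trivial _ hk
    simpa [mul_assoc] using this
  · intro a ha x hx
    rw [mem_cK] at hx ⊢
    have hc1 : v⁻¹ * (a * v * a⁻¹ * v⁻¹) * v ∈ D := by
      have := hD v⁻¹ trivial _ (hc a ha)
      simpa using this
    set c := v⁻¹ * (a * v * a⁻¹ * v⁻¹) * v with hcdef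
    have hcT : c ∈ T := hDT hc1
    have h1 := hAT a ha _ hx
    have e : v⁻¹ * (a * x * a⁻¹) * v = c * (a * (v⁻¹ * x * v) * a⁻¹) * c⁻¹ := by
      rw [hcdef]; group
    rw [e]
    exact T.mul_mem (T.mul_mem hcT h1) (T.inv_mem hcT)

end Pool.Agent.Helper12.TwoLen
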